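import Pool.Agent.P.MP_f57657_co.SX.Defs

/-! The asymptotic estimate. -/

namespace Pool.Agent.P.MP_f57657_co.SX

namespace Asym

theorem exp_le_three_pow (k : ℕ) : Real.exp k ≤ 3 ^ k := by
  have h : Real.exp 1 ≤ 3 := by have := Real.exp_one_lt_d9; linarith
  calc Real.exp k = Real.exp 1 ^ k := by rw [← Real.exp_nat_mul]; simp
    _ ≤ 3 ^ k := pow_le_pow_left₀ (Real.exp_pos 1).le h k

theorem one_le_log {n : ℕ} (hn : 3 ≤ n) : 1 ≤ Real.log n := by
  have h3 : (3 : ℝ) ≤ n := by exact_mod_cast hn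
  rw [Real.le_log_iff_exp_le (by linarith)]
  have := exp_le_three_pow 1
  simp only [Nat.cast_one, pow_one] at this
  linarith

theorem natlog_le {n : ℕ} (hn : 3 ≤ n) : ((Nat.log 2 n + 1 : ℕ) : ℝ) ≤ 3 * Real.log n := by
  have h1 := one_le_log hn
  have h2 : 2 ^ Nat.log 2 n ≤ n := Nat.pow_log_le_self 2 (by omega)
  have h3 : ((2 : ℝ)) ^ Nat.log 2 n ≤ n := by exact_mod_cast h2
  have h4 : Real.log ((2 : ℝ) ^ Nat.log 2 n) ≤ Real.log n :=
    Real.log_le_log (by positivity) h3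
  rw [Real.log_pow] at h4
  have h5 := Real.log_two_gt_d9
  have h6 : (0 : ℝ) ≤ (Nat.log 2 n : ℝ) := by positivity
  push_cast
  nlinarith

theorem log_le_half {y : ℝ} (hy : 0 < y) : Real.log y ≤ y / 2 := by
  have h1 : Real.log (y / 2) ≤ y / 2 - 1 := Real.log_le_sub_one_of_pos (by positivity)
  rw [Real.log_div hy.ne' (by norm_num)] at h1
  have := Real.log_two_lt_d9
  linarith

theorem log_le_quarter {y : ℝ} (hy : 64 ≤ y) : Real.log y ≤ y / 4 := by
  have h1 : Real.log (y / 8) ≤ y / 8 - 1 := Real.log_le_sub_one_of_pos (by positivity)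
  rw [Real.log_div (by linarith) (by norm_num)] at h1
  have h2 : Real.log 8 ≤ 8 - 1 := Real.log_le_sub_one_of_pos (by norm_num)
  linarith

theorem fact_le (n : ℕ) (hn : 1 ≤ n) : (n.factorial : ℝ) ≤ Real.exp (n * Real.log n) := by
  have h0 : (0 : ℝ) < n := by exact_mod_cast hn
  rw [Real.exp_nat_mul, Real.exp_log h0]
  exact_mod_cast Nat.factorial_le_pow n

theorem choose_ge {N M : ℕ} {y : ℝ} (hy : 0 ≤ y) (hM : 0 < M) (h2 : 2 * M ≤ N)
    (h : y * (2 * M) ≤ N) : y ^ M ≤ N.choose M := by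
  have h1 : (((N + 1 - M : ℕ) : ℝ) ^ M) / (M.factorial : ℝ) ≤ N.choose M := by
    exact_mod_cast Nat.pow_le_choose (α := ℝ) M N
  have hM' : (0 : ℝ) < M := by exact_mod_cast hM
  have h3 : y * M ≤ ((N + 1 - M : ℕ) : ℝ) := by
    have h4 : N ≤ 2 * (N + 1 - M) := by omega
    have h5 : (N : ℝ) ≤ 2 * ((N + 1 - M : ℕ) : ℝ) := by exact_mod_cast h4
    linarith
  have h6 : (M.factorial : ℝ) ≤ (M : ℝ) ^ M := by exact_mod_cast Nat.factorial_le_pow M
  have h7 : (0 : ℝ) < M.factorial := by exact_mod_cast M.factorial_pos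
  refine le_trans ?_ h1
  rw [le_div_iff₀ h7]
  calc y ^ M * (M.factorial : ℝ) ≤ y ^ M * (M : ℝ) ^ M :=
        mul_le_mul_of_nonneg_left h6 (by positivity)
    _ = (y * M) ^ M := by rw [mul_pow]
    _ ≤ _ := pow_le_pow_left₀ (by positivity) h3 M

theorem exists_h {n l : ℕ} (hl : 1 ≤ l) (h : 1000000 * l ≤ n) :
    ∃ h : ℕ, 1 ≤ h ∧ 1000000 * l * h ^ 3 ≤ n ∧ n < 1000000 * l * (h + 1) ^ 3 := by
  classical
  have hex : ∃ k : ℕ, n < 1000000 * l * (k + 1) ^ 3 := by
    refine ⟨n, ?_⟩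
    have h1 : n + 1 ≤ (n + 1) ^ 3 := Nat.le_self_pow (by norm_num) _
    have h2 : 1 * (n + 1) ^ 3 ≤ 1000000 * l * (n + 1) ^ 3 :=
      Nat.mul_le_mul_right _ (by omega)
    omega
  have hs := Nat.find_spec hex
  have h0 : Nat.find hex ≠ 0 := by
    intro e
    rw [e] at hs
    simp at hs
    omega
  refine ⟨Nat.find hex, by omega, ?_, hs⟩
  have hm := Nat.find_min hex (m := Nat.find hex - 1) (by omega)
  have e : Nat.find hex - 1 + 1 = Nat.find hex := by omega
  rw [e] at hm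
  omega

theorem fin_ineq {d n L a b : ℝ} (hd : 64 ≤ d) (hn : 0 < n) (ha : 12 ≤ a) (hb : b ≤ d / 4)
    (hL : L ≤ 6 * b + 6 * a) :
    1 / 14400000000 * d * n * (3 * a) + n * L ≤ (d - 7) * n * (a / 2) := by
  have h1 : 12 * d ≤ d * a := by nlinarith
  have h2 : 64 * a ≤ d * a := by nlinarith
  have e1 : 1 / 14400000000 * d * (3 * a) + L ≤ (d - 7) * (a / 2) := by nlinarith
  have e2 := mul_le_mul_of_nonneg_left e1 hn.le
  nlinarith

theorem cube_le {h0 h L l : ℝ} (h0pos : 0 < h0) (hh : 1 ≤ h) (hL : 1 ≤ L) (hl : l ≤ 3 * L)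
    (e3 : h0 ^ 3 * L < 1000000 * l * (h + 1) ^ 3) : h0 ≤ 300 * h := by
  have e4 : (h + 1) ^ 3 ≤ (2 * h) ^ 3 := pow_le_pow_left₀ (by linarith) (by linarith) 3
  have e5 : 1000000 * l * (h + 1) ^ 3 ≤ 1000000 * (3 * L) * (2 * h) ^ 3 :=
    mul_le_mul (by linarith) e4 (by positivity) (by positivity)
  have e6 : h0 ^ 3 * L ≤ (300 * h) ^ 3 * L := by
    have : (0 : ℝ) ≤ h ^ 3 * L := by positivity
    nlinarith
  have e7 : h0 ^ 3 ≤ (300 * h) ^ 3 := le_of_mul_le_mul_right e6 (by linarith)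
  exact (pow_le_pow_iff_left₀ h0pos.le (by positivity) (by norm_num)).1 e7

end Asym

open Asym in
theorem pAsym : StAsym := by
  refine ⟨1 / 14400000000, by norm_num, 64, 3, by norm_num, ?_⟩
  intro n hn d hd hdc
  have hL := one_le_log hn
  have hl := natlog_le hn
  set L := Real.log n with hLdef
  have hn0 : (0 : ℝ) < n := by
    have : (3 : ℝ) ≤ n := by exact_mod_cast hn
    linarith
  have hd64 : (64 : ℝ) ≤ d := by exact_mod_cast hd
  set h0 : ℝ := ((n : ℝ) / L) ^ ((1 : ℝ) / 3) with hh0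
  have hq0 : (0 : ℝ) < (n : ℝ) / L := by positivity
  have h0pos : 0 < h0 := Real.rpow_pos_of_pos hq0 _
  have h03 : h0 ^ 3 = n / L := by
    rw [hh0, ← Real.rpow_natCast, ← Real.rpow_mul hq0.le]
    norm_num
  have hnL : (n : ℝ) = h0 ^ 3 * L := by
    rw [h03]; field_simp
  obtain ⟨x, hx⟩ : ∃ x : ℝ, x = h0 / d := ⟨_, rfl⟩
  have hdx : h0 = d * x := by rw [hx]; field_simp
  have hxc : 14400000000 ≤ x := by
    rw [hx, le_div_iff₀ (by linarith)]
    linarith
  have hxpos : 0 < x := by linarith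
  have h0big : 1000 ≤ h0 := by rw [hdx]; nlinarith
  have hfirst : 1000000 * (Nat.log 2 n + 1) ≤ n := by
    have h1 : (1000 : ℝ) ^ 3 ≤ h0 ^ 3 := pow_le_pow_left₀ (by norm_num) h0big 3
    have h2 : (1000000 : ℝ) * ((Nat.log 2 n + 1 : ℕ) : ℝ) ≤ n := by
      rw [hnL]; nlinarith
    exact_mod_cast h2
  obtain ⟨h, h1, h2, h3⟩ := exists_h (n := n) (l := Nat.log 2 n + 1) (by omega) hfirst
  refine ⟨h, h1, h2, ?_⟩
  intro N q hN hq
  have hh1 : (1 : ℝ) ≤ h := by exact_mod_cast h1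
  have hh : h0 ≤ 300 * h := by
    have e3 : (n : ℝ) < 1000000 * ((Nat.log 2 n + 1 : ℕ) : ℝ) * ((h : ℝ) + 1) ^ 3 := by
      exact_mod_cast h3
    exact cube_le h0pos hh1 hL hl (hnL ▸ e3)
  have hN' : (n : ℝ) * h ≤ 200 * N := by exact_mod_cast hN
  have hNx : n * (d * x) ≤ 60000 * (N : ℝ) := by
    rw [← hdx]
    have : (n : ℝ) * h0 ≤ n * (300 * h) := mul_le_mul_of_nonneg_left hh hn0.le
    linarith
  set M := (d - 7) * n with hM
  have hMr : (M : ℝ) = ((d : ℝ) - 7) * n := by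
    rw [hM, Nat.cast_mul, Nat.cast_sub (by omega)]
    norm_num
  have hMpos : 0 < M := Nat.mul_pos (by omega) (by omega)
  have hMd : (M : ℝ) ≤ d * n := by rw [hMr]; nlinarith
  have hM0 : (0 : ℝ) ≤ M := by positivity
  have hy : x / 120000 * (2 * M) ≤ N := by
    have : x * M ≤ x * (d * n) := mul_le_mul_of_nonneg_left hMd hxpos.le
    nlinarith
  have h2M : 2 * M ≤ N := by
    have e1 : (1 : ℝ) * (2 * M) ≤ x / 120000 * (2 * M) :=
      mul_le_mul_of_nonneg_right (by linarith) (by positivity)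
    have e2 : (2 : ℝ) * M ≤ N := by linarith
    exact_mod_cast e2
  have hch := choose_ge (y := x / 120000) (by positivity) hMpos h2M hy
  have hq' : (N.choose M : ℝ) ≤ q * n.factorial := by exact_mod_cast hq
  have hf := fact_le n (by omega)
  rw [← hLdef] at hf
  have hlx : 12 ≤ Real.log x := by
    rw [Real.le_log_iff_exp_le hxpos]
    have := exp_le_three_pow 12
    push_cast at this
    linarith
  have hly : Real.log x / 2 ≤ Real.log (x / 120000) := by
    rw [Real.log_div hxpos.ne' (by norm_num)]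
    have e1 : Real.log ((120000 : ℝ) ^ 2) ≤ Real.log x :=
      Real.log_le_log (by norm_num) (by linarith)
    rw [Real.log_pow] at e1
    push_cast at e1
    linarith
  have hyM : Real.exp (M * (Real.log x / 2)) ≤ (x / 120000) ^ M := by
    rw [Real.exp_nat_mul]
    refine pow_le_pow_left₀ (Real.exp_pos _).le ?_ M
    calc Real.exp (Real.log x / 2) ≤ Real.exp (Real.log (x / 120000)) := Real.exp_le_exp.2 hly
      _ = x / 120000 := Real.exp_log (by positivity)
  have hlog : Real.log ((n : ℝ) / ((d : ℝ) ^ 3 * L)) = 3 * Real.log x := by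
    have e1 : (n : ℝ) / ((d : ℝ) ^ 3 * L) = x ^ 3 := by
      rw [hnL, hdx]; field_simp
    rw [e1, Real.log_pow]; norm_num
  have hLb : L ≤ 6 * Real.log d + 6 * Real.log x := by
    have e1 : L = 3 * (Real.log d + Real.log x) + Real.log L := by
      have e2 : Real.log (n : ℝ) = Real.log ((d * x) ^ 3 * L) := by rw [← hdx, ← hnL]
      rw [Real.log_mul (by positivity) (by linarith), Real.log_pow,
        Real.log_mul (by linarith) hxpos.ne'] at e2
      rw [← hLdef] at e2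
      push_cast at e2
      linarith
    have e3 := log_le_half (y := L) (by linarith)
    linarith
  have hld := log_le_quarter hd64
  have hfin : 1 / 14400000000 * (d : ℝ) * n * (3 * Real.log x) + n * L ≤
      M * (Real.log x / 2) := by
    rw [hMr]
    exact fin_ineq hd64 hn0 hlx hld hLb
  rw [hlog]
  have hq0' : (0 : ℝ) ≤ q := by positivity
  have e1 : Real.exp (1 / 14400000000 * (d : ℝ) * n * (3 * Real.log x)) * Real.exp (n * L) ≤
      q * Real.exp (n * L) := by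
    rw [← Real.exp_add]
    calc _ ≤ Real.exp (M * (Real.log x / 2)) := Real.exp_le_exp.2 hfin
      _ ≤ (x / 120000) ^ M := hyM
      _ ≤ N.choose M := hch
      _ ≤ q * n.factorial := hq'
      _ ≤ q * Real.exp (n * L) := mul_le_mul_of_nonneg_left hf hq0'
  exact le_of_mul_le_mul_right e1 (Real.exp_pos _)

end Pool.Agent.P.MP_f57657_co.SX
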