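import Pool.Agent.P.MP_f57657_co.SX.Defs

/-! Codegrees and walks of length three above a layer of the concrete graphs. -/

open Matrix Finset

namespace Pool.Agent.P.MP_f57657_co.SX

namespace Cod

section Abstract

variable {V : Type} [Fintype V]

open Classical in
theorem cod_card (lay : V → ℕ) (H : SimpleGraph V) (k : ℕ) (x x' : V) :
    cod lay H k x x' = ((univ.filter fun v => k < lay v ∧ H.Adj x v ∧ H.Adj x' v).card : ℤ) := by
  rw [cod, card_filter, Nat.cast_sum]
  refine sum_congr rfl fun v _ => ?_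
  by_cases h1 : k < lay v <;> by_cases h2 : H.Adj x v <;> by_cases h3 : H.Adj x' v <;>
    simp [am, h1, h2, h3]

open Classical in
theorem edg_card (lay : V → ℕ) (H : SimpleGraph V) (k : ℕ) (x x' : V) :
    edg lay H k x x' = ((univ.filter fun q : V × V => k < lay q.1 ∧ k < lay q.2 ∧ H.Adj x q.1 ∧
      H.Adj q.1 q.2 ∧ H.Adj x' q.2).card : ℤ) := by
  rw [edg, card_filter, Nat.cast_sum, ← univ_product_univ, sum_product]
  refine sum_congr rfl fun v _ => sum_congr rfl fun w _ => ?_
  by_cases h1 : k < lay v <;> by_cases h0 : k < lay w <;> by_cases h2 : H.Adj x v <;>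
    by_cases h3 : H.Adj v w <;> by_cases h4 : H.Adj x' w <;> simp [am, h0, h1, h2, h3, h4]

end Abstract

variable {P : Par} {act : ℕ → ℕ → ℕ → Prop} {k : ℕ}

theorem adj_up {x v : P.VV} (hx : P.lay x = k) (hv : k < P.lay v) :
    (P.gr act).Adj x v ↔ P.lay v = k + 1 ∧ P.down k (P.wire v) (P.wire x) := by
  rw [P.gr_adj, hx]
  constructor
  · rintro (h | h | h)
    · omega
    · exact h
    · omega
  · exact fun h => Or.inr (Or.inl h)

theorem adj_in {v w : P.VV} (hv : P.lay v = k) (hw : P.lay w = k) :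
    (P.gr act).Adj v w ↔ P.inner act k (P.wire v) (P.wire w) := by
  rw [P.gr_adj, hv, hw]
  constructor
  · rintro (h | h | h)
    · exact h.2
    · omega
    · omega
  · exact fun h => Or.inl ⟨rfl, h⟩

theorem cod_le {x x' : P.VV} (hx : P.lay x = k) (hx' : P.lay x' = k) (S : Finset ℕ)
    (h : ∀ i, P.valid (k + 1) i → P.down k i (P.wire x) → P.down k i (P.wire x') → i ∈ S) :
    cod P.lay (P.gr act) k x x' ≤ S.card := by
  rw [cod_card, Nat.cast_le]
  refine card_le_card_of_injOn P.wire (fun v hv => ?_) fun v hv w hw e => ?_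
  · simp only [coe_filter, mem_univ, true_and, Set.mem_ofPred_eq] at hv
    obtain ⟨h1, h2⟩ := (adj_up hx hv.1).1 hv.2.1
    exact h _ (h1 ▸ P.valid_vx v) h2 ((adj_up hx' hv.1).1 hv.2.2).2
  · simp only [coe_filter, mem_univ, true_and, Set.mem_ofPred_eq] at hv hw
    exact P.vext (((adj_up hx hv.1).1 hv.2.1).1.trans ((adj_up hx hw.1).1 hw.2.1).1.symm) e

theorem le_cod {x x' : P.VV} (hx : P.lay x = k) (hx' : P.lay x' = k) (S : Finset ℕ)
    (h : ∀ i ∈ S, P.valid (k + 1) i ∧ P.down k i (P.wire x) ∧ P.down k i (P.wire x')) :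
    (S.card : ℤ) ≤ cod P.lay (P.gr act) k x x' := by
  rw [cod_card, Nat.cast_le]
  refine card_le_card_of_injOn (P.vx (k + 1)) (fun i hi => ?_) fun i hi j hj e => ?_
  · obtain ⟨h1, h2, h3⟩ := h i hi
    have a : k < P.lay (P.vx (k + 1) i) := by rw [P.lay_vx h1]; omega
    simp only [coe_filter, mem_univ, true_and, Set.mem_ofPred_eq]
    rw [adj_up hx a, adj_up hx' a, P.lay_vx h1, P.wire_vx h1]
    exact ⟨by omega, ⟨rfl, h2⟩, rfl, h3⟩
  · rw [← P.wire_vx (h i hi).1, e, P.wire_vx (h j hj).1]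

theorem cod_eq {x x' : P.VV} (hx : P.lay x = k) (hx' : P.lay x' = k) (S : Finset ℕ)
    (h : ∀ i, P.valid (k + 1) i → P.down k i (P.wire x) → P.down k i (P.wire x') → i ∈ S)
    (h' : ∀ i ∈ S, P.valid (k + 1) i ∧ P.down k i (P.wire x) ∧ P.down k i (P.wire x')) :
    cod P.lay (P.gr act) k x x' = S.card := le_antisymm (cod_le hx hx' S h) (le_cod hx hx' S h')

theorem edg_le {x x' : P.VV} (hx : P.lay x = k) (hx' : P.lay x' = k) (S : Finset (ℕ × ℕ))
    (h : ∀ i i', P.valid (k + 1) i → P.valid (k + 1) i' → P.down k i (P.wire x) →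
      P.inner act (k + 1) i i' → P.down k i' (P.wire x') → (i, i') ∈ S) :
    edg P.lay (P.gr act) k x x' ≤ S.card := by
  rw [edg_card, Nat.cast_le]
  refine card_le_card_of_injOn (fun q => (P.wire q.1, P.wire q.2)) (fun v hv => ?_)
    fun v hv w hw e => ?_
  · simp only [coe_filter, mem_univ, true_and, Set.mem_ofPred_eq] at hv
    obtain ⟨h1, h2⟩ := (adj_up hx hv.1).1 hv.2.2.1
    obtain ⟨h3, h4⟩ := (adj_up hx' hv.2.1).1 hv.2.2.2.2
    exact h _ _ (h1 ▸ P.valid_vx v.1) (h3 ▸ P.valid_vx v.2) h2 ((adj_in h1 h3).1 hv.2.2.2.1) h4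
  · simp only [coe_filter, mem_univ, true_and, Set.mem_ofPred_eq] at hv hw
    exact Prod.ext (P.vext (((adj_up hx hv.1).1 hv.2.2.1).1.trans
        ((adj_up hx hw.1).1 hw.2.2.1).1.symm) (Prod.mk.inj e).1)
      (P.vext (((adj_up hx' hv.2.1).1 hv.2.2.2.2).1.trans
        ((adj_up hx' hw.2.1).1 hw.2.2.2.2).1.symm) (Prod.mk.inj e).2)

theorem edg_zero {x x' : P.VV} (hx : P.lay x = k) (hx' : P.lay x' = k)
    (h : ∀ i i', P.valid (k + 1) i → P.valid (k + 1) i' → P.down k i (P.wire x) →
      P.inner act (k + 1) i i' → P.down k i' (P.wire x') → False) :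
    edg P.lay (P.gr act) k x x' = 0 := by
  refine le_antisymm (by
    simpa using edg_le hx hx' ∅ fun i i' a b c d e => (h i i' a b c d e).elim) ?_
  rw [edg_card]
  exact Nat.cast_nonneg _

/-- arithmetic facts on a wire -/
def Wi (P : Par) (k i : ℕ) : Prop :=
  k < P.k0 + 8 + 3 * P.bg + 3 * P.nb ∧ i < 2 * P.h + 2 ∧ P.birth i ≤ k ∧
    (2 ≤ i → P.k0 + 4 ≤ P.birth i ∧ P.birth i % 3 = 0 ∧ P.birth i ≤ P.k0 + 1 + 3 * P.bg)

theorem birth_big (hP : P.Shape) {i : ℕ} (h1 : i < 2 * P.h + 2) (h2 : 2 ≤ i) :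
    P.k0 + 4 ≤ P.birth i ∧ P.birth i % 3 = 0 ∧ P.birth i ≤ P.k0 + 1 + 3 * P.bg := by
  have := hP.slt (i - 2) (by omega)
  have := hP.m0
  rw [Par.birth, if_neg (by omega), if_neg (by omega)]
  omega

theorem wi (hP : P.Shape) (hk : 1 ≤ k) {i : ℕ} (h : P.valid k i) : Wi P k i := by
  obtain ⟨h1, h2 | h2⟩ := h
  · omega
  · exact ⟨h1, h2.2.1, h2.2.2, birth_big hP h2.2.1⟩

theorem wix (hP : P.Shape) (hk : P.k0 ≤ k) {x : P.VV} (hx : P.lay x = k) : Wi P k (P.wire x) :=
  wi hP (by have := hP.lt; omega) (hx ▸ P.valid_vx x)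

theorem born (hP : P.Shape) {i j : ℕ} (h1 : 2 ≤ i) (h2 : i < 2 * P.h + 2) (h3 : 2 ≤ j)
    (h4 : j < 2 * P.h + 2) (h : P.birth i = P.birth j) : i = j := by
  rw [Par.birth, Par.birth, if_neg (by omega), if_neg (by omega), if_neg (by omega),
    if_neg (by omega)] at h
  have := hP.sinj (i - 2) (j - 2) (by omega) (by omega) (by omega)
  omega

theorem low (hP : P.Shape) (hk : P.k0 ≤ k) (hL : k < P.L) {i : ℕ} (hi : i ≤ 1) : P.valid k i := by
  have := hP.lt
  refine ⟨hL, Or.inr ⟨by omega, by omega, ?_⟩⟩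
  unfold Par.birth
  split_ifs <;> omega

theorem inn {i j : ℕ} (h : P.inner act k i j) : i ≠ j ∧ (k = 0 ∨ k = P.k0 + 1 ∨
    (i = 1 ∧ 2 ≤ j ∧ P.birth j = k) ∨ (j = 1 ∧ 2 ≤ i ∧ P.birth i = k) ∨
    (k % 3 = 0 ∧ P.k0 + 4 + 3 * P.bg ≤ k ∧ 2 ≤ i ∧ 2 ≤ j) ∨
    ((k + 3 = P.k0 + 8 + 3 * P.bg + 3 * P.nb ∨ k + 1 = P.k0 + 8 + 3 * P.bg + 3 * P.nb) ∧
      i / 2 = j / 2)) := by
  refine ⟨h.1, h.2.imp_right fun h => h.imp_right fun h => h.imp_right fun h =>
    h.imp_right fun h => h.imp (fun h => ⟨h.1, h.2.1, h.2.2.2.1, h.2.2.2.2.1⟩) id⟩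

theorem exb (hP : P.Shape) (k : ℕ) :
    ∃ b, ∀ i, 2 ≤ i → i < 2 * P.h + 2 → P.birth i = k → i = b := by
  by_cases h : ∃ b, 2 ≤ b ∧ b < 2 * P.h + 2 ∧ P.birth b = k
  · obtain ⟨b, h1, h2, h3⟩ := h
    exact ⟨b, fun i a1 a2 a3 => born hP a1 a2 h1 h2 (a3.trans h3.symm)⟩
  · exact ⟨0, fun i a1 a2 a3 => absurd ⟨i, a1, a2, a3⟩ h⟩

theorem edg_fib (hP : P.Shape) (hk : P.k0 ≤ k) (hf : P.fibs k) {x x' : P.VV} (hx : P.lay x = k)
    (hx' : P.lay x' = k) (h1 : ¬ (P.wire x = 0 ∧ P.wire x' = 1))
    (h2 : ¬ (P.wire x = 1 ∧ P.wire x' = 0)) : edg P.lay (P.gr act) k x x' = 0 := by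
  refine edg_zero hx hx' fun i i' _ _ c d e => ?_
  have a1 := (wix hP hk hx).2.2.1
  have a2 := (wix hP hk hx').2.2.1
  have a3 := hP.lt
  replace d := inn d
  have c' : i = P.wire x → P.birth i ≤ k := fun h => h ▸ a1
  have e' : i' = P.wire x' → P.birth i' ≤ k := fun h => h ▸ a2
  simp only [Par.down, hf, true_and, not_true, false_and, or_false] at c e
  unfold Par.fibs at hf
  omega

end Cod

open Cod

theorem pCod : StCod := by
  classical
  intro P act hP k hk hL
  have m0 := hP.m0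
  have lt := hP.lt
  have v0 := low hP hk hL (Nat.zero_le 1)
  have v1 := low hP hk hL le_rfl
  refine ⟨fun x x' hx hx' hne hw => ?_, fun x hx => ?_, fun x hx hw => ?_, ?_, ?_⟩
  · have a1 := (wix hP hk hx).2.2.1
    have a2 := (wix hP hk hx').2.2.1
    have a3 : P.wire x ≠ P.wire x' := fun e => hne (P.vext (hx.trans hx'.symm) e)
    refine (cod_eq hx hx' ∅ (fun i _ c e => ?_) (by simp)).trans (by simp)
    have c' : i = P.wire x → P.birth i ≤ k := fun h => h ▸ a1
    have e' : i = P.wire x' → P.birth i ≤ k := fun h => h ▸ a2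
    exfalso
    by_cases hf : P.fibs k <;> simp only [Par.down, hf, true_and, not_true, false_and, or_false,
      not_false_eq_true, false_or] at c e <;> omega
  · obtain ⟨b, hb⟩ := exb hP (k + 1)
    refine (cod_le hx hx (if P.wire x = 1 ∧ P.fibs k then {0, b} else if P.wire x = 0 then {0, 1}
      else {P.wire x}) fun i a c _ => ?_).trans ?_
    · have a1 := hb i
      have a2 := (wi hP (by omega) a).2.1
      by_cases hf : P.fibs k <;> simp only [Par.down, hf, true_and, not_true, false_and, or_false,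
        not_false_eq_true, false_or, and_true, and_false, if_false] at c ⊢ <;> split_ifs <;>
        simp only [mem_insert, mem_singleton] <;> omega
    · split_ifs
      · exact_mod_cast card_le_two
      · exact_mod_cast card_le_two
      · simp
  · refine (cod_le hx hx {P.wire x} fun i _ c _ => ?_).trans (by simp)
    by_cases hf : P.fibs k <;> simp only [Par.down, hf, true_and, not_true, false_and, or_false,
      not_false_eq_true, false_or, mem_singleton] at c ⊢ <;> omega
  · refine (cod_le (P.lay_vx v0) (P.lay_vx v1) {0} fun i _ c e => ?_).trans (by simp)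
    rw [P.wire_vx v0] at c
    rw [P.wire_vx v1] at e
    by_cases hf : P.fibs k <;> simp only [Par.down, hf, true_and, not_true, false_and, or_false,
      not_false_eq_true, false_or, mem_singleton] at c e ⊢ <;> omega
  · rintro ⟨w, w1, w2, w3⟩
    have b := birth_big hP w2 w1
    have hf : P.fibs k := by unfold Par.fibs; omega
    have hL' : k + 1 < P.L := by unfold Par.L; omega
    have u0 := low hP (k := k + 1) (by omega) hL' (Nat.zero_le 1)
    have u1 := low hP (k := k + 1) (by omega) hL' le_rfl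
    refine ⟨(cod_eq (P.lay_vx v0) (P.lay_vx v0) {0, 1} (fun i a c _ => ?_) ?_).trans (by simp),
      (cod_eq (P.lay_vx v1) (P.lay_vx v1) {0} (fun i a c _ => ?_) ?_).trans (by simp),
      (cod_eq (P.lay_vx v0) (P.lay_vx v1) {0} (fun i a c e => ?_) ?_).trans (by simp),
      fun x hx hw => (cod_eq hx hx {P.wire x} (fun i a c _ => ?_) ?_).trans (by simp)⟩
    · rw [P.wire_vx v0] at c
      simp only [Par.down, hf, true_and, not_true, false_and, or_false, mem_insert,
        mem_singleton] at c ⊢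
      omega
    · simp [P.wire_vx v0, Par.down, hf, u0, u1]
    · have := (wi hP (by omega) a).2.2.2
      rw [P.wire_vx v1] at c
      simp only [Par.down, hf, true_and, not_true, false_and, or_false, mem_singleton] at c ⊢
      omega
    · simp [P.wire_vx v1, Par.down, hf, u0]
    · rw [P.wire_vx v0] at c
      rw [P.wire_vx v1] at e
      simp only [Par.down, hf, true_and, not_true, false_and, or_false, mem_singleton] at c e ⊢
      omega
    · simp [P.wire_vx v0, P.wire_vx v1, Par.down, hf, u0]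
    · simp only [Par.down, hf, true_and, not_true, false_and, or_false, mem_singleton] at c ⊢
      omega
    · have a := wix hP hk hx
      have : P.valid (k + 1) (P.wire x) :=
        ⟨hL', Or.inr ⟨by omega, a.2.1, a.2.2.1.trans (Nat.le_succ k)⟩⟩
      simp [Par.down, hf, hw, this]

theorem pEdg : StEdg := by
  classical
  intro P act hP k hk hL
  have m0 := hP.m0
  have lt := hP.lt
  have v0 := low hP hk hL (Nat.zero_le 1)
  have v1 := low hP hk hL le_rfl
  refine ⟨fun x hx => ?_, fun x x' hx hx' w1 w2 => ?_, ?_, ?_, fun y y' hy hy' hne hn => ?_⟩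
  · by_cases hf : P.fibs k
    · exact edg_fib hP hk hf hx hx (by omega) (by omega)
    · refine edg_zero hx hx fun i i' _ _ c d e => ?_
      have := d.1
      simp only [Par.down, hf, true_and, false_and, not_false_eq_true, false_or] at c e
      omega
  · by_cases hf : P.fibs k
    · exact edg_fib hP hk hf hx hx' (by omega) (by omega)
    · refine edg_zero hx hx' fun i i' _ _ c d e => ?_
      have a := (wix hP hk hx').2.2
      replace d := inn d
      simp only [Par.down, hf, true_and, false_and, not_false_eq_true, false_or] at c e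
      obtain rfl : i' = P.wire x' := by omega
      omega
  · obtain ⟨b, hb⟩ := exb hP (k + 1)
    refine (edg_le (P.lay_vx v0) (P.lay_vx v1) {if P.fibs k then (1, b) else (0, 1)}
      fun i i' _ a c d e => ?_).trans (by simp)
    rw [P.wire_vx v0] at c
    rw [P.wire_vx v1] at e
    have a1 := hb i'
    have a2 := (wi hP (by omega) a).2.1
    replace d := inn d
    by_cases hf : P.fibs k <;> simp only [Par.down, hf, true_and, not_true, false_and, or_false,
      not_false_eq_true, false_or, mem_singleton, if_true, if_false, Prod.mk.injEq] at c e ⊢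
    · unfold Par.fibs at hf
      omega
    · omega
  · rintro ⟨w, w1, w2, w3⟩ x x' hx hx'
    have b := birth_big hP w2 w1
    refine edg_zero hx hx' fun i i' a a' _ d _ => ?_
    have a1 := (wi hP (by omega) a).2.2.2
    have a2 := (wi hP (by omega) a').2.2.2
    replace d := inn d
    omega
  · have a := wi hP (k := k + 1) (by omega) (hy ▸ P.valid_vx y)
    have a' := wi hP (k := k + 1) (by omega) (hy' ▸ P.valid_vx y')
    have hw : P.wire y ≠ P.wire y' := fun e => hne (P.vext (hy.trans hy'.symm) e)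
    rw [adj_in hy hy'] at hn
    have key : ∀ j j', P.valid k j → P.valid k j' → P.down k (P.wire y) j →
        P.down k (P.wire y') j' → edg P.lay (P.gr act) k (P.vx k j) (P.vx k j') = 0 →
        ∃ x x', P.lay x = k ∧ P.lay x' = k ∧ (P.gr act).Adj x y ∧ (P.gr act).Adj x' y' ∧
          edg P.lay (P.gr act) k x x' = 0 := fun j j' b b' c c' e =>
      ⟨_, _, P.lay_vx b, P.lay_vx b',
        (adj_up (P.lay_vx b) (by omega)).2 ⟨hy, by rwa [P.wire_vx b]⟩,
        (adj_up (P.lay_vx b') (by omega)).2 ⟨hy', by rwa [P.wire_vx b']⟩, e⟩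
    have old : ∀ i, Wi P (k + 1) i → ¬ (2 ≤ i ∧ P.birth i = k + 1) → P.valid k i := fun i b c => by
      by_cases hi : i ≤ 1
      · exact low hP hk hL hi
      · exact ⟨hL, Or.inr ⟨by omega, b.2.1, by have := b.2.2.1; omega⟩⟩
    by_cases hf : P.fibs k
    · have par : ∀ i c, Wi P (k + 1) i → c ≤ 1 → ∃ j, P.valid k j ∧ P.down k i j ∧
          (j ≤ 1 → (i = 0 ∧ j = c) ∨ (i = 1 ∧ j = 0) ∨
            (2 ≤ i ∧ P.birth i = k + 1 ∧ j = 1)) := fun i c b hc => by
        by_cases h0 : i = 0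
        · exact ⟨c, low hP hk hL hc, by simp [Par.down, hf, h0, hc], fun _ => by omega⟩
        by_cases h1 : i = 1
        · exact ⟨0, v0, by simp [Par.down, hf, h1], fun _ => by omega⟩
        have h2 : 2 ≤ i := by omega
        by_cases h3 : P.birth i = k + 1
        · exact ⟨1, v1, by simp [Par.down, hf, h2, h3], fun _ => by omega⟩
        · exact ⟨i, old i b (by omega), by simp [Par.down, hf, h2], fun _ => by omega⟩
      obtain ⟨j, b1, b2, b3⟩ := par _ (if P.wire y' = 1 then 0 else 1) a (by split_ifs <;> omega)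
      obtain ⟨j', c1, c2, c3⟩ := par _ (if P.wire y = 1 then 0 else 1) a' (by split_ifs <;> omega)
      have n1 : ¬ (P.wire y = 1 ∧ 2 ≤ P.wire y' ∧ P.birth (P.wire y') = k + 1) := fun h =>
        hn ⟨hw, Or.inr (Or.inr (Or.inl h))⟩
      have n2 : ¬ (P.wire y' = 1 ∧ 2 ≤ P.wire y ∧ P.birth (P.wire y) = k + 1) := fun h =>
        hn ⟨hw, Or.inr (Or.inr (Or.inr (Or.inl h)))⟩
      refine key j j' b1 c1 b2 c2 (edg_fib hP hk hf (P.lay_vx b1) (P.lay_vx c1) ?_ ?_) <;>
        rw [P.wire_vx b1, P.wire_vx c1] <;> split_ifs at b3 c3 <;> omega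
    · have nb : ∀ i, Wi P (k + 1) i → ¬ (2 ≤ i ∧ P.birth i = k + 1) := fun i b c => by
        have := b.2.2.2 c.1
        unfold Par.fibs at hf
        omega
      have b := old _ a (nb _ a)
      have b' := old _ a' (nb _ a')
      refine key _ _ b b' (by simp [Par.down, hf]) (by simp [Par.down, hf])
        (edg_zero (P.lay_vx b) (P.lay_vx b') fun i i' _ _ c d e => hn ?_)
      rw [P.wire_vx b] at c
      rw [P.wire_vx b'] at e
      simp only [Par.down, hf, true_and, false_and, not_false_eq_true, false_or] at c e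
      obtain rfl : i = P.wire y := by omega
      obtain rfl : i' = P.wire y' := by omega
      exact d

end Pool.Agent.P.MP_f57657_co.SX
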