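import Pool.Agent.P.MP_f57657_co.SX.Defs

/-! Representatives of the isomorphism classes of an injective family of graphs. -/

open Matrix Finset

namespace Pool.Agent.P.MP_f57657_co.SX

namespace CountAux

open Classical in
theorem charpoly_am {V : Type} [Fintype V] [DecidableEq V] {n : ℕ} (e : V ≃ Fin n)
    (H : SimpleGraph (Fin n)) :
    (am (H.comap e)).charpoly.map (Int.castRingHom ℝ) = (H.adjMatrix ℝ).charpoly := by
  rw [← Matrix.charpoly_map, ← Matrix.charpoly_reindex e.symm (H.adjMatrix ℝ)]
  congr 1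
  ext x y
  simp only [am, Matrix.map_apply, Matrix.of_apply, SimpleGraph.comap_adj, Matrix.reindex_apply,
    Matrix.submatrix_apply, Equiv.symm_symm, SimpleGraph.adjMatrix_apply]
  by_cases h : H.Adj (e x) (e y) <;> simp [h]

open Classical in
theorem ds_of_dsv {V : Type} [Fintype V] [DecidableEq V] {n : ℕ} (e : V ≃ Fin n)
    (G : SimpleGraph V) (hG : DSV G) : DS (G.comap e.symm) := by
  intro m H hH
  have hm : m = n := by
    have h1 := congrArg Polynomial.natDegree hH
    rw [Matrix.charpoly_natDegree_eq_dim, Matrix.charpoly_natDegree_eq_dim] at h1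
    simpa using h1
  subst hm
  have hGG : (G.comap e.symm).comap e = G := by
    ext x y
    simp
  have hc : Cosp G (H.comap e) := by
    unfold Cosp
    apply Polynomial.map_injective (Int.castRingHom ℝ) Int.cast_injective
    rw [charpoly_am e H, hH, ← charpoly_am e (G.comap e.symm), hGG]
  obtain ⟨φ⟩ := hG _ hc
  exact ⟨((SimpleGraph.Iso.comap e H).symm.trans φ).trans
    (SimpleGraph.Iso.comap e.symm G).symm⟩

open Classical in
theorem two_le_degree {W : Type} [Fintype W] (G : SimpleGraph W) (v y z : W) (hyz : y ≠ z)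
    (hy : G.Adj v y) (hz : G.Adj v z) [Fintype (G.neighborSet v)] : 2 ≤ G.degree v := by
  rw [← SimpleGraph.card_neighborFinset_eq_degree]
  exact Finset.one_lt_card.2 ⟨y, by simpa using hy, z, by simpa using hz, hyz⟩

end CountAux

open CountAux in
theorem pCount : StCount := by
  classical
  intro V _ _ ι _ F n M hn hF hgood
  let e : V ≃ Fin n := Fintype.equivFinOfCardEq hn
  let T : ι → SimpleGraph (Fin n) := fun i => (F i).comap e.symm
  have iso : ∀ i, T i ≃g F i := fun i => SimpleGraph.Iso.comap e.symm (F i)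
  have hT : ∀ i j, T i = T j → F i = F j := fun i j h => by
    ext x y
    have h1 : (T i).Adj (e x) (e y) ↔ (T j).Adj (e x) (e y) := by rw [h]
    simpa [T] using h1
  let R : Setoid ι := ⟨fun i j => Nonempty (F i ≃g F j),
    ⟨fun _ => ⟨SimpleGraph.Iso.refl⟩, fun ⟨φ⟩ => ⟨φ.symm⟩, fun ⟨φ⟩ ⟨ψ⟩ => ⟨φ.trans ψ⟩⟩⟩
  let rep : ι → ι := fun i => (Quotient.mk R i).out
  have h1 : ∀ i, Nonempty (F (rep i) ≃g F i) := fun i => Quotient.mk_out (s := R) i
  have h2 : ∀ i j, Nonempty (F i ≃g F j) → rep i = rep j := fun i j h => by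
    have : Quotient.mk R i = Quotient.mk R j := Quotient.sound (s := R) h
    simp only [rep, this]
  let π : ι → Equiv.Perm V := fun i => (h1 i).some.toEquiv
  have hπ : ∀ i x y, (F i).Adj (π i x) (π i y) ↔ (F (rep i)).Adj x y := fun i x y =>
    (h1 i).some.map_rel_iff
  refine ⟨univ.image fun i => T (rep i), ⟨?_, ?_⟩, ?_⟩
  · intro G hG
    obtain ⟨i, _, rfl⟩ := Finset.mem_image.1 hG
    obtain ⟨c1, c2, c3, c4⟩ := hgood (rep i)
    refine ⟨(iso _).connected_iff.2 c1, fun v => ?_, ?_, ds_of_dsv e _ c4⟩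
    · obtain ⟨y, z, hyz, hy, hz⟩ := c2 (e.symm v)
      exact two_le_degree _ v (e y) (e z) (fun h => hyz (e.injective h)) (by simpa [T] using hy)
        (by simpa [T] using hz)
    · have h3 : (T (rep i)).edgeSet.ncard = (F (rep i)).edgeSet.ncard :=
        Set.ncard_congr' (iso _).mapEdgeSet
      rw [h3]
      exact c3
  · intro G hG G' hG' ⟨φ⟩
    obtain ⟨i, _, rfl⟩ := Finset.mem_image.1 hG
    obtain ⟨j, _, rfl⟩ := Finset.mem_image.1 hG'
    have h3 : rep i = rep j := h2 i j
      ⟨((((h1 i).some.symm.trans (iso _).symm).trans φ).trans (iso _)).trans (h1 j).some⟩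
    rw [h3]
  · have h3 : (univ : Finset ι).card ≤
        ((univ.image fun i => T (rep i)) ×ˢ (univ : Finset (Equiv.Perm V))).card := by
      refine Finset.card_le_card_of_injOn (fun i => (T (rep i), π i)) (fun i _ => ?_) ?_
      · simp only [Finset.coe_product, Set.mem_prod, Finset.mem_coe, Finset.mem_univ, and_true]
        exact Finset.mem_image.2 ⟨i, Finset.mem_univ _, rfl⟩
      · intro i _ j _ h
        have e1 : F (rep i) = F (rep j) := hT _ _ (congrArg Prod.fst h)
        have e2 : π i = π j := congrArg Prod.snd h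
        apply hF
        ext x y
        have a1 := hπ i ((π i).symm x) ((π i).symm y)
        have a2 := hπ j ((π j).symm x) ((π j).symm y)
        simp only [Equiv.apply_symm_apply] at a1 a2
        rw [a1, a2, e1, e2]
    rw [Finset.card_product, Finset.card_univ, Finset.card_univ, Fintype.card_perm, hn] at h3
    exact h3

end Pool.Agent.P.MP_f57657_co.SX
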