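import Pool.Agent.P.MP_f57657_co.SX.Defs

/-! Package 9: the even and the odd moment equation on one layer. -/

open Matrix Finset

namespace Pool.Agent.P.MP_f57657_co.SX

namespace Dec

variable {V : Type} [Fintype V] [DecidableEq V]

omit [Fintype V] [DecidableEq V] in
theorem am_symm (H : SimpleGraph V) (x y : V) : am H x y = am H y x := by
  classical
  simp only [am, Matrix.of_apply, H.adj_comm]

omit [Fintype V] [DecidableEq V] in
theorem am_congr {G H : SimpleGraph V} {x y : V} (h : H.Adj x y ↔ G.Adj x y) :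
    am H x y = am G x y := by
  classical
  simp only [am, Matrix.of_apply, h]

omit [Fintype V] [DecidableEq V] in
theorem am_zero {H : SimpleGraph V} {x y : V} (h : ¬ H.Adj x y) : am H x y = 0 := by
  classical
  simp only [am, Matrix.of_apply, h, if_false]

omit [Fintype V] [DecidableEq V] in
theorem up_symm (lay : V → ℕ) (k : ℕ) (H : SimpleGraph V) (x y : V) :
    up lay k (am H) x y = up lay k (am H) y x := by
  simp only [up, Matrix.of_apply, and_comm, am_symm H x y]

omit [Fintype V] [DecidableEq V] in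
theorem up_transpose (lay : V → ℕ) (k : ℕ) (H : SimpleGraph V) :
    (up lay k (am H))ᵀ = up lay k (am H) := by
  ext x y
  exact up_symm lay k H y x

omit [Fintype V] [DecidableEq V] in
/-- Entries between vertices of layers at most `k` agree. -/
theorem up_low {lay : V → ℕ} {G H : SimpleGraph V} {k : ℕ} (k0 : ℕ) (h : Ag2 lay G H k) {x y : V}
    (hx : lay x ≤ k) (hy : lay y ≤ k) : up lay k0 (am H) x y = up lay k0 (am G) x y := by
  have : am H x y = am G x y := by
    rcases lt_or_eq_of_le hx with hx | hx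
    · exact am_congr (h.1 x y hx)
    · rcases lt_or_eq_of_le hy with hy | hy
      · rw [am_symm H, am_symm G]
        exact am_congr (h.1 y x hy)
      · exact am_congr (h.2 x y hx hy)
  simp only [up, Matrix.of_apply, this]

omit [Fintype V] [DecidableEq V] in
/-- Entries at a vertex below layer `k` agree. -/
theorem up_lt {lay : V → ℕ} {G H : SimpleGraph V} {k : ℕ} (k0 : ℕ) (h : Ag2 lay G H k) (x : V)
    {y : V} (hy : lay y < k) : up lay k0 (am H) x y = up lay k0 (am G) x y := by
  have : am H x y = am G x y := by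
    rw [am_symm H, am_symm G]
    exact am_congr (h.1 y x hy)
  simp only [up, Matrix.of_apply, this]

omit [Fintype V] [DecidableEq V] in
theorem up_far {lay : V → ℕ} {G : SimpleGraph V} (k0 : ℕ) (hL : Layered lay G) {x y : V}
    (hxy : lay y + 1 < lay x) : up lay k0 (am G) x y = 0 := by
  have : am G x y = 0 := by
    apply am_zero
    intro hadj
    have := hL y x hadj.symm
    omega
  simp only [up, Matrix.of_apply, this, ite_self]

theorem wv_succ (lay : V → ℕ) (G : SimpleGraph V) (k0 : ℕ) (a b : V) (η : ℤ × ℤ) (i : ℕ) (x : V) :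
    wv lay G k0 a b η (i + 1) x = ∑ y, up lay k0 (am G) x y * wv lay G k0 a b η i y := by
  unfold wv
  rw [pow_succ', ← Matrix.mulVec_mulVec]
  rfl

theorem wv_supp {lay : V → ℕ} {G : SimpleGraph V} {k0 : ℕ} {a b : V} (hL : Layered lay G)
    (ha : lay a = k0) (hb : lay b = k0) (η : ℤ × ℤ) (i : ℕ) :
    ∀ x, k0 + i < lay x → wv lay G k0 a b η i x = 0 := by
  induction i with
  | zero =>
    intro x hx
    have h1 : x ≠ a := by rintro rfl; omega
    have h2 : x ≠ b := by rintro rfl; omega
    simp [wv, h1, h2]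
  | succ i ih =>
    intro x hx
    rw [wv_succ]
    apply Finset.sum_eq_zero
    intro y _
    by_cases hy : k0 + i < lay y
    · rw [ih y hy, mul_zero]
    · rw [up_far k0 hL (by omega), zero_mul]

theorem wv_eq {lay : V → ℕ} {G H : SimpleGraph V} {k0 j : ℕ} {a b : V} (hL : Layered lay G)
    (ha : lay a = k0) (hb : lay b = k0) (h : Ag2 lay G H (k0 + j)) (η : ℤ × ℤ) (i : ℕ)
    (hi : i ≤ j) : ∀ x, wv lay H k0 a b η i x = wv lay G k0 a b η i x := by
  induction i with
  | zero => intro x; simp [wv]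
  | succ i ih =>
    intro x
    rw [wv_succ, wv_succ]
    apply Finset.sum_congr rfl
    intro y _
    rw [ih (by omega) y]
    by_cases hy : k0 + i < lay y
    · rw [wv_supp hL ha hb η i y hy, mul_zero, mul_zero]
    · rw [up_lt k0 h x (by omega)]

theorem wv_low {lay : V → ℕ} {G H : SimpleGraph V} {k0 j : ℕ} {a b : V} (hL : Layered lay G)
    (ha : lay a = k0) (hb : lay b = k0) (h : Ag2 lay G H (k0 + j)) (η : ℤ × ℤ) {x : V}
    (hx : lay x ≤ k0 + j) : wv lay H k0 a b η (j + 1) x = wv lay G k0 a b η (j + 1) x := by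
  rw [wv_succ, wv_succ]
  apply Finset.sum_congr rfl
  intro y _
  rw [wv_eq hL ha hb h η j le_rfl y]
  by_cases hy : k0 + j < lay y
  · rw [wv_supp hL ha hb η j y hy, mul_zero, mul_zero]
  · rw [up_low k0 h hx (by omega)]

omit [DecidableEq V] in
/-- A vector supported on layers at most `k`, seen from a vertex above layer `k`. -/
theorem sum_high {lay : V → ℕ} {G H : SimpleGraph V} {k0 j : ℕ} (hL : Layered lay G)
    (h : Ag2 lay G H (k0 + j)) (w : V → ℤ) {v : V} (hv : k0 + j < lay v) :
    ∑ y, (if lay y ≤ k0 + j then up lay k0 (am H) v y * w y else 0) =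
      ∑ x ∈ Lk lay (k0 + j), am H x v * w x := by
  rw [Lk, Finset.sum_filter]
  apply Finset.sum_congr rfl
  intro y _
  rcases lt_trichotomy (lay y) (k0 + j) with hy | hy | hy
  · rw [if_pos hy.le, if_neg hy.ne, up_lt k0 h v hy, up_far k0 hL (by omega), zero_mul]
  · rw [if_pos hy.le, if_pos hy, am_symm H y v]
    have : k0 ≤ lay v ∧ k0 ≤ lay y := ⟨by omega, by omega⟩
    simp only [up, Matrix.of_apply, this, and_self, if_true]
  · rw [if_neg (by omega), if_neg (by omega)]

theorem wv_high {lay : V → ℕ} {G H : SimpleGraph V} {k0 j : ℕ} {a b : V} (hL : Layered lay G)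
    (ha : lay a = k0) (hb : lay b = k0) (h : Ag2 lay G H (k0 + j)) (η : ℤ × ℤ) {v : V}
    (hv : k0 + j < lay v) : wv lay H k0 a b η (j + 1) v =
      ∑ x ∈ Lk lay (k0 + j), am H x v * wv lay G k0 a b η j x := by
  rw [wv_succ, ← sum_high hL h _ hv]
  apply Finset.sum_congr rfl
  intro y _
  rw [wv_eq hL ha hb h η j le_rfl y]
  by_cases hy : lay y ≤ k0 + j
  · rw [if_pos hy]
  · rw [if_neg hy, wv_supp hL ha hb η j y (by omega), mul_zero]

/-- The moments are bilinear in four entries of a power. -/
theorem mom (lay : V → ℕ) (H : SimpleGraph V) (k0 : ℕ) (a b : V) (η η' : ℤ × ℤ) (i i' : ℕ) :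
    ∑ v, wv lay H k0 a b η i v * wv lay H k0 a b η' i' v =
      η.1 * η'.1 * (up lay k0 (am H) ^ (i + i')) a a +
        (η.1 * η'.2 + η.2 * η'.1) * (up lay k0 (am H) ^ (i + i')) a b +
        η.2 * η'.2 * (up lay k0 (am H) ^ (i + i')) b b := by
  set A := up lay k0 (am H) with hA
  have hT : ∀ n : ℕ, (A ^ n)ᵀ = A ^ n := fun n => by
    rw [Matrix.transpose_pow, hA, up_transpose]
  have hba : (A ^ (i + i')) b a = (A ^ (i + i')) a b := by
    have := congrFun (congrFun (hT (i + i')) a) b
    rwa [Matrix.transpose_apply] at this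
  have h1 : ∑ v, wv lay H k0 a b η i v * wv lay H k0 a b η' i' v =
      (fun x => (if x = a then η.1 else 0) + (if x = b then η.2 else 0)) ⬝ᵥ
        ((A ^ (i + i')) *ᵥ fun x => (if x = a then η'.1 else 0) + (if x = b then η'.2 else 0)) := by
    rw [pow_add, ← Matrix.mulVec_mulVec, Matrix.dotProduct_mulVec, ← Matrix.mulVec_transpose, hT]
    rfl
  rw [h1]
  simp only [dotProduct, Matrix.mulVec, mul_add, add_mul, Finset.sum_add_distrib, mul_ite, ite_mul,
    mul_zero, zero_mul, Finset.sum_ite_eq', Finset.mem_univ, if_true, hba]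
  ring

theorem even_formula {lay : V → ℕ} {G H : SimpleGraph V} {k0 j : ℕ} {a b : V} (hL : Layered lay G)
    (ha : lay a = k0) (hb : lay b = k0) (h : Ag2 lay G H (k0 + j)) (η η' : ℤ × ℤ) :
    ∑ v, wv lay H k0 a b η (j + 1) v * wv lay H k0 a b η' (j + 1) v =
      (∑ v, if lay v ≤ k0 + j then
        wv lay G k0 a b η (j + 1) v * wv lay G k0 a b η' (j + 1) v else 0) +
      ∑ x ∈ Lk lay (k0 + j), ∑ x' ∈ Lk lay (k0 + j),
        cod lay H (k0 + j) x x' * wv lay G k0 a b η j x * wv lay G k0 a b η' j x' := by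
  have e : ∑ x ∈ Lk lay (k0 + j), ∑ x' ∈ Lk lay (k0 + j),
        cod lay H (k0 + j) x x' * wv lay G k0 a b η j x * wv lay G k0 a b η' j x' =
      ∑ v, if k0 + j < lay v then
        (∑ x ∈ Lk lay (k0 + j), am H x v * wv lay G k0 a b η j x) *
          (∑ x ∈ Lk lay (k0 + j), am H x v * wv lay G k0 a b η' j x) else 0 := by
    simp only [cod, Finset.sum_mul]
    rw [Finset.sum_congr rfl fun x _ => Finset.sum_comm, Finset.sum_comm]
    apply Finset.sum_congr rfl
    intro v _
    by_cases hv : k0 + j < lay v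
    · simp only [if_pos hv, Finset.mul_sum]
      refine Finset.sum_congr rfl fun x _ => Finset.sum_congr rfl fun x' _ => by ring
    · simp only [if_neg hv, zero_mul, Finset.sum_const_zero]
  rw [e, ← Finset.sum_add_distrib]
  apply Finset.sum_congr rfl
  intro v _
  by_cases hv : lay v ≤ k0 + j
  · rw [if_pos hv, if_neg (by omega), wv_low hL ha hb h η hv, wv_low hL ha hb h η' hv, add_zero]
  · rw [if_neg hv, if_pos (by omega), wv_high hL ha hb h η (by omega),
      wv_high hL ha hb h η' (by omega), zero_add]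

omit [DecidableEq V] in
theorem cod_sum (lay : V → ℕ) (H : SimpleGraph V) (k : ℕ) (u w : V → ℤ) :
    ∑ x ∈ Lk lay k, ∑ x' ∈ Lk lay k, cod lay H k x x' * (u x * w x') =
      ∑ v, if k < lay v then
        (∑ x ∈ Lk lay k, am H x v * u x) * (∑ x ∈ Lk lay k, am H x v * w x) else 0 := by
  simp only [cod, Finset.sum_mul]
  rw [Finset.sum_congr rfl fun x _ => Finset.sum_comm, Finset.sum_comm]
  apply Finset.sum_congr rfl
  intro v _
  by_cases hv : k < lay v
  · simp only [if_pos hv, Finset.mul_sum]
    refine Finset.sum_congr rfl fun x _ => Finset.sum_congr rfl fun x' _ => by ring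
  · simp only [if_neg hv, zero_mul, Finset.sum_const_zero]

omit [DecidableEq V] in
theorem edg_sum (lay : V → ℕ) (H : SimpleGraph V) (k : ℕ) (u w : V → ℤ) :
    ∑ x ∈ Lk lay k, ∑ x' ∈ Lk lay k, edg lay H k x x' * u x * w x' =
      ∑ v, ∑ v', if k < lay v ∧ k < lay v' then
        (∑ x ∈ Lk lay k, am H x v * u x) * (am H v v' * ∑ x ∈ Lk lay k, am H x v' * w x)
        else 0 := by
  simp only [edg, Finset.sum_mul]
  rw [Finset.sum_congr rfl fun x _ => Finset.sum_comm, Finset.sum_comm]
  apply Finset.sum_congr rfl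
  intro v _
  rw [Finset.sum_congr rfl fun x _ => Finset.sum_comm, Finset.sum_comm]
  apply Finset.sum_congr rfl
  intro v' _
  by_cases hv : k < lay v ∧ k < lay v'
  · simp only [if_pos hv, Finset.mul_sum]
    refine Finset.sum_congr rfl fun x _ => Finset.sum_congr rfl fun x' _ => by ring
  · simp only [if_neg hv, zero_mul, Finset.sum_const_zero]

theorem odd_formula {lay : V → ℕ} {G H : SimpleGraph V} {k0 j : ℕ} {a b : V} (hL : Layered lay G)
    (ha : lay a = k0) (hb : lay b = k0) (h : Ag2 lay G H (k0 + j)) (η η' : ℤ × ℤ) :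
    ∑ v, wv lay H k0 a b η (j + 1) v * wv lay H k0 a b η' (j + 1 + 1) v =
      (∑ v, ∑ v', if lay v ≤ k0 + j ∧ lay v' ≤ k0 + j then
        wv lay G k0 a b η (j + 1) v * (up lay k0 (am G) v v' * wv lay G k0 a b η' (j + 1) v')
        else 0) +
      ∑ x ∈ Lk lay (k0 + j), ∑ x' ∈ Lk lay (k0 + j),
        (cod lay H (k0 + j) x x' *
          (wv lay G k0 a b η (j + 1) x * wv lay G k0 a b η' j x' +
            wv lay G k0 a b η j x * wv lay G k0 a b η' (j + 1) x') +
        edg lay H (k0 + j) x x' * wv lay G k0 a b η j x * wv lay G k0 a b η' j x') := by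
  simp only [mul_add, Finset.sum_add_distrib]
  rw [cod_sum, cod_sum, edg_sum]
  have e1 : (∑ v, if k0 + j < lay v then
        (∑ x ∈ Lk lay (k0 + j), am H x v * wv lay G k0 a b η (j + 1) x) *
          (∑ x ∈ Lk lay (k0 + j), am H x v * wv lay G k0 a b η' j x) else 0) =
      ∑ v, ∑ v', if lay v ≤ k0 + j ∧ k0 + j < lay v' then
        wv lay H k0 a b η (j + 1) v * (up lay k0 (am H) v v' * wv lay H k0 a b η' (j + 1) v')
        else 0 := by
    rw [Finset.sum_comm]
    apply Finset.sum_congr rfl
    intro v' _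
    by_cases hv : k0 + j < lay v'
    · rw [if_pos hv, ← sum_high hL h _ hv, ← wv_high hL ha hb h η' hv, Finset.sum_mul]
      apply Finset.sum_congr rfl
      intro v _
      by_cases hv2 : lay v ≤ k0 + j
      · rw [if_pos hv2, if_pos ⟨hv2, hv⟩, wv_low hL ha hb h η hv2, up_symm lay k0 H v v']
        ring
      · rw [if_neg hv2, if_neg (fun hh => hv2 hh.1), zero_mul]
    · rw [if_neg hv]
      symm
      exact Finset.sum_eq_zero fun v _ => if_neg fun hh => hv hh.2
  have e2 : (∑ v, if k0 + j < lay v then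
        (∑ x ∈ Lk lay (k0 + j), am H x v * wv lay G k0 a b η j x) *
          (∑ x ∈ Lk lay (k0 + j), am H x v * wv lay G k0 a b η' (j + 1) x) else 0) =
      ∑ v, ∑ v', if k0 + j < lay v ∧ lay v' ≤ k0 + j then
        wv lay H k0 a b η (j + 1) v * (up lay k0 (am H) v v' * wv lay H k0 a b η' (j + 1) v')
        else 0 := by
    apply Finset.sum_congr rfl
    intro v _
    by_cases hv : k0 + j < lay v
    · rw [if_pos hv, ← wv_high hL ha hb h η hv, ← sum_high hL h _ hv, Finset.mul_sum]
      apply Finset.sum_congr rfl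
      intro v' _
      by_cases hv2 : lay v' ≤ k0 + j
      · rw [if_pos hv2, if_pos ⟨hv, hv2⟩, wv_low hL ha hb h η' hv2]
      · rw [if_neg hv2, if_neg (fun hh => hv2 hh.2), mul_zero]
    · rw [if_neg hv]
      symm
      exact Finset.sum_eq_zero fun v' _ => if_neg fun hh => hv hh.1
  rw [e1, e2]
  simp only [← Finset.sum_add_distrib]
  apply Finset.sum_congr rfl
  intro v _
  rw [wv_succ lay H k0 a b η' (j + 1) v, Finset.mul_sum]
  apply Finset.sum_congr rfl
  intro v' _
  by_cases hv : lay v ≤ k0 + j <;> by_cases hv' : lay v' ≤ k0 + j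
  · rw [if_pos ⟨hv, hv'⟩, if_neg (by omega), if_neg (by omega), if_neg (by omega),
      wv_low hL ha hb h η hv, wv_low hL ha hb h η' hv', up_low k0 h hv hv']
    ring
  · rw [if_neg (by omega), if_pos (by omega), if_neg (by omega), if_neg (by omega)]
    ring
  · rw [if_neg (by omega), if_neg (by omega), if_pos (by omega), if_neg (by omega)]
    ring
  · rw [if_neg (by omega), if_neg (by omega), if_neg (by omega), if_pos (by omega),
      wv_high hL ha hb h η (by omega), wv_high hL ha hb h η' (by omega)]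
    have : k0 ≤ lay v ∧ k0 ≤ lay v' := ⟨by omega, by omega⟩
    simp only [up, Matrix.of_apply, this, and_self, if_true]
    ring

end Dec

open Dec in
theorem pDec : StDec := by
  intro V _ _ lay G H k0 a b j hL ha hb h hM
  have hG : Ag2 lay G G (k0 + j) := ⟨fun _ _ _ => Iff.rfl, fun _ _ _ _ => Iff.rfl⟩
  have hm : ∀ (η η' : ℤ × ℤ) (i i' : ℕ),
      ∑ v, wv lay H k0 a b η i v * wv lay H k0 a b η' i' v =
        ∑ v, wv lay G k0 a b η i v * wv lay G k0 a b η' i' v := by
    intro η η' i i'
    rw [mom, mom, (hM (i + i')).1, (hM (i + i')).2.1, (hM (i + i')).2.2]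
  constructor
  · intro η η'
    have e := hm η η' (j + 1) (j + 1)
    rw [even_formula hL ha hb h, even_formula hL ha hb hG, add_right_inj] at e
    simp only [sub_mul, Finset.sum_sub_distrib]
    exact sub_eq_zero.2 e
  · intro η η'
    have e := hm η η' (j + 1) (j + 1 + 1)
    rw [odd_formula hL ha hb h, odd_formula hL ha hb hG, add_right_inj] at e
    rw [← sub_eq_zero, ← Finset.sum_sub_distrib] at e
    rw [← e]
    refine Finset.sum_congr rfl fun x _ => ?_
    rw [← Finset.sum_sub_distrib]
    refine Finset.sum_congr rfl fun x' _ => by ring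

end Pool.Agent.P.MP_f57657_co.SX
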