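import Pool.Agent.P.MP_f57657_co.SX.Defs

/-! The two moment equations determine the data on each layer of the concrete graphs. -/

open Matrix Finset

namespace Pool.Agent.P.MP_f57657_co.SX

namespace Decod

theorem valid0 (P : Par) (hS : P.Shape) {k : ℕ} (h0 : P.k0 ≤ k) (hk : k < P.L) : P.valid k 0 := by
  have h1 := hS.m1
  have h2 := hS.lt
  refine ⟨hk, Or.inr ⟨by omega, by omega, ?_⟩⟩
  simp only [Par.birth, if_true]
  omega

theorem valid1 (P : Par) (hS : P.Shape) {k : ℕ} (h0 : P.k0 ≤ k) (hk : k < P.L) : P.valid k 1 := by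
  have h1 := hS.m1
  have h2 := hS.lt
  refine ⟨hk, Or.inr ⟨by omega, by omega, ?_⟩⟩
  simp only [Par.birth, one_ne_zero, if_false, if_true]
  omega

theorem wire_ge (P : Par) {k : ℕ} {x : P.VV} (hx : P.lay x = k) (hu : x ≠ P.vx k 0)
    (hv : x ≠ P.vx k 1) : 2 ≤ P.wire x := by
  by_contra h
  have h3 := P.vx_eq x
  rw [hx] at h3
  have h4 : P.wire x = 0 ∨ P.wire x = 1 := by omega
  rcases h4 with h4 | h4
  · rw [h4] at h3; exact hu h3.symm
  · rw [h4] at h3; exact hv h3.symm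

theorem wire_lt (P : Par) (hS : P.Shape) {k : ℕ} (h0 : P.k0 ≤ k) {x : P.VV} (hx : P.lay x = k) :
    P.wire x < 2 * P.h + 2 := by
  have h1 := hS.m1
  have h2 := hS.lt
  have h3 := P.valid_vx x
  rw [hx] at h3
  rcases h3.2 with h4 | h4
  · omega
  · exact h4.2.1

theorem mem_Lk {V : Type} [Fintype V] [DecidableEq V] (lay : V → ℕ) (k : ℕ) (x : V) :
    x ∈ Lk lay k ↔ lay x = k := by simp [Lk]

end Decod

open Decod

theorem pDecod (hC : StCard) (hW : StWt) (hA : StAges) (h1 : StCod) (h2 : StEdg) (hD : StDat)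
    (hU : StUniq) (hT : StTap) : StDecod := by
  intro P act e hS hZ j C E hDat hEv hOd x x' hx hx'
  have hk : P.k0 + j < P.L := by
    have h := (P.valid_vx x).1
    rwa [hx] at h
  have h0 : P.k0 ≤ P.k0 + j := Nat.le_add_right _ _
  have hn : Fintype.card P.VV = P.tw + P.rest := (hC P hS).1
  obtain ⟨hAg, hage1, hage2⟩ := hA P e hS hZ (P.k0 + j) h0 hk
  obtain ⟨hη, htap⟩ := hW P act hS j hk
  choose η hη using hη
  obtain ⟨c1, c2, c3, c4, c5⟩ := h1 P act hS (P.k0 + j) h0 hk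
  obtain ⟨e1, e2, e3, e4, -⟩ := h2 P act hS (P.k0 + j) h0 hk
  have hG := hD P.VV P.lay (P.gr act) (P.k0 + j)
  rw [hn] at hG hDat
  have v0 := valid0 P hS h0 hk
  have v1 := valid1 P hS h0 hk
  have lu := P.lay_vx v0
  have lv := P.lay_vx v1
  have wu := P.wire_vx v0
  have wv1 := P.wire_vx v1
  have hNull : Null (Lk P.lay (P.k0 + j)) (P.vx (P.k0 + j) 0) (P.vx (P.k0 + j) 1) P.age
      (fun x x' => C x x' - cod P.lay (P.gr act) (P.k0 + j) x x') := by
    intro y y'
    rw [← hEv (η y) (η y')]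
    refine sum_congr rfl fun a ha => sum_congr rfl fun b hb => ?_
    rw [hη y a ((mem_Lk _ _ _).1 ha), hη y' b ((mem_Lk _ _ _).1 hb)]
  have hxL := (mem_Lk P.lay (P.k0 + j) x).2 hx
  have hxL' := (mem_Lk P.lay (P.k0 + j) x').2 hx'
  by_cases hb : ∃ w, 2 ≤ w ∧ w < 2 * P.h + 2 ∧ P.birth w = P.k0 + j
  · obtain ⟨d1, d2, d3, d4⟩ := c5 hb
    have e5 := e4 hb
    obtain ⟨w, w2, wlt, wb⟩ := hb
    have hm1 := hS.m1
    have hlt := hS.lt
    have vm : P.valid (P.k0 + j) w := ⟨hk, Or.inr ⟨by omega, wlt, wb.le⟩⟩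
    have lm := P.lay_vx vm
    have wm := P.wire_vx vm
    have key := hT P.VV (Lk P.lay (P.k0 + j)) (P.vx (P.k0 + j) 0) (P.vx (P.k0 + j) 1)
      (P.vx (P.k0 + j) w) P.age (P.tw + P.rest) e C E (cod P.lay (P.gr act) (P.k0 + j))
      (fun y => wv P.lay (P.gr act) P.k0 (P.vx P.k0 0) (P.vx P.k0 1) (η y) (j + 1)) hAg
      ((mem_Lk _ _ _).2 lm)
      (fun h => by rw [h, wu] at wm; omega) (fun h => by rw [h, wv1] at wm; omega)
      (hage1 _ lm (by rw [wm]; exact w2) (by rw [wm]; exact wb)) hDat hG.Csym d1 d2 d3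
      (fun a ha hu hv => by
        have la := (mem_Lk _ _ _).1 ha
        have wa := wire_ge P la hu hv
        exact ⟨d4 a la wa, fun i hi hia => c1 i a ((mem_Lk _ _ _).1 hi) la hia (Or.inr wa)⟩)
      (fun y => by
        have h := htap (η y) w w2 wlt wb
        rw [hη y _ lu] at h
        simpa only [cw, if_true] using h)
      hNull
      (fun y y' => by
        rw [← hOd (η y) (η y')]
        refine sum_congr rfl fun a ha => sum_congr rfl fun b hb => ?_
        have la := (mem_Lk _ _ _).1 ha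
        have lb := (mem_Lk _ _ _).1 hb
        rw [hη y a la, hη y' b lb, e5 a b la lb, sub_zero])
      x hxL x' hxL'
    exact ⟨key.1, by rw [key.2, e5 x x' hx hx']⟩
  · have hage : ∀ a ∈ Lk P.lay (P.k0 + j), a ≠ P.vx (P.k0 + j) 0 → a ≠ P.vx (P.k0 + j) 1 →
        2 ≤ P.age a := by
      intro a ha hu hv
      have la := (mem_Lk _ _ _).1 ha
      have wa := wire_ge P la hu hv
      exact hage2 a la wa fun h => hb ⟨_, wa, wire_lt P hS h0 la, h⟩
    have hnn : ((P.tw + P.rest : ℕ) : ℤ) ≤ ((P.tw + P.rest : ℕ) : ℤ) ^ 2 := by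
      exact_mod_cast Nat.le_self_pow (by norm_num) _
    have hN : ((8 * (P.tw + P.rest) ^ 2 : ℕ) : ℤ) = 8 * ((P.tw + P.rest : ℕ) : ℤ) ^ 2 := by
      push_cast; ring
    have hsq : (0 : ℤ) ≤ ((P.tw + P.rest : ℕ) : ℤ) ^ 2 := sq_nonneg _
    have k1 := hU P.VV (Lk P.lay (P.k0 + j)) (P.vx (P.k0 + j) 0) (P.vx (P.k0 + j) 1) P.age
      (8 * (P.tw + P.rest) ^ 2) e (fun x x' => C x x' - cod P.lay (P.gr act) (P.k0 + j) x x')
      hAg hage (fun a b => by rw [hDat.Csym a b, hG.Csym a b])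
      (fun a _ b _ => by
        have := hDat.C0 a b; have := hDat.Cn a b; have := hG.C0 a b; have := hG.Cn a b
        rw [hN, abs_le]; constructor <;> linarith)
      (fun a ha hu hv => by
        have la := (mem_Lk _ _ _).1 ha
        have wa := wire_ge P la hu hv
        rw [c1 _ a lu la hu.symm (Or.inr wa), c1 _ a lv la hv.symm (Or.inr wa), sub_zero, sub_zero]
        exact ⟨hDat.C0 _ _, hDat.C0 _ _⟩)
      (by have := c2 _ lu; have := hDat.C0 (P.vx (P.k0 + j) 0) (P.vx (P.k0 + j) 0); linarith)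
      (by have := c2 _ lv; have := hDat.C0 (P.vx (P.k0 + j) 1) (P.vx (P.k0 + j) 1); linarith)
      (by have := hDat.C0 (P.vx (P.k0 + j) 0) (P.vx (P.k0 + j) 1); linarith)
      (fun a ha hu hv hlt => by
        have la := (mem_Lk _ _ _).1 ha
        have wa := wire_ge P la hu hv
        have h3 := c3 a la wa
        rw [c1 _ a lu la hu.symm (Or.inr wa), c1 _ a lv la hv.symm (Or.inr wa), sub_zero, sub_zero,
          hDat.Csym _ a, hDat.Csym _ a]
        have h4 := hDat.Cle a (P.vx (P.k0 + j) 0)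
        have h5 := hDat.Cle a (P.vx (P.k0 + j) 1)
        have h6 := hDat.C0 a (P.vx (P.k0 + j) 0)
        have h7 := hDat.C0 a (P.vx (P.k0 + j) 1)
        constructor <;> omega)
      hNull
    have hNull2 : Null (Lk P.lay (P.k0 + j)) (P.vx (P.k0 + j) 0) (P.vx (P.k0 + j) 1) P.age
        (fun x x' => E x x' - edg P.lay (P.gr act) (P.k0 + j) x x') := by
      intro y y'
      rw [← hOd (η y) (η y')]
      refine sum_congr rfl fun a ha => sum_congr rfl fun b hb => ?_
      have h3 : C a b - cod P.lay (P.gr act) (P.k0 + j) a b = 0 := k1 a ha b hb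
      rw [h3, zero_mul, zero_add, hη y a ((mem_Lk _ _ _).1 ha), hη y' b ((mem_Lk _ _ _).1 hb)]
    have k2 := hU P.VV (Lk P.lay (P.k0 + j)) (P.vx (P.k0 + j) 0) (P.vx (P.k0 + j) 1) P.age
      (8 * (P.tw + P.rest) ^ 2) e (fun x x' => E x x' - edg P.lay (P.gr act) (P.k0 + j) x x')
      hAg hage (fun a b => by rw [hDat.Esym a b, hG.Esym a b])
      (fun a _ b _ => by
        have := hDat.E0 a b; have := hDat.En a b; have := hG.E0 a b; have := hG.En a b
        rw [hN, abs_le]; constructor <;> linarith)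
      (fun a ha hu hv => by
        have la := (mem_Lk _ _ _).1 ha
        have wa := wire_ge P la hu hv
        rw [e2 _ a lu la (by omega) wa, e2 _ a lv la (by omega) wa, sub_zero, sub_zero]
        exact ⟨hDat.E0 _ _, hDat.E0 _ _⟩)
      (by have := e1 _ lu; have := hDat.E0 (P.vx (P.k0 + j) 0) (P.vx (P.k0 + j) 0); linarith)
      (by have := e1 _ lv; have := hDat.E0 (P.vx (P.k0 + j) 1) (P.vx (P.k0 + j) 1); linarith)
      (by have := hDat.E0 (P.vx (P.k0 + j) 0) (P.vx (P.k0 + j) 1); linarith)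
      (fun a ha hu hv hlt => by
        have la := (mem_Lk _ _ _).1 ha
        have h3 := e1 a la
        have h4 := hDat.E0 a a
        exact absurd hlt (by linarith))
      hNull2
    exact ⟨sub_eq_zero.1 (k1 x hxL x' hxL'), sub_eq_zero.1 (k2 x hxL x' hxL')⟩

end Pool.Agent.P.MP_f57657_co.SX
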