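import Mathlib

/-! Interface for the superexponential family of graphs determined by their spectrum. -/

open Matrix Finset

namespace Pool.Agent.P.MP_f57657_co.SX

section Abstract

variable {V : Type} [Fintype V] [DecidableEq V]

open Classical in
/-- Integer adjacency matrix. -/
noncomputable def am (G : SimpleGraph V) : Matrix V V ℤ :=
  Matrix.of fun x y => if G.Adj x y then 1 else 0

/-- Real adjacency matrix. -/
noncomputable def amR (G : SimpleGraph V) : Matrix V V ℝ := (am G).map (Int.cast : ℤ → ℝ)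

/-- Same characteristic polynomial. -/
def Cosp (G H : SimpleGraph V) : Prop := (am H).charpoly = (am G).charpoly

/-- Determined by the spectrum among graphs on the same vertex type. -/
def DSV (G : SimpleGraph V) : Prop := ∀ H : SimpleGraph V, Cosp G H → Nonempty (H ≃g G)

/-- The part of a matrix on the layers from `k` on. -/
def up (lay : V → ℕ) (k : ℕ) (A : Matrix V V ℤ) : Matrix V V ℤ :=
  Matrix.of fun x y => if k ≤ lay x ∧ k ≤ lay y then A x y else 0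

/-- Layer `k`. -/
def Lk (lay : V → ℕ) (k : ℕ) : Finset V := univ.filter fun x => lay x = k

/-- Layers from `k` on. -/
def Uk (lay : V → ℕ) (k : ℕ) : Finset V := univ.filter fun x => k ≤ lay x

/-- All edges at vertices of layers below `k` agree. -/
def Ag1 (lay : V → ℕ) (G H : SimpleGraph V) (k : ℕ) : Prop :=
  ∀ x y, lay x < k → (H.Adj x y ↔ G.Adj x y)

/-- In addition the edges inside layer `k` agree. -/
def Ag2 (lay : V → ℕ) (G H : SimpleGraph V) (k : ℕ) : Prop :=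
  Ag1 lay G H k ∧ ∀ x y, lay x = k → lay y = k → (H.Adj x y ↔ G.Adj x y)

/-- Edges change the layer by at most one. -/
def Layered (lay : V → ℕ) (G : SimpleGraph V) : Prop := ∀ x y, G.Adj x y → lay y ≤ lay x + 1

/-- Number of common neighbours above layer `k`. -/
noncomputable def cod (lay : V → ℕ) (H : SimpleGraph V) (k : ℕ) (x x' : V) : ℤ :=
  ∑ v, if k < lay v then am H x v * am H x' v else 0

/-- Number of walks of length three whose two inner vertices are above layer `k`. -/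
noncomputable def edg (lay : V → ℕ) (H : SimpleGraph V) (k : ℕ) (x x' : V) : ℤ :=
  ∑ v, ∑ v', if k < lay v ∧ k < lay v' then am H x v * am H v v' * am H x' v' else 0

/-- A set of pairwise adjacent twins. -/
def Twins (H : SimpleGraph V) (T : Finset V) : Prop :=
  (∀ s ∈ T, ∀ s' ∈ T, s ≠ s' → H.Adj s s') ∧
    ∀ s ∈ T, ∀ s' ∈ T, ∀ x, x ∉ T → (H.Adj s x ↔ H.Adj s' x)

/-- The matrix `A + 1` on the vertices other than the twins different from `t0` has trivial kernel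
modulo every prime. -/
def KerOK (G : SimpleGraph V) (T : Finset V) (t0 : V) : Prop :=
  ∀ (p : ℕ), p.Prime → ∀ f : V → ZMod p, (∀ t ∈ T, t ≠ t0 → f t = 0) →
    (∀ x, (x ∈ T → x = t0) → f x + ∑ y, ((am G x y : ℤ) : ZMod p) * f y = 0) → ∀ x, f x = 0

/-- Clique, then a path `pv 1, ..., pv k1`; degree bound `β` away from layer `0`. -/
structure Front (lay : V → ℕ) (G : SimpleGraph V) (k1 β : ℕ) (pv : ℕ → V) : Prop where
  layered : Layered lay G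
  two_le : 2 ≤ k1
  clique : ∀ x y, lay x = 0 → lay y = 0 → x ≠ y → G.Adj x y
  pv_lay : ∀ j, 1 ≤ j → j ≤ k1 → lay (pv j) = j
  pv_uniq : ∀ x, 1 ≤ lay x → lay x ≤ k1 → x = pv (lay x)
  pv_adj : ∀ x, lay x < k1 → G.Adj x (pv (lay x + 1))
  deg : ∀ x, 1 ≤ lay x → ∑ y, up lay 1 (am G) x y ≤ (β : ℤ)
  big : 2 * β + 2 ≤ (Lk lay 0).card

/-- Two bare paths `a`, `b` on the layers `k1 + 1, ..., k0 + 1`, with a rung in the last one. -/
structure Paths (lay : V → ℕ) (G : SimpleGraph V) (k1 k0 : ℕ) (ρ : V) (a b : ℕ → V) : Prop where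
  layered : Layered lay G
  lt : k1 < k0
  rho_lay : lay ρ = k1
  rho_uniq : ∀ x, lay x = k1 → x = ρ
  a_lay : ∀ j, k1 < j → j ≤ k0 + 1 → lay (a j) = j
  b_lay : ∀ j, k1 < j → j ≤ k0 + 1 → lay (b j) = j
  ne : ∀ j, k1 < j → j ≤ k0 + 1 → a j ≠ b j
  uniq : ∀ x, k1 < lay x → lay x ≤ k0 + 1 → x = a (lay x) ∨ x = b (lay x)
  rho_a : G.Adj ρ (a (k1 + 1))
  rho_b : G.Adj ρ (b (k1 + 1))
  aa : ∀ j, k1 < j → j ≤ k0 → G.Adj (a j) (a (j + 1))
  bb : ∀ j, k1 < j → j ≤ k0 → G.Adj (b j) (b (j + 1))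
  ab : ∀ j, k1 < j → j ≤ k0 → ¬ G.Adj (a j) (b (j + 1))
  ba : ∀ j, k1 < j → j ≤ k0 → ¬ G.Adj (b j) (a (j + 1))
  bare : ∀ j, k1 < j → j ≤ k0 → ¬ G.Adj (a j) (b j)
  rung : G.Adj (a (k0 + 1)) (b (k0 + 1))

/-- `det (1 - X A)` as a power series. -/
noncomputable def dd (A : Matrix V V ℤ) : PowerSeries ℤ :=
  (1 - (PowerSeries.X : PowerSeries ℤ) • A.map (PowerSeries.C : ℤ → PowerSeries ℤ)).det

/-- Walk generating function. -/
noncomputable def res (A : Matrix V V ℤ) (x y : V) : PowerSeries ℤ :=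
  PowerSeries.mk fun k => (A ^ k) x y

/-- A power series that is a polynomial of degree at most `d`. -/
def PD (f : PowerSeries ℤ) (d : ℕ) : Prop := ∀ k, d < k → PowerSeries.coeff k f = 0

/-- Equal closed walk counts at `ρ` in the layers from `k` on. -/
def Mom1 (lay : V → ℕ) (G H : SimpleGraph V) (k : ℕ) (ρ : V) : Prop :=
  ∀ j, (up lay k (am H) ^ j) ρ ρ = (up lay k (am G) ^ j) ρ ρ

/-- Equal walk counts between two roots; `a'`, `b'` are the roots used in `H`. -/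
def Mom2 (lay : V → ℕ) (G H : SimpleGraph V) (k : ℕ) (a b a' b' : V) : Prop :=
  ∀ j, (up lay k (am H) ^ j) a' a' = (up lay k (am G) ^ j) a a ∧
    (up lay k (am H) ^ j) b' b' = (up lay k (am G) ^ j) b b ∧
    (up lay k (am H) ^ j) a' b' = (up lay k (am G) ^ j) a b

/-- Weighted walk counts from the two roots in `G`. -/
noncomputable def wv (lay : V → ℕ) (G : SimpleGraph V) (k0 : ℕ) (a b : V) (η : ℤ × ℤ) (i : ℕ) :
    V → ℤ :=
  (up lay k0 (am G) ^ i) *ᵥ fun x => (if x = a then η.1 else 0) + (if x = b then η.2 else 0)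

/-- What every pair (codegrees, edge counts) satisfies. -/
structure Dat (n : ℕ) (C E : V → V → ℤ) : Prop where
  Csym : ∀ x y, C x y = C y x
  Esym : ∀ x y, E x y = E y x
  C0 : ∀ x y, 0 ≤ C x y
  Cn : ∀ x y, C x y ≤ n
  E0 : ∀ x y, 0 ≤ E x y
  En : ∀ x y, E x y ≤ (n : ℤ) ^ 2
  Cle : ∀ x y, C x y ≤ C x x
  CE : ∀ x y, C x x = 0 → E x y = 0

/-- The equation given by the even moment. -/
def EvenEq (lay : V → ℕ) (G : SimpleGraph V) (k0 : ℕ) (a b : V) (j : ℕ) (C : V → V → ℤ) : Prop :=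
  ∀ η η' : ℤ × ℤ, ∑ x ∈ Lk lay (k0 + j), ∑ x' ∈ Lk lay (k0 + j),
    (C x x' - cod lay G (k0 + j) x x') * wv lay G k0 a b η j x * wv lay G k0 a b η' j x' = 0

/-- The equation given by the odd moment. -/
def OddEq (lay : V → ℕ) (G : SimpleGraph V) (k0 : ℕ) (a b : V) (j : ℕ) (C E : V → V → ℤ) : Prop :=
  ∀ η η' : ℤ × ℤ, ∑ x ∈ Lk lay (k0 + j), ∑ x' ∈ Lk lay (k0 + j),
    ((C x x' - cod lay G (k0 + j) x x') *
        (wv lay G k0 a b η (j + 1) x * wv lay G k0 a b η' j x' +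
          wv lay G k0 a b η j x * wv lay G k0 a b η' (j + 1) x') +
      (E x x' - edg lay G (k0 + j) x x') * wv lay G k0 a b η j x * wv lay G k0 a b η' j x') = 0

/-- The two equations determine the data on layer `k0 + j`. -/
def Decodable (lay : V → ℕ) (G : SimpleGraph V) (k0 : ℕ) (a b : V) (j : ℕ) : Prop :=
  ∀ C E : V → V → ℤ, Dat (Fintype.card V) C E → EvenEq lay G k0 a b j C →
    OddEq lay G k0 a b j C E → ∀ x x', lay x = k0 + j → lay x' = k0 + j →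
      C x x' = cod lay G (k0 + j) x x' ∧ E x x' = edg lay G (k0 + j) x x'

/-- Only one pair of vertices of layer `k` can have a common neighbour above. -/
def OnePair (lay : V → ℕ) (G : SimpleGraph V) (k : ℕ) : Prop :=
  ∃ u v : V, ∀ x x', lay x = k → lay x' = k → x ≠ x' → cod lay G k x x' ≠ 0 →
    (x = u ∧ x' = v) ∨ (x = v ∧ x' = u)

/-- Non-edges of layer `k + 1` are seen from layer `k`. -/
def Seen (lay : V → ℕ) (G : SimpleGraph V) (k : ℕ) : Prop :=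
  ∀ y y', lay y = k + 1 → lay y' = k + 1 → y ≠ y' → ¬ G.Adj y y' →
    ∃ x x', lay x = k ∧ lay x' = k ∧ G.Adj x y ∧ G.Adj x' y' ∧ edg lay G k x x' = 0

/-- Every vertex of layer `k + 1` has a neighbour in layer `k`. -/
def HasParent (lay : V → ℕ) (G : SimpleGraph V) (k : ℕ) : Prop :=
  ∀ y, lay y = k + 1 → ∃ x, lay x = k ∧ G.Adj x y

/-- Weight of a wire of age `t x` in terms of the values at the two generators. -/
def cw (u v : V) (t : V → ℕ) (y : ℤ × ℤ) (x : V) : ℤ :=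
  if x = u then y.1 else if x = v then y.2 else
    (-1) ^ t x * ((Nat.fib (t x + 1) : ℤ) * y.2 - (Nat.fib (t x) : ℤ) * y.1)

/-- The ages of the old wires form a well separated Sidon set of one parity. -/
structure Ages (L : Finset V) (u v : V) (t : V → ℕ) (N e : ℕ) : Prop where
  hu : u ∈ L
  hv : v ∈ L
  huv : u ≠ v
  pos : ∀ j ∈ L, j ≠ u → j ≠ v → 1 ≤ t j
  par : ∀ i ∈ L, ∀ j ∈ L, i ≠ u → i ≠ v → j ≠ u → j ≠ v → t i % 2 = t j % 2
  sid : ∀ i ∈ L, ∀ j ∈ L, ∀ k ∈ L, ∀ l ∈ L, i ≠ u → i ≠ v → j ≠ u → j ≠ v → k ≠ u → k ≠ v →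
    l ≠ u → l ≠ v → ¬ ((i = k ∧ j = l) ∨ (i = l ∧ j = k)) →
      t i + t j + (2 * e + 4) ≤ t k + t l ∨ t k + t l + (2 * e + 4) ≤ t i + t j
  card : L.card ^ 2 ≤ N
  big : 17 * N ^ 3 ≤ 2 ^ e

/-- The form with matrix `D` vanishes on all weight vectors. -/
def Null (L : Finset V) (u v : V) (t : V → ℕ) (D : V → V → ℤ) : Prop :=
  ∀ y y' : ℤ × ℤ, ∑ x ∈ L, ∑ x' ∈ L, D x x' * cw u v t y x * cw u v t y' x' = 0

end Abstract

/-! ### Statements of the abstract packages -/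

def StSim : Prop := ∀ (V : Type) [Fintype V] [DecidableEq V] (G H : SimpleGraph V), Cosp G H →
  ∃ U : Matrix V V ℝ, Uᵀ * U = 1 ∧ U * Uᵀ = 1 ∧ amR H = Uᵀ * amR G * U

def StTwins : Prop := ∀ (V : Type) [Fintype V] [DecidableEq V] (G H : SimpleGraph V)
  (T : Finset V) (t0 : V), t0 ∈ T → Twins G T → KerOK G T t0 → Cosp G H →
  ∃ T' : Finset V, T'.card = T.card ∧ Twins H T'

def StTop : Prop := ∀ (V : Type) [Fintype V] [DecidableEq V] (lay : V → ℕ) (G H : SimpleGraph V)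
  (k1 β : ℕ) (pv : ℕ → V) (k : ℕ), Front lay G k1 β pv → Cosp G H → k < k1 → Ag2 lay G H k →
  Twins H (Lk lay 0) →
  ∃ v, k < lay v ∧ (∀ x, lay x = k → H.Adj x v) ∧
    ∀ x w, lay x = k → k < lay w → H.Adj x w → w = v

def StDat : Prop := ∀ (V : Type) [Fintype V] [DecidableEq V] (lay : V → ℕ) (H : SimpleGraph V)
  (k : ℕ), Dat (Fintype.card V) (cod lay H k) (edg lay H k)

def StRel : Prop := ∀ (V : Type) [Fintype V] [DecidableEq V] (lay : V → ℕ) (G H : SimpleGraph V)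
  (k : ℕ), Layered lay G → Ag2 lay G H k → OnePair lay G k →
  (∀ x x', lay x = k → lay x' = k → cod lay H k x x' = cod lay G k x x') →
  ∃ π : Equiv.Perm V, (∀ x, lay x ≤ k → π x = x) ∧ Ag1 lay G (H.comap π) (k + 1)

def StEdge : Prop := ∀ (V : Type) [Fintype V] [DecidableEq V] (lay : V → ℕ) (G H : SimpleGraph V)
  (k : ℕ), Layered lay G → Ag1 lay G H (k + 1) → Seen lay G k → HasParent lay G k →
  (∀ x x', lay x = k → lay x' = k → edg lay H k x x' = edg lay G k x x') → Ag2 lay G H (k + 1)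

def StGlue : Prop := ∀ (V : Type) [Fintype V] [DecidableEq V] (ι : Type) [Fintype ι]
  [DecidableEq ι] (A A1 A2 : Matrix V V ℤ) (y r : ι → V) (Q : V → Prop),
  (∀ x x', A1 x x' ≠ 0 → Q x ∧ Q x') → (∀ x x', A2 x x' ≠ 0 → ¬ Q x ∧ ¬ Q x') →
  (∀ i, Q (y i)) → (∀ i, ¬ Q (r i)) →
  (∀ x x', A x x' = A1 x x' + A2 x x' + (∑ i, if x = y i ∧ x' = r i then 1 else 0) +
    ∑ i, if x = r i ∧ x' = y i then 1 else 0) →
  dd A = dd A1 * dd A2 * (1 - ((PowerSeries.X : PowerSeries ℤ) ^ 2) •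
      ((Matrix.of fun i j => res A1 (y i) (y j)) *
        (Matrix.of fun i j => res A2 (r i) (r j)) : Matrix ι ι (PowerSeries ℤ))).det ∧
    (Matrix.of fun i j => res A (y i) (y j) : Matrix ι ι (PowerSeries ℤ)) =
      (Matrix.of fun i j => res A1 (y i) (y j)) + ((PowerSeries.X : PowerSeries ℤ) ^ 2) •
        ((Matrix.of fun i j => res A1 (y i) (y j)) * (Matrix.of fun i j => res A2 (r i) (r j)) *
          (Matrix.of fun i j => res A (y i) (y j)))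

def StBasic : Prop := ∀ (V : Type) [Fintype V] [DecidableEq V],
  dd (0 : Matrix V V ℤ) = 1 ∧
  (∀ x y : V, res (0 : Matrix V V ℤ) x y = if x = y then 1 else 0) ∧
  (∀ A : Matrix V V ℤ, dd A ≠ 0) ∧
  (∀ A B : Matrix V V ℤ, A.charpoly = B.charpoly → dd A = dd B) ∧
  (∀ A : Matrix V V ℤ, A.IsSymm → ∀ x y, res A x y = res A y x) ∧
  ∀ (A : Matrix V V ℤ) (R : Finset V), (∀ x y, A x y ≠ 0 → x ∈ R) →
    PD (dd A) R.card ∧ ∀ x y, PD (dd A * res A x y) R.card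

def StSep : Prop := ∀ (a : ℕ → PowerSeries ℤ) (u : PowerSeries ℤ) (r l : ℕ),
  (∀ j, j + 2 ≤ l → a (j + 2) = a (j + 1) - PowerSeries.X ^ 2 * a j) →
  PD (a 0) r → PD (a 1) (r + 1) → a l = PowerSeries.X ^ 2 * u * a (l - 1) → r + 2 ≤ l →
  a 0 = 0 ∧ a 1 = 0

def StOne : Prop := ∀ (V : Type) [Fintype V] [DecidableEq V] (lay : V → ℕ) (G H : SimpleGraph V)
  (k1 β : ℕ) (pv : ℕ → V), Front lay G k1 β pv → Cosp G H → Ag1 lay G H k1 →
  (Uk lay k1).card + 3 ≤ k1 →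
  dd (up lay k1 (am H)) = dd (up lay k1 (am G)) ∧ Mom1 lay G H k1 (pv k1)

def StTwo : Prop := ∀ (V : Type) [Fintype V] [DecidableEq V] (lay : V → ℕ) (G H : SimpleGraph V)
  (k1 k0 : ℕ) (ρ : V) (a b : ℕ → V), Paths lay G k1 k0 ρ a b → Ag1 lay G H k0 →
  dd (up lay k1 (am H)) = dd (up lay k1 (am G)) → Mom1 lay G H k1 ρ →
  (Uk lay k0).card + k1 + 6 ≤ k0 →
  Mom2 lay G H k0 (a k0) (b k0) (a k0) (b k0) ∨ Mom2 lay G H k0 (a k0) (b k0) (b k0) (a k0)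

def StForce : Prop := ∀ (V : Type) [Fintype V] [DecidableEq V] (lay : V → ℕ)
  (G H : SimpleGraph V) (k1 k0 : ℕ) (ρ : V) (a b : ℕ → V) (k : ℕ), Paths lay G k1 k0 ρ a b →
  k1 ≤ k → k < k0 → Ag2 lay G H k → Mom1 lay G H k1 ρ →
  ∀ x x', lay x = k → lay x' = k →
    cod lay H k x x' = cod lay G k x x' ∧ edg lay H k x x' = edg lay G k x x'

def StDec : Prop := ∀ (V : Type) [Fintype V] [DecidableEq V] (lay : V → ℕ) (G H : SimpleGraph V)
  (k0 : ℕ) (a b : V) (j : ℕ), Layered lay G → lay a = k0 → lay b = k0 → Ag2 lay G H (k0 + j) →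
  Mom2 lay G H k0 a b a b →
  EvenEq lay G k0 a b j (cod lay H (k0 + j)) ∧
    OddEq lay G k0 a b j (cod lay H (k0 + j)) (edg lay H (k0 + j))

def StDom : Prop := ∀ (V : Type) [DecidableEq V] (L : Finset V) (u v : V) (t : V → ℕ) (N e : ℕ)
  (D : V → V → ℤ), Ages L u v t N e → (∀ x y, D x y = D y x) →
  (∀ x ∈ L, ∀ y ∈ L, |D x y| ≤ N) →
  (∀ j ∈ L, j ≠ u → j ≠ v → 0 ≤ D u j ∧ 0 ≤ D v j) → Null L u v t D →
  ∀ j ∈ L, j ≠ u → j ≠ v → (∃ m ∈ L, m ≠ u ∧ m ≠ v ∧ t m < t j) → ∀ i ∈ L, D i j = 0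

def StUniq : Prop := ∀ (V : Type) [DecidableEq V] (L : Finset V) (u v : V) (t : V → ℕ) (N e : ℕ)
  (D : V → V → ℤ), Ages L u v t N e → (∀ j ∈ L, j ≠ u → j ≠ v → 2 ≤ t j) →
  (∀ x y, D x y = D y x) → (∀ x ∈ L, ∀ y ∈ L, |D x y| ≤ N) →
  (∀ j ∈ L, j ≠ u → j ≠ v → 0 ≤ D u j ∧ 0 ≤ D v j) →
  -3 ≤ D u u → -3 ≤ D v v → -1 ≤ D u v →
  (∀ j ∈ L, j ≠ u → j ≠ v → D j j < 0 → D u j = 0 ∧ D v j = 0) → Null L u v t D →
  ∀ x ∈ L, ∀ y ∈ L, D x y = 0

def StTap : Prop := ∀ (V : Type) [DecidableEq V] (L : Finset V) (u v m : V) (t : V → ℕ)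
  (n e : ℕ) (C E C0 : V → V → ℤ) (c' : ℤ × ℤ → V → ℤ), Ages L u v t (8 * n ^ 2) e →
  m ∈ L → m ≠ u → m ≠ v → t m = 1 → Dat n C E →
  (∀ x y, C0 x y = C0 y x) → C0 u u = 2 → C0 v v = 1 → C0 u v = 1 →
  (∀ j ∈ L, j ≠ u → j ≠ v → C0 j j = 1 ∧ ∀ i ∈ L, i ≠ j → C0 i j = 0) →
  (∀ y, c' y u - c' y v - c' y m = - y.1) →
  Null L u v t (fun x x' => C x x' - C0 x x') →
  (∀ y y' : ℤ × ℤ, ∑ x ∈ L, ∑ x' ∈ L,
    ((C x x' - C0 x x') * (c' y x * cw u v t y' x' + cw u v t y x * c' y' x') +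
      E x x' * cw u v t y x * cw u v t y' x') = 0) →
  ∀ x ∈ L, ∀ x' ∈ L, C x x' = C0 x x' ∧ E x x' = 0

/-! ### The concrete graphs -/

/-- Parameters: number of twins, end of the path, layer of the roots, half the number of old
wires, numbers of generation and active blocks, birth blocks. -/
structure Par where
  tw : ℕ
  k1 : ℕ
  k0 : ℕ
  h : ℕ
  bg : ℕ
  nb : ℕ
  s : ℕ → ℕ

namespace Par

variable (P : Par)

/-- Number of layers. -/
def L : ℕ := P.k0 + 8 + 3 * P.bg + 3 * P.nb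

/-- First layer of a wire. -/
def birth (w : ℕ) : ℕ :=
  if w = 0 then 1 else if w = 1 then P.k1 + 1 else P.k0 + 4 + 3 * P.s (w - 2)

/-- Which pairs (layer, wire) are vertices. -/
def valid (k w : ℕ) : Prop :=
  k < P.L ∧ ((k = 0 ∧ w < P.tw) ∨ (1 ≤ k ∧ w < 2 * P.h + 2 ∧ P.birth w ≤ k))

instance (k w : ℕ) : Decidable (P.valid k w) := by unfold valid; infer_instance

/-- The vertex set. -/
def vs : Finset (ℕ × ℕ) :=
  (range P.L ×ˢ range (P.tw + 2 * P.h + 2)).filter fun q => P.valid q.1 q.2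

/-- The vertex type. -/
abbrev VV : Type := {q : ℕ × ℕ // q ∈ P.vs}

theorem mem_vs (q : ℕ × ℕ) : q ∈ P.vs ↔ P.valid q.1 q.2 := by
  simp only [vs, mem_filter, mem_product, mem_range]
  constructor
  · exact fun h => h.2
  · intro h
    refine ⟨⟨h.1, ?_⟩, h⟩
    rcases h.2 with h | h <;> omega

/-- Layer of a vertex. -/
def lay (x : P.VV) : ℕ := x.1.1

/-- Wire of a vertex. -/
def wire (x : P.VV) : ℕ := x.1.2

theorem valid_vx (x : P.VV) : P.valid (P.lay x) (P.wire x) := (P.mem_vs x.1).1 x.2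

theorem vext {x y : P.VV} (h1 : P.lay x = P.lay y) (h2 : P.wire x = P.wire y) : x = y :=
  Subtype.ext (Prod.ext h1 h2)

theorem valid_one : P.valid 1 0 := by
  refine ⟨by unfold L; omega, Or.inr ⟨le_rfl, by omega, by simp [birth]⟩⟩

/-- The vertex on layer `k` and wire `w` (a fixed vertex when there is none). -/
def vx (k w : ℕ) : P.VV :=
  if h : P.valid k w then ⟨(k, w), (P.mem_vs _).2 h⟩ else ⟨(1, 0), (P.mem_vs _).2 P.valid_one⟩

theorem lay_vx {k w : ℕ} (h : P.valid k w) : P.lay (P.vx k w) = k := by simp [vx, h, lay]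

theorem wire_vx {k w : ℕ} (h : P.valid k w) : P.wire (P.vx k w) = w := by simp [vx, h, wire]

theorem vx_eq (x : P.VV) : P.vx (P.lay x) (P.wire x) = x :=
  P.vext (P.lay_vx (P.valid_vx x)) (P.wire_vx (P.valid_vx x))

/-- The step from layer `k` to layer `k + 1` is a Fibonacci step. -/
def fibs (k : ℕ) : Prop := P.k0 + 3 ≤ k ∧ k < P.k0 + 3 + 3 * P.bg ∧ k % 3 ≠ 1

/-- Wire `i` of layer `k + 1` is adjacent to wire `j` of layer `k`. -/
def down (k i j : ℕ) : Prop :=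
  k = 0 ∨ k = P.k1 ∨
    (P.fibs k ∧ ((i = 0 ∧ j ≤ 1) ∨ (i = 1 ∧ j = 0) ∨ (2 ≤ i ∧ i = j) ∨
      (2 ≤ i ∧ P.birth i = k + 1 ∧ j = 1))) ∨
    (¬ P.fibs k ∧ i = j)

/-- Wires `i` and `j` of layer `k` are adjacent. -/
def inner (act : ℕ → ℕ → ℕ → Prop) (k i j : ℕ) : Prop :=
  i ≠ j ∧ (k = 0 ∨ k = P.k0 + 1 ∨ (i = 1 ∧ 2 ≤ j ∧ P.birth j = k) ∨
    (j = 1 ∧ 2 ≤ i ∧ P.birth i = k) ∨
    (k % 3 = 0 ∧ P.k0 + 4 + 3 * P.bg ≤ k ∧ k + 4 ≤ P.L ∧ 2 ≤ i ∧ 2 ≤ j ∧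
      (act k i j ∨ act k j i)) ∨
    ((k + 3 = P.L ∨ k + 1 = P.L) ∧ i / 2 = j / 2))

theorem inner_symm {act : ℕ → ℕ → ℕ → Prop} {k i j : ℕ} (h : P.inner act k i j) :
    P.inner act k j i := by
  obtain ⟨h0, h⟩ := h
  refine ⟨fun e => h0 e.symm, ?_⟩
  rcases h with h | h | h | h | h | h
  · exact Or.inl h
  · exact Or.inr (Or.inl h)
  · exact Or.inr (Or.inr (Or.inr (Or.inl h)))
  · exact Or.inr (Or.inr (Or.inl h))
  · exact Or.inr (Or.inr (Or.inr (Or.inr (Or.inl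
      ⟨h.1, h.2.1, h.2.2.1, h.2.2.2.2.1, h.2.2.2.1, h.2.2.2.2.2.symm⟩))))
  · exact Or.inr (Or.inr (Or.inr (Or.inr (Or.inr ⟨h.1, h.2.symm⟩))))

/-- The graph with active edges `act`. -/
def gr (act : ℕ → ℕ → ℕ → Prop) : SimpleGraph P.VV where
  Adj x y := (P.lay x = P.lay y ∧ P.inner act (P.lay x) (P.wire x) (P.wire y)) ∨
    (P.lay y = P.lay x + 1 ∧ P.down (P.lay x) (P.wire y) (P.wire x)) ∨
    (P.lay x = P.lay y + 1 ∧ P.down (P.lay y) (P.wire x) (P.wire y))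
  symm := ⟨fun x y h => by
    rcases h with h | h | h
    · exact Or.inl ⟨h.1.symm, h.1 ▸ P.inner_symm h.2⟩
    · exact Or.inr (Or.inr h)
    · exact Or.inr (Or.inl h)⟩
  loopless := ⟨fun x h => by
    rcases h with h | h | h
    · exact h.2.1 rfl
    · omega
    · omega⟩

theorem gr_adj (act : ℕ → ℕ → ℕ → Prop) (x y : P.VV) : (P.gr act).Adj x y ↔
    (P.lay x = P.lay y ∧ P.inner act (P.lay x) (P.wire x) (P.wire y)) ∨
    (P.lay y = P.lay x + 1 ∧ P.down (P.lay x) (P.wire y) (P.wire x)) ∨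
    (P.lay x = P.lay y + 1 ∧ P.down (P.lay y) (P.wire x) (P.wire y)) := Iff.rfl

/-- Number of Fibonacci steps below layer `k`. -/
def tau (k : ℕ) : ℕ :=
  if k ≤ P.k0 + 3 then 0 else if P.k0 + 3 + 3 * P.bg ≤ k then 2 * P.bg else
    2 * ((k - (P.k0 + 3)) / 3) + (k - (P.k0 + 3)) % 3

/-- Age of an old wire. -/
def age (x : P.VV) : ℕ := P.tau (P.lay x) - 2 * P.s (P.wire x - 2)

/-- Number of vertices outside layer `0`. -/
def rest : ℕ := ∑ w ∈ range (2 * P.h + 2), (P.L - P.birth w)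

/-- Shape conditions. -/
structure Shape : Prop where
  m1 : P.k1 % 3 = 2
  m0 : P.k0 % 3 = 2
  lt : P.k1 < P.k0
  slt : ∀ i, i < 2 * P.h → P.s i < P.bg
  sinj : ∀ i j, i < 2 * P.h → j < 2 * P.h → P.s i = P.s j → i = j
  tw : 12 * P.h + 14 ≤ P.tw

/-- Size conditions. -/
structure Size (e : ℕ) : Prop where
  sid : ∀ i j k l, i < 2 * P.h → j < 2 * P.h → k < 2 * P.h → l < 2 * P.h →
    ¬ ((i = k ∧ j = l) ∨ (i = l ∧ j = k)) →
      P.s i + P.s j + (e + 2) ≤ P.s k + P.s l ∨ P.s k + P.s l + (e + 2) ≤ P.s i + P.s j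
  big : 17 * (8 * (P.tw + P.rest) ^ 2) ^ 3 ≤ 2 ^ e
  len0 : (P.L - P.k0) * (2 * P.h + 2) + P.k1 + 6 ≤ P.k0
  len1 : (P.L - P.k0) * (2 * P.h + 2) + 2 * (P.k0 - P.k1) + 3 ≤ P.k1

end Par

/-! ### Statements of the concrete packages -/

def StCard : Prop := ∀ P : Par, P.Shape → Fintype.card P.VV = P.tw + P.rest ∧
  (Lk P.lay 0).card = P.tw ∧
  (Uk P.lay P.k0).card ≤ (P.L - P.k0) * (2 * P.h + 2) ∧
  (Uk P.lay P.k1).card ≤ (P.L - P.k0) * (2 * P.h + 2) + 2 * (P.k0 - P.k1) ∧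
  P.rest ≤ (P.L - P.k0) * (2 * P.h + 2) + 2 * (P.k0 - P.k1) + P.k1

def StFront : Prop := ∀ (P : Par) (act : ℕ → ℕ → ℕ → Prop), P.Shape →
  Front P.lay (P.gr act) P.k1 (6 * P.h + 6) (fun k => P.vx k 0) ∧
  Paths P.lay (P.gr act) P.k1 P.k0 (P.vx P.k1 0) (fun k => P.vx k 0) (fun k => P.vx k 1)

def StConn : Prop := ∀ (P : Par) (act : ℕ → ℕ → ℕ → Prop), P.Shape →
  (∀ k, HasParent P.lay (P.gr act) k) ∧ (P.gr act).Connected ∧
  ∀ x, ∃ y z, y ≠ z ∧ (P.gr act).Adj x y ∧ (P.gr act).Adj x z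

def StKer : Prop := ∀ (P : Par) (act : ℕ → ℕ → ℕ → Prop), P.Shape →
  KerOK (P.gr act) (Lk P.lay 0) (P.vx 0 0)

def StWt : Prop := ∀ (P : Par) (act : ℕ → ℕ → ℕ → Prop), P.Shape → ∀ j, P.k0 + j < P.L →
  (∀ y : ℤ × ℤ, ∃ η : ℤ × ℤ, ∀ x, P.lay x = P.k0 + j →
    wv P.lay (P.gr act) P.k0 (P.vx P.k0 0) (P.vx P.k0 1) η j x =
      cw (P.vx (P.k0 + j) 0) (P.vx (P.k0 + j) 1) P.age y x) ∧
  ∀ (η : ℤ × ℤ) (w : ℕ), 2 ≤ w → w < 2 * P.h + 2 → P.birth w = P.k0 + j →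
    wv P.lay (P.gr act) P.k0 (P.vx P.k0 0) (P.vx P.k0 1) η (j + 1) (P.vx (P.k0 + j) 0) -
      wv P.lay (P.gr act) P.k0 (P.vx P.k0 0) (P.vx P.k0 1) η (j + 1) (P.vx (P.k0 + j) 1) -
      wv P.lay (P.gr act) P.k0 (P.vx P.k0 0) (P.vx P.k0 1) η (j + 1) (P.vx (P.k0 + j) w) =
    - wv P.lay (P.gr act) P.k0 (P.vx P.k0 0) (P.vx P.k0 1) η j (P.vx (P.k0 + j) 0)

def StCod : Prop := ∀ (P : Par) (act : ℕ → ℕ → ℕ → Prop), P.Shape → ∀ k, P.k0 ≤ k → k < P.L →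
  (∀ x x', P.lay x = k → P.lay x' = k → x ≠ x' → (2 ≤ P.wire x ∨ 2 ≤ P.wire x') →
    cod P.lay (P.gr act) k x x' = 0) ∧
  (∀ x, P.lay x = k → cod P.lay (P.gr act) k x x ≤ 2) ∧
  (∀ x, P.lay x = k → 2 ≤ P.wire x → cod P.lay (P.gr act) k x x ≤ 1) ∧
  cod P.lay (P.gr act) k (P.vx k 0) (P.vx k 1) ≤ 1 ∧
  ((∃ w, 2 ≤ w ∧ w < 2 * P.h + 2 ∧ P.birth w = k) →
    cod P.lay (P.gr act) k (P.vx k 0) (P.vx k 0) = 2 ∧
    cod P.lay (P.gr act) k (P.vx k 1) (P.vx k 1) = 1 ∧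
    cod P.lay (P.gr act) k (P.vx k 0) (P.vx k 1) = 1 ∧
    ∀ x, P.lay x = k → 2 ≤ P.wire x → cod P.lay (P.gr act) k x x = 1)

def StEdg : Prop := ∀ (P : Par) (act : ℕ → ℕ → ℕ → Prop), P.Shape → ∀ k, P.k0 ≤ k → k < P.L →
  (∀ x, P.lay x = k → edg P.lay (P.gr act) k x x = 0) ∧
  (∀ x x', P.lay x = k → P.lay x' = k → P.wire x ≤ 1 → 2 ≤ P.wire x' →
    edg P.lay (P.gr act) k x x' = 0) ∧
  edg P.lay (P.gr act) k (P.vx k 0) (P.vx k 1) ≤ 1 ∧
  ((∃ w, 2 ≤ w ∧ w < 2 * P.h + 2 ∧ P.birth w = k) →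
    ∀ x x', P.lay x = k → P.lay x' = k → edg P.lay (P.gr act) k x x' = 0) ∧
  Seen P.lay (P.gr act) k

def StAges : Prop := ∀ (P : Par) (e : ℕ), P.Shape → P.Size e → ∀ k, P.k0 ≤ k → k < P.L →
  Ages (Lk P.lay k) (P.vx k 0) (P.vx k 1) P.age (8 * (P.tw + P.rest) ^ 2) e ∧
  (∀ x, P.lay x = k → 2 ≤ P.wire x → P.birth (P.wire x) = k → P.age x = 1) ∧
  ∀ x, P.lay x = k → 2 ≤ P.wire x → P.birth (P.wire x) ≠ k → 2 ≤ P.age x

def StDecod : Prop := ∀ (P : Par) (act : ℕ → ℕ → ℕ → Prop) (e : ℕ), P.Shape → P.Size e →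
  ∀ j, Decodable P.lay (P.gr act) P.k0 (P.vx P.k0 0) (P.vx P.k0 1) j

def StPar : Prop := ∀ n h : ℕ, 1 ≤ h → 1000000 * (Nat.log 2 n + 1) * h ^ 3 ≤ n →
  ∃ (P : Par) (e : ℕ), P.Shape ∧ P.Size e ∧ P.tw + P.rest = n ∧ P.h = h ∧ P.tw ≤ 12 * h + 16 ∧
    n * h ≤ 200 * ((P.nb + 1) * (h * h))

def StInj : Prop := ∀ P : Par, P.Shape →
  ∃ F : Finset (Fin (P.nb + 1) × Fin P.h × Fin P.h) → (ℕ → ℕ → ℕ → Prop),
    (Function.Injective fun β => P.gr (F β)) ∧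
    ∀ β, (P.gr (F β)).edgeSet.ncard ≤ P.tw ^ 2 + 6 * Fintype.card P.VV + β.card

open Classical in
/-- Determined by the adjacency spectrum. -/
def DS {n : ℕ} (G : SimpleGraph (Fin n)) : Prop :=
  ∀ (m : ℕ) (H : SimpleGraph (Fin m)),
    (H.adjMatrix ℝ).charpoly = (G.adjMatrix ℝ).charpoly → Nonempty (H ≃g G)

open Classical in
/-- A family of pairwise non-isomorphic connected graphs of minimum degree at least two with at
most `M` edges, each determined by its adjacency spectrum. -/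
def GoodFamily {n : ℕ} (M : ℕ) (S : Finset (SimpleGraph (Fin n))) : Prop :=
  (∀ G ∈ S, G.Connected ∧ (∀ v, 2 ≤ G.degree v) ∧ G.edgeSet.ncard ≤ M ∧ DS G) ∧
    ∀ G ∈ S, ∀ G' ∈ S, Nonempty (G ≃g G') → G = G'

def StCount : Prop := ∀ (V : Type) [Fintype V] [DecidableEq V] (ι : Type) [Fintype ι]
  (F : ι → SimpleGraph V) (n M : ℕ), Fintype.card V = n → Function.Injective F →
  (∀ i, (F i).Connected ∧ (∀ x, ∃ y z, y ≠ z ∧ (F i).Adj x y ∧ (F i).Adj x z) ∧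
    (F i).edgeSet.ncard ≤ M ∧ DSV (F i)) →
  ∃ S : Finset (SimpleGraph (Fin n)), GoodFamily M S ∧ Fintype.card ι ≤ S.card * n.factorial

def StAsym : Prop := ∃ c : ℝ, 0 < c ∧ ∃ d0 n0 : ℕ, 7 ≤ d0 ∧ ∀ n ≥ n0, ∀ d ≥ d0,
  (d : ℝ) ≤ c * ((n : ℝ) / Real.log n) ^ ((1 : ℝ) / 3) → ∃ h : ℕ, 1 ≤ h ∧
    1000000 * (Nat.log 2 n + 1) * h ^ 3 ≤ n ∧ ∀ N q : ℕ, n * h ≤ 200 * N →
      N.choose ((d - 7) * n) ≤ q * n.factorial →
      Real.exp (c * d * n * Real.log ((n : ℝ) / ((d : ℝ) ^ 3 * Real.log n))) ≤ q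

end Pool.Agent.P.MP_f57657_co.SX
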