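import Mathlib
import Pool.Agent.P.MP_f57657_co.SX.Defs

/-! Dominance of the top Sidon pair, and the two decoding lemmas. -/

open Finset

namespace Pool.Agent.P.MP_f57657_co.SX

set_option linter.unusedSectionVars false

namespace Dom

lemma fib_pow (x i : ℕ) : 2 ^ i * Nat.fib x ≤ Nat.fib (x + 2 * i) := by
  induction i with
  | zero => simp
  | succ i ih =>
    have h1 : Nat.fib (x + 2 * (i + 1)) = Nat.fib (x + 2 * i) + Nat.fib (x + 2 * i + 1) := by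
      rw [show x + 2 * (i + 1) = x + 2 * i + 2 by ring, Nat.fib_add_two]
    have h2 : Nat.fib (x + 2 * i) ≤ Nat.fib (x + 2 * i + 1) := Nat.fib_le_fib_succ
    rw [pow_succ, mul_right_comm]
    omega

lemma fib_gap {a b c d e : ℕ} (ha : 1 ≤ a) (hb : 1 ≤ b) (h : c + d + (2 * e + 4) ≤ a + b) :
    2 ^ e * (Nat.fib (c + 1) * Nat.fib (d + 1)) ≤ Nat.fib a * Nat.fib b := by
  obtain ⟨a, rfl⟩ : ∃ a', a = a' + 1 := ⟨a - 1, by omega⟩
  obtain ⟨b, rfl⟩ : ∃ b', b = b' + 1 := ⟨b - 1, by omega⟩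
  have h1 := Nat.fib_add c d
  have h2 := Nat.fib_add a b
  have h3 := fib_pow (c + d + 1) (e + 1)
  have h4 : Nat.fib (c + d + 1 + 2 * (e + 1)) ≤ Nat.fib (a + b + 1) := Nat.fib_mono (by omega)
  have h5 : Nat.fib a * Nat.fib b ≤ Nat.fib (a + 1) * Nat.fib (b + 1) :=
    Nat.mul_le_mul Nat.fib_le_fib_succ Nat.fib_le_fib_succ
  have h6 : 2 ^ e * (Nat.fib (c + 1) * Nat.fib (d + 1)) ≤ 2 ^ e * Nat.fib (c + d + 1) :=
    Nat.mul_le_mul_left _ (by omega)
  rw [pow_succ, mul_right_comm] at h3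
  omega

lemma fib_big {a e : ℕ} (h : 2 * e + 1 ≤ a) : 2 ^ e ≤ Nat.fib a := by
  have h1 := fib_pow 1 e
  have h2 : Nat.fib (1 + 2 * e) ≤ Nat.fib a := Nat.fib_mono (by omega)
  simp only [Nat.fib_one, mul_one] at h1
  omega

lemma fib_two {a : ℕ} (h : 1 ≤ a) : Nat.fib (a + 1) ≤ 2 * Nat.fib a := by
  obtain ⟨a, rfl⟩ : ∃ a', a = a' + 1 := ⟨a - 1, by omega⟩
  have h1 : Nat.fib (a + 1 + 1) = Nat.fib a + Nat.fib (a + 1) := Nat.fib_add_two
  have h2 : Nat.fib a ≤ Nat.fib (a + 1) := Nat.fib_le_fib_succ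
  omega

variable {V : Type} [DecidableEq V]

/-- the data on the old wires -/
structure Old (O : Finset V) (t : V → ℕ) (N e : ℕ) : Prop where
  pos : ∀ j ∈ O, 1 ≤ t j
  sid : ∀ i ∈ O, ∀ j ∈ O, ∀ k ∈ O, ∀ l ∈ O, ¬ ((i = k ∧ j = l) ∨ (i = l ∧ j = k)) →
      t i + t j + (2 * e + 4) ≤ t k + t l ∨ t k + t l + (2 * e + 4) ≤ t i + t j
  card : O.card ^ 2 ≤ N
  one : 1 ≤ N
  big : 17 * N ^ 3 ≤ 2 ^ e

lemma Old.gap {O : Finset V} {t : V → ℕ} {N e : ℕ} (h : Old O t N e) {i j : V} (hi : i ∈ O)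
    (hj : j ∈ O) (hne : i ≠ j) : t i + (2 * e + 4) ≤ t j ∨ t j + (2 * e + 4) ≤ t i := by
  have := h.sid i hi i hi j hj i hi (by
    rintro (⟨h1, -⟩ | ⟨-, h1⟩) <;> exact hne h1)
  omega

lemma top {O : Finset V} {t : V → ℕ} {N e : ℕ} (h : Old O t N e) (D : V → V → ℤ)
    (hs : ∀ x y, D x y = D y x) (hb : ∀ x ∈ O, ∀ y ∈ O, |D x y| ≤ N) (w : V → ℤ)
    (hw : ∀ j ∈ O, (Nat.fib (t j) : ℤ) ≤ w j ∧ w j ≤ Nat.fib (t j + 1)) {i0 j0 : V}
    (hi : i0 ∈ O) (hj : j0 ∈ O) (hpos : 0 < D i0 j0)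
    (hmax : ∀ i ∈ O, ∀ j ∈ O, D i j ≠ 0 → t i + t j ≤ t i0 + t j0) :
    (Nat.fib (t i0) : ℤ) * Nat.fib (t j0) ≤ 2 * ∑ i ∈ O, ∑ j ∈ O, D i j * w i * w j := by
  have w0 : ∀ j ∈ O, 0 ≤ w j := fun j hj => le_trans (by positivity) (hw j hj).1
  obtain ⟨W, hW⟩ : ∃ W : ℤ, W = (Nat.fib (t i0) : ℤ) * Nat.fib (t j0) := ⟨_, rfl⟩
  have hW0 : 0 ≤ W := by rw [hW]; positivity
  have hWw : W ≤ w i0 * w j0 := by
    rw [hW]; exact mul_le_mul (hw _ hi).1 (hw _ hj).1 (by positivity) (w0 _ hi)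
  have hmem : (i0, j0) ∈ O ×ˢ O := mem_product.2 ⟨hi, hj⟩
  rw [← hW, ← sum_product' O O (fun i j => D i j * w i * w j), ← add_sum_erase _ _ hmem]
  have hE : (0 : ℤ) < 2 ^ e := by positivity
  have h1 : ∀ x ∈ (O ×ˢ O).erase (i0, j0), -(N * W) ≤ 2 ^ e * (D x.1 x.2 * w x.1 * w x.2) := by
    rintro ⟨i, j⟩ hx
    obtain ⟨hne, hx⟩ := mem_erase.1 hx
    obtain ⟨hi', hj'⟩ := mem_product.1 hx
    have hNW : (0 : ℤ) ≤ N * W := by positivity
    have hww : 0 ≤ w i * w j := mul_nonneg (w0 _ hi') (w0 _ hj')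
    dsimp only at hi' hj' ⊢
    by_cases h0 : 0 ≤ D i j
    · have : 0 ≤ 2 ^ e * (D i j * w i * w j) := by
        rw [mul_assoc (D i j)]; positivity
      linarith
    have h2 : ¬ ((i = i0 ∧ j = j0) ∨ (i = j0 ∧ j = i0)) := by
      rintro (⟨rfl, rfl⟩ | ⟨rfl, rfl⟩)
      · exact hne rfl
      · exact h0 (hs i j ▸ hpos.le)
    have h3 := hmax i hi' j hj' (fun e0 => h0 e0.ge)
    have h4 : t i + t j + (2 * e + 4) ≤ t i0 + t j0 := by
      have := h.sid i hi' j hj' i0 hi j0 hj h2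
      omega
    have h5 : (2 : ℤ) ^ e * ((Nat.fib (t i + 1) : ℤ) * Nat.fib (t j + 1)) ≤ W := by
      rw [hW]; exact_mod_cast fib_gap (h.pos _ hi) (h.pos _ hj) h4
    have h6 : w i * w j ≤ (Nat.fib (t i + 1) : ℤ) * Nat.fib (t j + 1) :=
      mul_le_mul (hw _ hi').2 (hw _ hj').2 (w0 _ hj') (by positivity)
    have h7 : 2 ^ e * (w i * w j) ≤ W := (mul_le_mul_of_nonneg_left h6 hE.le).trans h5
    have h8 : -(N : ℤ) ≤ D i j := (abs_le.1 (hb i hi' j hj')).1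
    have h9 : 0 ≤ 2 ^ e * (w i * w j) := by positivity
    have h10 : (N : ℤ) * (2 ^ e * (w i * w j)) ≤ N * W :=
      mul_le_mul_of_nonneg_left h7 (by positivity)
    have h11 : -(N : ℤ) * (2 ^ e * (w i * w j)) ≤ D i j * (2 ^ e * (w i * w j)) :=
      mul_le_mul_of_nonneg_right h8 h9
    calc -(N * W) ≤ -(N : ℤ) * (2 ^ e * (w i * w j)) := by linarith
      _ ≤ _ := h11
      _ = _ := by ring
  have h2 := card_nsmul_le_sum _ _ _ h1
  rw [← mul_sum, nsmul_eq_mul] at h2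
  have h3 : (((O ×ˢ O).erase (i0, j0)).card : ℤ) ≤ N := by
    have := card_erase_le (s := O ×ˢ O) (a := (i0, j0))
    rw [card_product, ← sq] at this
    exact_mod_cast this.trans h.card
  have h4 : (2 : ℤ) * N ^ 2 ≤ 2 ^ e := by
    have b1 : 2 * N ^ 2 ≤ 17 * N ^ 3 := by
      have := h.one
      calc 2 * N ^ 2 ≤ 17 * N ^ 2 * N := by nlinarith [Nat.zero_le (N ^ 2)]
        _ = _ := by ring
    exact_mod_cast b1.trans h.big
  have h5 : W ≤ D i0 j0 * w i0 * w j0 := by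
    rw [mul_assoc]
    nlinarith
  generalize ∑ x ∈ (O ×ˢ O).erase (i0, j0), D x.1 x.2 * w x.1 * w x.2 = R at *
  generalize (((O ×ˢ O).erase (i0, j0)).card : ℤ) = c at *
  have h6 : c * (N * W) ≤ N * (N * W) := mul_le_mul_of_nonneg_right h3 (by positivity)
  have h7 : 2 * (N : ℤ) ^ 2 * W ≤ 2 ^ e * W := mul_le_mul_of_nonneg_right h4 hW0
  have h8 : 2 ^ e * (-W) ≤ 2 ^ e * (2 * R) := by nlinarith
  have h9 : -W ≤ 2 * R := le_of_mul_le_mul_left h8 hE
  dsimp only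
  linarith

lemma core {O : Finset V} {t : V → ℕ} {N e : ℕ} (h : Old O t N e) (D : V → V → ℤ)
    (hs : ∀ x y, D x y = D y x) (hb : ∀ x ∈ O, ∀ y ∈ O, |D x y| ≤ N) (p q α β : V → ℤ) (a b : ℤ)
    (hp : ∀ j ∈ O, (Nat.fib (t j) : ℤ) ≤ p j ∧ p j ≤ Nat.fib (t j + 1))
    (hq : ∀ j ∈ O, (Nat.fib (t j) : ℤ) ≤ q j ∧ q j ≤ Nat.fib (t j + 1))
    (ha : |a| ≤ N) (hb' : |b| ≤ N) (hα : ∀ j ∈ O, 0 ≤ α j) (hβ : ∀ j ∈ O, 0 ≤ β j)
    (A : a + 2 * ∑ j ∈ O, α j * p j + ∑ i ∈ O, ∑ j ∈ O, D i j * p i * p j = 0)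
    (B : b - 2 * ∑ j ∈ O, β j * q j + ∑ i ∈ O, ∑ j ∈ O, D i j * q i * q j = 0) :
    ∀ j ∈ O, (∃ m ∈ O, t m < t j) → α j = 0 ∧ β j = 0 ∧ ∀ i ∈ O, D i j = 0 := by
  have p0 : ∀ j ∈ O, 0 ≤ p j := fun j hj => le_trans (by positivity) (hp j hj).1
  have q0 : ∀ j ∈ O, 0 ≤ q j := fun j hj => le_trans (by positivity) (hq j hj).1
  have sp : 0 ≤ ∑ j ∈ O, α j * p j := sum_nonneg fun j hj => mul_nonneg (hα j hj) (p0 j hj)
  have sq' : 0 ≤ ∑ j ∈ O, β j * q j := sum_nonneg fun j hj => mul_nonneg (hβ j hj) (q0 j hj)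
  have hN : (1 : ℤ) ≤ N := by exact_mod_cast h.one
  have hold : ∀ j ∈ O, (∃ m ∈ O, t m < t j) → 17 * (N : ℤ) ^ 3 ≤ Nat.fib (t j) := by
    rintro j hj ⟨m, hm, hlt⟩
    have h1 := h.gap hm hj (by rintro rfl; omega)
    have h2 : 2 ^ e ≤ Nat.fib (t j) := fib_big (by omega)
    exact_mod_cast h.big.trans h2
  obtain ⟨ha1, ha2⟩ := abs_le.1 ha
  obtain ⟨hb1, hb2⟩ := abs_le.1 hb'
  have key : (∀ j ∈ O, (∃ m ∈ O, t m < t j) → ∀ i ∈ O, D i j = 0) ∧
      ∀ w : V → ℤ, (∀ j ∈ O, (Nat.fib (t j) : ℤ) ≤ w j ∧ w j ≤ Nat.fib (t j + 1)) →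
        |∑ i ∈ O, ∑ j ∈ O, D i j * w i * w j| ≤ 8 * (N : ℤ) ^ 2 := by
    rcases ((O ×ˢ O).filter fun x => D x.1 x.2 ≠ 0).eq_empty_or_nonempty with h0 | h0
    · have h1 : ∀ i ∈ O, ∀ j ∈ O, D i j = 0 := fun i hi j hj => by
        by_contra hne
        have : (i, j) ∈ (O ×ˢ O).filter fun x => D x.1 x.2 ≠ 0 :=
          mem_filter.2 ⟨mem_product.2 ⟨hi, hj⟩, hne⟩
        rw [h0] at this
        exact notMem_empty _ this
      refine ⟨fun j hj _ i hi => h1 i hi j hj, fun w _ => ?_⟩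
      rw [sum_eq_zero fun i hi => sum_eq_zero fun j hj => by rw [h1 i hi j hj]; ring]
      simp
    obtain ⟨⟨i0, j0⟩, hx, hmax⟩ := exists_max_image _ (fun x : V × V => t x.1 + t x.2) h0
    obtain ⟨hx, hne⟩ := mem_filter.1 hx
    obtain ⟨hi, hj⟩ := mem_product.1 hx
    dsimp only at hi hj hne hmax
    have hmax' : ∀ i ∈ O, ∀ j ∈ O, D i j ≠ 0 → t i + t j ≤ t i0 + t j0 := fun i hi j hj h1 =>
      hmax (i, j) (mem_filter.2 ⟨mem_product.2 ⟨hi, hj⟩, h1⟩)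
    have hsm : (Nat.fib (t i0) : ℤ) * Nat.fib (t j0) ≤ 2 * N := by
      rcases lt_or_gt_of_ne hne with h1 | h1
      · have h2 := top h (fun x y => - D x y) (fun x y => by rw [hs])
          (fun x hx y hy => by rw [abs_neg]; exact hb x hx y hy) q hq hi hj (by linarith)
          fun i hi j hj h3 => hmax' i hi j hj (neg_ne_zero.1 h3)
        simp only [neg_mul, sum_neg_distrib] at h2
        linarith
      · have h2 := top h D hs hb p hp hi hj h1 hmax'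
        linarith
    have f1 : ∀ j ∈ O, (1 : ℤ) ≤ Nat.fib (t j) := fun j hj => by
      exact_mod_cast Nat.fib_pos.2 (h.pos j hj)
    have hN3 : 2 * (N : ℤ) < 17 * N ^ 3 := by nlinarith [sq_nonneg (N : ℤ), mul_self_nonneg (N : ℤ)]
    have yi : ∀ m ∈ O, t i0 ≤ t m := fun m hm => by
      by_contra hlt
      have := hold i0 hi ⟨m, hm, by omega⟩
      nlinarith [f1 j0 hj]
    have yj : ∀ m ∈ O, t j0 ≤ t m := fun m hm => by
      by_contra hlt
      have := hold j0 hj ⟨m, hm, by omega⟩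
      nlinarith [f1 i0 hi]
    have e0 : ∀ i ∈ O, t i ≤ t i0 → i = i0 := fun i hi' hle => by
      by_contra hne'
      have := h.gap hi' hi hne'
      have := yi i hi'
      omega
    obtain rfl : j0 = i0 := e0 j0 hj (yj i0 hi)
    have hz : ∀ i ∈ O, ∀ j ∈ O, D i j ≠ 0 → i = j0 ∧ j = j0 := fun i hi' j hj' h1 => by
      have b1 := hmax' i hi' j hj' h1
      have b2 := yi i hi'
      have b3 := yi j hj'
      exact ⟨e0 i hi' (by omega), e0 j hj' (by omega)⟩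
    refine ⟨fun j hj' ⟨m, hm, hlt⟩ i hi' => ?_, fun w hw => ?_⟩
    · by_contra h1
      have b1 := (hz i hi' j hj' h1).2
      have b2 := yi m hm
      rw [b1] at hlt
      omega
    · rw [sum_eq_single_of_mem j0 hi fun i hi' hne' => sum_eq_zero fun j hj' => by
          by_cases h1 : D i j = 0
          · rw [h1]; ring
          · exact absurd (hz i hi' j hj' h1).1 hne',
        sum_eq_single_of_mem j0 hi fun j hj' hne' => by
          by_cases h1 : D j0 j = 0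
          · rw [h1]; ring
          · exact absurd (hz j0 hi j hj' h1).2 hne']
      have b1 : (Nat.fib (t j0 + 1) : ℤ) ≤ 2 * Nat.fib (t j0) := by
        exact_mod_cast fib_two (h.pos j0 hi)
      obtain ⟨b2, b3⟩ := hw j0 hi
      have b4 := f1 j0 hi
      have b5 : w j0 * w j0 ≤ 8 * N := by nlinarith
      rw [mul_assoc, abs_mul, abs_of_nonneg (mul_self_nonneg (w j0))]
      calc _ ≤ (N : ℤ) * (8 * N) := mul_le_mul (hb j0 hi j0 hi) b5 (mul_self_nonneg _) (by positivity)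
        _ = _ := by ring
  intro j hj hm
  have h1 := hold j hj hm
  have h2 := abs_le.1 (key.2 p hp)
  have h3 := abs_le.1 (key.2 q hq)
  have h4 : α j * p j ≤ ∑ j ∈ O, α j * p j :=
    single_le_sum (f := fun j => α j * p j) (fun j hj => mul_nonneg (hα j hj) (p0 j hj)) hj
  have h5 : β j * q j ≤ ∑ j ∈ O, β j * q j :=
    single_le_sum (f := fun j => β j * q j) (fun j hj => mul_nonneg (hβ j hj) (q0 j hj)) hj
  have h6 : (N : ℤ) + 8 * N ^ 2 < 17 * N ^ 3 := by nlinarith [sq_nonneg (N : ℤ)]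
  refine ⟨?_, ?_, key.1 j hj hm⟩
  · by_contra hne
    have b1 : 1 ≤ α j := lt_of_le_of_ne (hα j hj) (Ne.symm hne)
    nlinarith [(hp j hj).1, p0 j hj]
  · by_contra hne
    have b1 : 1 ≤ β j := lt_of_le_of_ne (hβ j hj) (Ne.symm hne)
    nlinarith [(hq j hj).1, q0 j hj]

lemma split {L : Finset V} {u v : V} (hu : u ∈ L) (hv : v ∈ L) (huv : u ≠ v) (f : V → ℤ) :
    ∑ x ∈ L, f x = f u + f v + ∑ x ∈ (L.erase u).erase v, f x := by
  rw [← add_sum_erase L f hu, ← add_sum_erase (L.erase u) f (mem_erase.2 ⟨huv.symm, hv⟩), add_assoc]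

lemma expand {L : Finset V} {u v : V} (hu : u ∈ L) (hv : v ∈ L) (huv : u ≠ v) (D : V → V → ℤ)
    (hs : ∀ x y, D x y = D y x) (f : V → ℤ) :
    ∑ x ∈ L, ∑ x' ∈ L, D x x' * f x * f x' =
      D u u * f u * f u + 2 * D u v * f u * f v + D v v * f v * f v +
        2 * f u * ∑ j ∈ (L.erase u).erase v, D u j * f j +
        2 * f v * ∑ j ∈ (L.erase u).erase v, D v j * f j +
        ∑ i ∈ (L.erase u).erase v, ∑ j ∈ (L.erase u).erase v, D i j * f i * f j := by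
  rw [split hu hv huv]
  simp only [split hu hv huv, sum_add_distrib, mul_sum]
  have e1 : ∀ z, ∑ x ∈ (L.erase u).erase v, 2 * f z * (D z x * f x) =
      ∑ x ∈ (L.erase u).erase v, D z x * f z * f x +
        ∑ x ∈ (L.erase u).erase v, D x z * f x * f z := fun z => by
    rw [← sum_add_distrib]
    exact sum_congr rfl fun x _ => by rw [hs x z]; ring
  rw [e1, e1, hs v u]
  ring

lemma mem_old {L : Finset V} {u v j : V} : j ∈ (L.erase u).erase v ↔ j ∈ L ∧ j ≠ u ∧ j ≠ v := by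
  simp only [mem_erase]
  tauto

lemma old_of {L : Finset V} {u v : V} {t : V → ℕ} {N e : ℕ} (h : Ages L u v t N e) :
    Old ((L.erase u).erase v) t N e := by
  refine ⟨fun j hj => ?_, fun i hi j hj k hk l hl => ?_, ?_, ?_, h.big⟩
  · obtain ⟨a, b, c⟩ := mem_old.1 hj
    exact h.pos j a b c
  · obtain ⟨a1, b1, c1⟩ := mem_old.1 hi
    obtain ⟨a2, b2, c2⟩ := mem_old.1 hj
    obtain ⟨a3, b3, c3⟩ := mem_old.1 hk
    obtain ⟨a4, b4, c4⟩ := mem_old.1 hl
    exact h.sid i a1 j a2 k a3 l a4 b1 c1 b2 c2 b3 c3 b4 c4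
  · exact le_trans (Nat.pow_le_pow_left (card_erase_le.trans card_erase_le) 2) h.card
  · exact le_trans (Nat.one_le_pow _ _ (card_pos.2 ⟨u, h.hu⟩)) h.card

lemma cw_u (u v : V) (t : V → ℕ) (y : ℤ × ℤ) : cw u v t y u = y.1 := by simp [cw]

lemma cw_v {u v : V} (h : u ≠ v) (t : V → ℕ) (y : ℤ × ℤ) : cw u v t y v = y.2 := by
  simp [cw, h.symm]

lemma cw_old {u v j : V} (h1 : j ≠ u) (h2 : j ≠ v) (t : V → ℕ) (y : ℤ × ℤ) : cw u v t y j =
    (-1) ^ t j * ((Nat.fib (t j + 1) : ℤ) * y.2 - (Nat.fib (t j) : ℤ) * y.1) := by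
  simp [cw, h1, h2]

lemma sum_supp {L S : Finset V} (hS : S ⊆ L) (F : V → V → ℤ)
    (h : ∀ x ∈ L, ∀ x' ∈ L, (x ∉ S ∨ x' ∉ S) → F x x' = 0) :
    ∑ x ∈ L, ∑ x' ∈ L, F x x' = ∑ x ∈ S, ∑ x' ∈ S, F x x' := by
  rw [← sum_subset hS fun x hx hn => sum_eq_zero fun x' hx' => h x hx x' hx' (Or.inl hn)]
  exact sum_congr rfl fun x hx =>
    (sum_subset hS fun x' hx' hn => h x (hS hx) x' hx' (Or.inr hn)).symm

lemma three {L : Finset V} {u v m : V} (hu : u ∈ L) (hv : v ∈ L) (hm : m ∈ L) (huv : u ≠ v)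
    (hmu : m ≠ u) (hmv : m ≠ v) (F : V → V → ℤ)
    (h : ∀ j ∈ L, j ≠ u → j ≠ v → j ≠ m → ∀ i ∈ L, F i j = 0 ∧ F j i = 0) :
    ∑ x ∈ L, ∑ x' ∈ L, F x x' = F u u + F u v + F u m + (F v u + F v v + F v m) +
      (F m u + F m v + F m m) := by
  rw [sum_supp (S := {u, v, m}) (by simp [insert_subset_iff, hu, hv, hm]) F]
  · have h1 : u ∉ ({v, m} : Finset V) := by simp [huv, hmu.symm]
    have h2 : v ∉ ({m} : Finset V) := by simp [hmv.symm]
    simp only [sum_insert h1, sum_insert h2, sum_singleton]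
    ring
  · intro x hx x' hx' hn
    simp only [mem_insert, mem_singleton, not_or] at hn
    rcases hn with hn | hn
    · exact (h x hx hn.1 hn.2.1 hn.2.2 x' hx').2
    · exact (h x' hx' hn.1 hn.2.1 hn.2.2 x hx).1

lemma tiny {a b c α β δ p q : ℤ} (hp : 2 ≤ p) (hq : 1 ≤ q) (ha : -3 ≤ a) (hc : -1 ≤ c)
    (hα : 0 ≤ α) (hβ : 0 ≤ β) (hδ : δ < 0 → α = 0 ∧ β = 0)
    (A : a + 2 * α * p + δ * p * p = 0) (B : b - 2 * β * q + δ * q * q = 0)
    (C : c - α * q + β * p - δ * p * q = 0) :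
    a = 0 ∧ b = 0 ∧ c = 0 ∧ α = 0 ∧ β = 0 ∧ δ = 0 := by
  rcases lt_trichotomy δ 0 with h | rfl | h
  · obtain ⟨rfl, rfl⟩ := hδ h
    have h1 : 2 ≤ p * q := by nlinarith
    nlinarith
  · have h1 : α = 0 := by
      by_contra hne
      have : 1 ≤ α := lt_of_le_of_ne hα (Ne.symm hne)
      nlinarith
    subst h1
    have h2 : β = 0 := by
      by_contra hne
      have : 1 ≤ β := lt_of_le_of_ne hβ (Ne.symm hne)
      nlinarith
    subst h2
    refine ⟨by linarith, by linarith, by linarith, rfl, rfl, rfl⟩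
  · have h1 : 4 ≤ p * p := by nlinarith
    have h2 : 0 ≤ α * p := by positivity
    nlinarith

end Dom

open Dom

theorem pDom : StDom := by
  intro V _ L u v t N e D hA hs hb hg hN j hj hju hjv ⟨m, hm, hmu, hmv, hlt⟩
  have hO := old_of hA
  have hb' : ∀ x ∈ (L.erase u).erase v, ∀ y ∈ (L.erase u).erase v, |D x y| ≤ N :=
    fun x hx y hy => hb x (mem_old.1 hx).1 y (mem_old.1 hy).1
  have hgu : ∀ x ∈ (L.erase u).erase v, 0 ≤ D u x := fun x hx =>
    (hg x (mem_old.1 hx).1 (mem_old.1 hx).2.1 (mem_old.1 hx).2.2).1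
  have hgv : ∀ x ∈ (L.erase u).erase v, 0 ≤ D v x := fun x hx =>
    (hg x (mem_old.1 hx).1 (mem_old.1 hx).2.1 (mem_old.1 hx).2.2).2
  have E1 := hN (1, 0) (1, 0)
  have E2 := hN (0, 1) (0, 1)
  rw [expand hA.hu hA.hv hA.huv D hs, cw_u, cw_v hA.huv] at E1 E2
  have hfib : ∀ x, (Nat.fib (t x) : ℤ) ≤ Nat.fib (t x + 1) := fun x => by
    exact_mod_cast Nat.fib_le_fib_succ
  have hpar : ∀ x ∈ (L.erase u).erase v, t x % 2 = t j % 2 := fun x hx =>
    hA.par x (mem_old.1 hx).1 j hj (mem_old.1 hx).2.1 (mem_old.1 hx).2.2 hju hjv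
  have fin : (D u j = 0 ∧ D v j = 0) ∧ ∀ i ∈ (L.erase u).erase v, D i j = 0 := by
    rcases Nat.even_or_odd (t j) with hpj | hpj
    · have hs1 : ∀ x ∈ (L.erase u).erase v, (-1 : ℤ) ^ t x = 1 := fun x hx =>
        Even.neg_one_pow (Nat.even_iff.2 ((hpar x hx).trans (Nat.even_iff.1 hpj)))
      have c1 : ∀ x ∈ (L.erase u).erase v, cw u v t (1, 0) x = - (Nat.fib (t x) : ℤ) :=
        fun x hx => by rw [cw_old (mem_old.1 hx).2.1 (mem_old.1 hx).2.2, hs1 x hx]; simp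
      have c2 : ∀ x ∈ (L.erase u).erase v, cw u v t (0, 1) x = (Nat.fib (t x + 1) : ℤ) :=
        fun x hx => by rw [cw_old (mem_old.1 hx).2.1 (mem_old.1 hx).2.2, hs1 x hx]; simp
      have := core hO D hs hb' (cw u v t (0, 1)) (fun x => - cw u v t (1, 0) x) (D v) (D u)
        (D v v) (D u u) (fun x hx => by rw [c2 x hx]; exact ⟨hfib x, le_rfl⟩)
        (fun x hx => by rw [c1 x hx, neg_neg]; exact ⟨le_rfl, hfib x⟩) (hb v hA.hv v hA.hv)
        (hb u hA.hu u hA.hu) hgv hgu (by linarith)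
        (by simp only [mul_neg, neg_mul, neg_neg, sum_neg_distrib]; linarith) j
        (mem_old.2 ⟨hj, hju, hjv⟩) ⟨m, mem_old.2 ⟨hm, hmu, hmv⟩, hlt⟩
      exact ⟨⟨this.2.1, this.1⟩, this.2.2⟩
    · have hs1 : ∀ x ∈ (L.erase u).erase v, (-1 : ℤ) ^ t x = -1 := fun x hx =>
        Odd.neg_one_pow (Nat.odd_iff.2 ((hpar x hx).trans (Nat.odd_iff.1 hpj)))
      have c1 : ∀ x ∈ (L.erase u).erase v, cw u v t (1, 0) x = (Nat.fib (t x) : ℤ) :=
        fun x hx => by rw [cw_old (mem_old.1 hx).2.1 (mem_old.1 hx).2.2, hs1 x hx]; simp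
      have c2 : ∀ x ∈ (L.erase u).erase v, cw u v t (0, 1) x = - (Nat.fib (t x + 1) : ℤ) :=
        fun x hx => by rw [cw_old (mem_old.1 hx).2.1 (mem_old.1 hx).2.2, hs1 x hx]; simp
      have := core hO D hs hb' (cw u v t (1, 0)) (fun x => - cw u v t (0, 1) x) (D u) (D v)
        (D u u) (D v v) (fun x hx => by rw [c1 x hx]; exact ⟨le_rfl, hfib x⟩)
        (fun x hx => by rw [c2 x hx, neg_neg]; exact ⟨hfib x, le_rfl⟩) (hb u hA.hu u hA.hu)
        (hb v hA.hv v hA.hv) hgu hgv (by linarith)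
        (by simp only [mul_neg, neg_mul, neg_neg, sum_neg_distrib]; linarith) j
        (mem_old.2 ⟨hj, hju, hjv⟩) ⟨m, mem_old.2 ⟨hm, hmu, hmv⟩, hlt⟩
      exact ⟨⟨this.1, this.2.1⟩, this.2.2⟩
  intro i hi
  by_cases h1 : i = u
  · rw [h1]; exact fin.1.1
  by_cases h2 : i = v
  · rw [h2]; exact fin.1.2
  exact fin.2 i (mem_old.2 ⟨hi, h1, h2⟩)

theorem pUniq : StUniq := by
  intro V _ L u v t N e D hA h2 hs hb hg huu hvv huv hneg hN
  have hD := pDom V L u v t N e D hA hs hb hg hN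
  have hO := old_of hA
  rcases ((L.erase u).erase v).eq_empty_or_nonempty with h0 | h0
  · have E1 := hN (1, 0) (1, 0)
    have E2 := hN (0, 1) (0, 1)
    have E3 := hN (1, 1) (1, 1)
    rw [expand hA.hu hA.hv hA.huv D hs, cw_u, cw_v hA.huv, h0] at E1 E2 E3
    simp only [sum_empty] at E1 E2 E3
    have hm : ∀ x ∈ L, x = u ∨ x = v := fun x hx => by
      by_contra hn
      push Not at hn
      have := mem_old.2 ⟨hx, hn.1, hn.2⟩
      rw [h0] at this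
      exact notMem_empty _ this
    have := hs v u
    intro x hx y hy
    rcases hm x hx with rfl | rfl <;> rcases hm y hy with rfl | rfl <;> linarith
  obtain ⟨m, hm, hmin⟩ := exists_min_image _ t h0
  obtain ⟨hmL, hmu, hmv⟩ := mem_old.1 hm
  have hz : ∀ j ∈ L, j ≠ u → j ≠ v → j ≠ m → ∀ i ∈ L, D i j = 0 := fun j hj a b c => by
    refine hD j hj a b ⟨m, hmL, hmu, hmv, ?_⟩
    have b1 := hO.gap (mem_old.2 ⟨hj, a, b⟩) hm c
    have b2 := hmin j (mem_old.2 ⟨hj, a, b⟩)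
    omega
  have E : ∀ y y' : ℤ × ℤ, _ := fun y y' => (three hA.hu hA.hv hmL hA.huv hmu hmv
    (fun x x' => D x x' * cw u v t y x * cw u v t y' x') fun j hj a b c i hi => by
      simp [hz j hj a b c i hi, hs j i]).symm.trans (hN y y')
  simp only [cw_u, cw_v hA.huv, cw_old hmu hmv] at E
  have E1 := E (1, 0) (1, 0)
  have E2 := E (0, 1) (0, 1)
  have E3 := E (1, 0) (0, 1)
  rw [hs m u, hs m v] at E1 E2 E3
  dsimp only at E1 E2 E3
  have ht := h2 m hmL hmu hmv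
  obtain ⟨g1, g2⟩ := hg m hmL hmu hmv
  have hn := hneg m hmL hmu hmv
  have fin : D u u = 0 ∧ D v v = 0 ∧ D u v = 0 ∧ D u m = 0 ∧ D v m = 0 ∧ D m m = 0 := by
    have f1 : (1 : ℤ) ≤ Nat.fib (t m) := by exact_mod_cast Nat.fib_pos.2 (by omega)
    have f2 : (1 : ℤ) ≤ Nat.fib (t m + 1) := by exact_mod_cast Nat.fib_pos.2 (by omega)
    rcases Nat.even_or_odd (t m) with hp | hp
    · rw [hp.neg_one_pow] at E1 E2 E3
      have f3 : (2 : ℤ) ≤ Nat.fib (t m + 1) := by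
        exact_mod_cast (Nat.fib_mono (show 3 ≤ t m + 1 by omega) : Nat.fib 3 ≤ _)
      have := tiny (b := D u u) (δ := D m m) f3 f1 hvv huv g2 g1 (fun h => (hn h).symm)
        (by linarith) (by linarith) (by linarith)
      tauto
    · rw [hp.neg_one_pow] at E1 E2 E3
      have f3 : (2 : ℤ) ≤ Nat.fib (t m) := by
        have := Nat.odd_iff.1 hp
        exact_mod_cast (Nat.fib_mono (show 3 ≤ t m by omega) : Nat.fib 3 ≤ _)
      have := tiny (b := D v v) (δ := D m m) f3 f2 huu huv g1 g2 hn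
        (by linarith) (by linarith) (by linarith)
      tauto
  obtain ⟨a1, a2, a3, a4, a5, a6⟩ := fin
  have hc : ∀ x ∈ L, x = u ∨ x = v ∨ x = m ∨ ∀ i ∈ L, D i x = 0 := fun x hx => by
    by_contra hn
    simp only [not_or] at hn
    exact hn.2.2.2 (hz x hx hn.1 hn.2.1 hn.2.2.1)
  intro x hx y hy
  rcases hc y hy with rfl | rfl | rfl | h
  rotate_right
  · exact h x hx
  all_goals
    rcases hc x hx with rfl | rfl | rfl | h
    all_goals first
      | assumption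
      | (rw [hs]; assumption)
      | (rw [hs]; exact h _ hy)

set_option maxHeartbeats 1000000 in
theorem pTap : StTap := by
  intro V _ L u v m t n e C E C0 c' hA hm hmu hmv htm hD hs0 huu hvv huv hold hc' hN hodd
  have hO := old_of hA
  have hn : (1 : ℤ) ≤ n := by
    have := hO.one
    have : 1 ≤ n := by
      by_contra h
      obtain rfl : n = 0 := by omega
      simp at this
    exact_mod_cast this
  have hnn : (n : ℤ) ≤ (n : ℤ) ^ 2 := by nlinarith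
  have hy : ∀ j ∈ L, j ≠ u → j ≠ v → j ≠ m → ∃ m ∈ L, m ≠ u ∧ m ≠ v ∧ t m < t j :=
    fun j hj a b c => by
      refine ⟨m, hm, hmu, hmv, ?_⟩
      have b1 := hO.gap (mem_old.2 ⟨hj, a, b⟩) (mem_old.2 ⟨hm, hmu, hmv⟩) c
      have b2 := hA.pos j hj a b
      omega
  have hC0 : ∀ x ∈ L, ∀ y ∈ L, 0 ≤ C0 x y ∧ C0 x y ≤ 2 := fun x hx y hy => by
    by_cases h1 : y ≠ u ∧ y ≠ v
    · obtain ⟨b1, b2⟩ := hold y hy h1.1 h1.2
      by_cases h2 : x = y
      · rw [h2, b1]; norm_num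
      · rw [b2 x hx h2]; norm_num
    by_cases h2 : x ≠ u ∧ x ≠ v
    · rw [hs0, (hold x hx h2.1 h2.2).2 y hy (fun h => h1 (h ▸ h2))]; norm_num
    have h3 := hs0 v u
    rcases not_and_or.1 h1 with h1 | h1 <;> rcases not_and_or.1 h2 with h2 | h2 <;>
      rw [not_not.1 h1, not_not.1 h2] <;> constructor <;> linarith
  have hz := pDom V L u v t _ e (fun x x' => C x x' - C0 x x') hA
    (fun x y => by rw [hD.Csym, hs0]) (fun x hx y hy => by
      have := hC0 x hx y hy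
      have := hD.C0 x y
      have := hD.Cn x y
      push_cast
      rw [abs_le]; constructor <;> linarith)
    (fun j hj a b => by
      rw [(hold j hj a b).2 u hA.hu a.symm, (hold j hj a b).2 v hA.hv b.symm, sub_zero, sub_zero]
      exact ⟨hD.C0 _ _, hD.C0 _ _⟩) hN
  have hzz : ∀ j ∈ L, j ≠ u → j ≠ v → j ≠ m → ∀ i ∈ L,
      C i j - C0 i j = 0 ∧ C j i - C0 j i = 0 := fun j hj a b c i hi => by
    have := hz j hj a b (hy j hj a b c) i hi
    exact ⟨this, by rw [hD.Csym, hs0]; exact this⟩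
  have cm : ∀ y : ℤ × ℤ, cw u v t y m = y.1 - y.2 := fun y => by
    rw [cw_old hmu hmv, htm]; simp
  obtain ⟨mm, m0⟩ := hold m hm hmu hmv
  have um := m0 u hA.hu hmu.symm
  have vm := m0 v hA.hv hmv.symm
  have mu := hs0 m u
  have mv := hs0 m v
  have vu := hs0 v u
  have Cmu := hD.Csym m u
  have Cmv := hD.Csym m v
  have Cvu := hD.Csym v u
  have Ev : ∀ y y' : ℤ × ℤ, _ := fun y y' => (three hA.hu hA.hv hm hA.huv hmu hmv
    (fun x x' => (C x x' - C0 x x') * cw u v t y x * cw u v t y' x') fun j hj a b c i hi => by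
      simp [hzz j hj a b c i hi]).symm.trans (hN y y')
  simp only [cw_u, cw_v hA.huv, cm, mu, mv, vu, huu, hvv, huv, mm, um, vm, Cmu, Cmv, Cvu] at Ev
  have V1 := Ev (1, 1) (1, 1)
  have V2 := Ev (1, 0) (1, 0)
  have V3 := Ev (0, 1) (0, 1)
  dsimp only at V1 V2 V3
  obtain ⟨al, hal⟩ : ∃ al, al = C u u - 2 - (C m m - 1) := ⟨_, rfl⟩
  obtain ⟨be, hbe⟩ : ∃ be, be = C m m - C v v := ⟨_, rfl⟩
  obtain ⟨K, hK⟩ : ∃ K : V → V → ℤ, K = fun x x' => if x = u then (if x' = u then 2 * al else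
    if x' = v then be else 0) else if x = v ∧ x' = u then be else 0 := ⟨_, rfl⟩
  have Kuu : K u u = 2 * al := by simp [hK]
  have Kuv : K u v = be := by simp [hK, hA.huv.symm]
  have Kvu : K v u = be := by simp [hK, hA.huv.symm]
  have Kvv : K v v = 0 := by simp [hK, hA.huv.symm]
  have Ko : ∀ j, j ≠ u → j ≠ v → ∀ i, K i j = 0 ∧ K j i = 0 := fun j a b i => by
    simp [hK, a, b]
  have Kc : ∀ x y, (x = u ∨ x = v) ∧ (y = u ∨ y = v) ∨ K x y = 0 ∧ K y x = 0 := fun x y => by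
    by_cases h1 : x ≠ u ∧ x ≠ v
    · exact Or.inr (Ko x h1.1 h1.2 y).symm
    by_cases h2 : y ≠ u ∧ y ≠ v
    · exact Or.inr (Ko y h2.1 h2.2 x)
    left
    tauto
  have hNM : Null L u v t fun x x' => 2 * E x x' - K x x' := by
    intro y y'
    have o1 := hodd y y'
    have o2 := three hA.hu hA.hv hm hA.huv hmu hmv
      (fun x x' => (C x x' - C0 x x') * (c' y x * cw u v t y' x' + cw u v t y x * c' y' x'))
      fun j hj a b c i hi => by simp [hzz j hj a b c i hi]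
    have o3 := three hA.hu hA.hv hm hA.huv hmu hmv
      (fun x x' => K x x' * cw u v t y x * cw u v t y' x')
      fun j hj a b c i hi => by simp [Ko j a b i]
    simp only [cw_u, cw_v hA.huv, cm, mu, mv, vu, huu, hvv, huv, mm, um, vm, Cmu, Cmv, Cvu, Kuu,
      Kuv, Kvu, Kvv, Ko m hmu hmv] at o2 o3
    simp only [sum_add_distrib] at o1
    simp only [sub_mul, mul_assoc (2 : ℤ), sum_sub_distrib, ← mul_sum]
    rw [o2] at o1
    rw [o3]
    have r1 := hc' y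
    have r2 := hc' y'
    have r3 : c' y u = c' y v + c' y m - y.1 := by linarith
    have r4 : c' y' u = c' y' v + c' y' m - y'.1 := by linarith
    rw [r3, r4] at o1
    have q1 : 2 * (C u v - 1) = -(C u u - 2) - (C v v - 1) := by linarith
    have q2 : 2 * C u m = -(C u u - 2) - (C m m - 1) := by linarith
    have q3 : 2 * C v m = (C v v - 1) + (C m m - 1) := by linarith
    rw [hal, hbe]
    linear_combination 2 * o1 -
      ((c' y v + c' y m - y.1) * y'.2 + y.1 * c' y' v + c' y v * y'.1 +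
        y.2 * (c' y' v + c' y' m - y'.1)) * q1 -
      ((c' y v + c' y m - y.1) * (y'.1 - y'.2) + y.1 * c' y' m + c' y m * y'.1 +
        (y.1 - y.2) * (c' y' v + c' y' m - y'.1)) * q2 -
      (c' y v * (y'.1 - y'.2) + y.2 * c' y' m + c' y m * y'.2 + (y.1 - y.2) * c' y' v) * q3
  have b1 := hD.C0 u u
  have b2 := hD.C0 v v
  have b3 := hD.C0 m m
  have b4 := hD.Cn u u
  have b5 := hD.Cn v v
  have b6 := hD.Cn m m
  have hw := pDom V L u v t _ e (fun x x' => 2 * E x x' - K x x') hA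
    (fun x y => by
      rw [hD.Esym]
      rcases Kc x y with ⟨rfl | rfl, rfl | rfl⟩ | ⟨h1, h2⟩
      · rfl
      · rw [Kuv, Kvu]
      · rw [Kuv, Kvu]
      · rfl
      · rw [h1, h2])
    (fun x _ y _ => by
      have := hD.E0 x y
      have := hD.En x y
      push_cast
      rw [abs_le]
      rcases Kc x y with ⟨rfl | rfl, rfl | rfl⟩ | ⟨h1, -⟩
      · rw [Kuu]; constructor <;> linarith
      · rw [Kuv]; constructor <;> linarith
      · rw [Kvu]; constructor <;> linarith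
      · rw [Kvv]; constructor <;> linarith
      · rw [h1]; constructor <;> linarith)
    (fun j _ a b => by
      rw [(Ko j a b u).1, (Ko j a b v).1]
      have := hD.E0 u j
      have := hD.E0 v j
      constructor <;> linarith) hNM
  have hww : ∀ j ∈ L, j ≠ u → j ≠ v → j ≠ m → ∀ i ∈ L, E i j = 0 ∧ E j i = 0 :=
    fun j hj a b c i hi => by
      have h1 := hw j hj a b (hy j hj a b c) i hi
      have h2 := hD.Esym i j
      rw [(Ko j a b i).1] at h1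
      constructor <;> linarith
  have Ew : ∀ y y' : ℤ × ℤ, _ := fun y y' => (three hA.hu hA.hv hm hA.huv hmu hmv
    (fun x x' => (2 * E x x' - K x x') * cw u v t y x * cw u v t y' x') fun j hj a b c i hi => by
      simp [hww j hj a b c i hi, Ko j a b i]).symm.trans (hNM y y')
  have Emu := hD.Esym m u
  have Emv := hD.Esym m v
  have Evu := hD.Esym v u
  simp only [cw_u, cw_v hA.huv, cm, Kuu, Kuv, Kvu, Kvv, Ko m hmu hmv, Emu, Emv, Evu] at Ew
  have W1 := Ew (1, 1) (1, 1)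
  have W2 := Ew (1, 0) (1, 0)
  have W3 := Ew (1, 1) (1, 0)
  dsimp only at W1 W2 W3
  have e1 := hD.E0 u u
  have e2 := hD.E0 v v
  have e3 := hD.E0 m m
  have e4 := hD.E0 u v
  have e5 := hD.E0 u m
  have e6 := hD.E0 v m
  have c4 := hD.C0 u m
  have c5 := hD.C0 v m
  have hfin : C u u = 2 ∧ C v v = 1 ∧ C m m = 1 ∧ C u v = 1 ∧ C u m = 0 ∧ C v m = 0 ∧ E u u = 0 ∧
      E v v = 0 ∧ E m m = 0 ∧ E u v = 0 ∧ E u m = 0 ∧ E v m = 0 := by
    have h1 := hD.CE m m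
    have h2 := hD.CE m u
    rw [Emu] at h2
    clear * - V1 V2 V3 W1 W2 W3 hal hbe e1 e2 e3 e4 e5 e6 c4 c5 b3 h1 h2
    omega
  obtain ⟨f1, f2, f3, f4, f5, f6, f7, f8, f9, f10, f11, f12⟩ := hfin
  have hc : ∀ x ∈ L, x = u ∨ x = v ∨ x = m ∨ (x ≠ u ∧ x ≠ v ∧ x ≠ m) := fun x _ => by
    clear * -
    tauto
  intro x hx x' hx'
  rcases hc x' hx' with h' | h' | h' | h
  rotate_right
  · exact ⟨sub_eq_zero.1 (hzz x' hx' h.1 h.2.1 h.2.2 x hx).1, (hww x' hx' h.1 h.2.1 h.2.2 x hx).1⟩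
  all_goals
    rcases hc x hx with h | h | h | h
    rotate_right
    · exact ⟨sub_eq_zero.1 (hzz x hx h.1 h.2.1 h.2.2 _ hx').2, (hww x hx h.1 h.2.1 h.2.2 _ hx').2⟩
    all_goals
      rw [h, h']
      simp only [mu, mv, vu, huu, hvv, huv, mm, um, vm, Cmu, Cmv, Cvu, Emu, Emv, Evu, f1, f2, f3,
        f4, f5, f6, f7, f8, f9, f10, f11, f12, and_self]

end Pool.Agent.P.MP_f57657_co.SX
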