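import Pool.Agent.P.MP_f57657_co.SX.Defs

/-! The moments at the root force the two bare paths, one layer at a time. -/

open Matrix Finset

namespace Pool.Agent.P.MP_f57657_co.SX

namespace Force

variable {V : Type} [Fintype V] [DecidableEq V]

/-- The polynomials of the three term recurrence. -/
noncomputable def Q : ℕ → Polynomial ℤ
  | 0 => 1
  | 1 => Polynomial.X
  | (i + 2) => Polynomial.X * Q (i + 1) - Polynomial.C (if i = 0 then 2 else 1) * Q i

/-- The vectors of the recurrence started at `ρ`. -/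
noncomputable def fv (A : Matrix V V ℤ) (ρ : V) (i : ℕ) (v : V) : ℤ :=
  (Polynomial.aeval A (Q i)) v ρ

theorem fv_zero (A : Matrix V V ℤ) (ρ v : V) : fv A ρ 0 v = if v = ρ then 1 else 0 := by
  simp [fv, Q, Matrix.one_apply]

theorem fv_one (A : Matrix V V ℤ) (ρ v : V) : fv A ρ 1 v = A v ρ := by
  simp [fv, Q]

theorem fv_step (A : Matrix V V ℤ) (ρ v : V) (i : ℕ) :
    fv A ρ (i + 2) v =
      ∑ w, A v w * fv A ρ (i + 1) w - (if i = 0 then 2 else 1) * fv A ρ i v := by
  unfold fv
  rw [Q, map_sub, map_mul, map_mul, Polynomial.aeval_X, Polynomial.aeval_C,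
    Algebra.algebraMap_eq_smul_one, smul_mul_assoc, one_mul, Matrix.sub_apply, Matrix.smul_apply,
    Matrix.mul_apply, smul_eq_mul]

theorem aeval_symm {A : Matrix V V ℤ} (hA : A.IsSymm) (p : Polynomial ℤ) (x y : V) :
    (Polynomial.aeval A p) x y = (Polynomial.aeval A p) y x := by
  induction p using Polynomial.induction_on' with
  | add p q hp hq => simp [map_add, Matrix.add_apply, hp, hq]
  | monomial n c =>
    rw [Polynomial.aeval_monomial, Algebra.algebraMap_eq_smul_one, smul_mul_assoc, one_mul,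
      Matrix.smul_apply, Matrix.smul_apply, (hA.pow n).apply x y]

theorem mom {A B : Matrix V V ℤ} {ρ : V} (h : ∀ j, (A ^ j) ρ ρ = (B ^ j) ρ ρ)
    (p : Polynomial ℤ) : (Polynomial.aeval A p) ρ ρ = (Polynomial.aeval B p) ρ ρ := by
  induction p using Polynomial.induction_on' with
  | add p q hp hq => simp [map_add, Matrix.add_apply, hp, hq]
  | monomial n c =>
    rw [Polynomial.aeval_monomial, Polynomial.aeval_monomial, Algebra.algebraMap_eq_smul_one,
      smul_mul_assoc, smul_mul_assoc, one_mul, one_mul, Matrix.smul_apply, Matrix.smul_apply, h n]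

/-- Squared norm. -/
noncomputable def nrm (A : Matrix V V ℤ) (ρ : V) (i : ℕ) : ℤ := ∑ v, fv A ρ i v * fv A ρ i v

/-- Quadratic form. -/
noncomputable def frm (A : Matrix V V ℤ) (ρ : V) (i : ℕ) : ℤ :=
  ∑ v, ∑ w, fv A ρ i v * A v w * fv A ρ i w

theorem nrm_eq {A : Matrix V V ℤ} (hA : A.IsSymm) (ρ : V) (i : ℕ) :
    nrm A ρ i = (Polynomial.aeval A (Q i * Q i)) ρ ρ := by
  rw [map_mul, Matrix.mul_apply]
  refine Finset.sum_congr rfl fun v _ => ?_
  rw [aeval_symm hA (Q i) ρ v]
  rfl

theorem frm_eq {A : Matrix V V ℤ} (hA : A.IsSymm) (ρ : V) (i : ℕ) :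
    frm A ρ i = (Polynomial.aeval A (Q i * (Polynomial.X * Q i))) ρ ρ := by
  rw [map_mul, map_mul, Polynomial.aeval_X, Matrix.mul_apply]
  refine Finset.sum_congr rfl fun v _ => ?_
  rw [aeval_symm hA (Q i) ρ v, Matrix.mul_apply, Finset.mul_sum]
  refine Finset.sum_congr rfl fun w _ => ?_
  rw [mul_assoc]
  rfl

theorem am_pos {H : SimpleGraph V} {x y : V} (h : H.Adj x y) : am H x y = 1 := by
  simp [am, h]

theorem am_neg {H : SimpleGraph V} {x y : V} (h : ¬ H.Adj x y) : am H x y = 0 := by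
  simp [am, h]

theorem am_symm (H : SimpleGraph V) (x y : V) : am H x y = am H y x := by
  by_cases h : H.Adj x y
  · rw [am_pos h, am_pos h.symm]
  · rw [am_neg h, am_neg fun h' => h h'.symm]

theorem am_nonneg (H : SimpleGraph V) (x y : V) : 0 ≤ am H x y := by
  by_cases h : H.Adj x y
  · rw [am_pos h]; exact zero_le_one
  · rw [am_neg h]

theorem am_le (H : SimpleGraph V) (x y : V) : am H x y ≤ 1 := by
  by_cases h : H.Adj x y
  · rw [am_pos h]
  · rw [am_neg h]; exact zero_le_one

theorem am_sq (H : SimpleGraph V) (x y : V) : am H x y * am H x y = am H x y := by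
  by_cases h : H.Adj x y
  · rw [am_pos h, one_mul]
  · rw [am_neg h, zero_mul]

theorem up_apply (lay : V → ℕ) (k : ℕ) (A : Matrix V V ℤ) (x y : V) :
    up lay k A x y = if k ≤ lay x ∧ k ≤ lay y then A x y else 0 := rfl

theorem up_symm (lay : V → ℕ) (k : ℕ) (H : SimpleGraph V) : (up lay k (am H)).IsSymm := by
  refine Matrix.IsSymm.ext fun x y => ?_
  rw [up_apply, up_apply, am_symm H y x]
  exact if_congr and_comm rfl rfl

theorem up_ne {lay : V → ℕ} {k : ℕ} {H : SimpleGraph V} {x y : V}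
    (h : up lay k (am H) x y ≠ 0) : k ≤ lay x ∧ k ≤ lay y ∧ H.Adj x y := by
  rw [up_apply] at h
  by_cases h1 : k ≤ lay x ∧ k ≤ lay y
  · rw [if_pos h1] at h
    refine ⟨h1.1, h1.2, ?_⟩
    by_contra h2
    exact h (am_neg h2)
  · rw [if_neg h1] at h
    exact absurd rfl h

theorem nrm_mom {lay : V → ℕ} {G H : SimpleGraph V} {k : ℕ} {ρ : V} (h : Mom1 lay G H k ρ)
    (i : ℕ) : nrm (up lay k (am H)) ρ i = nrm (up lay k (am G)) ρ i := by
  rw [nrm_eq (up_symm _ _ _), nrm_eq (up_symm _ _ _)]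
  exact mom h _

theorem frm_mom {lay : V → ℕ} {G H : SimpleGraph V} {k : ℕ} {ρ : V} (h : Mom1 lay G H k ρ)
    (i : ℕ) : frm (up lay k (am H)) ρ i = frm (up lay k (am G)) ρ i := by
  rw [frm_eq (up_symm _ _ _), frm_eq (up_symm _ _ _)]
  exact mom h _

variable {lay : V → ℕ} {G H : SimpleGraph V} {k1 k0 : ℕ} {ρ : V} {a b : ℕ → V}

theorem paths_symm (hP : Paths lay G k1 k0 ρ a b) : Paths lay G k1 k0 ρ b a where
  layered := hP.layered
  lt := hP.lt
  rho_lay := hP.rho_lay
  rho_uniq := hP.rho_uniq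
  a_lay := hP.b_lay
  b_lay := hP.a_lay
  ne := fun j h1 h2 => (hP.ne j h1 h2).symm
  uniq := fun x h1 h2 => (hP.uniq x h1 h2).symm
  rho_a := hP.rho_b
  rho_b := hP.rho_a
  aa := hP.bb
  bb := hP.aa
  ab := hP.ba
  ba := hP.ab
  bare := fun j h1 h2 h => hP.bare j h1 h2 h.symm
  rung := hP.rung.symm

/-- The path `a` extended by the root. -/
def ex (k1 : ℕ) (ρ : V) (a : ℕ → V) (j : ℕ) : V := if j = k1 then ρ else a j

theorem ex_self (k1 : ℕ) (ρ : V) (a : ℕ → V) : ex k1 ρ a k1 = ρ := by simp [ex]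

theorem ex_gt {k1 j : ℕ} (h : k1 < j) (ρ : V) (a : ℕ → V) : ex k1 ρ a j = a j := by
  unfold ex
  rw [if_neg (by omega)]

theorem ex_lay (hP : Paths lay G k1 k0 ρ a b) {j : ℕ} (h1 : k1 ≤ j) (h2 : j ≤ k0 + 1) :
    lay (ex k1 ρ a j) = j := by
  rcases h1.eq_or_lt with h | h
  · subst h
    rw [ex_self]
    exact hP.rho_lay
  · rw [ex_gt h]
    exact hP.a_lay j h h2

/-- Neighbours of a vertex of a bare path. -/
theorem nbr (hP : Paths lay G k1 k0 ρ a b) {j : ℕ} (h1 : k1 ≤ j) (h2 : j + 1 ≤ k0) (v : V) :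
    G.Adj (a (j + 1)) v ↔ v = a (j + 2) ∨ v = ex k1 ρ a j := by
  have hl := hP.a_lay (j + 1) (by omega) (by omega)
  constructor
  · intro h
    have e1 := hP.layered _ _ h
    have e2 := hP.layered _ _ h.symm
    rw [hl] at e1 e2
    have e3 : lay v = j ∨ lay v = j + 1 ∨ lay v = j + 2 := by omega
    rcases e3 with e | e | e
    · right
      rcases h1.eq_or_lt with h' | h'
      · subst h'
        rw [ex_self]
        exact hP.rho_uniq v e
      · rw [ex_gt h']
        rcases hP.uniq v (by omega) (by omega) with h3 | h3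
        · rw [h3, e]
        · rw [e] at h3
          rw [h3] at h
          exact absurd h.symm (hP.ba j h' (by omega))
    · rcases hP.uniq v (by omega) (by omega) with h3 | h3
      · rw [e] at h3
        rw [h3] at h
        exact absurd h (G.loopless.irrefl _)
      · rw [e] at h3
        rw [h3] at h
        exact absurd h (hP.bare (j + 1) (by omega) h2)
    · left
      rcases hP.uniq v (by omega) (by omega) with h3 | h3
      · rw [h3, e]
      · rw [e] at h3
        rw [h3] at h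
        exact absurd h (hP.ab (j + 1) (by omega) h2)
  · rintro (h | h)
    · rw [h]
      exact hP.aa (j + 1) (by omega) h2
    · rw [h]
      rcases h1.eq_or_lt with h' | h'
      · subst h'
        rw [ex_self]
        exact hP.rho_a.symm
      · rw [ex_gt h']
        exact (hP.aa j h' (by omega)).symm

/-- No edge inside the layers `k1, ..., k0`. -/
theorem no_inner (hP : Paths lay G k1 k0 ρ a b) {x y : V} (h1 : k1 ≤ lay x) (h2 : lay x ≤ k0)
    (h3 : lay y = lay x) : ¬ G.Adj x y := by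
  intro h
  rcases h1.eq_or_lt with h' | h'
  · have e1 := hP.rho_uniq x h'.symm
    have e2 := hP.rho_uniq y (h3.trans h'.symm)
    rw [e1, e2] at h
    exact G.loopless.irrefl _ h
  · have hb := hP.bare (lay x) h' h2
    have ey := hP.uniq y (by omega) (by omega)
    rw [h3] at ey
    rcases hP.uniq x h' (by omega) with e1 | e1 <;> rcases ey with e2 | e2
    · exact h.ne (e1.trans e2.symm)
    · exact hb (by rw [← e1, ← e2]; exact h)
    · exact hb (by rw [← e1, ← e2]; exact h.symm)
    · exact h.ne (e1.trans e2.symm)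

theorem sum_two (A : Matrix V V ℤ) (v x y : V) :
    ∑ w, A v w * ((if w = x then 1 else 0) + (if w = y then 1 else 0)) = A v x + A v y := by
  simp [mul_add, Finset.sum_add_distrib]

/-- A column of the matrix at a vertex of a bare path. -/
theorem col (hP : Paths lay G k1 k0 ρ a b) {j : ℕ} (h1 : k1 ≤ j) (h2 : j + 1 ≤ k0) (v : V)
    (hv : H.Adj (a (j + 1)) v ↔ G.Adj (a (j + 1)) v) :
    up lay k1 (am H) v (a (j + 1)) =
      (if v = a (j + 2) then 1 else 0) + (if v = ex k1 ρ a j then 1 else 0) := by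
  have l1 := hP.a_lay (j + 1) (by omega) (by omega)
  have l2 := hP.a_lay (j + 2) (by omega) (by omega)
  have l0 := ex_lay hP h1 (by omega)
  rw [nbr hP h1 h2] at hv
  rw [up_apply]
  by_cases e2 : v = a (j + 2)
  · have e0 : v ≠ ex k1 ρ a j := by
      intro e
      rw [← e] at l0
      rw [← e2] at l2
      omega
    have : k1 ≤ lay v := by rw [e2]; omega
    rw [if_pos ⟨this, by omega⟩, if_pos e2, if_neg e0, am_pos (hv.2 (Or.inl e2)).symm, add_zero]
  · by_cases e0 : v = ex k1 ρ a j
    · have : k1 ≤ lay v := by rw [e0]; omega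
      rw [if_pos ⟨this, by omega⟩, if_neg e2, if_pos e0, am_pos (hv.2 (Or.inr e0)).symm, zero_add]
    · have : ¬ H.Adj v (a (j + 1)) := fun h => by
        rcases hv.1 h.symm with e | e
        · exact e2 e
        · exact e0 e
      rw [am_neg this, if_neg e2, if_neg e0, ite_self, add_zero]

theorem ag1_mono {k k' : ℕ} (h : Ag1 lay G H k) (hk : k' ≤ k) : Ag1 lay G H k' :=
  fun x y hx => h x y (by omega)

/-- The vectors along the known part of the two paths. -/
theorem fv_known (hP : Paths lay G k1 k0 ρ a b) (i : ℕ) : Ag1 lay G H (k1 + i) →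
    k1 + i ≤ k0 + 1 → ∀ v, (if i = 0 then 2 else 1) * fv (up lay k1 (am H)) ρ i v =
      (if v = ex k1 ρ a (k1 + i) then 1 else 0) + (if v = ex k1 ρ b (k1 + i) then 1 else 0) := by
  induction i using Nat.twoStepInduction with
  | zero =>
    intro _ _ v
    rw [fv_zero, add_zero, ex_self, ex_self]
    split_ifs <;> simp_all
  | one =>
    intro hA _ v
    have hlt := hP.lt
    rw [if_neg one_ne_zero, one_mul, fv_one, ex_gt (Nat.lt_succ_self k1),
      ex_gt (Nat.lt_succ_self k1), up_apply]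
    have la := hP.a_lay (k1 + 1) (by omega) (by omega)
    have lb := hP.b_lay (k1 + 1) (by omega) (by omega)
    have hne := hP.ne (k1 + 1) (by omega) (by omega)
    have hr := hP.rho_lay
    have hv := hA ρ v (by omega)
    by_cases ea : v = a (k1 + 1)
    · have eb : v ≠ b (k1 + 1) := fun e => hne (ea.symm.trans e)
      have : k1 ≤ lay v := by rw [ea]; omega
      rw [if_pos ⟨this, by omega⟩, if_pos ea, if_neg eb,
        am_pos (hv.2 (by rw [ea]; exact hP.rho_a)).symm, add_zero]
    · by_cases eb : v = b (k1 + 1)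
      · have : k1 ≤ lay v := by rw [eb]; omega
        rw [if_pos ⟨this, by omega⟩, if_neg ea, if_pos eb,
          am_pos (hv.2 (by rw [eb]; exact hP.rho_b)).symm, zero_add]
      · rw [if_neg ea, if_neg eb, add_zero]
        split_ifs with hc
        · refine am_neg fun h => ?_
          have hG := hv.1 h.symm
          have e1 := hP.layered _ _ hG
          rcases hc.1.eq_or_lt with e | e
          · exact no_inner hP (by omega) (by omega) (by omega) hG
          · have e3 : lay v = k1 + 1 := by omega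
            rcases hP.uniq v e (by omega) with h3 | h3
            · rw [e3] at h3
              exact ea h3
            · rw [e3] at h3
              exact eb h3
        · rfl
  | more i ih0 ih1 =>
    intro hA hk v
    have i0 := ih0 (ag1_mono hA (by omega)) (by omega) v
    have i1 := ih1 (ag1_mono hA (by omega)) (by omega)
    simp only [Nat.add_one_ne_zero, if_false, one_mul, ex_gt (show k1 < k1 + (i + 1) by omega)]
      at i1
    rw [if_neg (by omega), one_mul, fv_step, i0, ex_gt (show k1 < k1 + (i + 2) by omega),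
      ex_gt (show k1 < k1 + (i + 2) by omega)]
    simp only [i1]
    rw [sum_two]
    have la := hP.a_lay (k1 + i + 1) (by omega) (by omega)
    have lb := hP.b_lay (k1 + i + 1) (by omega) (by omega)
    have ca := col (H := H) hP (Nat.le_add_right k1 i) (by omega) v (hA _ _ (by omega))
    have cb := col (H := H) (paths_symm hP) (Nat.le_add_right k1 i) (by omega) v
      (hA _ _ (by omega))
    rw [← add_assoc k1 i 1, ← add_assoc k1 i 2, ca, cb]
    ring

theorem fv_known' (hP : Paths lay G k1 k0 ρ a b) (i : ℕ) (hA : Ag1 lay G H (k1 + (i + 1)))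
    (hk : k1 + (i + 1) ≤ k0 + 1) (v : V) : fv (up lay k1 (am H)) ρ (i + 1) v =
      (if v = a (k1 + (i + 1)) then 1 else 0) + (if v = b (k1 + (i + 1)) then 1 else 0) := by
  have h := fv_known hP (i + 1) hA hk v
  rwa [if_neg (by omega), one_mul, ex_gt (by omega), ex_gt (by omega)] at h

theorem nrm_G (hP : Paths lay G k1 k0 ρ a b) (i : ℕ) (hk : k1 + (i + 1) ≤ k0 + 1) :
    nrm (up lay k1 (am G)) ρ (i + 1) = 2 := by
  have hne := hP.ne (k1 + (i + 1)) (by omega) hk
  unfold nrm
  simp only [fv_known' hP i (fun _ _ _ => Iff.rfl) hk]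
  simp [mul_add, Finset.sum_add_distrib, hne, hne.symm]

theorem frm_G (hP : Paths lay G k1 k0 ρ a b) (i : ℕ) (hk : k1 + (i + 1) ≤ k0 + 1) :
    frm (up lay k1 (am G)) ρ (i + 1) = 2 * am G (a (k1 + (i + 1))) (b (k1 + (i + 1))) := by
  have la := hP.a_lay (k1 + (i + 1)) (by omega) hk
  have lb := hP.b_lay (k1 + (i + 1)) (by omega) hk
  unfold frm
  simp only [fv_known' hP i (fun _ _ _ => Iff.rfl) hk, mul_assoc, ← Finset.mul_sum, sum_two]
  simp only [add_mul, Finset.sum_add_distrib, ite_mul, one_mul, zero_mul, Finset.sum_ite_eq',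
    Finset.mem_univ, if_true, up_apply, la, lb, Nat.le_add_right, and_self]
  rw [am_neg (G.loopless.irrefl _), am_neg (G.loopless.irrefl _), am_symm G (b _)]
  ring

/-- Indicator of the neighbours of `x` above layer `k`. -/
noncomputable def al (lay : V → ℕ) (H : SimpleGraph V) (k : ℕ) (x v : V) : ℤ :=
  if k < lay v then am H x v else 0

theorem al_nonneg (lay : V → ℕ) (H : SimpleGraph V) (k : ℕ) (x v : V) : 0 ≤ al lay H k x v := by
  unfold al
  split_ifs
  · exact am_nonneg _ _ _
  · exact le_rfl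

theorem al_le (lay : V → ℕ) (H : SimpleGraph V) (k : ℕ) (x v : V) : al lay H k x v ≤ 1 := by
  unfold al
  split_ifs
  · exact am_le _ _ _
  · exact zero_le_one

theorem al_sq (lay : V → ℕ) (H : SimpleGraph V) (k : ℕ) (x v : V) :
    al lay H k x v * al lay H k x v = al lay H k x v := by
  unfold al
  split_ifs
  · exact am_sq _ _ _
  · exact zero_mul _

theorem up_nonneg (lay : V → ℕ) (k : ℕ) (H : SimpleGraph V) (x y : V) :
    0 ≤ up lay k (am H) x y := by
  rw [up_apply]
  split_ifs
  · exact am_nonneg _ _ _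
  · exact le_rfl

theorem cod_eq (lay : V → ℕ) (H : SimpleGraph V) (k : ℕ) (x x' : V) :
    cod lay H k x x' = ∑ v, al lay H k x v * al lay H k x' v := by
  refine Finset.sum_congr rfl fun v _ => ?_
  unfold al
  split_ifs
  · rfl
  · exact (zero_mul _).symm

theorem edg_eq (lay : V → ℕ) (H : SimpleGraph V) {k1 k : ℕ} (hk : k1 ≤ k) (x x' : V) :
    edg lay H k x x' =
      ∑ v, ∑ w, al lay H k x v * up lay k1 (am H) v w * al lay H k x' w := by
  refine Finset.sum_congr rfl fun v _ => Finset.sum_congr rfl fun w _ => ?_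
  unfold al
  rw [up_apply]
  by_cases h1 : k < lay v
  · by_cases h2 : k < lay w
    · rw [if_pos ⟨h1, h2⟩, if_pos h1, if_pos h2, if_pos ⟨by omega, by omega⟩]
    · rw [if_neg fun h => h2 h.2, if_neg h2, mul_zero]
  · rw [if_neg fun h => h1 h.1, if_neg h1, zero_mul, zero_mul]

theorem edg_nonneg (lay : V → ℕ) (H : SimpleGraph V) (k : ℕ) (x x' : V) :
    0 ≤ edg lay H k x x' := by
  rw [edg_eq lay H le_rfl]
  exact Finset.sum_nonneg fun v _ => Finset.sum_nonneg fun w _ =>
    mul_nonneg (mul_nonneg (al_nonneg _ _ _ _ _) (up_nonneg _ _ _ _ _)) (al_nonneg _ _ _ _ _)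

theorem cod_nonneg (lay : V → ℕ) (H : SimpleGraph V) (k : ℕ) (x x' : V) :
    0 ≤ cod lay H k x x' := by
  rw [cod_eq]
  exact Finset.sum_nonneg fun v _ => mul_nonneg (al_nonneg _ _ _ _ _) (al_nonneg _ _ _ _ _)

theorem cod_symm (lay : V → ℕ) (H : SimpleGraph V) (k : ℕ) (x x' : V) :
    cod lay H k x x' = cod lay H k x' x := by
  rw [cod_eq, cod_eq]
  exact Finset.sum_congr rfl fun v _ => mul_comm _ _

theorem cod_le (lay : V → ℕ) (H : SimpleGraph V) (k : ℕ) (x x' : V) :
    cod lay H k x x' ≤ cod lay H k x x := by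
  rw [cod_eq, cod_eq]
  refine Finset.sum_le_sum fun v _ => ?_
  rw [al_sq]
  exact mul_le_of_le_one_right (al_nonneg _ _ _ _ _) (al_le _ _ _ _ _)

theorem ag2_adj {k : ℕ} (h : Ag2 lay G H k) {x v : V} (hx : lay x = k) (hv : lay v ≤ k) :
    H.Adj x v ↔ G.Adj x v := by
  rcases hv.eq_or_lt with e | e
  · exact h.2 x v hx e
  · rw [H.adj_comm, G.adj_comm]
    exact h.1 v x e

/-- The first vector at the root. -/
theorem fv_root (hP : Paths lay G k1 k0 ρ a b) (H : SimpleGraph V) (v : V) :
    fv (up lay k1 (am H)) ρ 1 v = al lay H k1 ρ v := by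
  have hr := hP.rho_lay
  rw [fv_one, up_apply, al, am_symm H v ρ]
  by_cases h : k1 < lay v
  · rw [if_pos h, if_pos ⟨by omega, by omega⟩]
  · rw [if_neg h]
    split_ifs with hc
    · rw [hP.rho_uniq v (by omega)]
      exact am_neg (H.loopless.irrefl _)
    · rfl

/-- A column at the last known layer. -/
theorem col_next (hP : Paths lay G k1 k0 ρ a b) {j : ℕ} (h1 : k1 ≤ j) (h2 : j + 1 ≤ k0)
    (hA : Ag2 lay G H (j + 1)) (v : V) :
    up lay k1 (am H) v (a (j + 1)) =
      al lay H (j + 1) (a (j + 1)) v + (if v = ex k1 ρ a j then 1 else 0) := by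
  have l1 := hP.a_lay (j + 1) (by omega) (by omega)
  have l2 := hP.a_lay (j + 2) (by omega) (by omega)
  have l0 := ex_lay hP h1 (by omega)
  by_cases h : j + 1 < lay v
  · have e0 : v ≠ ex k1 ρ a j := by
      intro e
      rw [← e] at l0
      omega
    rw [up_apply, al, if_pos h, if_pos ⟨by omega, by omega⟩, if_neg e0, add_zero, am_symm]
  · have e2 : v ≠ a (j + 2) := by
      intro e
      rw [← e] at l2
      omega
    rw [col hP h1 h2 v (ag2_adj hA l1 (by omega)), al, if_neg h, if_neg e2]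

/-- The first vector that leaves the known part. -/
theorem fv_next (hP : Paths lay G k1 k0 ρ a b) (i : ℕ) (h2 : k1 + i + 1 ≤ k0)
    (hA : Ag2 lay G H (k1 + i + 1)) (v : V) :
    fv (up lay k1 (am H)) ρ (i + 2) v =
      al lay H (k1 + i + 1) (a (k1 + i + 1)) v + al lay H (k1 + i + 1) (b (k1 + i + 1)) v := by
  rw [fv_step, fv_known hP i (ag1_mono hA.1 (by omega)) (by omega) v]
  simp only [fv_known' hP i hA.1 (by omega)]
  rw [sum_two, ← add_assoc k1 i 1, col_next hP (Nat.le_add_right k1 i) h2 hA,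
    col_next (paths_symm hP) (Nat.le_add_right k1 i) h2 hA]
  ring

/-- If `b` has no new neighbour then the new neighbours of `a` have no further neighbour. -/
theorem closed (hP : Paths lay G k1 k0 ρ a b) (i : ℕ) (h2 : k1 + i + 1 < k0)
    (hA : Ag2 lay G H (k1 + i + 1)) (hM : Mom1 lay G H k1 ρ)
    (ha : cod lay H (k1 + i + 1) (a (k1 + i + 1)) (a (k1 + i + 1)) = 2)
    (hb : ∀ v, al lay H (k1 + i + 1) (b (k1 + i + 1)) v = 0) {v w : V}
    (hv : k1 + i + 1 < lay v) (hw : k1 + i + 1 < lay w) (haw : H.Adj (a (k1 + i + 1)) w) :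
    ¬ H.Adj v w := by
  intro hvw
  have la := hP.a_lay (k1 + i + 1) (by omega) (by omega)
  have lb := hP.b_lay (k1 + i + 1) (by omega) (by omega)
  have hne := hP.ne (k1 + i + 1) (by omega) (by omega)
  have hn := nrm_mom hM (i + 2 + 1)
  rw [nrm_G hP (i + 2) (by omega)] at hn
  have hf : ∀ x, fv (up lay k1 (am H)) ρ (i + 2 + 1) x =
      ∑ y, up lay k1 (am H) x y * al lay H (k1 + i + 1) (a (k1 + i + 1)) y -
        ((if x = a (k1 + i + 1) then 1 else 0) + (if x = b (k1 + i + 1) then 1 else 0)) := by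
    intro x
    rw [show i + 2 + 1 = (i + 1) + 2 from rfl, fv_step, if_neg (by omega), one_mul,
      fv_known' hP i hA.1 (by omega) x]
    simp only [show i + 1 + 1 = i + 2 from rfl, fv_next hP i h2.le hA, hb, add_zero]
    rfl
  have hs : ∀ x, lay x = k1 + i + 1 →
      ∑ y, up lay k1 (am H) x y * al lay H (k1 + i + 1) (a (k1 + i + 1)) y =
        cod lay H (k1 + i + 1) x (a (k1 + i + 1)) := by
    intro x hx
    rw [cod_eq]
    refine Finset.sum_congr rfl fun y _ => ?_
    rw [up_apply]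
    unfold al
    by_cases hy : k1 + i + 1 < lay y
    · rw [if_pos hy, if_pos hy, if_pos ⟨by omega, by omega⟩]
    · rw [if_neg hy, if_neg hy, mul_zero, mul_zero]
  have fa : fv (up lay k1 (am H)) ρ (i + 2 + 1) (a (k1 + i + 1)) = 1 := by
    rw [hf, hs _ la, ha, if_pos rfl, if_neg hne]
    norm_num
  have fb : fv (up lay k1 (am H)) ρ (i + 2 + 1) (b (k1 + i + 1)) = -1 := by
    rw [hf, hs _ lb, cod_eq, if_pos rfl, if_neg hne.symm]
    simp [hb]
  have va : v ≠ a (k1 + i + 1) := by
    intro e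
    rw [← e] at la
    omega
  have vb : v ≠ b (k1 + i + 1) := by
    intro e
    rw [← e] at lb
    omega
  have fv1 : 1 ≤ fv (up lay k1 (am H)) ρ (i + 2 + 1) v := by
    rw [hf, if_neg va, if_neg vb, add_zero, sub_zero]
    refine le_trans ?_ (Finset.single_le_sum (f := fun y => up lay k1 (am H) v y *
      al lay H (k1 + i + 1) (a (k1 + i + 1)) y) (fun y _ => mul_nonneg (up_nonneg _ _ _ _ _)
        (al_nonneg _ _ _ _ _)) (Finset.mem_univ w))
    rw [up_apply, al, if_pos ⟨by omega, by omega⟩, if_pos hw, am_pos hvw, am_pos haw, mul_one]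
  have hsub := Finset.sum_le_sum_of_subset_of_nonneg
    (f := fun x => fv (up lay k1 (am H)) ρ (i + 2 + 1) x * fv (up lay k1 (am H)) ρ (i + 2 + 1) x)
    (Finset.subset_univ ({v, a (k1 + i + 1), b (k1 + i + 1)} : Finset V))
    (fun x _ _ => mul_self_nonneg _)
  rw [Finset.sum_insert (by simp [va, vb]), Finset.sum_pair hne, fa, fb] at hsub
  unfold nrm at hn
  rw [hn] at hsub
  nlinarith

/-- Vectors of the recurrence stay in a closed bipartite part. -/
theorem supp {A : Matrix V V ℤ} (hA : A.IsSymm) (ρ : V) (S : V → Prop) (l : V → ℕ) (h0 : S ρ)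
    (hS : ∀ v w, S v → A v w ≠ 0 → S w ∧ (l w = l v + 1 ∨ l v = l w + 1)) (i : ℕ) :
    ∀ v, fv A ρ i v ≠ 0 → S v ∧ (l v + i) % 2 = l ρ % 2 := by
  induction i using Nat.twoStepInduction with
  | zero =>
    intro v hv
    rw [fv_zero] at hv
    have : v = ρ := by
      by_contra h
      exact hv (if_neg h)
    rw [this]
    exact ⟨h0, rfl⟩
  | one =>
    intro v hv
    rw [fv_one, hA.apply] at hv
    obtain ⟨h1, h2⟩ := hS ρ v h0 hv
    exact ⟨h1, by omega⟩
  | more i ih0 ih1 =>
    intro v hv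
    rw [fv_step] at hv
    by_cases h : fv A ρ i v = 0
    · rw [h, mul_zero, sub_zero] at hv
      obtain ⟨w, -, hw⟩ := Finset.exists_ne_zero_of_sum_ne_zero hv
      obtain ⟨h1, h2⟩ := ih1 w (right_ne_zero_of_mul hw)
      have h3 := left_ne_zero_of_mul hw
      rw [hA.apply] at h3
      obtain ⟨h4, h5⟩ := hS w v h1 h3
      exact ⟨h4, by omega⟩
    · obtain ⟨h1, h2⟩ := ih0 v h
      exact ⟨h1, by omega⟩

theorem frm_zero {A : Matrix V V ℤ} (hA : A.IsSymm) (ρ : V) (S : V → Prop) (l : V → ℕ)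
    (h0 : S ρ) (hS : ∀ v w, S v → A v w ≠ 0 → S w ∧ (l w = l v + 1 ∨ l v = l w + 1)) (i : ℕ) :
    frm A ρ i = 0 := by
  refine Finset.sum_eq_zero fun v _ => Finset.sum_eq_zero fun w _ => ?_
  by_contra h
  obtain ⟨h1, h2⟩ := supp hA ρ S l h0 hS i v (left_ne_zero_of_mul (left_ne_zero_of_mul h))
  obtain ⟨-, h4⟩ := supp hA ρ S l h0 hS i w (right_ne_zero_of_mul h)
  obtain ⟨-, h6⟩ := hS v w h1 (right_ne_zero_of_mul (left_ne_zero_of_mul h))
  omega

/-- Both new vertices cannot have the same parent. -/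
theorem not_two (hP : Paths lay G k1 k0 ρ a b) (i : ℕ) (h2 : k1 + i + 1 < k0)
    (hA : Ag2 lay G H (k1 + i + 1)) (hM : Mom1 lay G H k1 ρ)
    (ha : cod lay H (k1 + i + 1) (a (k1 + i + 1)) (a (k1 + i + 1)) = 2)
    (hb : cod lay H (k1 + i + 1) (b (k1 + i + 1)) (b (k1 + i + 1)) = 0) : False := by
  have hb' : ∀ v, al lay H (k1 + i + 1) (b (k1 + i + 1)) v = 0 := by
    intro v
    rw [cod_eq, Finset.sum_eq_zero_iff_of_nonneg fun v _ => mul_self_nonneg _] at hb
    exact mul_self_eq_zero.1 (hb v (Finset.mem_univ v))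
  have hr := hP.rho_lay
  obtain ⟨L, hL⟩ : ∃ L, k1 + (L + 1) = k0 + 1 := ⟨k0 - k1, by omega⟩
  have hf := frm_mom hM (L + 1)
  rw [frm_G hP L hL.le, hL, am_pos hP.rung] at hf
  have low : ∀ v w, k1 ≤ lay v → k1 ≤ lay w → lay v ≤ k0 → G.Adj v w →
      lay w = lay v + 1 ∨ lay v = lay w + 1 := by
    intro v w e1 _ e3 h
    have c1 := hP.layered _ _ h
    have c2 := hP.layered _ _ h.symm
    have c3 : lay w ≠ lay v := fun e => no_inner hP e1 e3 e h
    omega
  have hz := frm_zero (up_symm lay k1 H) ρ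
    (fun v => k1 + i + 1 < lay v → H.Adj (a (k1 + i + 1)) v)
    (fun v => min (lay v) (k1 + i + 2)) (fun h => by omega) (fun v w hv h => by
      obtain ⟨e1, e2, hvw⟩ := up_ne h
      rcases lt_trichotomy (lay v) (k1 + i + 1) with c | c | c
      · have := low v w e1 e2 (by omega) ((hA.1 v w c).1 hvw)
        exact ⟨fun h => by omega, by omega⟩
      · by_cases d : lay w ≤ k1 + i + 1
        · have := low v w e1 e2 (by omega) ((ag2_adj hA c d).1 hvw)
          exact ⟨fun h => by omega, by omega⟩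
        · refine ⟨fun _ => ?_, by omega⟩
          rcases hP.uniq v (by omega) (by omega) with e | e
          · rw [c] at e
            rw [← e]
            exact hvw
          · rw [c] at e
            have := hb' w
            rw [al, if_pos (by omega), ← e, am_pos hvw] at this
            exact absurd this one_ne_zero
      · rcases lt_trichotomy (lay w) (k1 + i + 1) with d | d | d
        · have := hP.layered _ _ ((hA.1 w v d).1 hvw.symm)
          omega
        · exact ⟨fun h => by omega, by omega⟩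
        · exact absurd hvw.symm (closed hP i h2 hA hM ha hb' d c (hv c))) (L + 1)
  rw [hz] at hf
  norm_num at hf

/-- The data on a layer of the two paths. -/
theorem data (hP : Paths lay G k1 k0 ρ a b) (i : ℕ) (h2 : k1 + i + 1 < k0)
    (hA : Ag2 lay G H (k1 + i + 1)) (hM : Mom1 lay G H k1 ρ) {x x' : V}
    (hx : lay x = k1 + i + 1) (hx' : lay x' = k1 + i + 1) :
    cod lay H (k1 + i + 1) x x' = (if x = x' then 1 else 0) ∧
      edg lay H (k1 + i + 1) x x' = 0 := by
  have hne := hP.ne (k1 + i + 1) (by omega) (by omega)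
  have hn := nrm_mom hM (i + 1 + 1)
  rw [nrm_G hP (i + 1) (by omega)] at hn
  have hf := frm_mom hM (i + 1 + 1)
  rw [frm_G hP (i + 1) (by omega), am_neg (hP.bare _ (by omega) (by omega)), mul_zero] at hf
  have hk : k1 ≤ k1 + i + 1 := by omega
  have hn' : cod lay H (k1 + i + 1) (a (k1 + i + 1)) (a (k1 + i + 1)) +
      cod lay H (k1 + i + 1) (b (k1 + i + 1)) (b (k1 + i + 1)) +
      2 * cod lay H (k1 + i + 1) (a (k1 + i + 1)) (b (k1 + i + 1)) = 2 := by
    refine Eq.trans ?_ hn
    rw [cod_eq, cod_eq, cod_eq, Finset.mul_sum, ← Finset.sum_add_distrib,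
      ← Finset.sum_add_distrib]
    refine Finset.sum_congr rfl fun v _ => ?_
    rw [show i + 1 + 1 = i + 2 from rfl, fv_next hP i h2.le hA]
    ring
  have hf' : edg lay H (k1 + i + 1) (a (k1 + i + 1)) (a (k1 + i + 1)) +
      edg lay H (k1 + i + 1) (b (k1 + i + 1)) (b (k1 + i + 1)) +
      edg lay H (k1 + i + 1) (a (k1 + i + 1)) (b (k1 + i + 1)) +
      edg lay H (k1 + i + 1) (b (k1 + i + 1)) (a (k1 + i + 1)) = 0 := by
    rw [← hf, edg_eq lay H hk, edg_eq lay H hk, edg_eq lay H hk, edg_eq lay H hk]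
    simp only [← Finset.sum_add_distrib]
    refine Finset.sum_congr rfl fun v _ => Finset.sum_congr rfl fun w _ => ?_
    rw [show i + 1 + 1 = i + 2 from rfl, fv_next hP i h2.le hA, fv_next hP i h2.le hA]
    ring
  have c1 := cod_nonneg lay H (k1 + i + 1) (a (k1 + i + 1)) (b (k1 + i + 1))
  have c2 := cod_le lay H (k1 + i + 1) (a (k1 + i + 1)) (b (k1 + i + 1))
  have c3 := cod_le lay H (k1 + i + 1) (b (k1 + i + 1)) (a (k1 + i + 1))
  have c4 := cod_symm lay H (k1 + i + 1) (b (k1 + i + 1)) (a (k1 + i + 1))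
  have c5 := not_two hP i h2 hA hM
  have c6 := not_two (paths_symm hP) i h2 hA hM
  have d1 := edg_nonneg lay H (k1 + i + 1) (a (k1 + i + 1)) (a (k1 + i + 1))
  have d2 := edg_nonneg lay H (k1 + i + 1) (b (k1 + i + 1)) (b (k1 + i + 1))
  have d3 := edg_nonneg lay H (k1 + i + 1) (a (k1 + i + 1)) (b (k1 + i + 1))
  have d4 := edg_nonneg lay H (k1 + i + 1) (b (k1 + i + 1)) (a (k1 + i + 1))
  have caa : cod lay H (k1 + i + 1) (a (k1 + i + 1)) (a (k1 + i + 1)) = 1 := by
    by_contra h
    by_cases h' : cod lay H (k1 + i + 1) (a (k1 + i + 1)) (a (k1 + i + 1)) = 2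
    · exact c5 h' (by omega)
    · exact c6 (by omega) (by omega)
  have ex := hP.uniq x (by omega) (by omega)
  have ex' := hP.uniq x' (by omega) (by omega)
  rw [hx] at ex
  rw [hx'] at ex'
  rcases ex with e | e <;> rcases ex' with e' | e' <;> rw [e, e']
  · rw [if_pos rfl]
    exact ⟨caa, by omega⟩
  · rw [if_neg hne]
    exact ⟨by omega, by omega⟩
  · rw [if_neg hne.symm]
    exact ⟨by omega, by omega⟩
  · rw [if_pos rfl]
    exact ⟨by omega, by omega⟩

theorem root_data (hP : Paths lay G k1 k0 ρ a b) (H : SimpleGraph V) :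
    cod lay H k1 ρ ρ = nrm (up lay k1 (am H)) ρ 1 ∧
      edg lay H k1 ρ ρ = frm (up lay k1 (am H)) ρ 1 := by
  unfold nrm frm
  simp only [fv_root hP]
  exact ⟨cod_eq _ _ _ _ _, edg_eq _ _ le_rfl _ _⟩

end Force

theorem pForce : StForce := by
  intro V _ _ lay G H k1 k0 ρ a b k hP h1 h2 hA hM x x' hx hx'
  rcases h1.eq_or_lt with h | h
  · subst h
    rw [hP.rho_uniq x hx, hP.rho_uniq x' hx', (Force.root_data hP H).1, (Force.root_data hP H).2,
      (Force.root_data hP G).1, (Force.root_data hP G).2]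
    exact ⟨Force.nrm_mom hM 1, Force.frm_mom hM 1⟩
  · obtain ⟨i, rfl⟩ : ∃ i, k = k1 + i + 1 := ⟨k - k1 - 1, by omega⟩
    have dH := Force.data hP i h2 hA hM hx hx'
    have dG := Force.data (H := G) hP i h2 ⟨fun _ _ _ => Iff.rfl, fun _ _ _ _ => Iff.rfl⟩
      (fun _ => rfl) hx hx'
    exact ⟨dH.1.trans dG.1.symm, dH.2.trans dG.2.symm⟩

end Pool.Agent.P.MP_f57657_co.SX
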