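import Pool.Agent.P.MP_f57657_co.SX.Defs

/-! Package 5: gluing formula, basic facts on walk generating functions, separation lemma. -/

open Matrix Finset

namespace Pool.Agent.P.MP_f57657_co.SX

namespace Glue

section Alg

variable {S V ι : Type} [CommRing S] [Fintype V] [DecidableEq V] [Fintype ι] [DecidableEq ι]

theorem alg (x : S) (a1 a2 R1 R2 R : Matrix V V S) (U W : Matrix V ι S) (U' W' : Matrix ι V S)
    (h1 : (1 - x • a1) * R1 = 1) (h1' : R1 * (1 - x • a1) = 1)
    (h2 : (1 - x • a2) * R2 = 1) (h2' : R2 * (1 - x • a2) = 1)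
    (h : (1 - x • (a1 + a2 + U * W' + W * U')) * R = 1)
    (e12 : a1 * a2 = 0) (e21 : a2 * a1 = 0) (e2U : a2 * U = 0) (eU2 : U' * a2 = 0)
    (e1W : a1 * W = 0) (eW1 : W' * a1 = 0) (eUW : U' * W = 0) (eWU : W' * U = 0) :
    (1 - x • (a1 + a2 + U * W' + W * U')).det =
        (1 - x • a1).det * (1 - x • a2).det *
          (1 - x ^ 2 • ((U' * R1 * U) * (W' * R2 * W))).det ∧
      U' * R * U = U' * R1 * U + x ^ 2 • ((U' * R1 * U) * (W' * R2 * W) * (U' * R * U)) := by
  have m12 : (1 - x • a1) * (1 - x • a2) = 1 - x • a1 - x • a2 := by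
    rw [Matrix.mul_sub, Matrix.mul_one, Matrix.sub_mul, Matrix.one_mul, Matrix.smul_mul,
      Matrix.mul_smul, e12, smul_zero, smul_zero, sub_zero]
  have m21 : (1 - x • a2) * (1 - x • a1) = 1 - x • a1 - x • a2 := by
    rw [Matrix.mul_sub, Matrix.mul_one, Matrix.sub_mul, Matrix.one_mul, Matrix.smul_mul,
      Matrix.mul_smul, e21, smul_zero, smul_zero, sub_zero, sub_right_comm]
  have i1 : (1 - x • a1 - x • a2) * (R2 * R1) = 1 := by
    rw [← m12, Matrix.mul_assoc, ← Matrix.mul_assoc _ R2, h2, Matrix.one_mul, h1]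
  have i2 : (R1 * R2) * (1 - x • a1 - x • a2) = 1 := by
    rw [← m21, Matrix.mul_assoc, ← Matrix.mul_assoc R2, h2', Matrix.one_mul, h1']
  have c12 : R1 * R2 = R2 * R1 := by
    rw [← Matrix.mul_one (R1 * R2), ← i1, ← Matrix.mul_assoc, i2, Matrix.one_mul]
  have r2U : R2 * U = U := by
    have : (1 - x • a2) * U = U := by
      rw [Matrix.sub_mul, Matrix.one_mul, Matrix.smul_mul, e2U, smul_zero, sub_zero]
    conv_lhs => rw [← this]
    rw [← Matrix.mul_assoc, h2', Matrix.one_mul]
  have rU2 : U' * R2 = U' := by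
    have : U' * (1 - x • a2) = U' := by
      rw [Matrix.mul_sub, Matrix.mul_one, Matrix.mul_smul, eU2, smul_zero, sub_zero]
    conv_lhs => rw [← this]
    rw [Matrix.mul_assoc, h2, Matrix.mul_one]
  have r1W : R1 * W = W := by
    have : (1 - x • a1) * W = W := by
      rw [Matrix.sub_mul, Matrix.one_mul, Matrix.smul_mul, e1W, smul_zero, sub_zero]
    conv_lhs => rw [← this]
    rw [← Matrix.mul_assoc, h1', Matrix.one_mul]
  have rW1 : W' * R1 = W' := by
    have : W' * (1 - x • a1) = W' := by
      rw [Matrix.mul_sub, Matrix.mul_one, Matrix.mul_smul, eW1, smul_zero, sub_zero]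
    conv_lhs => rw [← this]
    rw [Matrix.mul_assoc, h1, Matrix.mul_one]
  have kUU : U' * (R1 * R2) * U = U' * R1 * U := by
    rw [Matrix.mul_assoc, Matrix.mul_assoc, r2U, Matrix.mul_assoc]
  have kWW : W' * (R1 * R2) * W = W' * R2 * W := by
    rw [← Matrix.mul_assoc, rW1]
  have kUW : U' * (R1 * R2) * W = 0 := by
    rw [c12, ← Matrix.mul_assoc, rU2, Matrix.mul_assoc, r1W, eUW]
  have kWU : W' * (R1 * R2) * U = 0 := by
    rw [← Matrix.mul_assoc, rW1, Matrix.mul_assoc, r2U, eWU]
  have d0 : (1 - x • a1 - x • a2).det = (1 - x • a1).det * (1 - x • a2).det := by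
    rw [← m12, det_mul]
  rw [← c12] at i1
  rw [← d0, ← kUU, ← kWW]
  have eM : 1 - x • (a1 + a2 + U * W' + W * U') =
      (1 - x • a1 - x • a2) - x • (U * W') - x • (W * U') := by
    simp only [smul_add]
    abel
  rw [eM] at h ⊢
  generalize 1 - x • a1 - x • a2 = M0 at *
  generalize R1 * R2 = R0 at *
  constructor
  · have hN : (R0 * U * W') * (R0 * U * W') = 0 := by
      have : (R0 * U * W') * (R0 * U * W') = R0 * U * (W' * R0 * U) * W' := by
        simp only [Matrix.mul_assoc]
      rw [this, kWU, Matrix.mul_zero, Matrix.zero_mul]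
    have hi : (1 - x • (R0 * U * W')) * (1 + x • (R0 * U * W')) = 1 := by
      rw [Matrix.mul_add, Matrix.mul_one, Matrix.sub_mul, Matrix.one_mul, Matrix.smul_mul,
        Matrix.mul_smul, hN, smul_zero, smul_zero, sub_zero, sub_add_cancel]
    have f : M0 - x • (U * W') - x • (W * U') =
        M0 * ((1 - (x • (R0 * U)) * W') *
          (1 - (x • ((1 + x • (R0 * U * W')) * (R0 * W))) * U')) := by
      rw [Matrix.smul_mul, Matrix.smul_mul, Matrix.mul_sub (1 - x • (R0 * U * W')), Matrix.mul_one,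
        Matrix.mul_smul, ← Matrix.mul_assoc, ← Matrix.mul_assoc, hi, Matrix.one_mul,
        Matrix.mul_sub, Matrix.mul_sub, Matrix.mul_one, Matrix.mul_smul, Matrix.mul_smul,
        ← Matrix.mul_assoc, ← Matrix.mul_assoc, ← Matrix.mul_assoc, ← Matrix.mul_assoc, i1,
        Matrix.one_mul, Matrix.one_mul]
    rw [f, det_mul, det_mul, det_one_sub_mul_comm, det_one_sub_mul_comm _ U', Matrix.mul_smul,
      ← Matrix.mul_assoc, kWU, smul_zero, sub_zero, det_one, one_mul]
    have g : U' * (x • ((1 + x • (R0 * U * W')) * (R0 * W))) =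
        x ^ 2 • (U' * R0 * U * (W' * R0 * W)) := by
      rw [Matrix.mul_smul, Matrix.add_mul, Matrix.one_mul, Matrix.mul_add, ← Matrix.mul_assoc, kUW,
        zero_add, Matrix.smul_mul, Matrix.mul_smul, smul_smul, pow_two]
      simp only [Matrix.mul_assoc]
    rw [g]
  · have eR : R = R0 + x • (R0 * U * (W' * R)) + x • (R0 * W * (U' * R)) := by
      have := congrArg (fun T => R0 * T) h
      simp only [Matrix.sub_mul, Matrix.mul_sub, Matrix.smul_mul, Matrix.mul_smul,
        Matrix.mul_one] at this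
      rw [← Matrix.mul_assoc, i2, Matrix.one_mul] at this
      simp only [Matrix.mul_assoc] at this ⊢
      rw [sub_sub, sub_eq_iff_eq_add, ← add_assoc] at this
      exact this
    have k1 : U' * R * U = U' * R0 * U + x • (U' * R0 * U * (W' * R * U)) := by
      have : U' * R * U = U' * R0 * U + x • (U' * R0 * U * (W' * R * U)) +
          x • (U' * R0 * W * (U' * R * U)) := by
        conv_lhs => rw [eR]
        simp only [Matrix.mul_add, Matrix.add_mul, Matrix.mul_smul, Matrix.smul_mul,
          Matrix.mul_assoc]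
      rw [kUW, Matrix.zero_mul, smul_zero, add_zero] at this
      exact this
    have k2 : W' * R * U = x • (W' * R0 * W * (U' * R * U)) := by
      have : W' * R * U = W' * R0 * U + x • (W' * R0 * U * (W' * R * U)) +
          x • (W' * R0 * W * (U' * R * U)) := by
        conv_lhs => rw [eR]
        simp only [Matrix.mul_add, Matrix.add_mul, Matrix.mul_smul, Matrix.smul_mul,
          Matrix.mul_assoc]
      rw [kWU, Matrix.zero_mul, smul_zero, add_zero, zero_add] at this
      exact this
    conv_lhs => rw [k1, k2]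
    rw [Matrix.mul_smul, smul_smul, pow_two]
    simp only [Matrix.mul_assoc]

end Alg

section Ser

open PowerSeries

variable {V : Type} [Fintype V] [DecidableEq V]

/-- The matrix `1 - X A`. -/
noncomputable abbrev MM (A : Matrix V V ℤ) : Matrix V V (PowerSeries ℤ) :=
  1 - (X : PowerSeries ℤ) • A.map (C : ℤ → PowerSeries ℤ)

/-- The matrix of walk generating functions. -/
noncomputable abbrev RR (A : Matrix V V ℤ) : Matrix V V (PowerSeries ℤ) :=
  Matrix.of fun x y => res A x y

theorem MM_RR (A : Matrix V V ℤ) : MM A * RR A = 1 := by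
  ext x y k
  rw [Matrix.sub_mul, Matrix.one_mul, Matrix.smul_mul, Matrix.sub_apply, Matrix.smul_apply,
    smul_eq_mul, map_sub, Matrix.mul_apply]
  rcases k with _ | k
  · rw [coeff_zero_X_mul, sub_zero]
    simp only [Matrix.of_apply, res, coeff_mk, pow_zero, Matrix.one_apply]
    split_ifs <;> simp
  · rw [coeff_succ_X_mul, map_sum]
    simp only [Matrix.of_apply, res, coeff_mk, Matrix.map_apply, coeff_C_mul, Matrix.one_apply]
    rw [pow_succ', Matrix.mul_apply, sub_self]
    split_ifs <;> simp [coeff_one]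

theorem RR_MM (A : Matrix V V ℤ) : RR A * MM A = 1 := mul_eq_one_comm.1 (MM_RR A)

theorem pd_mono {f : PowerSeries ℤ} {d e : ℕ} (h : PD f d) (hde : d ≤ e) : PD f e :=
  fun k hk => h k (by omega)

theorem pd_sub {f g : PowerSeries ℤ} {d : ℕ} (h : PD f d) (h' : PD g d) : PD (f - g) d :=
  fun k hk => by rw [map_sub, h k hk, h' k hk, sub_zero]

theorem pd_mul {f g : PowerSeries ℤ} {d e : ℕ} (h : PD f d) (h' : PD g e) : PD (f * g) (d + e) :=
  fun k hk => by
    rw [coeff_mul]
    refine Finset.sum_eq_zero fun p hp => ?_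
    have : p.1 + p.2 = k := by simpa using hp
    by_cases h1 : d < p.1
    · rw [h _ h1, zero_mul]
    · rw [h' _ (by omega), mul_zero]

theorem pd_C (c : ℤ) : PD (C c) 0 := fun k hk => by
  rw [coeff_C, if_neg (by omega)]

theorem pd_one : PD 1 0 := by simpa using pd_C 1

theorem pd_zero (d : ℕ) : PD 0 d := fun k _ => by simp

theorem pd_X_pow (j : ℕ) : PD (X ^ j) j := fun k hk => by
  rw [coeff_X_pow, if_neg (by omega)]

theorem pd_sum {κ : Type} (s : Finset κ) (f : κ → PowerSeries ℤ) (d : ℕ)
    (h : ∀ i ∈ s, PD (f i) d) : PD (∑ i ∈ s, f i) d := fun k hk => by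
  rw [map_sum]
  exact Finset.sum_eq_zero fun i hi => h i hi k hk

theorem pd_prod {κ : Type} (s : Finset κ) (f : κ → PowerSeries ℤ) (d : κ → ℕ)
    (h : ∀ i ∈ s, PD (f i) (d i)) : PD (∏ i ∈ s, f i) (∑ i ∈ s, d i) := by
  classical
  induction s using Finset.induction_on with
  | empty => simpa using pd_one
  | insert a s ha ih =>
    rw [Finset.prod_insert ha, Finset.sum_insert ha]
    exact pd_mul (h a (Finset.mem_insert_self _ _))
      (ih fun i hi => h i (Finset.mem_insert_of_mem hi))

theorem pd_det (N : Matrix V V (PowerSeries ℤ)) (d : V → ℕ) (h : ∀ i j, PD (N i j) (d i)) :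
    PD N.det (∑ i, d i) := by
  rw [Matrix.det_apply']
  refine pd_sum _ _ _ fun σ _ => ?_
  have h1 := pd_prod Finset.univ (fun i => N (σ i) i) (fun i => d (σ i)) fun i _ => h _ _
  rw [Equiv.sum_comp σ d] at h1
  have h2 := pd_mul (pd_C ((Equiv.Perm.sign σ : ℤˣ) : ℤ)) h1
  rw [zero_add] at h2
  simpa using h2

theorem pd_ite (p : Prop) [Decidable p] : PD (if p then 1 else 0) 0 := by
  split_ifs
  · exact pd_one
  · exact pd_zero 0

omit [Fintype V] in
theorem pd_MM (A : Matrix V V ℤ) (R : Finset V) (h : ∀ x y, A x y ≠ 0 → x ∈ R) (i j : V) :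
    PD (MM A i j) (if i ∈ R then 1 else 0) := by
  have e0 : MM A i j = (if i = j then 1 else 0) - X * C (A i j) := by
    simp [MM, Matrix.one_apply]
  rw [e0]
  refine pd_sub (pd_mono (pd_ite _) (Nat.zero_le _)) ?_
  split_ifs with hi
  · have := pd_mul (pd_X_pow 1) (pd_C (A i j))
    rwa [pow_one] at this
  · have : A i j = 0 := by
      by_contra e
      exact hi (h i j e)
    rw [this, map_zero, mul_zero]
    exact pd_zero 0

theorem sum_ind (R : Finset V) : ∑ i, (if i ∈ R then 1 else 0) = R.card := by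
  simp

theorem dd_eq (A : Matrix V V ℤ) : dd A = (A.charpoly.reverse : PowerSeries ℤ) := by
  rw [Matrix.reverse_charpoly, Matrix.charpolyRev, ← Polynomial.coeToPowerSeries.ringHom_apply,
    RingHom.map_det, dd]
  congr 1
  ext i j : 2
  simp only [Matrix.sub_apply, Matrix.smul_apply, Matrix.one_apply, Matrix.map_apply, smul_eq_mul,
    RingHom.mapMatrix_apply, map_sub, map_mul, Polynomial.coeToPowerSeries.ringHom_apply,
    Polynomial.coe_X, Polynomial.coe_C]
  split_ifs <;> simp

/-- Columns of the identity matrix. -/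
noncomputable def col {ι : Type} (y : ι → V) : Matrix V ι (PowerSeries ℤ) :=
  Matrix.of fun v i => if v = y i then 1 else 0

/-- Rows of the identity matrix. -/
noncomputable def row {ι : Type} (y : ι → V) : Matrix ι V (PowerSeries ℤ) :=
  Matrix.of fun i v => if v = y i then 1 else 0

theorem mul_col {ι κ : Type} (y : ι → V) (N : Matrix κ V (PowerSeries ℤ)) (a : κ) (i : ι) :
    (N * col y) a i = N a (y i) := by
  simp [Matrix.mul_apply, col]

theorem row_mul {ι κ : Type} (y : ι → V) (N : Matrix V κ (PowerSeries ℤ)) (i : ι) (a : κ) :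
    (row y * N) i a = N (y i) a := by
  simp [Matrix.mul_apply, row]

theorem row_col {ι : Type} (y : ι → V) (A : Matrix V V ℤ) :
    row y * RR A * col y = Matrix.of fun i j => res A (y i) (y j) := by
  ext i j : 2
  rw [mul_col, row_mul]
  rfl

omit [Fintype V] in
theorem col_row {ι : Type} [Fintype ι] (y r : ι → V) (x x' : V) :
    (col y * row r) x x' = C (∑ i, if x = y i ∧ x' = r i then (1 : ℤ) else 0) := by
  rw [Matrix.mul_apply, map_sum]
  refine Finset.sum_congr rfl fun i _ => ?_
  simp only [col, row, Matrix.of_apply]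
  by_cases h1 : x = y i <;> by_cases h2 : x' = r i <;> simp [h1, h2]

omit [DecidableEq V] in
theorem map_mul_zero (A B : Matrix V V ℤ) (Q : V → Prop) (hA : ∀ x x', A x x' ≠ 0 → Q x')
    (hB : ∀ x x', B x x' ≠ 0 → ¬ Q x) :
    A.map (C : ℤ → PowerSeries ℤ) * B.map (C : ℤ → PowerSeries ℤ) = 0 := by
  refine Matrix.ext fun x x' => ?_
  rw [Matrix.mul_apply, Matrix.zero_apply]
  refine Finset.sum_eq_zero fun v _ => ?_
  rw [Matrix.map_apply, Matrix.map_apply]
  by_cases h : A x v = 0
  · rw [h, map_zero, zero_mul]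
  · have : B v x' = 0 := by
      by_contra e
      exact hB _ _ e (hA _ _ h)
    rw [this, map_zero, mul_zero]

theorem map_col_zero {ι : Type} (A : Matrix V V ℤ) (y : ι → V) (h : ∀ x i, A x (y i) = 0) :
    A.map (C : ℤ → PowerSeries ℤ) * col y = 0 := by
  ext x i : 2
  rw [mul_col, Matrix.map_apply, h, map_zero, Matrix.zero_apply]

theorem row_map_zero {ι : Type} (A : Matrix V V ℤ) (y : ι → V) (h : ∀ x i, A (y i) x = 0) :
    row y * A.map (C : ℤ → PowerSeries ℤ) = 0 := by
  ext i x : 2
  rw [row_mul, Matrix.map_apply, h, map_zero, Matrix.zero_apply]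

theorem row_col_zero {ι : Type} (y r : ι → V) (h : ∀ i j, y i ≠ r j) : row y * col r = 0 := by
  ext i j : 2
  rw [row_mul, col, Matrix.of_apply, if_neg (h i j), Matrix.zero_apply]

end Ser

end Glue

open Glue PowerSeries

theorem pGlue : StGlue := by
  intro V _ _ ι _ _ A A1 A2 y r Q h1 h2 hy hr hA
  have eA : A.map (C : ℤ → PowerSeries ℤ) = A1.map (C : ℤ → PowerSeries ℤ) +
      A2.map (C : ℤ → PowerSeries ℤ) + Glue.col y * Glue.row r + Glue.col r * Glue.row y := by
    ext x x' : 2
    simp only [Matrix.add_apply, col_row, Matrix.map_apply, hA x x', map_add]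
  have z1 : ∀ x i, A2 x (y i) = 0 := fun x i => by
    by_contra e
    exact (h2 _ _ e).2 (hy i)
  have z2 : ∀ x i, A2 (y i) x = 0 := fun x i => by
    by_contra e
    exact (h2 _ _ e).1 (hy i)
  have z3 : ∀ x i, A1 x (r i) = 0 := fun x i => by
    by_contra e
    exact hr i (h1 _ _ e).2
  have z4 : ∀ x i, A1 (r i) x = 0 := fun x i => by
    by_contra e
    exact hr i (h1 _ _ e).1
  have hne : ∀ i j, y i ≠ r j := fun i j e => hr j (e ▸ hy i)
  have hM := MM_RR A
  rw [MM, eA] at hM
  have key := alg (X : PowerSeries ℤ) _ _ (RR A1) (RR A2) (RR A) (Glue.col y) (Glue.col r)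
    (Glue.row y) (Glue.row r) (MM_RR A1) (RR_MM A1) (MM_RR A2) (RR_MM A2) hM
    (map_mul_zero A1 A2 Q (fun x x' e => (h1 x x' e).2) fun x x' e => (h2 x x' e).1)
    (map_mul_zero A2 A1 (fun v => ¬ Q v) (fun x x' e => (h2 x x' e).2)
      fun x x' e hn => hn (h1 x x' e).1)
    (map_col_zero A2 y z1) (row_map_zero A2 y z2) (map_col_zero A1 r z3) (row_map_zero A1 r z4)
    (row_col_zero y r hne) (row_col_zero r y fun i j e => hne j i e.symm)
  rw [← eA, row_col, row_col, row_col] at key
  exact key

theorem pBasic : StBasic := by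
  intro V _ _
  refine ⟨?_, fun x y => ?_, fun A => ?_, fun A B h => ?_, fun A hA x y => ?_,
    fun A R h => ⟨?_, fun x y => ?_⟩⟩
  · rw [dd, Matrix.map_zero _ (map_zero _), smul_zero, sub_zero, Matrix.det_one]
  · have := congrFun (congrFun (MM_RR (0 : Matrix V V ℤ)) x) y
    rw [MM, Matrix.map_zero _ (map_zero _), smul_zero, sub_zero, Matrix.one_mul,
      Matrix.one_apply] at this
    exact this
  · intro e
    have := congrArg Matrix.det (MM_RR A)
    rw [Matrix.det_mul, Matrix.det_one, show (MM A).det = dd A from rfl, e, zero_mul] at this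
    exact zero_ne_one this
  · rw [dd_eq, dd_eq, h]
  · ext k
    simp only [res, coeff_mk]
    exact ((hA.pow k).apply x y).symm
  · rw [← sum_ind]
    exact pd_det _ _ (pd_MM A R h)
  · have e : (MM A).adjugate = dd A • RR A := by
      rw [← Matrix.mul_one (MM A).adjugate, ← MM_RR A, ← Matrix.mul_assoc, Matrix.adjugate_mul,
        Matrix.smul_mul, Matrix.one_mul]
      rfl
    have e1 : dd A * res A x y = (MM A).adjugate x y := by
      rw [e]
      rfl
    rw [e1, Matrix.adjugate_apply, ← sum_ind]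
    refine pd_det _ _ fun i j => ?_
    rw [Matrix.updateRow_apply]
    split_ifs with h1 h2 h2
    · rw [Pi.single_apply]
      exact pd_mono (pd_ite _) (Nat.zero_le _)
    · rw [Pi.single_apply]
      exact pd_ite _
    · have := pd_MM A R h i j
      rwa [if_pos h2] at this
    · have := pd_MM A R h i j
      rwa [if_neg h2] at this

theorem pSep : StSep := by
  intro a u r l hrec h0 h1 hl hr
  have P : ∀ i j, j + 1 + i = l → ∃ v, a (j + 1) = X ^ 2 * v * a j := by
    intro i
    induction i with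
    | zero =>
      intro j hj
      subst hj
      exact ⟨u, hl⟩
    | succ i ih =>
      intro j hj
      obtain ⟨v, hv⟩ := ih (j + 1) (by omega)
      have hu : IsUnit (1 - X ^ 2 * v : PowerSeries ℤ) := by
        rw [isUnit_iff_constantCoeff]
        simp
      obtain ⟨w, hw⟩ := hu.exists_left_inv
      refine ⟨w, ?_⟩
      have e := hrec j (by omega)
      rw [hv] at e
      linear_combination (-(a (j + 1))) * hw - w * e
  have D : ∀ j, j ≤ l → (X : PowerSeries ℤ) ^ (2 * j) ∣ a j := by
    intro j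
    induction j with
    | zero => intro _; simp
    | succ j ih =>
      intro hj
      obtain ⟨v, hv⟩ := P (l - (j + 1)) j (by omega)
      obtain ⟨w, hw⟩ := ih (by omega)
      exact ⟨v * w, by rw [hv, hw]; ring⟩
  have B : ∀ j, j + 1 ≤ l → PD (a j) (r + j) ∧ PD (a (j + 1)) (r + (j + 1)) := by
    intro j
    induction j with
    | zero => exact fun _ => ⟨h0, h1⟩
    | succ j ih =>
      intro hj
      obtain ⟨b0, b1⟩ := ih (by omega)
      refine ⟨b1, ?_⟩
      rw [hrec j hj]
      exact pd_sub (pd_mono b1 (by omega)) (pd_mono (pd_mul (pd_X_pow 2) b0) (by omega))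
  have Z : ∀ j, j ≤ l → PD (a j) (r + j) → r < j → a j = 0 := by
    intro j hj hp hrj
    ext k
    rw [map_zero]
    by_cases hk : k < 2 * j
    · exact X_pow_dvd_iff.1 (D j hj) k hk
    · exact hp k (by omega)
  have F : ∀ i j, j + 1 + i = l → a j = 0 ∧ a (j + 1) = 0 := by
    intro i
    induction i with
    | zero =>
      intro j hj
      obtain ⟨b0, b1⟩ := B j (by omega)
      exact ⟨Z j (by omega) b0 (by omega), Z (j + 1) (by omega) b1 (by omega)⟩
    | succ i ih =>
      intro j hj
      obtain ⟨z0, z1⟩ := ih (j + 1) (by omega)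
      refine ⟨?_, z0⟩
      have e := hrec j (by omega)
      rw [z0, z1, zero_sub, eq_comm, neg_eq_zero, mul_eq_zero] at e
      exact e.resolve_left (pow_ne_zero 2 X_ne_zero)
  exact F (l - 1) 0 (by omega)

end Pool.Agent.P.MP_f57657_co.SX
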