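import Pool.Agent.P.MP_f57657_co.SX.Defs

/-! The active edges can be chosen freely, and the number of edges is small. -/

open Finset

namespace Pool.Agent.P.MP_f57657_co.SX

namespace Inj

variable (P : Par)

/-- Active edges given by a set of triples. -/
def act (β : Finset (Fin (P.nb + 1) × Fin P.h × Fin P.h)) (k i j : ℕ) : Prop :=
  ∃ q ∈ β, k = P.k0 + 4 + 3 * P.bg + 3 * q.1.1 ∧ i = 2 + q.2.1.1 ∧ j = 2 + P.h + q.2.2.1

/-- The edge of a triple. -/
def ed (q : Fin (P.nb + 1) × Fin P.h × Fin P.h) : Sym2 P.VV :=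
  s(P.vx (P.k0 + 4 + 3 * P.bg + 3 * q.1.1) (2 + q.2.1.1),
    P.vx (P.k0 + 4 + 3 * P.bg + 3 * q.1.1) (2 + P.h + q.2.2.1))

/-- Six candidate neighbours of a vertex. -/
def nb (y : P.VV) : Fin 6 → P.VV :=
  ![P.vx (P.lay y - 1) 0, P.vx (P.lay y - 1) 1, P.vx (P.lay y - 1) (P.wire y), P.vx (P.lay y) 1,
    P.vx (P.lay y) (P.wire y + 1), P.vx 1 0]

/-- A finite set that contains all edges. -/
def cover (β : Finset (Fin (P.nb + 1) × Fin P.h × Fin P.h)) : Finset (Sym2 P.VV) :=
  (range P.tw ×ˢ range P.tw).image (fun p => s(P.vx 0 p.1, P.vx 0 p.2)) ∪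
    (univ : Finset (P.VV × Fin 6)).image (fun p => s(nb P p.1 p.2, p.1)) ∪ β.image (ed P)

variable {P}

theorem eq_vx {x : P.VV} {k w : ℕ} (h1 : k = P.lay x) (h2 : w = P.wire x) : P.vx k w = x := by
  rw [h1, h2, P.vx_eq]

theorem valid_act (hP : P.Shape) (a : Fin (P.nb + 1)) {w : ℕ} (h2 : 2 ≤ w) (hw : w < 2 * P.h + 2) :
    P.valid (P.k0 + 4 + 3 * P.bg + 3 * a.1) w := by
  have := a.2
  have := hP.slt (w - 2) (by omega)
  refine ⟨by unfold Par.L; omega, Or.inr ⟨by omega, hw, ?_⟩⟩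
  unfold Par.birth
  split_ifs <;> omega

theorem mem_iff (hP : P.Shape) (β : Finset (Fin (P.nb + 1) × Fin P.h × Fin P.h))
    (q : Fin (P.nb + 1) × Fin P.h × Fin P.h) : ed P q ∈ (P.gr (act P β)).edgeSet ↔ q ∈ β := by
  have a := q.1.2
  have b := q.2.1.2
  have c := q.2.2.2
  have m := hP.m0
  have v1 := valid_act hP q.1 (w := 2 + q.2.1.1) (by omega) (by omega)
  have v2 := valid_act hP q.1 (w := 2 + P.h + q.2.2.1) (by omega) (by omega)
  rw [ed, SimpleGraph.mem_edgeSet, Par.gr_adj, P.lay_vx v1, P.lay_vx v2, P.wire_vx v1, P.wire_vx v2,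
    Par.inner, Par.L]
  constructor
  · rintro (⟨-, -, h | h | h | h | ⟨-, -, -, -, -, h | h⟩ | h⟩ | h | h)
    any_goals omega
    · obtain ⟨q', hq, e1, e2, e3⟩ := h
      rwa [show q = q' from Prod.ext (Fin.ext (by omega))
        (Prod.ext (Fin.ext (by omega)) (Fin.ext (by omega)))]
    · obtain ⟨q', -, -, e2, -⟩ := h
      have := q'.2.1.2
      omega
  · exact fun h => Or.inl ⟨rfl, by omega, Or.inr (Or.inr (Or.inr (Or.inr (Or.inl
      ⟨by omega, by omega, by omega, by omega, by omega, Or.inl ⟨q, h, rfl, rfl, rfl⟩⟩))))⟩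

variable {β : Finset (Fin (P.nb + 1) × Fin P.h × Fin P.h)}

theorem cov {x y : P.VV} (c : Fin 6) (h : nb P y c = x) : s(x, y) ∈ cover P β :=
  mem_union_left _ (mem_union_right _ (mem_image.2 ⟨(y, c), mem_univ _, by rw [← h]⟩))

theorem cov_act {x y : P.VV} (e : P.lay x = P.lay y) (h : act P β (P.lay x) (P.wire x) (P.wire y)) :
    s(x, y) ∈ cover P β := by
  obtain ⟨q, hq, e1, e2, e3⟩ := h
  exact mem_union_right _ (mem_image.2 ⟨q, hq, by
    rw [ed, eq_vx e1.symm e2.symm, eq_vx (e1.symm.trans e) e3.symm]⟩)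

theorem cov_inner {x y : P.VV} (e : P.lay x = P.lay y)
    (h : P.inner (act P β) (P.lay x) (P.wire x) (P.wire y)) : s(x, y) ∈ cover P β := by
  have vx := (P.valid_vx x).2
  have vy := (P.valid_vx y).2
  obtain ⟨h0, h | h | h | h | h | h⟩ := h
  · exact mem_union_left _ (mem_union_left _ (mem_image.2 ⟨(P.wire x, P.wire y),
      mem_product.2 ⟨mem_range.2 (by omega), mem_range.2 (by omega)⟩, by
        rw [eq_vx h.symm rfl, eq_vx (h.symm.trans e) rfl]⟩))
  · have : P.wire x = 1 ∨ P.wire y = 1 := by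
      unfold Par.birth at vx vy
      split_ifs at vx vy <;> omega
    rcases this with a | a
    · exact cov 3 (eq_vx e.symm a.symm)
    · exact Sym2.eq_swap ▸ cov 3 (eq_vx e a.symm)
  · exact cov 3 (eq_vx e.symm h.1.symm)
  · exact Sym2.eq_swap ▸ cov 3 (eq_vx e h.1.symm)
  · rcases h.2.2.2.2.2 with a | a
    · exact cov_act e a
    · exact Sym2.eq_swap ▸ cov_act e.symm (e ▸ a)
  · rcases (by omega : P.wire y + 1 = P.wire x ∨ P.wire x + 1 = P.wire y) with a | a
    · exact cov 4 (eq_vx e.symm a)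
    · exact Sym2.eq_swap ▸ cov 4 (eq_vx e a)

theorem cov_down (hP : P.Shape) {x y : P.VV} (e : P.lay y = P.lay x + 1)
    (h : P.down (P.lay x) (P.wire y) (P.wire x)) : s(x, y) ∈ cover P β := by
  have vx := (P.valid_vx x).2
  have vy := (P.valid_vx y).2
  have m := hP.m1
  have l := hP.lt
  have e' : P.lay y - 1 = P.lay x := by omega
  by_cases h0 : P.lay x = 0
  · refine Sym2.eq_swap ▸ cov 5 (eq_vx (by omega) ?_)
    unfold Par.birth at vy
    split_ifs at vy <;> omega
  have : P.wire x = 0 ∨ P.wire x = 1 ∨ P.wire x = P.wire y := by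
    unfold Par.birth at vx
    rcases h with h | h | h | h
    · omega
    · split_ifs at vx <;> omega
    · omega
    · omega
  rcases this with a | a | a
  · exact cov 0 (eq_vx e' a.symm)
  · exact cov 1 (eq_vx e' a.symm)
  · exact cov 2 (eq_vx e' a.symm)

end Inj

theorem pInj : StInj := by
  intro P hP
  refine ⟨Inj.act P, fun β β' h => ?_, fun β => ?_⟩
  · ext q
    rw [← Inj.mem_iff hP, ← Inj.mem_iff hP, show P.gr (Inj.act P β) = P.gr (Inj.act P β') from h]
  · have h1 : (P.gr (Inj.act P β)).edgeSet ⊆ Inj.cover P β := by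
      intro e
      induction e using Sym2.ind with
      | _ x y =>
      rintro (h | h | h)
      · exact Inj.cov_inner h.1 h.2
      · exact Inj.cov_down hP h.1 h.2
      · exact Sym2.eq_swap ▸ Inj.cov_down hP h.1 h.2
    refine (Set.ncard_le_ncard h1 (Finset.finite_toSet _)).trans ?_
    rw [Set.ncard_coe_finset]
    refine (card_union_le _ _).trans (add_le_add ((card_union_le _ _).trans
      (add_le_add (card_image_le.trans ?_) (card_image_le.trans ?_))) card_image_le)
    · rw [card_product, card_range, sq]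
    · rw [card_univ, Fintype.card_prod, Fintype.card_fin, mul_comm]

end Pool.Agent.P.MP_f57657_co.SX
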