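import Pool.Agent.P.MP_f57657_co.SX.Defs

/-! The reduced matrix `A + 1` has trivial kernel modulo every prime. -/

open Finset

namespace Pool.Agent.P.MP_f57657_co.SX

namespace Ker

variable {P : Par} {act : ℕ → ℕ → ℕ → Prop} {R : Type} [CommRing R]

/-- adjacency in terms of layers and wires -/
def Ad (P : Par) (act : ℕ → ℕ → ℕ → Prop) (k w k' w' : ℕ) : Prop :=
  (k = k' ∧ P.inner act k w w') ∨ (k' = k + 1 ∧ P.down k w' w) ∨ (k = k' + 1 ∧ P.down k' w w')

lemma birth_cases (hS : P.Shape) {w : ℕ} (hw : w < 2 * P.h + 2) :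
    (w = 0 ∧ P.birth w = 1) ∨ (w = 1 ∧ P.birth w = P.k1 + 1) ∨
      (2 ≤ w ∧ P.birth w % 3 = 0 ∧ P.k0 + 4 ≤ P.birth w ∧ P.birth w ≤ P.k0 + 1 + 3 * P.bg) := by
  have h0 := hS.m0
  unfold Par.birth
  split_ifs with h1 h2
  · exact .inl ⟨h1, rfl⟩
  · exact .inr (.inl ⟨h2, rfl⟩)
  · have := hS.slt (w - 2) (by omega)
    omega

lemma valid_iff {k w : ℕ} (hk : 1 ≤ k) :
    P.valid k w ↔ k < P.L ∧ w < 2 * P.h + 2 ∧ P.birth w ≤ k := by
  unfold Par.valid
  omega

lemma inner_weak (hS : P.Shape) {k i j : ℕ} (hi : P.valid k i) (hj : P.valid k j)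
    (h : P.inner act k i j) :
    i ≠ j ∧ ((k % 3 = 0 ∧ k + 1 ≠ P.L) ∨ ((k + 3 = P.L ∨ k + 1 = P.L) ∧ i / 2 = j / 2)) := by
  have h0 := hS.m0
  have hL : P.L = P.k0 + 8 + 3 * P.bg + 3 * P.nb := rfl
  refine ⟨h.1, ?_⟩
  rcases Nat.eq_zero_or_pos k with hk | hk
  · omega
  rw [valid_iff hk] at hi hj
  have b1 := birth_cases hS hi.2.1
  have b2 := birth_cases hS hj.2.1
  rcases h.2 with h | h | h | h | ⟨h, -, h', -⟩ | h <;> omega

lemma down_Y (hS : P.Shape) {k i j : ℕ} (hk : k % 3 = 1 ∨ P.k0 + 3 + 3 * P.bg ≤ k) :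
    P.down k i j ↔ i = j := by
  have h0 := hS.m0
  have h1 := hS.m1
  have h2 := hS.lt
  unfold Par.down Par.fibs
  omega

lemma down_X (hS : P.Shape) {k i j : ℕ} (hk : k % 3 = 0) (h3 : 3 ≤ k) (hi : i < 2 * P.h + 2) :
    P.down k i j ↔ (P.k0 + 3 ≤ k ∧ k < P.k0 + 3 + 3 * P.bg ∧
      ((i = 0 ∧ j ≤ 1) ∨ (i = 1 ∧ j = 0) ∨ (2 ≤ i ∧ i = j))) ∨
        (¬(P.k0 + 3 ≤ k ∧ k < P.k0 + 3 + 3 * P.bg) ∧ i = j) := by
  have h1 := hS.m1
  have b := birth_cases hS hi
  unfold Par.down Par.fibs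
  omega

/-- the equation at a vertex, with an explicit list of neighbours -/
lemma eqn {f : P.VV → R} {k w : ℕ} (hv : P.valid k w)
    (h : f (P.vx k w) + ∑ y, ((am (P.gr act) (P.vx k w) y : ℤ) : R) * f y = 0)
    (l : List (ℕ × ℕ)) (hn : l.Nodup) (h1 : ∀ q ∈ l, P.valid q.1 q.2 ∧ Ad P act k w q.1 q.2)
    (h2 : ∀ k' w', P.valid k' w' → Ad P act k w k' w' → (k', w') ∈ l ∨ f (P.vx k' w') = 0) :
    f (P.vx k w) + (l.map fun q => f (P.vx q.1 q.2)).sum = 0 := by
  classical
  have ad : ∀ y, (P.gr act).Adj (P.vx k w) y ↔ Ad P act k w (P.lay y) (P.wire y) := fun y => by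
    rw [P.gr_adj, P.lay_vx hv, P.wire_vx hv, Ad]
  rw [← h, ← List.sum_toFinset _ hn]
  congr 1
  have inj : Set.InjOn (fun q : ℕ × ℕ => P.vx q.1 q.2) l.toFinset := fun a ha b hb e => by
    have a1 := (h1 a (List.mem_toFinset.mp ha)).1
    have b1 := (h1 b (List.mem_toFinset.mp hb)).1
    exact Prod.ext ((P.lay_vx a1).symm.trans ((congrArg P.lay e).trans (P.lay_vx b1)))
      ((P.wire_vx a1).symm.trans ((congrArg P.wire e).trans (P.wire_vx b1)))
  rw [← Finset.sum_image (f := f) inj, ← Finset.sum_subset (Finset.subset_univ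
    (l.toFinset.image fun q : ℕ × ℕ => P.vx q.1 q.2)) fun y _ hy => ?_]
  · refine Finset.sum_congr rfl fun y hy => ?_
    obtain ⟨q, hq, rfl⟩ := Finset.mem_image.mp hy
    have a := h1 q (List.mem_toFinset.mp hq)
    have : (P.gr act).Adj (P.vx k w) (P.vx q.1 q.2) := by
      rw [ad, P.lay_vx a.1, P.wire_vx a.1]
      exact a.2
    simp [am, this]
  · by_cases a : (P.gr act).Adj (P.vx k w) y
    · rcases h2 _ _ (P.valid_vx y) ((ad y).mp a) with b | b
      · exact absurd (Finset.mem_image.mpr ⟨_, List.mem_toFinset.mpr b, P.vx_eq y⟩) hy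
      · rw [P.vx_eq] at b
        rw [b, mul_zero]
    · simp [am, a]

/-- the system of equations -/
def Sys (P : Par) (act : ℕ → ℕ → ℕ → Prop) (F : ℕ → ℕ → R) : Prop :=
  ∀ k w, P.valid k w → (k = 0 → w = 0) → ∀ l : List (ℕ × ℕ), l.Nodup →
    (∀ q ∈ l, P.valid q.1 q.2 ∧ Ad P act k w q.1 q.2) →
    (∀ k' w', P.valid k' w' → Ad P act k w k' w' → (k', w') ∈ l ∨ F k' w' = 0) →
    F k w + (l.map fun q => F q.1 q.2).sum = 0

/-- vanishing on a layer -/
def Zr (P : Par) (F : ℕ → ℕ → R) (k : ℕ) : Prop := ∀ w, P.valid k w → F k w = 0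

variable {F : ℕ → ℕ → R}

lemma eqZ (hS : P.Shape) (h : Sys P act F) {k w : ℕ} (hk : k % 3 = 1) (hv : P.valid k w)
    (hL : k + 1 < P.L) (hz : Zr P F (k + 2)) : F (k + 1) w + F k w = 0 := by
  have h0 := hS.m0
  have eL : P.L = P.k0 + 8 + 3 * P.bg + 3 * P.nb := rfl
  have v := (valid_iff (by omega)).mp hv
  have v1 : P.valid (k + 1) w := (valid_iff (by omega)).mpr (by omega)
  have := h (k + 1) w v1 (by omega) [(k, w)] (by simp) (by
    simp only [List.mem_singleton, forall_eq]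
    exact ⟨hv, .inr (.inr ⟨rfl, (down_Y hS (.inl hk)).mpr rfl⟩)⟩) (by
    rintro k' w' hv' (⟨rfl, a⟩ | ⟨rfl, -⟩ | ⟨e, a⟩)
    · have := inner_weak hS v1 hv' a
      omega
    · exact .inr (hz w' hv')
    · obtain rfl : k = k' := by omega
      rw [down_Y hS (.inl hk)] at a
      simp [a])
  simpa using this

/-- the equation on a layer `1` modulo three -/
lemma eqY (hS : P.Shape) (h : Sys P act F) {k w : ℕ} (hv : P.valid (k + 1) w)
    (hk : k % 3 = 0) (hL : k + 4 < P.L) (l : List ℕ) (hn : l.Nodup)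
    (h1 : ∀ j, j ∈ l ↔ P.valid k j ∧ P.down k w j) :
    F (k + 1) w + (F (k + 2) w + (l.map (F k)).sum) = 0 := by
  have v := (valid_iff (by omega)).mp hv
  have v1 : P.valid (k + 2) w := (valid_iff (by omega)).mpr (by omega)
  have := h (k + 1) w hv (by omega) ((k + 2, w) :: l.map fun j => (k, j)) (by
    refine List.nodup_cons.mpr ⟨by simp, hn.map fun a b e => (Prod.ext_iff.mp e).2⟩) (by
    intro q hq
    rcases List.mem_cons.mp hq with rfl | hq
    · exact ⟨v1, .inr (.inl ⟨rfl, (down_Y hS (.inl (by omega))).mpr rfl⟩)⟩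
    · obtain ⟨j, hj, rfl⟩ := List.mem_map.mp hq
      exact ⟨((h1 j).mp hj).1, .inr (.inr ⟨rfl, ((h1 j).mp hj).2⟩)⟩) (by
    rintro k' w' hv' (⟨rfl, a⟩ | ⟨rfl, a⟩ | ⟨e, a⟩)
    · have := inner_weak hS hv hv' a
      omega
    · rw [down_Y hS (.inl (by omega))] at a
      simp [a]
    · obtain rfl : k = k' := by omega
      exact .inl (List.mem_cons_of_mem _ (List.mem_map.mpr ⟨w', (h1 w').mpr ⟨hv', a⟩, rfl⟩)))
  simpa [List.map_map, Function.comp_def] using this

/-- the equation on a layer `0` modulo three -/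
lemma eqX (h : Sys P act F) {k w : ℕ} (hv : P.valid (k + 1) w) (z0 : Zr P F k)
    (z1 : Zr P F (k + 1)) (l : List ℕ) (hn : l.Nodup)
    (h1 : ∀ i, i ∈ l ↔ P.valid (k + 2) i ∧ P.down (k + 1) i w) : (l.map (F (k + 2))).sum = 0 := by
  have := h (k + 1) w hv (by omega) (l.map fun j => (k + 2, j))
    (hn.map fun a b e => (Prod.ext_iff.mp e).2) (by
    intro q hq
    obtain ⟨j, hj, rfl⟩ := List.mem_map.mp hq
    exact ⟨((h1 j).mp hj).1, .inr (.inl ⟨rfl, ((h1 j).mp hj).2⟩)⟩) (by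
    rintro k' w' hv' (⟨rfl, -⟩ | ⟨rfl, a⟩ | ⟨e, -⟩)
    · exact .inr (z1 w' hv')
    · exact .inl (List.mem_map.mpr ⟨w', (h1 w').mpr ⟨hv', a⟩, rfl⟩)
    · obtain rfl : k = k' := by omega
      exact .inr (z0 w' hv'))
  rw [z1 w hv, zero_add] at this
  simpa [List.map_map, Function.comp_def] using this

/-- a system with the shape of a Fibonacci step or of a straight step has trivial kernel -/
lemma solve (hS : P.Shape) {k : ℕ} (hk : k % 3 = 0) (h3 : 3 ≤ k) {G : ℕ → R}
    (h : ∀ w, P.valid k w → ∀ l : List ℕ, l.Nodup →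
      (∀ j, j ∈ l ↔ P.valid k j ∧ P.down k w j) → (l.map G).sum = 0) (w : ℕ) (hv : P.valid k w) :
    G w = 0 := by
  have h1 := hS.lt
  have v := (valid_iff (by omega)).mp hv
  have one : ∀ i j, P.valid k i → P.valid k j → (∀ j', P.down k i j' ↔ j' = j) → G j = 0 :=
    fun i j hi hj e => by
      simpa using h i hi [j] (by simp) fun j' => by
        rw [List.mem_singleton, e]
        exact ⟨fun e => ⟨e ▸ hj, e⟩, fun e => e.2⟩
  by_cases fb : P.k0 + 3 ≤ k ∧ k < P.k0 + 3 + 3 * P.bg ∧ w ≤ 1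
  · have v0 : P.valid k 0 := (valid_iff (by omega)).mpr ⟨v.1, by omega, by simp [Par.birth]; omega⟩
    have v1 : P.valid k 1 := (valid_iff (by omega)).mpr ⟨v.1, by omega, by simp [Par.birth]; omega⟩
    have a0 := one 1 0 v1 v0 fun j => by rw [down_X hS hk h3 (by omega)]; omega
    have a1 := h 0 v0 [0, 1] (by simp) fun j => by
      rw [down_X hS hk h3 (by omega), List.mem_cons, List.mem_singleton]
      refine ⟨?_, fun e => by omega⟩
      rintro (rfl | rfl)
      exacts [⟨v0, by omega⟩, ⟨v1, by omega⟩]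
    simp only [List.map_cons, List.map_nil, List.sum_cons, List.sum_nil, a0, zero_add,
      add_zero] at a1
    obtain rfl | rfl : w = 0 ∨ w = 1 := by omega
    exacts [a0, a1]
  · exact one w w hv hv fun j => by rw [down_X hS hk h3 v.2.1]; omega

lemma valid_XY (hS : P.Shape) {k w : ℕ} (hk : k % 3 = 0) (h3 : 3 ≤ k) (hL : k + 1 < P.L) :
    P.valid (k + 1) w ↔ P.valid k w := by
  have h1 := hS.m1
  rw [valid_iff (by omega), valid_iff (by omega)]
  refine ⟨fun h => ?_, fun h => by omega⟩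
  have := birth_cases hS h.2.1
  omega

lemma back (hS : P.Shape) (h : Sys P act F) {k : ℕ} (hk : k % 3 = 0) (h3 : 3 ≤ k)
    (hL : k + 4 < P.L) (hz : Zr P F (k + 3)) : Zr P F k := by
  refine solve hS hk h3 fun w hv l hn hl => ?_
  have v := (valid_XY hS hk h3 (by omega)).mpr hv
  have a := eqY hS h v hk hL l hn hl
  have b := eqZ hS h (by omega) v (by omega) hz
  linear_combination a - b

lemma forth (hS : P.Shape) (h : Sys P act F) {k : ℕ} (hk : k % 3 = 2) (hL : k + 2 < P.L)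
    (z0 : Zr P F k) (z1 : Zr P F (k + 1)) : Zr P F (k + 2) := fun w hw => by
  have e : ∀ w, P.valid (k + 2) w ↔ P.valid (k + 1) w := fun w =>
    valid_XY hS (by omega) (by omega) hL
  refine solve hS (k := k + 1) (by omega) (by omega) (fun w hv l hn hl => ?_) w ((e w).mp hw)
  refine eqX h hv z0 z1 l hn fun i => ?_
  rw [hl, e]
  refine and_congr_right fun hi => ?_
  rw [down_X hS (by omega) (by omega) ((valid_iff (by omega)).mp hv).2.1,
    down_X hS (by omega) (by omega) ((valid_iff (by omega)).mp hi).2.1]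
  omega

/-- the three equations at the end -/
lemma ends (hS : P.Shape) (h : Sys P act F) {k w w' : ℕ} (hk : k + 4 = P.L)
    (hw : w < 2 * P.h + 2) (h1 : w ≠ w') (h2 : w / 2 = w' / 2) :
    F (k + 3) w + (F (k + 3) w' + F (k + 2) w) = 0 ∧
      F (k + 2) w + (F (k + 1) w + F (k + 3) w) = 0 ∧
        F (k + 1) w + (F (k + 1) w' + (F (k + 2) w + F k w)) = 0 := by
  have h0 := hS.m0
  have h3 := hS.lt
  have eL : P.L = P.k0 + 8 + 3 * P.bg + 3 * P.nb := rfl
  have v : ∀ j i, k ≤ j → j < P.L → i < 2 * P.h + 2 → P.valid j i := fun j i a b c => by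
    have := birth_cases hS c
    exact (valid_iff (by omega)).mpr (by omega)
  have d : ∀ j i i', k ≤ j → (P.down j i i' ↔ i = i') := fun j i i' a => down_Y hS (.inr (by omega))
  have inn : ∀ j, j + 3 = P.L ∨ j + 1 = P.L → P.inner act j w w' := fun j a =>
    ⟨h1, .inr (.inr (.inr (.inr (.inr ⟨a, h2⟩))))⟩
  refine ⟨?_, ?_, ?_⟩
  · simpa using h (k + 3) w (v _ _ (by omega) (by omega) hw) (by omega) [(k + 3, w'), (k + 2, w)]
      (by simp) (by
        simp only [List.mem_cons, List.not_mem_nil, or_false]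
        rintro q (rfl | rfl)
        · exact ⟨v _ _ (by omega) (by omega) (by omega), .inl ⟨rfl, inn _ (by omega)⟩⟩
        · exact ⟨v _ _ (by omega) (by omega) hw, .inr (.inr ⟨rfl, (d _ _ _ (by omega)).mpr rfl⟩)⟩)
      (by
        rintro k' i hv' (⟨rfl, a⟩ | ⟨rfl, a⟩ | ⟨e, a⟩)
        · have := inner_weak hS (v _ _ (by omega) (by omega) hw) hv' a
          obtain rfl : i = w' := by omega
          simp
        · have := hv'.1
          omega
        · obtain rfl : k' = k + 2 := by omega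
          rw [d _ _ _ (by omega)] at a
          simp [a])
  · simpa using h (k + 2) w (v _ _ (by omega) (by omega) hw) (by omega) [(k + 1, w), (k + 3, w)]
      (by simp) (by
        simp only [List.mem_cons, List.not_mem_nil, or_false]
        rintro q (rfl | rfl)
        · exact ⟨v _ _ (by omega) (by omega) hw, .inr (.inr ⟨rfl, (d _ _ _ (by omega)).mpr rfl⟩)⟩
        · exact ⟨v _ _ (by omega) (by omega) hw, .inr (.inl ⟨rfl, (d _ _ _ (by omega)).mpr rfl⟩)⟩)
      (by
        rintro k' i hv' (⟨rfl, a⟩ | ⟨rfl, a⟩ | ⟨e, a⟩)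
        · have := inner_weak hS (v _ _ (by omega) (by omega) hw) hv' a
          omega
        · rw [d _ _ _ (by omega)] at a
          simp [a]
        · obtain rfl : k' = k + 1 := by omega
          rw [d _ _ _ (by omega)] at a
          simp [a])
  · simpa using h (k + 1) w (v _ _ (by omega) (by omega) hw) (by omega)
      [(k + 1, w'), (k + 2, w), (k, w)] (by simp) (by
        simp only [List.mem_cons, List.not_mem_nil, or_false]
        rintro q (rfl | rfl | rfl)
        · exact ⟨v _ _ (by omega) (by omega) (by omega), .inl ⟨rfl, inn _ (by omega)⟩⟩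
        · exact ⟨v _ _ (by omega) (by omega) hw, .inr (.inl ⟨rfl, (d _ _ _ (by omega)).mpr rfl⟩)⟩
        · exact ⟨v _ _ (by omega) (by omega) hw, .inr (.inr ⟨rfl, (d _ _ _ (by omega)).mpr rfl⟩)⟩)
      (by
        rintro k' i hv' (⟨rfl, a⟩ | ⟨rfl, a⟩ | ⟨e, a⟩)
        · have := inner_weak hS (v _ _ (by omega) (by omega) hw) hv' a
          obtain rfl : i = w' := by omega
          simp
        · rw [d _ _ _ (by omega)] at a
          simp [a]
        · obtain rfl : k' = k := by omega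
          rw [d _ _ _ (by omega)] at a
          simp [a])

lemma front (hS : P.Shape) (h : Sys P act F) (h0 : ∀ w, P.valid 0 w → w ≠ 0 → F 0 w = 0) :
    F 0 0 + F 1 0 = 0 ∧ F 2 0 = 0 := by
  have eL : P.L = P.k0 + 8 + 3 * P.bg + 3 * P.nb := rfl
  have t := hS.tw
  have m1 := hS.m1
  have v0 : P.valid 0 0 := ⟨by omega, .inl ⟨rfl, by omega⟩⟩
  have v2 : P.valid 2 0 := (valid_iff (by omega)).mpr ⟨by omega, by omega, by simp [Par.birth]⟩
  have u1 : ∀ w, P.valid 1 w → w = 0 := fun w hw => by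
    have := (valid_iff le_rfl).mp hw
    have := birth_cases hS this.2.1
    omega
  have a : F 0 0 + F 1 0 = 0 := by
    simpa using h 0 0 v0 (fun _ => rfl) [(1, 0)] (by simp) (by
      simp only [List.mem_singleton, forall_eq]
      exact ⟨P.valid_one, .inr (.inl ⟨rfl, .inl rfl⟩)⟩) (by
      rintro k' i hv' (⟨rfl, a⟩ | ⟨rfl, -⟩ | ⟨e, -⟩)
      · exact .inr (h0 i hv' a.1.symm)
      · simp [u1 i hv']
      · omega)
  have b : F 1 0 + (F 0 0 + F 2 0) = 0 := by
    simpa using h 1 0 P.valid_one (by omega) [(0, 0), (2, 0)] (by simp) (by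
      simp only [List.mem_cons, List.not_mem_nil, or_false]
      rintro q (rfl | rfl)
      · exact ⟨v0, .inr (.inr ⟨rfl, .inl rfl⟩)⟩
      · exact ⟨v2, .inr (.inl ⟨rfl, (down_Y hS (.inl rfl)).mpr rfl⟩)⟩) (by
      rintro k' i hv' (⟨rfl, a⟩ | ⟨rfl, a⟩ | ⟨e, -⟩)
      · exact absurd (u1 i hv').symm a.1
      · rw [down_Y hS (.inl rfl)] at a
        simp [a]
      · obtain rfl : k' = 0 := by omega
        by_cases hi : i = 0
        · simp [hi]
        · exact .inr (h0 i hv' hi))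
  exact ⟨a, by linear_combination b - a⟩

theorem all_zero (hS : P.Shape) (h : Sys P act F) (h0 : ∀ w, P.valid 0 w → w ≠ 0 → F 0 w = 0)
    (k : ℕ) : Zr P F k := by
  have m0 := hS.m0
  have m1 := hS.m1
  have eL : P.L = P.k0 + 8 + 3 * P.bg + 3 * P.nb := rfl
  obtain ⟨K, hK⟩ : ∃ K, 3 * K + 3 + 4 = P.L := ⟨(P.L - 7) / 3, by omega⟩
  have pt : ∀ w, w < 2 * P.h + 2 → ∃ w', w' < 2 * P.h + 2 ∧ w ≠ w' ∧ w / 2 = w' / 2 := fun w hw =>
    ⟨if w % 2 = 0 then w + 1 else w - 1, by split_ifs <;> omega⟩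
  have zX : ∀ i m, m + i = K → Zr P F (3 * m + 3) := fun i => by
    induction i with
    | zero =>
      rintro m rfl w hw
      have hw := ((valid_iff (by omega)).mp hw).2.1
      obtain ⟨w', a1, a2, a3⟩ := pt w hw
      obtain ⟨b1, b2, b3⟩ := ends hS h hK hw a2 a3
      obtain ⟨c1, c2, -⟩ := ends hS h hK a1 a2.symm a3.symm
      linear_combination b3 - b2 - c2 + c1
    | succ i ih =>
      exact fun m hm => back hS h (by omega) (by omega) (by omega) (ih (m + 1) (by omega))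
  have zX' : ∀ m, m ≤ K → Zr P F (3 * m + 3) := fun m hm => zX (K - m) m (by omega)
  obtain ⟨f1, f2⟩ := front hS h h0
  have f3 := eqZ hS h (k := 1) rfl P.valid_one (by omega) (zX' 0 (by omega))
  have u : ∀ j w, 1 ≤ j → j ≤ 2 → P.valid j w → w = 0 := fun j w a b hw => by
    have := (valid_iff a).mp hw
    have := birth_cases hS this.2.1
    omega
  have zZ : ∀ m, m ≤ K → Zr P F (3 * m + 2) := fun m => by
    induction m with
    | zero => exact fun _ w hw => by rw [u 2 w (by omega) le_rfl hw]; exact f2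
    | succ m ih =>
      intro hm w hw
      have v : P.valid (3 * m + 4) w := by
        have := (valid_iff (by omega)).mp hw
        have := birth_cases hS this.2.1
        exact (valid_iff (by omega)).mpr (by omega)
      have a := forth hS h (k := 3 * m + 2) (by omega) (by omega) (ih (by omega))
        (zX' m (by omega)) w v
      have b := eqZ hS h (k := 3 * m + 4) (by omega) v (by omega) (zX' (m + 1) hm)
      rw [a, add_zero] at b
      exact b
  have zY : ∀ m, m ≤ K → Zr P F (3 * m + 4) := fun m hm =>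
    forth hS h (k := 3 * m + 2) (by omega) (by omega) (zZ m hm) (zX' m hm)
  have zE : ∀ w, w < 2 * P.h + 2 → F (3 * K + 3 + 2) w = 0 ∧ F (3 * K + 3 + 3) w = 0 :=
    fun w hw => by
      obtain ⟨w', a1, a2, a3⟩ := pt w hw
      obtain ⟨-, b2, b3⟩ := ends hS h hK hw a2 a3
      have l := hS.lt
      have v : ∀ j i, 3 * K + 3 ≤ j → j < P.L → i < 2 * P.h + 2 → P.valid j i :=
        fun j i a b c => by
          have := birth_cases hS c
          exact (valid_iff (by omega)).mpr (by omega)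
      have y1 : F (3 * K + 3 + 1) w = 0 := zY K le_rfl w (v _ _ (by omega) (by omega) hw)
      have y2 : F (3 * K + 3 + 1) w' = 0 := zY K le_rfl w' (v _ _ (by omega) (by omega) a1)
      have y3 := zX' K le_rfl w (v _ _ (by omega) (by omega) hw)
      exact ⟨by linear_combination b3 - y1 - y2 - y3,
        by linear_combination b2 - b3 + y2 + y3⟩
  intro w hw
  have kL := hw.1
  obtain rfl | rfl | ⟨m, hm, rfl | rfl | rfl⟩ | rfl | rfl : k = 0 ∨ k = 1 ∨
      (∃ m, m ≤ K ∧ (k = 3 * m + 2 ∨ k = 3 * m + 3 ∨ k = 3 * m + 4)) ∨ k = 3 * K + 3 + 2 ∨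
        k = 3 * K + 3 + 3 := by
    by_cases a : 2 ≤ k ∧ k ≤ 3 * K + 4
    · exact .inr (.inr (.inl ⟨(k - 2) / 3, by omega, by omega⟩))
    · omega
  · by_cases a : w = 0
    · rw [a]
      linear_combination f1 - f3 + f2
    · exact h0 w hw a
  · rw [u 1 w le_rfl (by omega) hw]
    linear_combination f3 - f2
  · exact zZ m hm w hw
  · exact zX' m hm w hw
  · exact zY m hm w hw
  · exact (zE w ((valid_iff (by omega)).mp hw).2.1).1
  · exact (zE w ((valid_iff (by omega)).mp hw).2.1).2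

end Ker

theorem pKer : StKer := fun P act hS p _ f h0 h x => by
  have v0 : P.valid 0 0 := ⟨by unfold Par.L; omega, .inl ⟨rfl, by have := hS.tw; omega⟩⟩
  rw [← P.vx_eq x]
  refine Ker.all_zero (act := act) (F := fun k w => f (P.vx k w)) hS
    (fun k w hv hk => Ker.eqn hv (h _ fun a => ?_)) (fun w hw a => h0 _ ?_ fun e => a ?_) _ _
    (P.valid_vx x)
  · have : k = 0 := (P.lay_vx hv).symm.trans (mem_filter.mp a).2
    rw [this, hk this]
  · exact mem_filter.mpr ⟨mem_univ _, P.lay_vx hw⟩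
  · exact (P.wire_vx hw).symm.trans ((congrArg P.wire e).trans (P.wire_vx v0))

end Pool.Agent.P.MP_f57657_co.SX
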