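import Pool.Agent.P.MP_f57657_co.SX.Defs

/-! One root: the path in front determines the determinant and the closed walk counts at its end. -/

open Matrix Finset

namespace Pool.Agent.P.MP_f57657_co.SX

namespace One

variable {V : Type} [Fintype V] [DecidableEq V]

theorem cut (hG : StGlue) (A A1 A2 : Matrix V V ℤ) (y r : V) (Q : V → Prop)
    (h1 : ∀ x x', A1 x x' ≠ 0 → Q x ∧ Q x') (h2 : ∀ x x', A2 x x' ≠ 0 → ¬ Q x ∧ ¬ Q x')
    (hy : Q y) (hr : ¬ Q r)
    (hA : ∀ x x', A x x' = A1 x x' + A2 x x' + (if x = y ∧ x' = r then 1 else 0) +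
      if x = r ∧ x' = y then 1 else 0) :
    dd A = dd A1 * dd A2 *
        (1 - (PowerSeries.X : PowerSeries ℤ) ^ 2 * (res A1 y y * res A2 r r)) ∧
      res A y y = res A1 y y +
        (PowerSeries.X : PowerSeries ℤ) ^ 2 * (res A1 y y * res A2 r r * res A y y) := by
  obtain ⟨e1, e2⟩ := hG V Unit A A1 A2 (fun _ => y) (fun _ => r) Q h1 h2 (fun _ => hy)
    (fun _ => hr) (fun x x' => by simpa using hA x x')
  refine ⟨?_, ?_⟩
  · rw [e1, Matrix.det_unique]
    simp [Matrix.mul_apply]
  · have := congrFun (congrFun e2 ()) ()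
    simpa [Matrix.mul_apply] using this

theorem am_adj {K : SimpleGraph V} {x y : V} (h : K.Adj x y) : am K x y = 1 := by
  simp [am, h]

theorem am_nadj {K : SimpleGraph V} {x y : V} (h : ¬ K.Adj x y) : am K x y = 0 := by
  simp [am, h]

theorem am_symm (K : SimpleGraph V) (x y : V) : am K x y = am K y x := by
  by_cases h : K.Adj x y
  · rw [am_adj h, am_adj h.symm]
  · rw [am_nadj h, am_nadj fun h' => h h'.symm]

variable {lay : V → ℕ} {G K : SimpleGraph V} {k1 β : ℕ} {pv : ℕ → V}

theorem am_low (hA : Ag1 lay G K k1) {x y : V} (hx : lay x < k1) : am K x y = am G x y := by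
  by_cases h : G.Adj x y
  · rw [am_adj h, am_adj ((hA x y hx).2 h)]
  · rw [am_nadj h, am_nadj fun h' => h ((hA x y hx).1 h')]

/-- Edges across the cut between the layers `j` and `j + 1`. -/
theorem across (hF : Front lay G k1 β pv) (hA : Ag1 lay G K k1) {j : ℕ} (h1 : 1 ≤ j)
    (hj : j < k1) {x y : V} (hx : lay x ≤ j) (hy : j < lay y) :
    am K x y = if x = pv j ∧ y = pv (j + 1) then 1 else 0 := by
  rw [am_low hA (by omega)]
  split_ifs with h
  · obtain ⟨rfl, rfl⟩ := h
    have := hF.pv_adj (pv j) (by rw [hF.pv_lay j h1 hj.le]; exact hj)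
    rw [hF.pv_lay j h1 hj.le] at this
    exact am_adj this
  · refine am_nadj fun hxy => h ?_
    have hl := hF.layered x y hxy
    have ex : lay x = j := by omega
    have ey : lay y = j + 1 := by omega
    have e1 := hF.pv_uniq x (by omega) (by omega)
    have e2 := hF.pv_uniq y (by omega) (by omega)
    rw [ex] at e1
    rw [ey] at e2
    exact ⟨e1, e2⟩

/-- Splitting a matrix whose entries are those of `am K` on a region containing the cut edge. -/
theorem split (hF : Front lay G k1 β pv) (hA : Ag1 lay G K k1) {i j : ℕ} (h1 : 1 ≤ j)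
    (hj : j < k1) (hij : i ≤ j) (x y : V) :
    up lay i (am K) x y =
      (Matrix.of fun x y => if lay x ≤ j ∧ lay y ≤ j then up lay i (am G) x y else 0 :
        Matrix V V ℤ) x y + up lay (j + 1) (am K) x y +
      (if x = pv j ∧ y = pv (j + 1) then 1 else 0) +
        if x = pv (j + 1) ∧ y = pv j then 1 else 0 := by
  have l1 := hF.pv_lay j h1 hj.le
  have l2 := hF.pv_lay (j + 1) (by omega) hj
  simp only [up, Matrix.of_apply]
  rcases le_or_gt (lay x) j with hx | hx <;> rcases le_or_gt (lay y) j with hy | hy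
  · have n1 : ¬ (x = pv j ∧ y = pv (j + 1)) := fun h => by rw [h.2] at hy; omega
    have n2 : ¬ (x = pv (j + 1) ∧ y = pv j) := fun h => by rw [h.1] at hx; omega
    have n3 : ¬ (j + 1 ≤ lay x ∧ j + 1 ≤ lay y) := fun h => by omega
    rw [if_neg n1, if_neg n2, if_neg n3, if_pos (And.intro hx hy), am_low hA (by omega)]
    ring
  · have n2 : ¬ (x = pv (j + 1) ∧ y = pv j) := fun h => by rw [h.1] at hx; omega
    have n3 : ¬ (j + 1 ≤ lay x ∧ j + 1 ≤ lay y) := fun h => by omega
    have n4 : ¬ (lay x ≤ j ∧ lay y ≤ j) := fun h => by omega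
    rw [if_neg n2, if_neg n3, if_neg n4, across hF hA h1 hj hx hy]
    by_cases h : x = pv j ∧ y = pv (j + 1)
    · have : i ≤ lay x ∧ i ≤ lay y := by rw [h.1, h.2]; omega
      rw [if_pos this]; ring
    · simp [h]
  · have n1 : ¬ (x = pv j ∧ y = pv (j + 1)) := fun h => by rw [h.1] at hx; omega
    have n3 : ¬ (j + 1 ≤ lay x ∧ j + 1 ≤ lay y) := fun h => by omega
    have n4 : ¬ (lay x ≤ j ∧ lay y ≤ j) := fun h => by omega
    rw [if_neg n1, if_neg n3, if_neg n4, am_symm, across hF hA h1 hj hy hx]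
    by_cases h : x = pv (j + 1) ∧ y = pv j
    · have : i ≤ lay x ∧ i ≤ lay y := by rw [h.1, h.2]; omega
      rw [if_pos this, if_pos h, if_pos h.symm]; ring
    · have h' : ¬ (y = pv j ∧ x = pv (j + 1)) := fun e => h e.symm
      simp [h, h']
  · have n1 : ¬ (x = pv j ∧ y = pv (j + 1)) := fun h => by rw [h.1] at hx; omega
    have n2 : ¬ (x = pv (j + 1) ∧ y = pv j) := fun h => by rw [h.2] at hy; omega
    have n4 : ¬ (lay x ≤ j ∧ lay y ≤ j) := fun h => by omega
    have p1 : i ≤ lay x ∧ i ≤ lay y := by omega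
    have p2 : j + 1 ≤ lay x ∧ j + 1 ≤ lay y := by omega
    rw [if_neg n1, if_neg n2, if_neg n4, if_pos p1, if_pos p2]
    ring

/-- The gluing formula at the cut between the layers `j` and `j + 1`. -/
theorem glue (hG : StGlue) (hF : Front lay G k1 β pv) (hA : Ag1 lay G K k1) {i j : ℕ}
    (h1 : 1 ≤ j) (hj : j < k1) (hij : i ≤ j) (A1 : Matrix V V ℤ)
    (hA1 : A1 = Matrix.of fun x y => if lay x ≤ j ∧ lay y ≤ j then up lay i (am G) x y else 0) :
    dd (up lay i (am K)) = dd A1 * dd (up lay (j + 1) (am K)) *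
        (1 - (PowerSeries.X : PowerSeries ℤ) ^ 2 * (res A1 (pv j) (pv j) *
          res (up lay (j + 1) (am K)) (pv (j + 1)) (pv (j + 1)))) ∧
      res (up lay i (am K)) (pv j) (pv j) = res A1 (pv j) (pv j) +
        (PowerSeries.X : PowerSeries ℤ) ^ 2 * (res A1 (pv j) (pv j) *
          res (up lay (j + 1) (am K)) (pv (j + 1)) (pv (j + 1)) *
            res (up lay i (am K)) (pv j) (pv j)) := by
  have l1 := hF.pv_lay j h1 hj.le
  have l2 := hF.pv_lay (j + 1) (by omega) hj
  refine cut hG _ A1 _ (pv j) (pv (j + 1)) (fun x => lay x ≤ j) ?_ ?_ (by simp only [l1]; omega)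
    (by simp only [l2]; omega) ?_
  · intro x x' h
    rw [hA1, Matrix.of_apply] at h
    by_contra hn
    exact h (if_neg hn)
  · intro x x' h
    simp only [up, Matrix.of_apply] at h
    by_cases hn : j + 1 ≤ lay x ∧ j + 1 ≤ lay x'
    · constructor <;> omega
    · exact absurd (if_neg hn) h
  · intro x x'
    rw [hA1]
    exact split hF hA h1 hj hij x x'

theorem step (hG : StGlue) (hB : StBasic) (hF : Front lay G k1 β pv) (hA : Ag1 lay G K k1)
    {j : ℕ} (h1 : 1 ≤ j) (hj : j < k1) :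
    dd (up lay j (am K)) = dd (up lay (j + 1) (am K)) - (PowerSeries.X : PowerSeries ℤ) ^ 2 *
        (dd (up lay (j + 1) (am K)) * res (up lay (j + 1) (am K)) (pv (j + 1)) (pv (j + 1))) ∧
      dd (up lay j (am K)) * res (up lay j (am K)) (pv j) (pv j) = dd (up lay (j + 1) (am K)) := by
  obtain ⟨b1, b2, -⟩ := hB V
  have h0 : (0 : Matrix V V ℤ) = Matrix.of fun x y =>
      if lay x ≤ j ∧ lay y ≤ j then up lay j (am G) x y else 0 := by
    ext x y
    simp only [up, Matrix.of_apply, Matrix.zero_apply]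
    split_ifs with h h'
    · have e1 := hF.pv_uniq x (by omega) (by omega)
      have e2 := hF.pv_uniq y (by omega) (by omega)
      have ex : lay x = j := by omega
      have ey : lay y = j := by omega
      rw [ex] at e1
      rw [ey] at e2
      rw [e1, e2]
      exact (am_nadj (G.loopless.1 _)).symm
    · rfl
    · rfl
  obtain ⟨e1, e2⟩ := glue hG hF hA h1 hj le_rfl 0 h0
  rw [b1, b2, if_pos rfl] at e1
  rw [b2, if_pos rfl] at e2
  refine ⟨by rw [e1]; ring, ?_⟩
  rw [e1]
  linear_combination dd (up lay (j + 1) (am K)) * e2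

theorem up_zero (A : Matrix V V ℤ) : up lay 0 A = A := by
  ext x y
  simp [up]

theorem pd_sub {f g : PowerSeries ℤ} {d : ℕ} (hf : PD f d) (hg : PD g d) : PD (f - g) d := by
  intro k hk
  rw [map_sub, hf k hk, hg k hk, sub_zero]

theorem up_supp (A : Matrix V V ℤ) (k : ℕ) (x y : V) (h : up lay k A x y ≠ 0) :
    x ∈ Uk lay k := by
  simp only [up, Matrix.of_apply] at h
  simp only [Uk, mem_filter, mem_univ, true_and]
  by_contra hn
  exact h (if_neg fun h' => hn h'.1)

end One

theorem pOne (hG : StGlue) (hB : StBasic) (hS : StSep) : StOne := by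
  intro V _ _ lay G H k1 β pv hF hC hA hlen
  have hGG : Ag1 lay G G k1 := fun _ _ _ => Iff.rfl
  have h2 := hF.two_le
  obtain ⟨-, -, b3, b4, -, b6⟩ := hB V
  set D : ℕ → PowerSeries ℤ := fun j => dd (up lay j (am H)) - dd (up lay j (am G)) with hD
  set E : ℕ → PowerSeries ℤ := fun j =>
    dd (up lay j (am H)) * res (up lay j (am H)) (pv j) (pv j) -
      dd (up lay j (am G)) * res (up lay j (am G)) (pv j) (pv j) with hE
  have sD : ∀ j, 1 ≤ j → j < k1 →
      D j = D (j + 1) - (PowerSeries.X : PowerSeries ℤ) ^ 2 * E (j + 1) := by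
    intro j h1 hj
    have e1 := (One.step hG hB hF hA h1 hj).1
    have e2 := (One.step hG hB hF hGG h1 hj).1
    simp only [hD, hE]
    linear_combination e1 - e2
  have sE : ∀ j, 1 ≤ j → j < k1 → E j = D (j + 1) := by
    intro j h1 hj
    have e1 := (One.step hG hB hF hA h1 hj).2
    have e2 := (One.step hG hB hF hGG h1 hj).2
    simp only [hD, hE]
    linear_combination e1 - e2
  obtain ⟨u, top⟩ : ∃ u : PowerSeries ℤ, D 2 = PowerSeries.X ^ 2 * u * E 2 := by
    obtain ⟨A1, hA1⟩ : ∃ A1 : Matrix V V ℤ, A1 = Matrix.of fun x y =>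
      if lay x ≤ 1 ∧ lay y ≤ 1 then up lay 0 (am G) x y else 0 := ⟨_, rfl⟩
    have e1 := (One.glue hG hF hA le_rfl (by omega) (Nat.zero_le 1) A1 hA1).1
    have e2 := (One.glue hG hF hGG le_rfl (by omega) (Nat.zero_le 1) A1 hA1).1
    rw [One.up_zero] at e1 e2
    have e3 : dd (am H) = dd (am G) := b4 _ _ hC
    refine ⟨res A1 (pv 1) (pv 1), ?_⟩
    apply mul_left_cancel₀ (b3 A1)
    simp only [hD, hE]
    linear_combination e3 - e1 + e2
  let a : ℕ → PowerSeries ℤ := fun i => if i = 0 then E k1 else D (k1 + 1 - i)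
  have aE : ∀ i, i < k1 → a i = E (k1 - i) := by
    intro i hi
    by_cases h : i = 0
    · simp [a, h]
    · simp only [a, if_neg h]
      rw [sE (k1 - i) (by omega) (by omega)]
      congr 1
      omega
  have aD : ∀ i, a (i + 1) = D (k1 - i) := by
    intro i
    simp only [a, if_neg (Nat.succ_ne_zero i)]
    congr 1
    omega
  have key := hS a u (Uk lay k1).card (k1 - 1) ?_ ?_ ?_ ?_ (by omega)
  · obtain ⟨k0, k1'⟩ := key
    rw [aE 0 (by omega), Nat.sub_zero] at k0
    rw [aD 0, Nat.sub_zero] at k1'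
    simp only [hD, hE] at k0 k1'
    have ed := sub_eq_zero.1 k1'
    refine ⟨ed, fun j => ?_⟩
    have er := sub_eq_zero.1 k0
    rw [ed] at er
    have := congrArg (PowerSeries.coeff j) (mul_left_cancel₀ (b3 _) er)
    simpa [res] using this
  · intro j hj
    rw [aD (j + 1), aD j, aE j (by omega), sD (k1 - (j + 1)) (by omega) (by omega)]
    have : k1 - (j + 1) + 1 = k1 - j := by omega
    rw [this]
  · rw [aE 0 (by omega), Nat.sub_zero]
    exact One.pd_sub ((b6 _ _ (One.up_supp _ _)).2 _ _) ((b6 _ _ (One.up_supp _ _)).2 _ _)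
  · rw [aD 0, Nat.sub_zero]
    intro k hk
    exact One.pd_sub (b6 _ _ (One.up_supp _ _)).1 (b6 _ _ (One.up_supp _ _)).1 k (by omega)
  · rw [aE (k1 - 1 - 1) (by omega)]
    have e1 : k1 - 1 = (k1 - 2) + 1 := by omega
    have e2 : k1 - (k1 - 1 - 1) = 2 := by omega
    have e3 : k1 - (k1 - 2) = 2 := by omega
    rw [e2, e1, aD, e3]
    exact top

end Pool.Agent.P.MP_f57657_co.SX
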