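import Pool.Agent.P.MP_f57657_co.SX.Defs

open Finset

namespace Pool.Agent.P.MP_f57657_co.SX

namespace ParAux

/-- The Sidon sequence of Erdos and Turan. -/
def sg (p i : ℕ) : ℕ := 2 * p * i + i ^ 2 % p

theorem sg_sidon {p : ℕ} (hp : p.Prime) (h2 : 2 < p) {i j k l : ℕ} (hi : i < p) (_hj : j < p)
    (hk : k < p) (hl : l < p) (h : sg p i + sg p j = sg p k + sg p l) :
    (i = k ∧ j = l) ∨ (i = l ∧ j = k) := by
  have := Fact.mk hp
  have hp0 : 0 < p := by omega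
  have m1 := Nat.mod_lt (i ^ 2) hp0
  have m2 := Nat.mod_lt (j ^ 2) hp0
  have m3 := Nat.mod_lt (k ^ 2) hp0
  have m4 := Nat.mod_lt (l ^ 2) hp0
  have e0 : 2 * p * (i + j) + (i ^ 2 % p + j ^ 2 % p) =
      2 * p * (k + l) + (k ^ 2 % p + l ^ 2 % p) := by
    unfold sg at h
    rw [mul_add, mul_add]
    omega
  have e1 : i + j = k + l := by
    rcases lt_trichotomy (i + j) (k + l) with c | c | c
    · have := Nat.mul_le_mul_left (2 * p) (Nat.succ_le_of_lt c)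
      rw [Nat.mul_succ] at this
      omega
    · exact c
    · have := Nat.mul_le_mul_left (2 * p) (Nat.succ_le_of_lt c)
      rw [Nat.mul_succ] at this
      omega
  have e2 : i ^ 2 % p + j ^ 2 % p = k ^ 2 % p + l ^ 2 % p := by
    rw [e1] at e0
    omega
  have z1 : (i : ZMod p) + j = k + l := by exact_mod_cast congrArg (Nat.cast : ℕ → ZMod p) e1
  have z2 : (i : ZMod p) ^ 2 + (j : ZMod p) ^ 2 = (k : ZMod p) ^ 2 + (l : ZMod p) ^ 2 := by
    have := congrArg (Nat.cast : ℕ → ZMod p) e2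
    simpa [ZMod.natCast_mod] using this
  have z3 : (2 : ZMod p) * (((i : ZMod p) - k) * ((i : ZMod p) - l)) = 0 := by
    have : (j : ZMod p) = k + l - i := by rw [← z1]; ring
    rw [this] at z2
    linear_combination z2
  have z4 : (2 : ZMod p) ≠ 0 := by
    intro h0
    have : ((2 : ℕ) : ZMod p) = 0 := by exact_mod_cast h0
    rw [ZMod.natCast_eq_zero_iff] at this
    have := Nat.le_of_dvd (by norm_num) this
    omega
  have inj : ∀ a b : ℕ, a < p → b < p → (a : ZMod p) - b = 0 → a = b := by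
    intro a b ha hb hab
    have := (ZMod.natCast_eq_natCast_iff' a b p).1 (sub_eq_zero.1 hab)
    rwa [Nat.mod_eq_of_lt ha, Nat.mod_eq_of_lt hb] at this
  rcases mul_eq_zero.1 ((mul_eq_zero.1 z3).resolve_left z4) with c | c
  · have := inj i k hi hk c
    omega
  · have := inj i l hi hl c
    omega

theorem sg_lt {p h i : ℕ} (h1 : 2 * h < p) (h2 : p ≤ 4 * h) (hi : i < 2 * h) :
    sg p i < 16 * (h * h) := by
  have m1 := Nat.mod_lt (i ^ 2) (show 0 < p by omega)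
  have m2 : 2 * p * (i + 1) ≤ 2 * (4 * h) * (2 * h) :=
    Nat.mul_le_mul (by omega) (by omega)
  have m3 : 2 * (4 * h) * (2 * h) = 16 * (h * h) := by ring
  unfold sg
  rw [mul_add] at m2
  omega

theorem rest_eq (P : Par) (hk : P.k1 ≤ P.k0) :
    P.rest = P.k1 + (2 * (P.k0 - P.k1) + 2 * (7 + 3 * P.bg + 3 * P.nb) +
      ∑ w ∈ range (2 * P.h), (4 + 3 * P.bg + 3 * P.nb - 3 * P.s w)) := by
  have e : ∑ w ∈ range (2 * P.h), (P.L - P.birth (w + 1 + 1)) =
      ∑ w ∈ range (2 * P.h), (4 + 3 * P.bg + 3 * P.nb - 3 * P.s w) := by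
    refine sum_congr rfl fun w _ => ?_
    have : P.birth (w + 1 + 1) = P.k0 + 4 + 3 * P.s w := by
      unfold Par.birth
      rw [if_neg (by omega), if_neg (by omega)]
      rfl
    rw [this]
    unfold Par.L
    omega
  have b0 : P.birth 0 = 1 := by simp [Par.birth]
  have b1 : P.birth (0 + 1) = P.k1 + 1 := by simp [Par.birth]
  unfold Par.rest
  rw [sum_range_succ', sum_range_succ', e, b0, b1]
  unfold Par.L
  omega

theorem big_le (n : ℕ) : 17 * (8 * n ^ 2) ^ 3 ≤ 2 ^ (6 * (Nat.log 2 n + 1) + 14) := by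
  have h1 : n < 2 ^ (Nat.log 2 n + 1) := Nat.lt_pow_succ_log_self (by norm_num) n
  have h2 : n ^ 6 ≤ (2 ^ (Nat.log 2 n + 1)) ^ 6 := Nat.pow_le_pow_left h1.le 6
  have h3 : 2 ^ (6 * (Nat.log 2 n + 1) + 14) = 16384 * (2 ^ (Nat.log 2 n + 1)) ^ 6 := by
    rw [pow_add, ← pow_mul, mul_comm 6]
    ring
  have h4 : 17 * (8 * n ^ 2) ^ 3 = 8704 * n ^ 6 := by ring
  omega

theorem build (n h e p bg nb : ℕ) (hp : p.Prime) (_hh : 1 ≤ h) (h1 : 2 * h < p) (h2 : p ≤ 4 * h)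
    (hbg : bg = (e + 2) * (16 * (h * h))) (hbig : 17 * (8 * n ^ 2) ^ 3 ≤ 2 ^ e)
    (hn : 6 * ((8 + 3 * bg + 3 * nb) * (2 * h + 2)) + 12 * h + 60 ≤ n) :
    ∃ P : Par, P.Shape ∧ P.Size e ∧ P.tw + P.rest = n ∧ P.h = h ∧ P.tw ≤ 12 * h + 16 ∧
      P.nb = nb := by
  obtain ⟨r, hr⟩ : ∃ r, r = (8 + 3 * bg + 3 * nb) * (2 * h + 2) := ⟨_, rfl⟩
  obtain ⟨S, hS⟩ : ∃ S, S = ∑ w ∈ range (2 * h), (4 + 3 * bg + 3 * nb - 3 * ((e + 2) * sg p w)) :=
    ⟨_, rfl⟩
  have hS' : S + 2 * (8 + 3 * bg + 3 * nb) ≤ r := by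
    have e1 : S ≤ (range (2 * h)).card • (8 + 3 * bg + 3 * nb) := by
      rw [hS]
      exact sum_le_card_nsmul _ _ _ fun w _ => by omega
    rw [card_range, smul_eq_mul] at e1
    have e2 : r = 2 * h * (8 + 3 * bg + 3 * nb) + 2 * (8 + 3 * bg + 3 * nb) := by
      rw [hr]
      ring
    omega
  rw [← hr] at hn
  obtain ⟨R, hR⟩ : ∃ R, R = 2 * (3 * (r / 3 + 3)) + 2 * (7 + 3 * bg + 3 * nb) + S := ⟨_, rfl⟩
  obtain ⟨t, ht, ht'⟩ : ∃ t, t ≤ 2 ∧ (n - R - (12 * h + 14) - t) % 3 = 2 :=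
    ⟨(n - R - (12 * h + 14) + 1) % 3, by omega, by omega⟩
  obtain ⟨k, hk⟩ : ∃ k, k = n - R - (12 * h + 14) - t := ⟨_, rfl⟩
  let P : Par := ⟨12 * h + 14 + t, k, k + 3 * (r / 3 + 3), h, bg, nb, fun i => (e + 2) * sg p i⟩
  have hrest : P.tw + P.rest = n := by
    rw [rest_eq P (Nat.le_add_right _ _)]
    show 12 * h + 14 + t + (k + (2 * (k + 3 * (r / 3 + 3) - k) + 2 * (7 + 3 * bg + 3 * nb) +
      ∑ w ∈ range (2 * h), (4 + 3 * bg + 3 * nb - 3 * ((e + 2) * sg p w)))) = n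
    rw [← hS]
    omega
  have hL : (P.L - P.k0) * (2 * P.h + 2) = r := by
    have : P.L - P.k0 = 8 + 3 * bg + 3 * nb := by
      show k + 3 * (r / 3 + 3) + 8 + 3 * bg + 3 * nb - (k + 3 * (r / 3 + 3)) = _
      omega
    rw [this, hr]
  have sid : ∀ i j k l, i < 2 * h → j < 2 * h → k < 2 * h → l < 2 * h →
      sg p i + sg p j = sg p k + sg p l → (i = k ∧ j = l) ∨ (i = l ∧ j = k) :=
    fun i j k l hi hj hk hl =>
      sg_sidon hp (by omega) (by omega) (by omega) (by omega) (by omega)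
  refine ⟨P, ⟨?_, ?_, ?_, ?_, ?_, ?_⟩, ⟨?_, ?_, ?_, ?_⟩, hrest, rfl, ?_, rfl⟩
  · show k % 3 = 2
    omega
  · show (k + 3 * (r / 3 + 3)) % 3 = 2
    omega
  · show k < k + 3 * (r / 3 + 3)
    omega
  · intro i hi
    show (e + 2) * sg p i < bg
    rw [hbg]
    exact Nat.mul_lt_mul_of_pos_left (sg_lt h1 h2 hi) (by omega)
  · intro i j hi hj hij
    have e1 : sg p i = sg p j := Nat.eq_of_mul_eq_mul_left (show 0 < e + 2 by omega) hij
    have := sid i i j j hi hi hj hj (by rw [e1])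
    omega
  · show 12 * h + 14 ≤ 12 * h + 14 + t
    omega
  · intro i j k l hi hj hk hl hne
    show (e + 2) * sg p i + (e + 2) * sg p j + (e + 2) ≤ (e + 2) * sg p k + (e + 2) * sg p l ∨
      (e + 2) * sg p k + (e + 2) * sg p l + (e + 2) ≤ (e + 2) * sg p i + (e + 2) * sg p j
    have hne' : sg p i + sg p j ≠ sg p k + sg p l := fun c => hne (sid i j k l hi hj hk hl c)
    rcases lt_or_gt_of_ne hne' with c | c
    · have := Nat.mul_le_mul_left (e + 2) (Nat.succ_le_of_lt c)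
      rw [Nat.mul_succ, mul_add, mul_add] at this
      exact Or.inl this
    · have := Nat.mul_le_mul_left (e + 2) (Nat.succ_le_of_lt c)
      rw [Nat.mul_succ, mul_add, mul_add] at this
      exact Or.inr this
  · rw [hrest]
    exact hbig
  · rw [hL]
    show r + k + 6 ≤ k + 3 * (r / 3 + 3)
    omega
  · rw [hL]
    show r + 2 * (k + 3 * (r / 3 + 3) - k) + 3 ≤ k
    omega
  · show 12 * h + 14 + t ≤ 12 * h + 16
    omega

end ParAux

open ParAux in
theorem pPar : StPar := by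
  intro n h hh hn
  obtain ⟨p, hp, h1, h2⟩ := Nat.exists_prime_lt_and_le_two_mul (2 * h) (by omega)
  obtain ⟨l, hl⟩ : ∃ l, l = Nat.log 2 n + 1 := ⟨_, rfl⟩
  have hbig := big_le n
  rw [← hl] at hbig hn
  have hl1 : 1 ≤ l := by omega
  obtain ⟨bg, hbg⟩ : ∃ bg, bg = (6 * l + 14 + 2) * (16 * (h * h)) := ⟨_, rfl⟩
  obtain ⟨u, hu⟩ : ∃ u, u = l * h ^ 3 := ⟨_, rfl⟩
  have u1 : 1000000 * u ≤ n := by
    rw [hu, ← mul_assoc]
    exact hn
  have u2 : bg * h ≤ 352 * u := by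
    have e1 : (6 * l + 14 + 2) * (16 * h ^ 3) ≤ (22 * l) * (16 * h ^ 3) :=
      Nat.mul_le_mul_right _ (by omega)
    have e2 : bg * h = (6 * l + 14 + 2) * (16 * h ^ 3) := by
      rw [hbg]
      ring
    have e3 : (22 * l) * (16 * h ^ 3) = 352 * u := by
      rw [hu]
      ring
    omega
  have u3 : h ≤ u := by
    have e1 : h ^ 1 ≤ h ^ 3 := Nat.pow_le_pow_right hh (by omega)
    have e2 : 1 * h ^ 3 ≤ l * h ^ 3 := Nat.mul_le_mul_right _ hl1
    rw [pow_one] at e1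
    omega
  obtain ⟨q, hq⟩ : ∃ q, q = n / (40 * (h + 1)) := ⟨_, rfl⟩
  have q1 : 40 * (q * h) + 40 * q ≤ n := by
    have e1 := Nat.div_mul_le_self n (40 * (h + 1))
    rw [← hq] at e1
    have e2 : q * (40 * (h + 1)) = 40 * (q * h) + 40 * q := by ring
    omega
  have q2 : n < 40 * (q * h) + 40 * q + 40 * h + 40 := by
    have e1 := Nat.lt_mul_div_succ n (show 0 < 40 * (h + 1) by omega)
    rw [← hq] at e1
    have e2 : 40 * (h + 1) * (q + 1) = 40 * (q * h) + 40 * q + 40 * h + 40 := by ring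
    omega
  have q3 : q ≤ q * h := Nat.le_mul_of_pos_right q hh
  have q4 : bg + 3 ≤ q := by
    by_contra c
    have e1 : q * h ≤ (bg + 2) * h := Nat.mul_le_mul_right _ (by omega)
    rw [add_mul] at e1
    omega
  obtain ⟨nb, hnb⟩ : ∃ nb, q = nb + bg + 3 := ⟨q - bg - 3, by omega⟩
  have r1 : (8 + 3 * bg + 3 * nb) * (2 * h + 2) + (2 * h + 2) = 6 * (q * h) + 6 * q := by
    rw [hnb]
    ring
  obtain ⟨P, s1, s2, s3, s4, s5, s6⟩ :=
    build n h (6 * l + 14) p bg nb hp hh h1 (by omega) hbg hbig (by omega)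
  refine ⟨P, 6 * l + 14, s1, s2, s3, s4, s5, ?_⟩
  rw [s6]
  have r2 : q * h = (nb + 1) * h + bg * h + 2 * h := by
    rw [hnb]
    ring
  have r3 : n ≤ 200 * ((nb + 1) * h) := by omega
  have r4 := Nat.mul_le_mul_right h r3
  have r5 : 200 * ((nb + 1) * h) * h = 200 * ((nb + 1) * (h * h)) := by ring
  omega

end Pool.Agent.P.MP_f57657_co.SX
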