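import Pool.Agent.P.MP_f57657_co.SX.Defs

/-! Relabelling the upper layers and reading off the edges of the next layer. -/

open Matrix Finset

set_option linter.unusedSectionVars false

namespace Pool.Agent.P.MP_f57657_co.SX

namespace RelAux

section Fib

variable {V W : Type} [Fintype V] [DecidableEq V] [Fintype W] [DecidableEq W]

theorem card_sup (f : W → Finset V) (S : Finset V) :
    (univ.filter fun w => S ⊆ f w).card =
      (univ.filter fun w => f w = S).card +
        ∑ T ∈ univ.filter (fun T : Finset V => S < T), (univ.filter fun w => f w = T).card := by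
  have h1 : (univ.filter fun w => S < f w).card =
      ∑ T ∈ univ.filter (fun T : Finset V => S < T), (univ.filter fun w => f w = T).card := by
    rw [Finset.card_eq_sum_card_fiberwise (f := f) (t := univ.filter fun T : Finset V => S < T)]
    · refine Finset.sum_congr rfl fun T hT => ?_
      congr 1
      ext w
      simp only [mem_filter, mem_univ, true_and] at hT ⊢
      constructor
      · exact fun h => h.2
      · exact fun h => ⟨h ▸ hT, h⟩
    · intro w hw
      simpa using hw
  rw [← h1, ← Finset.card_union_of_disjoint]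
  · congr 1
    ext w
    simp only [mem_filter, mem_univ, true_and, mem_union]
    constructor
    · intro h
      rcases (show S ≤ f w from h).eq_or_lt with h | h
      · exact Or.inl h.symm
      · exact Or.inr h
    · rintro (h | h)
      · exact h ▸ Finset.Subset.refl _
      · exact h.le
  · rw [Finset.disjoint_filter]
    intro w _ h h'
    exact h'.ne h.symm

theorem fib_eq (f g : W → Finset V)
    (h : ∀ S, (univ.filter fun w => S ⊆ f w).card = (univ.filter fun w => S ⊆ g w).card)
    (S : Finset V) : (univ.filter fun w => f w = S).card = (univ.filter fun w => g w = S).card := by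
  induction S using (wellFounded_gt (α := Finset V)).induction with
  | _ S ih =>
    have h1 := card_sup f S
    have h2 := card_sup g S
    have h3 : ∑ T ∈ univ.filter (fun T : Finset V => S < T), (univ.filter fun w => f w = T).card =
        ∑ T ∈ univ.filter (fun T : Finset V => S < T), (univ.filter fun w => g w = T).card :=
      Finset.sum_congr rfl fun T hT => ih T (by simpa using hT)
    have h4 := h S
    omega

theorem exists_perm (f g : W → Finset V)
    (h : ∀ S, (univ.filter fun w => S ⊆ f w).card = (univ.filter fun w => S ⊆ g w).card) :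
    ∃ e : Equiv.Perm W, ∀ w, f (e w) = g w := by
  have e : ∀ S, {w // g w = S} ≃ {w // f w = S} := fun S =>
    Fintype.equivOfCardEq (by
      rw [Fintype.card_subtype, Fintype.card_subtype]
      exact (fib_eq f g h S).symm)
  exact ⟨Equiv.ofFiberEquiv e, fun w => Equiv.ofFiberEquiv_map e w⟩

end Fib

variable {V : Type} [Fintype V] [DecidableEq V]

theorem am_of_adj {G : SimpleGraph V} {x y : V} (h : G.Adj x y) : am G x y = 1 := by
  simp [am, h]

theorem am_of_not {G : SimpleGraph V} {x y : V} (h : ¬ G.Adj x y) : am G x y = 0 := by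
  simp [am, h]

theorem am_nonneg (G : SimpleGraph V) (x y : V) : 0 ≤ am G x y := by
  by_cases h : G.Adj x y
  · rw [am_of_adj h]; exact zero_le_one
  · rw [am_of_not h]

theorem am_congr {G H : SimpleGraph V} {x y : V} (h : H.Adj x y ↔ G.Adj x y) :
    am H x y = am G x y := by
  by_cases hG : G.Adj x y
  · rw [am_of_adj hG, am_of_adj (h.2 hG)]
  · rw [am_of_not hG, am_of_not fun hH => hG (h.1 hH)]

open Classical in
/-- The neighbours in layer `k` of a vertex above layer `k`. -/
noncomputable def supp (lay : V → ℕ) (H : SimpleGraph V) (k : ℕ) (v : {v : V // k < lay v}) :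
    Finset V := univ.filter fun x => lay x = k ∧ H.Adj x v.1

theorem mem_supp {lay : V → ℕ} {H : SimpleGraph V} {k : ℕ} {v : {v : V // k < lay v}} {x : V} :
    x ∈ supp lay H k v ↔ lay x = k ∧ H.Adj x v.1 := by
  simp [supp]

theorem cod_eq (lay : V → ℕ) (H : SimpleGraph V) (k : ℕ) {x x' : V} (hx : lay x = k)
    (hx' : lay x' = k) :
    cod lay H k x x' =
      ((univ.filter fun v : {v : V // k < lay v} => ({x, x'} : Finset V) ⊆ supp lay H k v).card : ℤ) := by
  classical
  unfold cod
  rw [← Finset.sum_filter, Finset.sum_subtype (p := fun v => k < lay v) _ (by simp),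
    Finset.card_filter]
  push_cast
  refine Finset.sum_congr rfl fun v _ => ?_
  simp only [Finset.insert_subset_iff, Finset.singleton_subset_iff, mem_supp, hx, hx', true_and]
  by_cases h1 : H.Adj x v.1
  · by_cases h2 : H.Adj x' v.1
    · simp [am_of_adj h1, am_of_adj h2, h1, h2]
    · simp [am_of_not h2, h2]
  · simp [am_of_not h1, h1]

theorem card_zero_of (lay : V → ℕ) (H : SimpleGraph V) (k : ℕ) (S : Finset V)
    (h : ∀ v : {v : V // k < lay v}, ¬ S ⊆ supp lay H k v) :
    (univ.filter fun v : {v : V // k < lay v} => S ⊆ supp lay H k v).card = 0 := by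
  rw [Finset.card_eq_zero, Finset.filter_eq_empty_iff]
  exact fun v _ => h v

theorem no_three {lay : V → ℕ} {G H : SimpleGraph V} {k : ℕ} (hO : OnePair lay G k)
    (hc : ∀ x x', lay x = k → lay x' = k → cod lay H k x x' = cod lay G k x x')
    {S : Finset V} (hS : 2 < S.card) (v : {v : V // k < lay v}) : ¬ S ⊆ supp lay H k v := by
  intro hv
  obtain ⟨a, b, hab⟩ := hO
  have key : ∀ x ∈ S, ∀ x' ∈ S, x ≠ x' → (x = a ∧ x' = b) ∨ (x = b ∧ x' = a) := by
    intro x hx x' hx' hne
    have h1 := (mem_supp.1 (hv hx)).1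
    have h2 := (mem_supp.1 (hv hx')).1
    refine hab x x' h1 h2 hne ?_
    rw [← hc x x' h1 h2, cod_eq lay H k h1 h2]
    have : 0 < (univ.filter fun w : {v : V // k < lay v} =>
        ({x, x'} : Finset V) ⊆ supp lay H k w).card := by
      refine Finset.card_pos.2 ⟨v, ?_⟩
      simp only [mem_filter, mem_univ, true_and, Finset.insert_subset_iff,
        Finset.singleton_subset_iff]
      exact ⟨hv hx, hv hx'⟩
    omega
  obtain ⟨x, hx, y, hy, z, hz, hxy, hxz, hyz⟩ := Finset.two_lt_card.1 hS
  rcases key x hx y hy hxy with h | h <;> rcases key x hx z hz hxz with h' | h'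
  · exact hyz (h.2.trans h'.2.symm)
  · exact hxy (h'.1.trans h.2.symm)
  · exact hxy (h'.1.trans h.2.symm)
  · exact hyz (h.2.trans h'.2.symm)

theorem cnt_eq {lay : V → ℕ} {G H : SimpleGraph V} {k : ℕ} (hO : OnePair lay G k)
    (hc : ∀ x x', lay x = k → lay x' = k → cod lay H k x x' = cod lay G k x x') (S : Finset V) :
    (univ.filter fun v : {v : V // k < lay v} => S ⊆ supp lay H k v).card =
      (univ.filter fun v : {v : V // k < lay v} => S ⊆ supp lay G k v).card := by
  by_cases hL : ∀ x ∈ S, lay x = k
  · have two : ∀ x x', S = {x, x'} →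
        (univ.filter fun v : {v : V // k < lay v} => S ⊆ supp lay H k v).card =
          (univ.filter fun v : {v : V // k < lay v} => S ⊆ supp lay G k v).card := by
      intro x x' hS
      have h1 : lay x = k := hL x (by simp [hS])
      have h2 : lay x' = k := hL x' (by simp [hS])
      have h3 := hc x x' h1 h2
      rw [cod_eq lay H k h1 h2, cod_eq lay G k h1 h2] at h3
      rw [hS]
      exact_mod_cast h3
    by_cases h3 : 2 < S.card
    · rw [card_zero_of lay H k S (no_three hO hc h3),
        card_zero_of lay G k S (no_three hO (fun _ _ _ _ => rfl) h3)]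
    · have h4 : S.card = 0 ∨ S.card = 1 ∨ S.card = 2 := by omega
      rcases h4 with h4 | h4 | h4
      · rw [Finset.card_eq_zero.1 h4]
        simp
      · obtain ⟨x, hx⟩ := Finset.card_eq_one.1 h4
        exact two x x (by simp [hx])
      · obtain ⟨x, y, -, hxy⟩ := Finset.card_eq_two.1 h4
        exact two x y hxy
  · push Not at hL
    obtain ⟨x, hx, hk⟩ := hL
    rw [card_zero_of lay H k S fun v hv => hk (mem_supp.1 (hv hx)).1,
      card_zero_of lay G k S fun v hv => hk (mem_supp.1 (hv hx)).1]

/-- The summand of `edg`. -/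
noncomputable def tm (lay : V → ℕ) (H : SimpleGraph V) (k : ℕ) (x x' : V) (q : V × V) : ℤ :=
  if k < lay q.1 ∧ k < lay q.2 then am H x q.1 * am H q.1 q.2 * am H x' q.2 else 0

theorem edg_eq (lay : V → ℕ) (H : SimpleGraph V) (k : ℕ) (x x' : V) :
    edg lay H k x x' = ∑ q : V × V, tm lay H k x x' q := by
  unfold edg tm
  rw [Fintype.sum_prod_type]

theorem tm_nonneg (lay : V → ℕ) (H : SimpleGraph V) (k : ℕ) (x x' : V) (q : V × V) :
    0 ≤ tm lay H k x x' q := by
  unfold tm
  split_ifs
  · exact mul_nonneg (mul_nonneg (am_nonneg _ _ _) (am_nonneg _ _ _)) (am_nonneg _ _ _)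
  · exact le_rfl

theorem tm_at {lay : V → ℕ} {H : SimpleGraph V} {k : ℕ} {x x' y y' : V} (hy : lay y = k + 1)
    (hy' : lay y' = k + 1) (h1 : H.Adj x y) (h2 : H.Adj x' y') :
    tm lay H k x x' (y, y') = am H y y' := by
  unfold tm
  rw [if_pos ⟨by simp [hy], by simp [hy']⟩]
  simp [am_of_adj h1, am_of_adj h2]

end RelAux

open RelAux

theorem pRel : StRel := by
  intro V _ _ lay G H k hL hA hO hc
  obtain ⟨e, he⟩ := exists_perm (supp lay H k) (supp lay G k) (cnt_eq hO hc)
  have hlow : ∀ x, lay x ≤ k → Equiv.Perm.ofSubtype e x = x := fun x hx =>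
    Equiv.Perm.ofSubtype_apply_of_not_mem e (by simpa using hx)
  refine ⟨Equiv.Perm.ofSubtype e, hlow, fun x y hx => ?_⟩
  have hx' : lay x ≤ k := by omega
  rw [SimpleGraph.comap_adj, hlow x hx']
  by_cases hy : k < lay y
  · have h1 : Equiv.Perm.ofSubtype e y = (e ⟨y, hy⟩).1 :=
      Equiv.Perm.ofSubtype_apply_of_mem e hy
    rw [h1]
    rcases hx'.eq_or_lt with hk | hk
    · have h2 : x ∈ supp lay H k (e ⟨y, hy⟩) ↔ x ∈ supp lay G k ⟨y, hy⟩ := by rw [he]
      simpa [mem_supp, hk] using h2
    · rw [hA.1 x _ hk]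
      have h2 := (e ⟨y, hy⟩).2
      constructor
      · intro h
        have := hL _ _ h
        omega
      · intro h
        have := hL _ _ h
        omega
  · have hy' : lay y ≤ k := by omega
    rw [hlow y hy']
    rcases hx'.eq_or_lt with hk | hk
    · rcases hy'.eq_or_lt with hl | hl
      · exact hA.2 x y hk hl
      · rw [H.adj_comm, G.adj_comm]
        exact hA.1 y x hl
    · exact hA.1 x y hk

theorem pEdge : StEdge := by
  intro V _ _ lay G H k hL hA hS hP he
  have hle : ∀ y y', lay y = k + 1 → lay y' = k + 1 → H.Adj y y' → G.Adj y y' := by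
    intro y y' hy hy' h
    by_contra hG
    obtain ⟨x, x', hx, hx', h1, h2, h0⟩ := hS y y' hy hy' h.ne hG
    rw [← he x x' hx hx', edg_eq] at h0
    have h3 := (Finset.sum_eq_zero_iff_of_nonneg fun q _ => tm_nonneg lay H k x x' q).1 h0
      (y, y') (mem_univ _)
    rw [tm_at hy hy' ((hA x y (by omega)).2 h1) ((hA x' y' (by omega)).2 h2), am_of_adj h] at h3
    exact one_ne_zero h3
  refine ⟨hA, fun y y' hy hy' => ⟨hle y y' hy hy', fun h => ?_⟩⟩
  obtain ⟨x, hx, h1⟩ := hP y hy
  obtain ⟨x', hx', h2⟩ := hP y' hy'
  have h0 := he x x' hx hx'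
  rw [edg_eq, edg_eq] at h0
  have hterm : ∀ q ∈ (univ : Finset (V × V)), tm lay H k x x' q ≤ tm lay G k x x' q := by
    intro q _
    unfold tm
    split_ifs with hq
    · rw [am_congr (hA x q.1 (by omega)), am_congr (hA x' q.2 (by omega))]
      by_cases a1 : G.Adj x q.1
      · by_cases a2 : G.Adj x' q.2
        · have b1 := hL _ _ a1
          have b2 := hL _ _ a2
          rw [am_of_adj a1, am_of_adj a2]
          by_cases a3 : H.Adj q.1 q.2
          · rw [am_of_adj a3, am_of_adj (hle _ _ (by omega) (by omega) a3)]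
          · rw [am_of_not a3]
            simpa using am_nonneg G q.1 q.2
        · rw [am_of_not a2]
          simp
      · rw [am_of_not a1]
        simp
    · exact le_rfl
  have h3 := (Finset.sum_eq_sum_iff_of_le hterm).1 h0 (y, y') (mem_univ _)
  rw [tm_at hy hy' ((hA x y (by omega)).2 h1) ((hA x' y' (by omega)).2 h2), tm_at hy hy' h1 h2,
    am_of_adj h] at h3
  by_contra hH
  rw [am_of_not hH] at h3
  exact zero_ne_one h3

end Pool.Agent.P.MP_f57657_co.SX
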