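import Pool.Agent.P.MP_f57657_co.SX.Defs

/-! Cospectral graphs have orthogonally similar adjacency matrices; elementary bounds for
codegrees and edge counts. -/

open Matrix Finset

namespace Pool.Agent.P.MP_f57657_co.SX

namespace Sim

variable {V : Type}

lemma am_cases (G : SimpleGraph V) (x y : V) : am G x y = 0 ∨ am G x y = 1 := by
  by_cases h : G.Adj x y <;> simp [am, h]

lemma am_nonneg (G : SimpleGraph V) (x y : V) : 0 ≤ am G x y := by
  rcases am_cases G x y with h | h <;> omega

lemma am_le (G : SimpleGraph V) (x y : V) : am G x y ≤ 1 := by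
  rcases am_cases G x y with h | h <;> omega

lemma am_symm (G : SimpleGraph V) (x y : V) : am G x y = am G y x := by
  by_cases h : G.Adj x y
  · simp [am, h, h.symm]
  · have h' : ¬ G.Adj y x := fun e => h e.symm
    simp [am, h, h']

lemma herm (G : SimpleGraph V) : (amR G).IsHermitian := by
  ext x y
  simp [amR, am_symm G x y]

variable [Fintype V] [DecidableEq V]

lemma diagonalize {A : Matrix V V ℝ} (hA : A.IsHermitian) :
    ∃ P : Matrix V V ℝ, Pᵀ * P = 1 ∧ P * Pᵀ = 1 ∧ A = P * diagonal hA.eigenvalues * Pᵀ := by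
  refine ⟨hA.eigenvectorUnitary, ?_, ?_, ?_⟩
  · have := Unitary.coe_star_mul_self hA.eigenvectorUnitary
    rwa [star_eq_conjTranspose, conjTranspose_eq_transpose_of_trivial] at this
  · have := Unitary.mul_star_self_of_mem hA.eigenvectorUnitary.2
    rwa [star_eq_conjTranspose, conjTranspose_eq_transpose_of_trivial] at this
  · have := hA.spectral_theorem
    rw [Unitary.conjStarAlgAut_apply, star_eq_conjTranspose,
      conjTranspose_eq_transpose_of_trivial] at this
    simpa using this

end Sim

open Sim

theorem pSim : StSim := by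
  intro V _ _ G H h
  have hc : (amR H).charpoly = (amR G).charpoly := by
    have h1 := charpoly_map (am H) (Int.castRingHom ℝ)
    have h2 := charpoly_map (am G) (Int.castRingHom ℝ)
    unfold Cosp at h
    rw [h, ← h2] at h1
    exact h1
  have he := (IsHermitian.eigenvalues_eq_eigenvalues_iff (herm H) (herm G)).2 hc
  obtain ⟨P, p1, p2, p3⟩ := diagonalize (herm G)
  obtain ⟨Q, q1, q2, q3⟩ := diagonalize (herm H)
  rw [he] at q3
  refine ⟨P * Qᵀ, ?_, ?_, ?_⟩
  · rw [transpose_mul, transpose_transpose, mul_assoc, ← mul_assoc Pᵀ, p1, one_mul, q2]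
  · rw [transpose_mul, transpose_transpose, mul_assoc, ← mul_assoc Qᵀ, q1, one_mul, p2]
  · generalize diagonal (herm G).eigenvalues = D at p3 q3
    rw [q3, p3, transpose_mul, transpose_transpose]
    calc Q * D * Qᵀ = Q * ((Pᵀ * P) * D * (Pᵀ * P)) * Qᵀ := by rw [p1, one_mul, mul_one]
      _ = _ := by simp only [mul_assoc]

theorem pDat : StDat := by
  intro V _ _ lay H k
  have n0 := am_nonneg H
  have n1 := am_le H
  refine ⟨fun x y => ?_, fun x y => ?_, fun x y => ?_, fun x y => ?_, fun x y => ?_,
    fun x y => ?_, fun x y => ?_, fun x y h => ?_⟩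
  · exact sum_congr rfl fun v _ => by rw [mul_comm]
  · unfold edg
    rw [sum_comm]
    refine sum_congr rfl fun v _ => sum_congr rfl fun v' _ => ?_
    rw [am_symm H v' v]
    by_cases a : k < lay v <;> by_cases b : k < lay v' <;> simp only [a, b, and_self, and_true,
      and_false, if_true, if_false]
    ring
  · refine sum_nonneg fun v _ => ?_
    split_ifs
    · exact mul_nonneg (n0 _ _) (n0 _ _)
    · exact le_rfl
  · calc cod lay H k x y ≤ ∑ _v : V, (1 : ℤ) := by
          refine sum_le_sum fun v _ => ?_
          split_ifs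
          · exact mul_le_one₀ (n1 _ _) (n0 _ _) (n1 _ _)
          · exact zero_le_one
      _ = _ := by simp
  · refine sum_nonneg fun v _ => sum_nonneg fun v' _ => ?_
    split_ifs
    · exact mul_nonneg (mul_nonneg (n0 _ _) (n0 _ _)) (n0 _ _)
    · exact le_rfl
  · calc edg lay H k x y ≤ ∑ _v : V, ∑ _v' : V, (1 : ℤ) := by
          refine sum_le_sum fun v _ => sum_le_sum fun v' _ => ?_
          split_ifs
          · exact mul_le_one₀ (mul_le_one₀ (n1 _ _) (n0 _ _) (n1 _ _)) (n0 _ _) (n1 _ _)
          · exact zero_le_one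
      _ = _ := by simp [sq]
  · refine sum_le_sum fun v _ => ?_
    split_ifs
    · rcases am_cases H x v with e | e <;> rw [e]
      · simp
      · simpa using n1 y v
    · exact le_rfl
  · have h1 := (sum_eq_zero_iff_of_nonneg (fun v _ => by
      split_ifs
      · exact mul_nonneg (n0 _ _) (n0 _ _)
      · exact le_rfl)).1 h
    refine sum_eq_zero fun v _ => sum_eq_zero fun v' _ => ?_
    split_ifs with a
    · have h2 := h1 v (mem_univ v)
      rw [if_pos a.1] at h2
      rw [mul_self_eq_zero.1 h2, zero_mul, zero_mul]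
    · rfl

end Pool.Agent.P.MP_f57657_co.SX
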