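import Pool.Agent.P.MP_f57657_co.SX.Defs

/-! The top eigenvalue forces the layers of the front one at a time. -/

open Matrix Finset

namespace Pool.Agent.P.MP_f57657_co.SX

namespace Top

set_option linter.unusedSectionVars false

variable {V : Type} [Fintype V] [DecidableEq V]

lemma dot_nonneg (y : V → ℝ) : 0 ≤ y ⬝ᵥ y := sum_nonneg fun i _ => mul_self_nonneg (y i)

lemma dot_pos {y : V → ℝ} (h : y ≠ 0) : 0 < y ⬝ᵥ y :=
  (dot_nonneg y).lt_of_ne fun e => h (dotProduct_self_eq_zero.mp e.symm)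

lemma dot_symm {A : Matrix V V ℝ} (hA : Aᵀ = A) (y z : V → ℝ) :
    y ⬝ᵥ A *ᵥ z = z ⬝ᵥ A *ᵥ y := by
  rw [dotProduct_mulVec, ← mulVec_transpose, hA, dotProduct_comm]

lemma dot_tr (U : Matrix V V ℝ) (y z : V → ℝ) : y ⬝ᵥ U *ᵥ z = (Uᵀ *ᵥ y) ⬝ᵥ z := by
  rw [dotProduct_mulVec, mulVec_transpose]

lemma dot_orth {U : Matrix V V ℝ} (h : Uᵀ * U = 1) (y : V → ℝ) :
    (U *ᵥ y) ⬝ᵥ (U *ᵥ y) = y ⬝ᵥ y := by
  rw [dot_tr, mulVec_mulVec, h, one_mulVec]

lemma dot_conj (U A : Matrix V V ℝ) (y : V → ℝ) :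
    y ⬝ᵥ (Uᵀ * A * U) *ᵥ y = (U *ᵥ y) ⬝ᵥ A *ᵥ (U *ᵥ y) := by
  rw [← mulVec_mulVec, ← mulVec_mulVec, dot_tr, transpose_transpose]

lemma top [Nonempty V] {A : Matrix V V ℝ} (hA : Aᵀ = A) : ∃ (l : ℝ) (x : V → ℝ), x ≠ 0 ∧
    A *ᵥ x = l • x ∧ ∀ y, y ⬝ᵥ A *ᵥ y ≤ l * (y ⬝ᵥ y) := by
  have hH : A.IsHermitian := by
    rw [IsHermitian, conjTranspose_eq_transpose_of_trivial, hA]
  obtain ⟨i, -, hi⟩ := exists_max_image univ hH.eigenvalues univ_nonempty
  refine ⟨hH.eigenvalues i, hH.eigenvectorBasis i, fun h => ?_, hH.mulVec_eigenvectorBasis i,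
    fun y => ?_⟩
  · exact hH.eigenvectorBasis.orthonormal.ne_zero i (by ext v; exact congrFun h v)
  · have h1 := hH.spectral_theorem
    rw [Unitary.conjStarAlgAut_apply, star_eq_conjTranspose,
      conjTranspose_eq_transpose_of_trivial] at h1
    have h2 := Unitary.coe_mul_star_self hH.eigenvectorUnitary
    rw [Unitary.coe_star, star_eq_conjTranspose, conjTranspose_eq_transpose_of_trivial] at h2
    set P : Matrix V V ℝ := (hH.eigenvectorUnitary : Matrix V V ℝ)
    have h3 := dot_conj Pᵀ (diagonal (RCLike.ofReal ∘ hH.eigenvalues)) y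
    rw [transpose_transpose, ← h1] at h3
    rw [h3, ← dot_orth (U := Pᵀ) (by rwa [transpose_transpose]) y, dotProduct, dotProduct, mul_sum]
    refine sum_le_sum fun v _ => ?_
    rw [mulVec_diagonal]
    have := mul_le_mul_of_nonneg_right (hi v (mem_univ v)) (mul_self_nonneg ((Pᵀ *ᵥ y) v))
    simp only [Function.comp_apply, RCLike.ofReal_real_eq_id, id_eq]
    linarith

lemma ker {A : Matrix V V ℝ} (hA : Aᵀ = A) {l : ℝ} (h : ∀ y, y ⬝ᵥ A *ᵥ y ≤ l * (y ⬝ᵥ y))
    {z : V → ℝ} (hz : z ⬝ᵥ A *ᵥ z = l * (z ⬝ᵥ z)) : A *ᵥ z = l • z := by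
  have e : ∀ y, (l • (1 : Matrix V V ℝ) - A) *ᵥ y = l • y - A *ᵥ y := fun y => by
    rw [sub_mulVec, smul_mulVec, one_mulVec]
  have hp : (l • (1 : Matrix V V ℝ) - A).PosSemidef := by
    refine .of_dotProduct_mulVec_nonneg ?_ fun y => ?_
    · rw [IsHermitian, conjTranspose_eq_transpose_of_trivial, transpose_sub, transpose_smul,
        transpose_one, hA]
    · rw [e, star_trivial, dotProduct_sub, dotProduct_smul, smul_eq_mul]
      linarith [h y]
  have := (hp.dotProduct_mulVec_zero_iff z).mp (by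
    rw [e, star_trivial, dotProduct_sub, dotProduct_smul, smul_eq_mul, hz, sub_self])
  rw [e] at this
  exact (sub_eq_zero.mp this).symm

lemma rows {B : Matrix V V ℝ} (hB : ∀ u v, B u v = B v u) (h0 : ∀ u v, 0 ≤ B u v) {β : ℝ}
    (h : ∀ u, ∑ v, B u v ≤ β) (y : V → ℝ) : y ⬝ᵥ B *ᵥ y ≤ β * (y ⬝ᵥ y) := by
  have a1 : ∑ u, ∑ v, B u v * (y u * y u) ≤ β * (y ⬝ᵥ y) := by
    rw [dotProduct, mul_sum]
    refine sum_le_sum fun u _ => ?_
    rw [← sum_mul]
    exact mul_le_mul_of_nonneg_right (h u) (mul_self_nonneg _)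
  have a2 : ∑ u, ∑ v, B u v * (y v * y v) = ∑ u, ∑ v, B u v * (y u * y u) := by
    rw [sum_comm]
    exact sum_congr rfl fun u _ => sum_congr rfl fun v _ => by rw [hB]
  have a3 : 2 * (y ⬝ᵥ B *ᵥ y) ≤
      ∑ u, ∑ v, B u v * (y u * y u) + ∑ u, ∑ v, B u v * (y v * y v) := by
    simp only [dotProduct, mulVec, mul_sum, ← sum_add_distrib]
    refine sum_le_sum fun u _ => sum_le_sum fun v _ => ?_
    nlinarith [mul_nonneg (h0 u v) (mul_self_nonneg (y u - y v))]
  linarith

open Classical in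
lemma amR_apply (G : SimpleGraph V) (x y : V) : amR G x y = if G.Adj x y then 1 else 0 := by
  simp only [amR, am, map_apply, of_apply]
  split_ifs <;> simp

lemma amR_congr {G H : SimpleGraph V} {x y x' y' : V} (h : G.Adj x y ↔ H.Adj x' y') :
    amR G x y = amR H x' y' := by
  rw [amR_apply, amR_apply]
  by_cases a : G.Adj x y
  · rw [if_pos a, if_pos (h.mp a)]
  · rw [if_neg a, if_neg fun b => a (h.mpr b)]

lemma amR_symm (G : SimpleGraph V) : (amR G)ᵀ = amR G := by
  ext x y
  exact amR_congr (G.adj_comm y x)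

lemma amR_nonneg (G : SimpleGraph V) (x y : V) : 0 ≤ amR G x y := by
  rw [amR_apply]
  split_ifs <;> norm_num

/-- indicator of a set of layers -/
noncomputable def ind (lay : V → ℕ) (P : ℕ → Prop) [DecidablePred P] : V → ℝ :=
  fun v => if P (lay v) then 1 else 0

lemma clq (lay : V → ℕ) (X : SimpleGraph V)
    (h : ∀ x y, lay x = 0 → lay y = 0 → x ≠ y → X.Adj x y) :
    ind lay (· = 0) ⬝ᵥ ind lay (· = 0) = (Lk lay 0).card ∧
      ind lay (· = 0) ⬝ᵥ amR X *ᵥ ind lay (· = 0) =
        (((Lk lay 0).card : ℝ) - 1) * (Lk lay 0).card := by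
  have a0 : ∑ v, ind lay (· = 0) v = (Lk lay 0).card := by simp [ind, Lk]
  refine ⟨?_, ?_⟩
  · rw [← a0]
    exact sum_congr rfl fun v _ => by unfold ind; split_ifs <;> simp
  · rw [dotProduct]
    conv_rhs => rw [← a0, mul_sum]
    refine sum_congr rfl fun u _ => ?_
    by_cases hu : lay u = 0
    · have : (amR X *ᵥ ind lay (· = 0)) u = ∑ v, (ind lay (· = 0) v - if v = u then 1 else 0) := by
        refine sum_congr rfl fun v _ => ?_
        change amR X u v * _ = _
        rw [amR_apply]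
        by_cases hv : lay v = 0
        · by_cases e : v = u
          · simp [ind, e, hu]
          · simp [ind, hv, e, h u v hu hv (Ne.symm e)]
        · have e : v ≠ u := fun e => hv (e ▸ hu)
          simp [ind, hv, e]
      rw [this, sum_sub_distrib, mul_comm]
      simp
    · simp [ind, hu]

variable {lay : V → ℕ} {G H : SimpleGraph V} {k1 β : ℕ} {pv : ℕ → V} {k : ℕ}

/-- the real matrix of the layers from one on -/
noncomputable def upR (lay : V → ℕ) (G : SimpleGraph V) : Matrix V V ℝ :=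
  of fun x y => if 1 ≤ lay x ∧ 1 ≤ lay y then amR G x y else 0

lemma upR_le (hF : Front lay G k1 β pv) (y : V → ℝ) :
    y ⬝ᵥ upR lay G *ᵥ y ≤ β * (y ⬝ᵥ y) := by
  refine rows (fun u v => ?_) (fun u v => ?_) (fun u => ?_) y
  · simp only [upR, of_apply, and_comm, amR_congr (G.adj_comm u v)]
  · simp only [upR, of_apply]
    split_ifs
    exacts [amR_nonneg _ _ _, le_rfl]
  · by_cases hu : 1 ≤ lay u
    · have : ((∑ y, up lay 1 (am G) u y : ℤ) : ℝ) ≤ ((β : ℤ) : ℝ) := Int.cast_le.mpr (hF.deg u hu)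
      rw [Int.cast_sum, Int.cast_natCast] at this
      refine le_trans (le_of_eq (sum_congr rfl fun v _ => ?_)) this
      simp only [upR, up, of_apply, amR, map_apply]
      split_ifs <;> simp
    · simp [upR, hu]

lemma above_le (hF : Front lay G k1 β pv) {y : V → ℝ} (h : ∀ v, lay v ≤ k → y v = 0) :
    y ⬝ᵥ amR G *ᵥ y ≤ β * (y ⬝ᵥ y) := by
  refine le_trans (le_of_eq ?_) (upR_le hF y)
  simp only [dotProduct, mulVec, mul_sum]
  refine sum_congr rfl fun u _ => sum_congr rfl fun v _ => ?_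
  simp only [upR, of_apply]
  split_ifs with hc
  · rfl
  · by_cases hu : lay u ≤ k
    · simp [h u hu]
    · simp [h v (by omega)]

lemma perp_le (hF : Front lay G k1 β pv) {y : V → ℝ} (h : ind lay (· ≤ 1) ⬝ᵥ y = 0) :
    y ⬝ᵥ amR G *ᵥ y ≤ β * (y ⬝ᵥ y) := by
  have k2 := hF.two_le
  have e : amR G = vecMulVec (ind lay (· ≤ 1)) (ind lay (· ≤ 1)) - diagonal (ind lay (· ≤ 1)) +
      upR lay G := by
    ext u v
    have adj : ∀ u v, lay u = 0 → (G.Adj u v ↔ lay v ≤ 1 ∧ u ≠ v) := fun u v hu => by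
      refine ⟨fun a => ⟨by have := hF.layered u v a; omega, a.ne⟩, fun a => ?_⟩
      by_cases hv : lay v = 0
      · exact hF.clique u v hu hv a.2
      · have := hF.pv_adj u (by omega)
        rwa [hF.pv_uniq v (by omega) (by omega), show lay v = lay u + 1 by omega]
    simp only [Matrix.add_apply, Matrix.sub_apply, vecMulVec_apply, diagonal_apply, upR, of_apply,
      ind, amR_apply]
    by_cases hu : lay u = 0
    · by_cases e : u = v
      · subst e
        simp [hu]
      · simp [adj u v hu, hu, e]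
    · by_cases hv : lay v = 0
      · have e : u ≠ v := fun e => hu (e ▸ hv)
        simp [G.adj_comm u v, adj v u hv, hv, e, e.symm]
      · rw [if_pos (show 1 ≤ lay u ∧ 1 ≤ lay v by omega)]
        by_cases e : u = v
        · subst e
          split_ifs <;> simp_all
        · have : ¬ (lay u ≤ 1 ∧ lay v ≤ 1) := fun a => e (by
            rw [hF.pv_uniq u (by omega) (by omega), hF.pv_uniq v (by omega) (by omega),
              show lay u = lay v by omega])
          rw [if_neg e]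
          by_cases a : lay u ≤ 1
          · rw [if_neg fun b => this ⟨a, b⟩]
            simp
          · rw [if_neg a]
            simp
  have a1 : 0 ≤ y ⬝ᵥ diagonal (ind lay (· ≤ 1)) *ᵥ y := by
    refine sum_nonneg fun v _ => ?_
    rw [mulVec_diagonal]
    unfold ind
    split_ifs
    · simpa using mul_self_nonneg (y v)
    · simp
  have a2 := upR_le hF y
  rw [e, add_mulVec, sub_mulVec, vecMulVec_mulVec, h, dotProduct_add, dotProduct_sub]
  simp only [MulOpposite.op_zero, zero_smul, dotProduct_zero]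
  linarith

lemma cross {M : Matrix V V ℝ} {n : V → ℝ}
    (h : ∀ u w, lay u ≤ k → k < lay w → M u w = ind lay (· = k) u * n w) {y y' : V → ℝ}
    (hy : ∀ v, k < lay v → y v = 0) (hy' : ∀ v, lay v ≤ k → y' v = 0) :
    y ⬝ᵥ M *ᵥ y' = (ind lay (· = k) ⬝ᵥ y) * (n ⬝ᵥ y') := by
  simp only [dotProduct, mulVec, mul_sum, sum_mul]
  rw [sum_comm]
  refine sum_congr rfl fun w _ => sum_congr rfl fun u _ => ?_
  by_cases hu : lay u ≤ k
  · by_cases hw : lay w ≤ k
    · simp [hy' w hw]
    · rw [h u w hu (by omega)]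
      ring
  · simp [hy u (by omega)]

lemma orth {y y' : V → ℝ} (hy : ∀ v, k < lay v → y v = 0) (hy' : ∀ v, lay v ≤ k → y' v = 0) :
    y ⬝ᵥ y' = 0 := by
  refine sum_eq_zero fun v _ => ?_
  by_cases hv : lay v ≤ k
  · simp [hy' v hv]
  · simp [hy v (by omega)]

lemma strG (hF : Front lay G k1 β pv) (hk : k < k1) (u w : V) (hu : lay u ≤ k) (hw : k < lay w) :
    amR G u w = ind lay (· = k) u * (Pi.single (pv (k + 1)) 1 : V → ℝ) w := by
  rw [amR_apply]
  by_cases a : G.Adj u w
  · have := hF.layered u w a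
    have e : lay u = k := by omega
    have e' : w = pv (k + 1) := by
      rw [hF.pv_uniq w (by omega) (by omega), show lay w = k + 1 by omega]
    simp [a, ind, e, ← e']
  · by_cases e : lay u = k
    · have e' : w ≠ pv (k + 1) := fun e' => a (by rw [e', ← e]; exact hF.pv_adj u (by omega))
      simp [a, e']
    · simp [a, ind, e]

lemma down (hF : Front lay G k1 β pv) {l : ℝ} (hl : β < l) {w : V → ℝ}
    (hw : amR G *ᵥ w = l • w) : ∀ k, k < k1 → (∀ v, k < lay v → w v = 0) → w = 0 := by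
  have key : ∀ k, k < k1 → (∀ v, k < lay v → w v = 0) → ind lay (· = k) ⬝ᵥ w = 0 := by
    intro k hk h
    have hp := hF.pv_lay (k + 1) (by omega) hk
    have := cross (strG hF hk) h (y' := Pi.single (pv (k + 1)) 1) fun v hv =>
      Pi.single_eq_of_ne (fun e => by rw [e] at hv; omega) _
    rw [dot_symm (amR_symm G), hw] at this
    simpa [h _ (show k < lay (pv (k + 1)) by omega)] using this.symm
  intro k
  induction k with
  | zero =>
    intro hk h
    have a1 : ind lay (· ≤ 1) ⬝ᵥ w = 0 := by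
      rw [← key 0 hk h]
      refine sum_congr rfl fun v _ => ?_
      by_cases hv : lay v = 0
      · simp [ind, hv]
      · simp [h v (by omega)]
    have a2 := perp_le hF a1
    rw [hw, dotProduct_smul, smul_eq_mul] at a2
    by_contra e
    nlinarith [dot_pos e]
  | succ k ih =>
    intro hk h
    refine ih (by omega) fun v hv => ?_
    by_cases e : lay v = k + 1
    · rw [← key _ hk h, dotProduct, sum_eq_single v]
      · simp [ind, e]
      · intro u _ hu
        have : lay u ≠ k + 1 := fun a => hu (by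
          rw [hF.pv_uniq u (by omega) (by omega), hF.pv_uniq v (by omega) (by omega), a, e])
        simp [ind, this]
      · simp
    · exact h v (by omega)

lemma allH (hF : Front lay G k1 β pv) (hk : k < k1) (hT : Twins H (Lk lay 0)) {u w : V}
    (hu : lay u = k) (hw : k < lay w) (a : H.Adj u w) (x : V) (hx : lay x = k) : H.Adj x w := by
  by_cases h0 : k = 0
  · subst h0
    exact (hT.2 u (by simp [Lk, hu]) x (by simp [Lk, hx]) w (by simp [Lk]; omega)).mp a
  · rwa [hF.pv_uniq x (by omega) (by omega), hx, ← hu, ← hF.pv_uniq u (by omega) (by omega)]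

open Classical in
lemma strH (hF : Front lay G k1 β pv) (hk : k < k1) (hA : Ag2 lay G H k)
    (hT : Twins H (Lk lay 0)) (u w : V) (hu : lay u ≤ k) (hw : k < lay w) :
    amR H u w = ind lay (· = k) u *
      (fun w => if ∀ x, lay x = k → H.Adj x w then (1 : ℝ) else 0) w := by
  rw [amR_apply]
  by_cases e : lay u = k
  · by_cases a : H.Adj u w
    · simp only [ind, e, if_pos a, if_pos (allH hF hk hT e hw a), if_true, mul_one]
    · rw [if_neg a]
      simp only
      rw [if_neg fun b => a (b u e), mul_zero]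
  · have a : ¬ H.Adj u w := fun a => by
      have := hF.layered u w ((hA.1 u w (by omega)).mp a)
      omega
    simp [a, ind, e]

lemma low (hA : Ag2 lay G H k) {y : V → ℝ} (hy : ∀ v, k < lay v → y v = 0) :
    y ⬝ᵥ amR H *ᵥ y = y ⬝ᵥ amR G *ᵥ y := by
  simp only [dotProduct, mulVec, mul_sum]
  refine sum_congr rfl fun u _ => sum_congr rfl fun v _ => ?_
  by_cases hu : k < lay u
  · simp [hy u hu]
  by_cases hv : k < lay v
  · simp [hy v hv]
  have : H.Adj u v ↔ G.Adj u v := by
    by_cases a : lay u < k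
    · exact hA.1 u v a
    by_cases b : lay v < k
    · rw [H.adj_comm, G.adj_comm]
      exact hA.1 v u b
    exact hA.2 u v (by omega) (by omega)
  rw [amR_congr this]

lemma split (lay : V → ℕ) (k : ℕ) (x : V → ℝ) : ∃ y y' : V → ℝ, x = y + y' ∧
    (∀ v, k < lay v → y v = 0) ∧ ∀ v, lay v ≤ k → y' v = 0 :=
  ⟨fun v => if lay v ≤ k then x v else 0, fun v => if lay v ≤ k then 0 else x v,
    funext fun v => by rw [Pi.add_apply]; split_ifs <;> simp,
    fun v hv => if_neg (by omega), fun v hv => if_pos hv⟩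

end Top

open Pool.Agent.P.MP_f57657_co.SX.Top in
theorem pTop (hS : StSim) : StTop := by
  classical
  intro V _ _ lay G H k1 β pv k hF hC hk hA hT
  obtain ⟨U, hU1, hU2, hU⟩ := hS V G H hC
  have : Nonempty V := ⟨pv 0⟩
  obtain ⟨l, x, hx0, hx, hl⟩ := top (amR_symm G)
  have hlH : ∀ y, y ⬝ᵥ amR H *ᵥ y ≤ l * (y ⬝ᵥ y) := fun y => by
    rw [hU, dot_conj, ← dot_orth hU1 y]
    exact hl _
  have hτ : 2 * (β : ℝ) + 2 ≤ (Lk lay 0).card := by exact_mod_cast hF.big
  have hβ : (0 : ℝ) ≤ β := Nat.cast_nonneg _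
  have hl2 : 2 * (β : ℝ) + 1 ≤ l := by
    obtain ⟨a1, a2⟩ := clq lay G hF.clique
    have := hl (ind lay (· = 0))
    rw [a1, a2] at this
    have := le_of_mul_le_mul_right this (by linarith)
    linarith
  have hlβ : (β : ℝ) < l := by linarith
  have sH := strH hF hk hA hT
  set n : V → ℝ := fun w => if ∀ x, lay x = k → H.Adj x w then (1 : ℝ) else 0 with hn
  have uniq : ∀ q q', k < lay q → k < lay q' → n q = 1 → n q' = 1 → q = q' := by
    intro q q' hq hq' nq nq'
    by_contra hne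
    obtain ⟨y, y', rfl, hy, hy'⟩ := split lay k x
    have c1 := cross (strG hF hk) hy hy'
    rw [single_one_dotProduct] at c1
    set s := ind lay (· = k) ⬝ᵥ y
    set r := y' (pv (k + 1))
    have o := orth hy hy'
    have e1 := congrArg (fun z => y ⬝ᵥ z) hx
    have e2 := congrArg (fun z => y' ⬝ᵥ z) hx
    simp only [mulVec_add, dotProduct_add, dotProduct_smul, smul_eq_mul,
      dot_symm (amR_symm G) y' y, dotProduct_comm y' y, c1, o, add_zero, zero_add] at e1 e2
    have e3 := above_le hF hy'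
    have p1 : 0 < y' ⬝ᵥ y' := dot_pos fun e => hx0
      (down hF hlβ hx k hk fun v hv => by simp [e, hy v hv])
    have p2 : r * r ≤ y' ⬝ᵥ y' :=
      single_le_sum (f := fun v => y' v * y' v) (fun v _ => mul_self_nonneg _) (mem_univ _)
    obtain ⟨t, ht⟩ : ∃ t, s = l * t := ⟨s / l, by field_simp [show l ≠ 0 by linarith]⟩
    set z : V → ℝ := t • (Pi.single q 1 + Pi.single q' 1) with hz
    have hz0 : ∀ v, lay v ≤ k → z v = 0 := fun v hv => by
      have a : v ≠ q := fun e => by rw [e] at hv; omega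
      have b : v ≠ q' := fun e => by rw [e] at hv; omega
      simp [hz, a, b]
    have z1 : z ⬝ᵥ z = 2 * (t * t) := by
      simp [hz, hne, Ne.symm hne]
      ring
    have z2 : n ⬝ᵥ z = 2 * t := by
      simp only [hz, dotProduct_smul, dotProduct_add, dotProduct_single_one, nq, nq', smul_eq_mul]
      ring
    have sn : ∀ a b : V, 0 ≤ (Pi.single a 1 : V → ℝ) b := fun a b => by
      rw [Pi.single_apply]
      split_ifs <;> norm_num
    have z3 : 0 ≤ z ⬝ᵥ amR H *ᵥ z := by
      simp only [hz, mulVec_smul, dotProduct_smul, smul_dotProduct, smul_eq_mul, ← mul_assoc]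
      refine mul_nonneg (mul_self_nonneg t) (sum_nonneg fun u _ => mul_nonneg ?_
        (sum_nonneg fun v _ => mul_nonneg (amR_nonneg _ _ _) ?_)) <;>
      exact add_nonneg (sn _ _) (sn _ _)
    have c2 := cross sH hy hz0
    have f := hlH (y + z)
    simp only [mulVec_add, dotProduct_add, add_dotProduct, dot_symm (amR_symm H) z y,
      dotProduct_comm z y, c2, orth hy hz0, low hA hy, z1, z2] at f
    change _ + s * (2 * t) + (s * (2 * t) + _) ≤ _ at f
    rw [ht] at f e1 e2
    have hl0 : 0 < l := by linarith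
    have g1 : 2 * (t * t) ≤ t * r := le_of_mul_le_mul_left (by linarith) hl0
    have g2 : (l - β) * (y' ⬝ᵥ y') ≤ l * (t * r) := by linarith
    have g3 : 0 < t * r := pos_of_mul_pos_left
      ((mul_pos (by linarith) p1).trans_le (g2.trans_eq (mul_comm _ _))) hl0.le
    have g4 : (l - β) * (r * r) ≤ l * (t * r) :=
      (mul_le_mul_of_nonneg_left p2 (by linarith)).trans g2
    have g5 := mul_le_mul_of_nonneg_left g4 (mul_self_nonneg t)
    have g6 := mul_le_mul_of_nonneg_left g1 (mul_pos hl0 g3).le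
    have g7 := mul_pos g3 g3
    nlinarith
  have ex : ∃ v, k < lay v ∧ ∀ x, lay x = k → H.Adj x v := by
    by_contra hne
    have n0 : ∀ y' : V → ℝ, (∀ v, lay v ≤ k → y' v = 0) → n ⬝ᵥ y' = 0 := fun y' hy' => by
      refine sum_eq_zero fun v _ => ?_
      by_cases hv : lay v ≤ k
      · rw [hy' v hv, mul_zero]
      · rw [hn]
        simp only
        rw [if_neg fun b => hne ⟨v, by omega, b⟩, zero_mul]
    have hz : amR H *ᵥ (Uᵀ *ᵥ x) = l • (Uᵀ *ᵥ x) := by
      rw [hU, ← mulVec_mulVec, ← mulVec_mulVec, mulVec_mulVec x, hU2, one_mulVec, hx, mulVec_smul]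
    have hz0 : Uᵀ *ᵥ x ≠ 0 := fun e => hx0 (by
      rw [← one_mulVec x, ← hU2, ← mulVec_mulVec, e, mulVec_zero])
    obtain ⟨y, y', e, hy, hy'⟩ := split lay k (Uᵀ *ᵥ x)
    rw [e] at hz hz0
    by_cases h0 : y' = 0
    · rw [h0, add_zero] at hz hz0
      refine hz0 (down hF hlβ (ker (amR_symm G) hl ?_) k hk hy)
      rw [← low hA hy, hz, dotProduct_smul, smul_eq_mul]
    have e2 := congrArg (fun z => y' ⬝ᵥ z) hz
    simp only [mulVec_add, dotProduct_add, dotProduct_smul, smul_eq_mul,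
      dot_symm (amR_symm H) y' y, dotProduct_comm y' y, cross sH hy hy', n0 y' hy', orth hy hy',
      mul_zero, zero_add] at e2
    obtain ⟨a1, a2⟩ := clq lay H fun u v hu hv => hT.1 u (by simp [Lk, hu]) v (by simp [Lk, hv])
    set c := ind lay (· = 0) with hc
    have hc0 : ∀ v, k < lay v → c v = 0 := fun v hv => if_neg (by omega)
    obtain ⟨a, b, hab, h1⟩ : ∃ a b : ℝ, (a ≠ 0 ∨ b ≠ 0) ∧
        (Uᵀ *ᵥ ind lay (· ≤ 1)) ⬝ᵥ (a • c + b • y') = 0 := by
      simp only [dotProduct_add, dotProduct_smul, smul_eq_mul]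
      by_cases g : (Uᵀ *ᵥ ind lay (· ≤ 1)) ⬝ᵥ c = 0
      · exact ⟨1, 0, Or.inl one_ne_zero, by simp [g]⟩
      · exact ⟨(Uᵀ *ᵥ ind lay (· ≤ 1)) ⬝ᵥ y', -((Uᵀ *ᵥ ind lay (· ≤ 1)) ⬝ᵥ c),
          Or.inr (neg_ne_zero.mpr g), by ring⟩
    rw [← dot_tr] at h1
    have f := perp_le hF h1
    rw [dot_orth hU1, ← dot_conj, ← hU] at f
    simp only [mulVec_add, dotProduct_add, add_dotProduct, mulVec_smul, dotProduct_smul,
      smul_dotProduct, smul_eq_mul, dot_symm (amR_symm H) y' c, dotProduct_comm y' c,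
      cross sH hc0 hy', n0 y' hy', orth hc0 hy', mul_zero, zero_add, add_zero, a1, a2, e2] at f
    have p1 := dot_pos h0
    set τ : ℝ := ((Lk lay 0).card : ℝ)
    have q1 : 0 < (τ - 1 - β) * τ := mul_pos (by linarith) (by linarith)
    have q2 : 0 < (l - β) * (y' ⬝ᵥ y') := mul_pos (by linarith) p1
    rcases hab with g | g
    · nlinarith [mul_pos (mul_self_pos.mpr g) q1, mul_nonneg (mul_self_nonneg b) q2.le]
    · nlinarith [mul_pos (mul_self_pos.mpr g) q2, mul_nonneg (mul_self_nonneg a) q1.le]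
  obtain ⟨v, hv, hv'⟩ := ex
  exact ⟨v, hv, hv', fun x w hx hw a =>
    uniq w v hw hv (if_pos (allH hF hk hT hx hw a)) (if_pos hv')⟩

end Pool.Agent.P.MP_f57657_co.SX
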