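import Pool.Agent.P.MP_f57657_co.SX.Defs

/-! A cospectral mate has as many twins. -/

open Matrix Finset

namespace Pool.Agent.P.MP_f57657_co.SX

namespace TwinsP

variable {V S : Type} [Fintype V] [DecidableEq V] [Fintype S] [DecidableEq S]

theorem sum_minor (Z : Matrix S V ℝ) (B0 : Matrix S S ℝ) :
    ∑ s ∈ (univ : Finset V).powersetCard (Fintype.card S),
      ((Zᵀ * B0 * Z).submatrix (Subtype.val : s → V) (Subtype.val : s → V)).det =
      B0.det * (Z * Zᵀ).det := by
  rw [← coeff_det_one_add_X_smul_eq_sum_minors, Matrix.mul_assoc, Matrix.map_mul,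
    ← Matrix.mul_smul, det_one_add_mul_comm, Matrix.smul_mul, ← Matrix.map_mul,
    coeff_det_one_add_X_smul_eq_sum_minors, ← card_univ, powersetCard_self, sum_singleton,
    ← det_mul, Matrix.mul_assoc]
  exact det_submatrix_equiv_self (Equiv.subtypeUnivEquiv fun x => mem_univ x) _

omit [Fintype V] in
theorem minor_eq (Z : Matrix S V ℝ) (B0 : Matrix S S ℝ) (s : Finset V) (e : S ≃ s) :
    ((Zᵀ * B0 * Z).submatrix (Subtype.val : s → V) (Subtype.val : s → V)).det =
      (Z.submatrix id fun i => (e i : V)).det ^ 2 * B0.det := by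
  rw [← det_submatrix_equiv_self e, submatrix_submatrix]
  have h : (Zᵀ * B0 * Z).submatrix (Subtype.val ∘ e) (Subtype.val ∘ e) =
      (Z.submatrix id fun i => (e i : V))ᵀ * B0 * (Z.submatrix id fun i => (e i : V)) := by
    ext i j
    simp only [Matrix.mul_apply, submatrix_apply, transpose_apply, Function.comp, id]
  rw [h, det_mul, det_mul, det_transpose]
  ring

open Classical in
/-- The column sets that are bases. -/
noncomputable def bas (Z : Matrix S V ℝ) : Finset (Finset V) :=
  univ.filter fun s => ∃ f : S → V, Function.Injective f ∧ univ.image f = s ∧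
    (Z.submatrix id f).det ≠ 0

theorem mem_bas {Z : Matrix S V ℝ} {s : Finset V} : s ∈ bas Z ↔
    ∃ f : S → V, Function.Injective f ∧ univ.image f = s ∧ (Z.submatrix id f).det ≠ 0 := by
  simp [bas]

theorem count (Z : Matrix S V ℝ) (B0 : Matrix S S ℝ) (B : Matrix V V ℤ) (m : ℕ) (hm : 1 ≤ m)
    (h0 : B0.det = 1 ∨ B0.det = -1) (hB : B.map (Int.cast : ℤ → ℝ) = Zᵀ * B0 * Z)
    (hZ : (Z * Zᵀ).det = m) : (bas Z).card ≤ m ∧ (bas Z).Nonempty := by
  have hsq : B0.det * B0.det = 1 := by rcases h0 with h | h <;> rw [h] <;> norm_num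
  obtain ⟨w, hw⟩ : ∃ w : Finset V → ℝ, ∀ s, w s =
      ((Zᵀ * B0 * Z).submatrix (Subtype.val : s → V) (Subtype.val : s → V)).det * B0.det :=
    ⟨_, fun _ => rfl⟩
  have hsum : ∑ s ∈ (univ : Finset V).powersetCard (Fintype.card S), w s = m := by
    simp only [hw]
    rw [← sum_mul, sum_minor, hZ]
    linear_combination (m : ℝ) * hsq
  have hint : ∀ s, ∃ k : ℤ, w s = k := by
    intro s
    have e : ((Zᵀ * B0 * Z).submatrix (Subtype.val : s → V) (Subtype.val : s → V)).det =
        (((B.submatrix (Subtype.val : s → V) (Subtype.val : s → V)).det : ℤ) : ℝ) := by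
      rw [← hB, Int.cast_det]
      rfl
    rw [hw, e]
    rcases h0 with h | h
    · exact ⟨_, by rw [h, mul_one]⟩
    · exact ⟨-_, by rw [h, mul_neg_one, Int.cast_neg]⟩
  have he : ∀ (s : Finset V) (e : S ≃ s), w s = (Z.submatrix id fun i => (e i : V)).det ^ 2 := by
    intro s e
    rw [hw, minor_eq Z B0 s e, mul_assoc, hsq, mul_one]
  have hex : ∀ s ∈ (univ : Finset V).powersetCard (Fintype.card S), Nonempty (S ≃ s) := by
    intro s hs
    exact ⟨Fintype.equivOfCardEq (by rw [Fintype.card_coe, (mem_powersetCard.1 hs).2])⟩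
  have hnn : ∀ s ∈ (univ : Finset V).powersetCard (Fintype.card S), 0 ≤ w s := by
    intro s hs
    obtain ⟨e⟩ := hex s hs
    rw [he s e]
    exact sq_nonneg _
  constructor
  · have hsub : bas Z ⊆ (univ : Finset V).powersetCard (Fintype.card S) := by
      intro s hs
      obtain ⟨f, hf, rfl, -⟩ := mem_bas.1 hs
      exact mem_powersetCard.2 ⟨subset_univ _, by rw [card_image_of_injective _ hf, card_univ]⟩
    have h1 : ∀ s ∈ bas Z, (1 : ℝ) ≤ w s := by
      intro s hs
      obtain ⟨f, hf, rfl, hd⟩ := mem_bas.1 hs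
      have hb : Function.Bijective fun i : S =>
          (⟨f i, mem_image_of_mem f (mem_univ i)⟩ : (univ.image f : Finset V)) := by
        refine ⟨fun i j h => hf (congrArg Subtype.val h), fun x => ?_⟩
        obtain ⟨i, -, hi⟩ := mem_image.1 x.2
        exact ⟨i, Subtype.ext hi⟩
      have h2 : w (univ.image f) = (Z.submatrix id f).det ^ 2 := he _ (Equiv.ofBijective _ hb)
      obtain ⟨k, hk⟩ := hint (univ.image f)
      have h3 : (0 : ℝ) < k := by
        rw [← hk, h2]
        positivity
      rw [hk]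
      exact_mod_cast (Int.cast_pos.1 h3 : (0 : ℤ) < k)
    have h4 : ((bas Z).card : ℝ) ≤ m := by
      rw [← hsum]
      refine le_trans ?_ (sum_le_sum_of_subset_of_nonneg hsub fun s hs _ => hnn s hs)
      have := card_nsmul_le_sum _ _ _ h1
      rwa [nsmul_eq_mul, mul_one] at this
    exact_mod_cast h4
  · have hne : ∑ s ∈ (univ : Finset V).powersetCard (Fintype.card S), w s ≠ 0 := by
      rw [hsum]
      exact Nat.cast_ne_zero.2 (by omega)
    obtain ⟨s, hs, hs0⟩ := exists_ne_zero_of_sum_ne_zero hne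
    obtain ⟨e⟩ := hex s hs
    refine ⟨_, mem_bas.2 ⟨fun i => (e i : V), Subtype.val_injective.comp e.injective, rfl, ?_⟩⟩
    intro h
    rw [he s e, h] at hs0
    exact hs0 (by norm_num)

omit [Fintype V] in
theorem mem_upd {f : S → V} {i : S} {v x : V} :
    x ∈ univ.image (Function.update f i v) ↔ x = v ∨ ∃ j, j ≠ i ∧ f j = x := by
  simp only [mem_image, mem_univ, true_and]
  constructor
  · rintro ⟨j, rfl⟩
    by_cases h : j = i
    · exact Or.inl (by rw [h, Function.update_self])
    · exact Or.inr ⟨j, h, by rw [Function.update_of_ne h]⟩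
  · rintro (rfl | ⟨j, h, rfl⟩)
    · exact ⟨i, Function.update_self _ _ _⟩
    · exact ⟨j, Function.update_of_ne h _ _⟩

omit [Fintype V] [Fintype S] [DecidableEq V] in
theorem inj_upd {f : S → V} (hf : Function.Injective f) (i : S) {v : V} (hv : ∀ j, f j ≠ v) :
    Function.Injective (Function.update f i v) := by
  intro a b h
  by_cases ha : a = i <;> by_cases hb : b = i
  · rw [ha, hb]
  · rw [ha, Function.update_self, Function.update_of_ne hb] at h
    exact absurd h.symm (hv b)
  · rw [hb, Function.update_self, Function.update_of_ne ha] at h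
    exact absurd h (hv a)
  · rw [Function.update_of_ne ha, Function.update_of_ne hb] at h
    exact hf h

/-- The exchange argument for a matrix in reduced form. -/
theorem exch (Y : Matrix S V ℝ) (f : S → V) (hf : Function.Injective f)
    (hY : Y.submatrix id f = 1) (hcol : ∀ v, ∃ i, Y i v ≠ 0)
    (hc : (bas Y).card ≤ (univ.image f)ᶜ.card + 1) :
    ∀ v ∈ (univ.image f)ᶜ, ∀ v' ∈ (univ.image f)ᶜ, ∀ i i', Y i v ≠ 0 → Y i' v' ≠ 0 → i = i' := by
  choose ι hι using hcol
  have hC : ∀ v ∈ (univ.image f)ᶜ, ∀ j, f j ≠ v := fun v hv j h =>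
    (mem_compl.1 hv) (h ▸ mem_image_of_mem f (mem_univ j))
  have hY' : ∀ a b, Y a (f b) = if a = b then 1 else 0 := fun a b => by
    have := congrFun (congrFun hY a) b
    rwa [one_apply] at this
  have h1 : ∀ v ∈ (univ.image f)ᶜ, ∀ i, Y i v ≠ 0 →
      univ.image (Function.update f i v) ∈ bas Y := by
    intro v hv i hi
    refine mem_bas.2 ⟨_, inj_upd hf i (hC v hv), rfl, ?_⟩
    have e : Y.submatrix id (Function.update f i v) =
        (1 : Matrix S S ℝ).updateCol i fun k => ∑ j, Y j v • (1 : Matrix S S ℝ) k j := by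
      ext a b
      rw [submatrix_apply, updateCol_apply]
      by_cases h : b = i
      · rw [if_pos h, h, Function.update_self]
        simp [one_apply]
      · rw [if_neg h, Function.update_of_ne h, one_apply]
        exact hY' a b
    rw [e, det_updateCol_sum, det_one, smul_eq_mul, mul_one]
    exact hi
  have hsub : insert (univ.image f) ((univ.image f)ᶜ.image fun v =>
      univ.image (Function.update f (ι v) v)) ⊆ bas Y := by
    intro s hs
    rcases mem_insert.1 hs with rfl | hs
    · exact mem_bas.2 ⟨f, hf, rfl, by rw [hY, det_one]; exact one_ne_zero⟩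
    · obtain ⟨v, hv, rfl⟩ := mem_image.1 hs
      exact h1 v hv _ (hι v)
  have hin : ∀ v ∈ (univ.image f)ᶜ, ∀ v' i, v ∈ univ.image (Function.update f i v') → v = v' := by
    intro v hv v' i h
    rcases mem_upd.1 h with h | ⟨j, -, h⟩
    · exact h
    · exact absurd h (hC v hv j)
  have hcard : (insert (univ.image f) ((univ.image f)ᶜ.image fun v =>
      univ.image (Function.update f (ι v) v))).card = (univ.image f)ᶜ.card + 1 := by
    rw [card_insert_of_notMem, card_image_of_injOn]
    · intro v hv v' _ h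
      refine hin v hv v' (ι v') ?_
      have h' : univ.image (Function.update f (ι v) v) = univ.image (Function.update f (ι v') v') :=
        h
      rw [← h']
      exact mem_upd.2 (Or.inl rfl)
    · intro h
      obtain ⟨v, hv, h⟩ := mem_image.1 h
      exact (mem_compl.1 hv) (h ▸ mem_upd.2 (Or.inl rfl))
  have hall := eq_of_subset_of_card_le hsub (hcard ▸ hc)
  have h2 : ∀ s ∈ bas Y, ∀ v ∈ (univ.image f)ᶜ, v ∈ s →
      s = univ.image (Function.update f (ι v) v) := by
    intro s hs v hv hvs
    rw [← hall] at hs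
    rcases mem_insert.1 hs with rfl | hs
    · exact absurd hvs (mem_compl.1 hv)
    · obtain ⟨v', -, rfl⟩ := mem_image.1 hs
      rw [hin v hv v' _ hvs]
  have h3 : ∀ v ∈ (univ.image f)ᶜ, ∀ i, Y i v ≠ 0 → i = ι v := by
    intro v hv i hi
    by_contra hne
    have e := h2 _ (h1 v hv i hi) v hv (mem_upd.2 (Or.inl rfl))
    have hm : f (ι v) ∈ univ.image (Function.update f i v) :=
      mem_upd.2 (Or.inr ⟨ι v, fun h => hne h.symm, rfl⟩)
    rw [e] at hm
    rcases mem_upd.1 hm with h | ⟨j, hj, h⟩
    · exact hC v hv _ h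
    · exact hj (hf h)
  intro v hv v' hv' i i' hi hi'
  by_contra hne
  have hvv : v ≠ v' := by
    rintro rfl
    exact hne ((h3 v hv i hi).trans (h3 v hv i' hi').symm)
  have hz : ∀ v ∈ (univ.image f)ᶜ, ∀ i, Y i v ≠ 0 → ∀ a, a ≠ i → Y a v = 0 := by
    intro v hv i hi a ha
    by_contra h
    exact ha ((h3 v hv a h).trans (h3 v hv i hi).symm)
  have hb : univ.image (Function.update (Function.update f i v) i' v') ∈ bas Y := by
    refine mem_bas.2 ⟨_, inj_upd (inj_upd hf i (hC v hv)) i' fun j h => ?_, rfl, ?_⟩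
    · exact hvv (hin v' hv' v i (h ▸ mem_image_of_mem _ (mem_univ j))).symm
    · have e : Y.submatrix id (Function.update (Function.update f i v) i' v') =
          diagonal fun b => if b = i' then Y i' v' else if b = i then Y i v else 1 := by
        ext a b
        rw [submatrix_apply, diagonal_apply, id]
        by_cases h : b = i'
        · rw [h, Function.update_self]
          by_cases h' : a = i'
          · rw [if_pos h', if_pos h', h']
          · rw [if_neg h', hz v' hv' i' hi' a h']
        · rw [Function.update_of_ne h]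
          by_cases h' : b = i
          · rw [h', Function.update_self]
            by_cases h'' : a = i
            · rw [if_pos h'', if_neg (h'' ▸ hne), if_pos h'', h'']
            · rw [if_neg h'', hz v hv i hi a h'']
          · rw [Function.update_of_ne h', hY']
            by_cases h'' : a = b
            · rw [if_pos h'', if_pos h'', h'', if_neg h, if_neg h']
            · rw [if_neg h'', if_neg h'']
      rw [e, det_diagonal]
      refine prod_ne_zero_iff.2 fun b _ => ?_
      split_ifs
      · exact hi'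
      · exact hi
      · exact one_ne_zero
  have e := h2 _ hb v' hv' (mem_upd.2 (Or.inl rfl))
  have hm : v ∈ univ.image (Function.update (Function.update f i v) i' v') :=
    mem_upd.2 (Or.inr ⟨i, hne, Function.update_self _ _ _⟩)
  rw [e] at hm
  exact hvv (hin v hv v' _ hm)

theorem core (Z : Matrix S V ℝ) (B0 : Matrix S S ℝ) (B : Matrix V V ℤ) (m : ℕ) (hm : 2 ≤ m)
    (h0 : B0.det = 1 ∨ B0.det = -1) (hB : B.map (Int.cast : ℤ → ℝ) = Zᵀ * B0 * Z)
    (hZ : (Z * Zᵀ).det = m) (hV : Fintype.card V + 1 = Fintype.card S + m)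
    (hd : ∀ x, B x x = 1) (h01 : ∀ x y, B x y = 0 ∨ B x y = 1) :
    ∃ T' : Finset V, T'.card = m ∧ ∀ s ∈ T', ∀ s' ∈ T', ∀ x, B x s = B x s' := by
  obtain ⟨hc, s0, hs0⟩ := count Z B0 B m (by omega) h0 hB hZ
  obtain ⟨f, hf, rfl, hD⟩ := mem_bas.1 hs0
  obtain ⟨D, hDe⟩ : ∃ D, D = Z.submatrix id f := ⟨_, rfl⟩
  rw [← hDe] at hD
  have hu : IsUnit D.det := isUnit_iff_ne_zero.2 hD
  obtain ⟨Y, hYe⟩ : ∃ Y, Y = D⁻¹ * Z := ⟨_, rfl⟩
  have hZY : Z = D * Y := by rw [hYe, ← Matrix.mul_assoc, mul_nonsing_inv _ hu, Matrix.one_mul]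
  have hsm : ∀ g : S → V, Y.submatrix id g = D⁻¹ * Z.submatrix id g := fun g => by
    rw [hYe]
    rfl
  have hBe : ∀ x y, (B x y : ℝ) = ∑ b, (Zᵀ * B0) x b * Z b y := fun x y =>
    congrFun (congrFun hB x) y
  have hCc : (univ.image f)ᶜ.card + 1 = m := by
    have h1 := card_add_card_compl (univ.image f)
    rw [card_image_of_injective _ hf, card_univ] at h1
    omega
  have hcol : ∀ v, ∃ i, Y i v ≠ 0 := by
    intro v
    by_contra h
    push Not at h
    have e := hBe v v
    rw [hd, sum_eq_zero] at e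
    · norm_num at e
    · intro b _
      have : Z b v = 0 := by
        rw [hZY, Matrix.mul_apply]
        exact sum_eq_zero fun k _ => by rw [h, mul_zero]
      rw [this, mul_zero]
  have hbas : bas Y ⊆ bas Z := by
    intro s hs
    obtain ⟨g, hg, rfl, h⟩ := mem_bas.1 hs
    rw [hsm, det_mul] at h
    exact mem_bas.2 ⟨g, hg, rfl, right_ne_zero_of_mul h⟩
  have hx := exch Y f hf (by rw [hsm, ← hDe, nonsing_inv_mul _ hu]) hcol
    (hCc ▸ (card_le_card hbas).trans hc)
  obtain ⟨v0, hv0⟩ : ((univ.image f)ᶜ).Nonempty := card_pos.1 (by omega)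
  obtain ⟨i, hi⟩ := hcol v0
  have key : ∀ v ∈ (univ.image f)ᶜ, ∀ x, B x v = B x (f i) := by
    intro v hv
    have hz : ∀ b, Z b v = Z b (f i) * Y i v := by
      intro b
      have e1 : Z b v = ∑ k, D b k * Y k v := congrFun (congrFun hZY b) v
      rw [e1, sum_eq_single i, hDe]
      · rfl
      · intro k _ hk
        have : Y k v = 0 := by
          by_contra h
          exact hk (hx v hv v0 hv0 k i h hi)
        rw [this, mul_zero]
      · simp
    have hp : ∀ x, (B x v : ℝ) = B x (f i) * Y i v := by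
      intro x
      rw [hBe, hBe, sum_mul]
      exact sum_congr rfl fun b _ => by rw [hz, mul_assoc]
    have h1 : Y i v = 1 := by
      have e1 := hp (f i)
      have e2 := hp v
      rw [hd] at e1 e2
      rcases h01 (f i) v with h | h
      · rw [h] at e1
        have : Y i v = 0 := by simpa using e1.symm
        rw [this] at e2
        norm_num at e2
      · rw [h] at e1
        simpa using e1.symm
    intro x
    have := hp x
    rw [h1, mul_one] at this
    exact_mod_cast this
  refine ⟨insert (f i) (univ.image f)ᶜ, ?_, ?_⟩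
  · rw [card_insert_of_notMem, hCc]
    exact fun h => (mem_compl.1 h) (mem_image_of_mem f (mem_univ i))
  · have key' : ∀ s ∈ insert (f i) (univ.image f)ᶜ, ∀ x, B x s = B x (f i) := by
      intro s hs x
      rcases mem_insert.1 hs with rfl | hs
      · rfl
      · exact key s hs x
    intro s hs s' hs' x
    rw [key' s hs, key' s' hs']

theorem det_unit (G : SimpleGraph V) (T : Finset V) (t0 : V) (h : KerOK G T t0) :
    ((am G + 1).submatrix (Subtype.val : {x // x ∈ T → x = t0} → V) Subtype.val).det = 1 ∨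
    ((am G + 1).submatrix (Subtype.val : {x // x ∈ T → x = t0} → V) Subtype.val).det = -1 := by
  rw [← Int.isUnit_iff, Int.isUnit_iff_natAbs_eq]
  by_contra hne
  obtain ⟨p, hp, hd⟩ := Nat.exists_prime_and_dvd hne
  have : Fact p.Prime := ⟨hp⟩
  have h0 : (((am G + 1).submatrix (Subtype.val : {x // x ∈ T → x = t0} → V) Subtype.val).map
      (Int.cast : ℤ → ZMod p)).det = 0 := by
    rw [← Int.cast_det, ZMod.intCast_zmod_eq_zero_iff_dvd]
    exact Int.natCast_dvd.2 hd
  obtain ⟨v, hv, hz⟩ := exists_mulVec_eq_zero_iff.2 h0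
  obtain ⟨f, hf1, hf2⟩ : ∃ f : V → ZMod p, (∀ s : {x // x ∈ T → x = t0}, f s = v s) ∧
      ∀ x, ¬ (x ∈ T → x = t0) → f x = 0 :=
    ⟨fun x => if hx : x ∈ T → x = t0 then v ⟨x, hx⟩ else 0, fun s => dif_pos s.2,
      fun x hx => dif_neg hx⟩
  have hf := h p hp f (fun t ht hne => hf2 t fun h' => hne (h' ht)) fun x hx => by
    have e := congrFun hz ⟨x, hx⟩
    have e2 : ∑ s : {x // x ∈ T → x = t0}, (((am G + 1) x s : ℤ) : ZMod p) * v s =
        ∑ y, (((am G + 1) x y : ℤ) : ZMod p) * f y :=
      Fintype.sum_of_injective Subtype.val Subtype.val_injective _ _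
        (fun y hy => by rw [hf2 y fun h' => hy ⟨⟨y, h'⟩, rfl⟩, mul_zero])
        fun s => by rw [hf1]
    have e3 : ∑ y, (((am G + 1) x y : ℤ) : ZMod p) * f y = 0 := e2.symm.trans e
    rw [← e3]
    simp only [Matrix.add_apply, Int.cast_add, add_mul, sum_add_distrib, one_apply, Int.cast_ite,
      Int.cast_one, Int.cast_zero, ite_mul, one_mul, zero_mul, sum_ite_eq, mem_univ, if_true]
    exact add_comm _ _
  exact hv (funext fun s => by rw [← hf1, hf, Pi.zero_apply])

omit [Fintype V] in
theorem ent (G : SimpleGraph V) (x y : V) :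
    ((am G + 1) x y = 1 ∧ (x = y ∨ G.Adj x y)) ∨ ((am G + 1) x y = 0 ∧ x ≠ y ∧ ¬ G.Adj x y) := by
  by_cases h : x = y
  · subst h
    simp [am]
  · by_cases h' : G.Adj x y <;> simp [am, h, h']

omit [Fintype V] in
theorem ent_congr (G : SimpleGraph V) {x y x' y' : V}
    (h : (x = y ∨ G.Adj x y) ↔ (x' = y' ∨ G.Adj x' y')) : (am G + 1) x y = (am G + 1) x' y' := by
  rcases ent G x y with h1 | h1 <;> rcases ent G x' y' with h2 | h2
  · rw [h1.1, h2.1]
  · exact absurd (h.1 h1.2) (not_or.2 h2.2)
  · exact absurd (h.2 h2.2) (not_or.2 h1.2)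
  · rw [h1.1, h2.1]

end TwinsP

open TwinsP in
theorem pTwins (hS : StSim) : StTwins := by
  intro V _ _ G H T t0 ht hT hK hC
  by_cases h1 : T.card = 1
  · refine ⟨{t0}, by rw [h1, card_singleton], ?_, ?_⟩
    · intro s hs s' hs' hne
      exact absurd ((mem_singleton.1 hs).trans (mem_singleton.1 hs').symm) hne
    · intro s hs s' hs' x _
      rw [mem_singleton.1 hs, mem_singleton.1 hs']
  have h2 : 2 ≤ T.card := by
    have := card_pos.2 ⟨t0, ht⟩
    omega
  obtain ⟨U, hU1, hU2, hU⟩ := hS V G H hC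
  obtain ⟨r, hr1, hr2⟩ : ∃ r : V → {x // x ∈ T → x = t0}, (∀ x ∈ T, (r x : V) = t0) ∧
      ∀ x, x ∉ T → (r x : V) = x :=
    ⟨fun x => if hx : x ∈ T then ⟨t0, fun _ => rfl⟩ else ⟨x, fun h => absurd h hx⟩,
      fun x hx => by simp [hx], fun x hx => by simp [hx]⟩
  have hTT : ∀ s ∈ T, ∀ s' ∈ T, s = s' ∨ G.Adj s s' := fun s hs s' hs' =>
    (em (s = s')).imp id (hT.1 s hs s' hs')
  have hr : ∀ x y, (am G + 1) (r x) (r y) = (am G + 1) x y := by
    intro x y
    refine ent_congr G ?_
    by_cases hx : x ∈ T <;> by_cases hy : y ∈ T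
    · rw [hr1 x hx, hr1 y hy]
      exact iff_of_true (Or.inl rfl) (hTT x hx y hy)
    · rw [hr1 x hx, hr2 y hy]
      exact or_congr (iff_of_false (fun h => hy (h ▸ ht)) fun h => hy (h ▸ hx))
        (hT.2 t0 ht x hx y hy)
    · rw [hr2 x hx, hr1 y hy]
      refine or_congr (iff_of_false (fun h => hx (h ▸ ht)) fun h => hx (h ▸ hy)) ?_
      rw [G.adj_comm x t0, G.adj_comm x y]
      exact hT.2 t0 ht y hy x hx
    · rw [hr2 x hx, hr2 y hy]
  obtain ⟨P, hP⟩ : ∃ P : Matrix {x // x ∈ T → x = t0} V ℝ,
      ∀ s x, P s x = if r x = s then 1 else 0 :=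
    ⟨Matrix.of fun s x => if r x = s then 1 else 0, fun _ _ => rfl⟩
  obtain ⟨B0, hB0⟩ : ∃ B0 : Matrix {x // x ∈ T → x = t0} {x // x ∈ T → x = t0} ℝ, B0 =
      ((am G + 1).submatrix Subtype.val Subtype.val).map (Int.cast : ℤ → ℝ) := ⟨_, rfl⟩
  have hcast : ∀ K : SimpleGraph V, (am K + 1).map (Int.cast : ℤ → ℝ) = amR K + 1 := by
    intro K
    ext x y
    simp only [amR, map_apply, Matrix.add_apply, one_apply, Int.cast_add, Int.cast_ite,
      Int.cast_one, Int.cast_zero]
  have hG : amR G + 1 = Pᵀ * B0 * P := by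
    rw [← hcast]
    ext x y
    simp only [Matrix.mul_apply, transpose_apply, hP, ite_mul, mul_ite, one_mul, zero_mul, mul_one,
      mul_zero, sum_ite_eq, mem_univ, if_true]
    rw [hB0, map_apply, map_apply, submatrix_apply, hr]
  have hPP : (P * Pᵀ).det = T.card := by
    have e : P * Pᵀ = diagonal fun s => ((univ.filter fun x => r x = s).card : ℝ) := by
      ext s s'
      rw [Matrix.mul_apply, diagonal_apply]
      simp only [transpose_apply, hP]
      by_cases h : s = s'
      · subst h
        simp only [if_true, ite_mul, one_mul, zero_mul]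
        rw [← sum_boole]
        exact sum_congr rfl fun x _ => by split_ifs <;> rfl
      · rw [if_neg h]
        refine sum_eq_zero fun x _ => ?_
        by_cases h' : r x = s
        · rw [if_neg (fun h'' => h (h'.symm.trans h'')), mul_zero]
        · rw [if_neg h', zero_mul]
    rw [e, det_diagonal, prod_eq_single ⟨t0, fun _ => rfl⟩]
    · congr 2
      ext x
      simp only [mem_filter, mem_univ, true_and, Subtype.ext_iff]
      refine ⟨fun h => ?_, hr1 x⟩
      by_contra hx
      rw [hr2 x hx] at h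
      exact hx (h ▸ ht)
    · intro s _ hs
      have hs' : (s : V) ≠ t0 := fun h => hs (Subtype.ext h)
      have hsT : (s : V) ∉ T := fun h => hs' (s.2 h)
      have : (univ.filter fun x => r x = s) = {(s : V)} := by
        ext x
        simp only [mem_filter, mem_univ, true_and, Subtype.ext_iff, mem_singleton]
        by_cases hx : x ∈ T
        · rw [hr1 x hx]
          exact iff_of_false hs'.symm fun h => hsT (h ▸ hx)
        · rw [hr2 x hx]
      rw [this, card_singleton, Nat.cast_one]
    · simp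
  have hcard : Fintype.card V + 1 = Fintype.card {x // x ∈ T → x = t0} + T.card := by
    have e : (univ.filter fun x => x ∈ T → x = t0) = insert t0 Tᶜ := by
      ext x
      simp only [mem_filter, mem_univ, true_and, mem_insert, mem_compl]
      tauto
    rw [Fintype.card_subtype, e, card_insert_of_notMem fun h => (mem_compl.1 h) ht]
    have := card_add_card_compl T
    omega
  obtain ⟨T', hc, hT'⟩ := core (P * U) B0 (am H + 1) T.card h2
    (by
      rw [hB0, ← Int.cast_det]
      rcases det_unit G T t0 hK with h | h <;> rw [h] <;> simp)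
    (by
      have e : (P * U)ᵀ * B0 * (P * U) = Uᵀ * (Pᵀ * B0 * P) * U := by
        rw [transpose_mul]
        simp only [Matrix.mul_assoc]
      rw [hcast, e, ← hG, hU, mul_add, add_mul, mul_one, hU1])
    (by rw [transpose_mul, Matrix.mul_assoc, ← Matrix.mul_assoc U, hU2, Matrix.one_mul, hPP])
    hcard (fun x => by simp [am]) fun x y => (ent H x y).symm.imp And.left And.left
  have hiff : ∀ s ∈ T', ∀ s' ∈ T', ∀ x, (x = s ∨ H.Adj x s) → (x = s' ∨ H.Adj x s') := by
    intro s hs s' hs' x h
    have e := hT' s hs s' hs' x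
    rcases ent H x s with h1 | h1
    · rcases ent H x s' with h2 | h2
      · exact h2.2
      · rw [h1.1, h2.1] at e
        exact absurd e one_ne_zero
    · exact absurd h (not_or.2 h1.2)
  refine ⟨T', hc, fun s hs s' hs' hne => (hiff s hs s' hs' s (Or.inl rfl)).resolve_left hne, ?_⟩
  have hdir : ∀ s ∈ T', ∀ s' ∈ T', ∀ x, x ∉ T' → H.Adj s x → H.Adj s' x :=
    fun s hs s' hs' x hx h =>
      ((hiff s hs s' hs' x (Or.inr h.symm)).resolve_left fun e => hx (e ▸ hs')).symm
  exact fun s hs s' hs' x hx => ⟨hdir s hs s' hs' x hx, hdir s' hs' s hs x hx⟩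

end Pool.Agent.P.MP_f57657_co.SX
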