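import Pool.Agent.P.MP_f57657_co.SX.Defs

/-! Package 7: the moments at the two roots. -/

open Matrix Finset

namespace Pool.Agent.P.MP_f57657_co.SX

namespace Two

/-- Integer power series. -/
abbrev PS : Type := PowerSeries ℤ

theorem pd_add {f g : PS} {r : ℕ} (hf : PD f r) (hg : PD g r) : PD (f + g) r :=
  fun k hk => by rw [map_add, hf k hk, hg k hk, add_zero]

theorem pd_sub {f g : PS} {r : ℕ} (hf : PD f r) (hg : PD g r) : PD (f - g) r :=
  fun k hk => by rw [map_sub, hf k hk, hg k hk, sub_zero]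

theorem pd_succ {f : PS} {r : ℕ} (hf : PD f r) : PD f (r + 1) :=
  fun k hk => hf k (by omega)

theorem x2_ne : ((PowerSeries.X : PS) ^ 2) ≠ 0 := pow_ne_zero _ PowerSeries.X_ne_zero

theorem two_ne : (2 : PS) ≠ 0 := fun h => by
  have e := congrArg (PowerSeries.constantCoeff (R := ℤ)) h
  rw [map_ofNat, map_zero] at e
  exact absurd e (by norm_num)

/-- The recurrence of a path. -/
noncomputable def sq (v0 v1 : PS) : ℕ → PS
  | 0 => v0
  | 1 => v1
  | m + 2 => sq v0 v1 (m + 1) - PowerSeries.X ^ 2 * sq v0 v1 m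

theorem sq_lin (c u0 u1 v0 v1 : PS) (m : ℕ) :
    sq (u0 - c * v0) (u1 - c * v1) m = sq u0 u1 m - c * sq v0 v1 m ∧
    sq (u0 - c * v0) (u1 - c * v1) (m + 1) = sq u0 u1 (m + 1) - c * sq v0 v1 (m + 1) := by
  induction m with
  | zero => exact ⟨rfl, rfl⟩
  | succ m ih =>
    refine ⟨ih.2, ?_⟩
    rw [sq, sq, sq, ih.1, ih.2]
    ring

theorem back (a : ℕ → PS) (h : ∀ j, a (j + 2) = a (j + 1) - PowerSeries.X ^ 2 * a j) (n : ℕ)
    (h1 : a (n + 1) = 0) (h0 : a n = 0) : a 1 = 0 ∧ a 0 = 0 := by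
  induction n with
  | zero => exact ⟨h1, h0⟩
  | succ n ih =>
    refine ih h0 ?_
    have e := h n
    rw [h1, h0, zero_sub] at e
    exact (mul_eq_zero.1 (neg_eq_zero.1 e.symm)).resolve_left x2_ne

theorem core (hS : StSep) (A B C E : ℕ → PS) (n r : ℕ)
    (h : ∀ m, m < n →
      A (m + 1) = A m - PowerSeries.X ^ 2 * (B m + C m) + (PowerSeries.X ^ 2) ^ 2 * E m ∧
      B (m + 1) = A m - PowerSeries.X ^ 2 * C m ∧ C (m + 1) = A m - PowerSeries.X ^ 2 * B m ∧
      E (m + 1) = A m)
    (pA : PD (A 0) r) (pB : PD (B 0) r) (pC : PD (C 0) r) (pE : PD (E 0) r)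
    (zA : A n = 0) (zB : B n = 0) (hr : r + 1 ≤ n) :
    A 0 = 0 ∧ B 0 = 0 ∧ C 0 = 0 ∧ E 0 = 0 := by
  let F : ℕ → ℕ → PS := fun m k => sq (sq (E 0) (C 0) k) (sq (B 0) (A 0) k) m
  have f1 : ∀ m k, F (m + 2) k = F (m + 1) k - PowerSeries.X ^ 2 * F m k := fun m k => rfl
  have f2 : ∀ m k, F m (k + 2) = F m (k + 1) - PowerSeries.X ^ 2 * F m k :=
    fun m k => (sq_lin _ _ _ _ _ m).1
  have key : ∀ m, m ≤ n → A m = F (m + 1) (m + 1) ∧ B m = F (m + 1) m ∧ C m = F m (m + 1) ∧
      E m = F m m := by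
    intro m
    induction m with
    | zero => exact fun _ => ⟨rfl, rfl, rfl, rfl⟩
    | succ m ih =>
      intro hm
      obtain ⟨a1, a2, a3, a4⟩ := ih (by omega)
      obtain ⟨b1, b2, b3, b4⟩ := h m (by omega)
      refine ⟨?_, ?_, ?_, ?_⟩
      · rw [b1, f1, f2, f2, a1, a2, a3, a4]
        ring
      · rw [b2, f1, a1, a3]
      · rw [b3, f2, a1, a2]
      · rw [b4, a1]
  obtain ⟨a1, a2, -, -⟩ := key n le_rfl
  obtain ⟨z1, z0⟩ := back (F (n + 1)) (f2 (n + 1)) n (a1 ▸ zA) (a2 ▸ zB)
  have s0 := hS (sq (E 0) (B 0)) 0 r (n + 1) (fun j _ => rfl) pE (pd_succ pB)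
    (by rw [mul_zero, zero_mul]; exact z0) (by omega)
  have s1 := hS (sq (C 0) (A 0)) 0 r (n + 1) (fun j _ => rfl) pC (pd_succ pA)
    (by rw [mul_zero, zero_mul]; exact z1) (by omega)
  exact ⟨s1.2, s0.2, s1.1, s0.1⟩

theorem alg {R : Type} [CommRing R] (x d d' p q s w m00 m01 m10 m11 : R)
    (hd : d' = d * ((1 - x * p) * (1 - x * w) - x * q * (x * s)))
    (h00 : m00 = 1 + x * (p * m00 + q * m10)) (h01 : m01 = x * (p * m01 + q * m11))
    (h10 : m10 = x * (s * m00 + w * m10)) (h11 : m11 = 1 + x * (s * m01 + w * m11)) :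
    d' + d' = (d + d) - x * ((d * p + d * q + d * s + d * w) + (d * p - d * q - d * s + d * w)) +
      x ^ 2 * ((d + d) * (p * w - q * s)) ∧
    d' * m00 + d' * m01 + d' * m10 + d' * m11 = (d + d) - x * (d * p - d * q - d * s + d * w) ∧
    d' * m00 - d' * m01 - d' * m10 + d' * m11 = (d + d) - x * (d * p + d * q + d * s + d * w) ∧
    (d' + d') * (m00 * m11 - m01 * m10) = d + d := by
  have e00 : d' * m00 = d * (1 - x * w) := by
    rw [hd]; linear_combination d * (1 - x * w) * h00 + d * (x * q) * h10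
  have e10 : d' * m10 = d * (x * s) := by
    rw [hd]; linear_combination d * (x * s) * h00 + d * (1 - x * p) * h10
  have e01 : d' * m01 = d * (x * q) := by
    rw [hd]; linear_combination d * (1 - x * w) * h01 + d * (x * q) * h11
  have e11 : d' * m11 = d * (1 - x * p) := by
    rw [hd]; linear_combination d * (x * s) * h01 + d * (1 - x * p) * h11
  refine ⟨by rw [hd]; ring, by rw [e00, e01, e10, e11]; ring, by rw [e00, e01, e10, e11]; ring, ?_⟩
  have e : d' * (m00 * m11 - m01 * m10) = d := by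
    linear_combination m11 * e00 - m01 * e10 + d * h11
  linear_combination 2 * e

variable {V : Type} [Fintype V] [DecidableEq V]

omit [Fintype V] in
theorem split (lay : V → ℕ) (K : SimpleGraph V) (j : ℕ) (y r : Fin 2 → V)
    (hy : ∀ i, lay (y i) = j) (hr : ∀ i, lay (r i) = j + 1) (hne : r 0 ≠ r 1)
    (h : ∀ x x', lay x = j → j ≤ lay x' → (K.Adj x x' ↔ ∃ i, x = y i ∧ x' = r i)) (x x' : V) :
    up lay j (am K) x x' = (0 : Matrix V V ℤ) x x' + up lay (j + 1) (am K) x x' +
      (∑ i, if x = y i ∧ x' = r i then 1 else 0) + ∑ i, if x = r i ∧ x' = y i then 1 else 0 := by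
  classical
  have hs : ∀ z z' : V, (∑ i, if z = y i ∧ z' = r i then (1 : ℤ) else 0) =
      if lay z = j ∧ j ≤ lay z' ∧ K.Adj z z' then 1 else 0 := by
    intro z z'
    rw [Fin.sum_univ_two]
    by_cases c0 : z = y 0 ∧ z' = r 0
    · have c1 : ¬ (z = y 1 ∧ z' = r 1) := fun c => hne (c0.2.symm.trans c.2)
      have l1 : lay z = j := c0.1 ▸ hy 0
      have l2 : j ≤ lay z' := by rw [c0.2, hr]; omega
      rw [if_pos c0, if_neg c1, if_pos ⟨l1, l2, (h z z' l1 l2).2 ⟨0, c0⟩⟩, add_zero]
    · by_cases c1 : z = y 1 ∧ z' = r 1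
      · have l1 : lay z = j := c1.1 ▸ hy 1
        have l2 : j ≤ lay z' := by rw [c1.2, hr]; omega
        rw [if_neg c0, if_pos c1, if_pos ⟨l1, l2, (h z z' l1 l2).2 ⟨1, c1⟩⟩, zero_add]
      · rw [if_neg c0, if_neg c1, if_neg, add_zero]
        rintro ⟨l1, l2, c⟩
        obtain ⟨i, hi⟩ := (h z z' l1 l2).1 c
        fin_cases i
        · exact c0 hi
        · exact c1 hi
  have hs' : (∑ i, if x = r i ∧ x' = y i then (1 : ℤ) else 0) =
      if lay x' = j ∧ j ≤ lay x ∧ K.Adj x' x then 1 else 0 := by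
    rw [← hs x' x]
    exact Finset.sum_congr rfl fun i _ => if_congr and_comm rfl rfl
  rw [hs, hs']
  simp only [up, am, Matrix.of_apply, Matrix.zero_apply, zero_add]
  by_cases c : K.Adj x x'
  · have c' := c.symm
    have hb : ¬ (lay x = j ∧ lay x' = j) := by
      rintro ⟨l1, l2⟩
      obtain ⟨i, -, hi⟩ := (h x x' l1 l2.ge).1 c
      have := hr i
      rw [← hi] at this
      omega
    simp only [c, c', if_true, and_true]
    split_ifs <;> omega
  · have c' : ¬ K.Adj x' x := fun e => c e.symm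
    simp [c, c']

theorem glue (hG : StGlue) (hB : StBasic) (lay : V → ℕ) (K : SimpleGraph V) (j : ℕ)
    (y r : Fin 2 → V) (hy : ∀ i, lay (y i) = j) (hr : ∀ i, lay (r i) = j + 1) (hne : r 0 ≠ r 1)
    (h : ∀ x x', lay x = j → j ≤ lay x' → (K.Adj x x' ↔ ∃ i, x = y i ∧ x' = r i)) :
    dd (up lay j (am K)) = dd (up lay (j + 1) (am K)) * (1 - ((PowerSeries.X : PS) ^ 2) •
      ((Matrix.of fun i k => if y i = y k then 1 else 0) *
        (Matrix.of fun i k => res (up lay (j + 1) (am K)) (r i) (r k)) :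
          Matrix (Fin 2) (Fin 2) PS)).det ∧
    (Matrix.of fun i k => res (up lay j (am K)) (y i) (y k) : Matrix (Fin 2) (Fin 2) PS) =
      (Matrix.of fun i k => if y i = y k then 1 else 0) + ((PowerSeries.X : PS) ^ 2) •
        ((Matrix.of fun i k => if y i = y k then 1 else 0) *
          (Matrix.of fun i k => res (up lay (j + 1) (am K)) (r i) (r k)) *
          (Matrix.of fun i k => res (up lay j (am K)) (y i) (y k))) := by
  have g := hG V (Fin 2) (up lay j (am K)) 0 (up lay (j + 1) (am K)) y r (fun x => lay x ≤ j)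
    (fun x x' e => absurd rfl e)
    (fun x x' e => by
      simp only [up, Matrix.of_apply, ne_eq, ite_eq_right_iff, not_forall] at e
      obtain ⟨e, -⟩ := e
      omega)
    (fun i => (hy i).le) (fun i => by rw [hr]; omega) (split lay K j y r hy hr hne h)
  obtain ⟨b1, b2, -⟩ := hB V
  simp only [b1, b2, one_mul] at g
  exact g

/-- The data of level `j`. -/
noncomputable def dA (lay : V → ℕ) (K : SimpleGraph V) (j : ℕ) : PS := dd (up lay j (am K))

/-- The resolvent of level `j`. -/
noncomputable def gA (lay : V → ℕ) (K : SimpleGraph V) (j : ℕ) (x y : V) : PS :=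
  res (up lay j (am K)) x y

/-- Sum of the entries. -/
noncomputable def oB (lay : V → ℕ) (K : SimpleGraph V) (a b : ℕ → V) (j : ℕ) : PS :=
  dA lay K j * gA lay K j (a j) (a j) + dA lay K j * gA lay K j (a j) (b j) +
    dA lay K j * gA lay K j (b j) (a j) + dA lay K j * gA lay K j (b j) (b j)

/-- Signed sum of the entries. -/
noncomputable def oC (lay : V → ℕ) (K : SimpleGraph V) (a b : ℕ → V) (j : ℕ) : PS :=
  dA lay K j * gA lay K j (a j) (a j) - dA lay K j * gA lay K j (a j) (b j) -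
    dA lay K j * gA lay K j (b j) (a j) + dA lay K j * gA lay K j (b j) (b j)

/-- The determinant. -/
noncomputable def oE (lay : V → ℕ) (K : SimpleGraph V) (a b : ℕ → V) (j : ℕ) : PS :=
  (dA lay K j + dA lay K j) * (gA lay K j (a j) (a j) * gA lay K j (b j) (b j) -
    gA lay K j (a j) (b j) * gA lay K j (b j) (a j))

variable {lay : V → ℕ} {G K : SimpleGraph V} {k1 k0 : ℕ} {ρ : V} {a b : ℕ → V}

theorem step (hG : StGlue) (hB : StBasic) (hP : Paths lay G k1 k0 ρ a b) (hK : Ag1 lay G K k0)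
    (j : ℕ) (h1 : k1 < j) (h2 : j < k0) :
    dA lay K j + dA lay K j = (dA lay K (j + 1) + dA lay K (j + 1)) -
      PowerSeries.X ^ 2 * (oB lay K a b (j + 1) + oC lay K a b (j + 1)) +
        (PowerSeries.X ^ 2) ^ 2 * oE lay K a b (j + 1) ∧
    oB lay K a b j = (dA lay K (j + 1) + dA lay K (j + 1)) -
      PowerSeries.X ^ 2 * oC lay K a b (j + 1) ∧
    oC lay K a b j = (dA lay K (j + 1) + dA lay K (j + 1)) -
      PowerSeries.X ^ 2 * oB lay K a b (j + 1) ∧
    oE lay K a b j = dA lay K (j + 1) + dA lay K (j + 1) := by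
  have la := hP.a_lay j h1 (by omega)
  have lb := hP.b_lay j h1 (by omega)
  have la' := hP.a_lay (j + 1) (by omega) (by omega)
  have lb' := hP.b_lay (j + 1) (by omega) (by omega)
  have n0 := hP.ne j h1 (by omega)
  have n1 := hP.ne (j + 1) (by omega) (by omega)
  obtain ⟨g1, g2⟩ := glue hG hB lay K j ![a j, b j] ![a (j + 1), b (j + 1)]
    (fun i => by fin_cases i <;> assumption) (fun i => by fin_cases i <;> assumption) n1
    (fun x x' l1 l2 => by
      rw [hK x x' (by omega), Fin.exists_fin_two]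
      simp only [Matrix.cons_val_zero, Matrix.cons_val_one]
      constructor
      · intro c
        have l3 := hP.layered x x' c
        have u1 := hP.uniq x (by omega) (by omega)
        have u2 := hP.uniq x' (by omega) (by omega)
        rw [l1] at u1
        rcases (by omega : lay x' = j ∨ lay x' = j + 1) with e | e <;> rw [e] at u2 <;>
          rcases u1 with rfl | rfl <;> rcases u2 with rfl | rfl
        · exact absurd c (G.irrefl)
        · exact absurd c (hP.bare j h1 h2.le)
        · exact absurd c.symm (hP.bare j h1 h2.le)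
        · exact absurd c (G.irrefl)
        · exact Or.inl ⟨rfl, rfl⟩
        · exact absurd c (hP.ab j h1 h2.le)
        · exact absurd c (hP.ba j h1 h2.le)
        · exact Or.inr ⟨rfl, rfl⟩
      · rintro (⟨rfl, rfl⟩ | ⟨rfl, rfl⟩)
        · exact hP.aa j h1 h2.le
        · exact hP.bb j h1 h2.le)
  have hY : (Matrix.of fun i k => if (![a j, b j] : Fin 2 → V) i = ![a j, b j] k then 1 else 0 :
      Matrix (Fin 2) (Fin 2) PS) = 1 := by
    ext1 i k
    fin_cases i <;> fin_cases k <;> simp [n0, n0.symm]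
  rw [hY, Matrix.one_mul] at g1 g2
  have e00 := congrFun (congrFun g2 0) 0
  have e01 := congrFun (congrFun g2 0) 1
  have e10 := congrFun (congrFun g2 1) 0
  have e11 := congrFun (congrFun g2 1) 1
  rw [Matrix.det_fin_two] at g1
  simp only [Matrix.add_apply, Matrix.sub_apply, Matrix.smul_apply, Matrix.mul_apply,
    Fin.sum_univ_two, Matrix.of_apply, Matrix.cons_val_zero, Matrix.cons_val_one, smul_eq_mul,
    Matrix.one_apply_eq, Matrix.one_apply_ne (by decide : (0 : Fin 2) ≠ 1),
    Matrix.one_apply_ne (by decide : (1 : Fin 2) ≠ 0), zero_add, zero_sub, neg_mul_neg]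
    at g1 e00 e01 e10 e11
  exact alg _ _ _ _ _ _ _ _ _ _ _ g1 e00 e01 e10 e11

theorem root (hG : StGlue) (hB : StBasic) (hP : Paths lay G k1 k0 ρ a b) (hK : Ag1 lay G K k0) :
    dA lay K k1 = dA lay K (k1 + 1) - PowerSeries.X ^ 2 * oB lay K a b (k1 + 1) ∧
    dA lay K k1 * gA lay K k1 ρ ρ = dA lay K (k1 + 1) := by
  have lt := hP.lt
  have la' := hP.a_lay (k1 + 1) (by omega) (by omega)
  have lb' := hP.b_lay (k1 + 1) (by omega) (by omega)
  have n1 := hP.ne (k1 + 1) (by omega) (by omega)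
  obtain ⟨g1, g2⟩ := glue hG hB lay K k1 (fun _ => ρ) ![a (k1 + 1), b (k1 + 1)]
    (fun i => hP.rho_lay) (fun i => by fin_cases i <;> assumption) n1
    (fun x x' l1 l2 => by
      rw [hK x x' (by omega), Fin.exists_fin_two]
      simp only [Matrix.cons_val_zero, Matrix.cons_val_one]
      have ex := hP.rho_uniq x l1
      subst ex
      constructor
      · intro c
        have l3 := hP.layered _ x' c
        rcases (by omega : lay x' = k1 ∨ lay x' = k1 + 1) with e | e
        · exact absurd (hP.rho_uniq x' e).symm c.ne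
        · have u2 := hP.uniq x' (by omega) (by omega)
          rw [e] at u2
          rcases u2 with u | u
          · exact Or.inl ⟨rfl, u⟩
          · exact Or.inr ⟨rfl, u⟩
      · rintro (⟨-, rfl⟩ | ⟨-, rfl⟩)
        · exact hP.rho_a
        · exact hP.rho_b)
  have e00 := congrFun (congrFun g2 0) 0
  rw [Matrix.det_fin_two] at g1
  simp only [Matrix.add_apply, Matrix.sub_apply, Matrix.smul_apply, Matrix.mul_apply,
    Fin.sum_univ_two, Matrix.of_apply, Matrix.cons_val_zero, Matrix.cons_val_one, smul_eq_mul,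
    Matrix.one_apply_eq, Matrix.one_apply_ne (by decide : (0 : Fin 2) ≠ 1),
    Matrix.one_apply_ne (by decide : (1 : Fin 2) ≠ 0), zero_sub, neg_mul_neg, if_true, one_mul]
    at g1 e00
  simp only [dA, gA, oB]
  constructor
  · rw [g1]; ring
  · rw [g1]
    linear_combination dd (up lay (k1 + 1) (am K)) * e00

omit [Fintype V] [DecidableEq V] in
theorem up_symm (lay : V → ℕ) (K : SimpleGraph V) (j : ℕ) : (up lay j (am K)).IsSymm := by
  classical
  refine Matrix.IsSymm.ext fun x y => ?_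
  simp only [up, am, Matrix.of_apply, K.adj_comm y x, and_comm]

theorem pds (hB : StBasic) (lay : V → ℕ) (K : SimpleGraph V) (i j : ℕ) (h : i ≤ j) :
    PD (dA lay K j) (Uk lay i).card ∧
      ∀ x y, PD (dA lay K j * gA lay K j x y) (Uk lay i).card :=
  (hB V).2.2.2.2.2 _ _ fun x y e => by
    simp only [up, Matrix.of_apply, ne_eq, ite_eq_right_iff, not_forall] at e
    obtain ⟨e, -⟩ := e
    simp only [Uk, mem_filter, mem_univ, true_and]
    omega

theorem fin {R : Type} [CommRing R] [IsDomain R] (d p q w p' q' w' : R) (t : (2 : R) ≠ 0)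
    (hd : d ≠ 0)
    (hB : d * p + d * q + d * q + d * w = d * p' + d * q' + d * q' + d * w')
    (hC : d * p - d * q - d * q + d * w = d * p' - d * q' - d * q' + d * w')
    (hE : (d + d) * (p * w - q * q) = (d + d) * (p' * w' - q' * q')) :
    q = q' ∧ ((p = p' ∧ w = w') ∨ (w = p' ∧ p = w')) := by
  have h2 : (2 : R) * d ≠ 0 := mul_ne_zero t hd
  have h4 : (2 : R) * (2 * d) ≠ 0 := mul_ne_zero t h2
  have e1 : q = q' := mul_left_cancel₀ h4 (by linear_combination hB - hC)
  have e2 : p + w = p' + w' := mul_left_cancel₀ h2 (by linear_combination hB + hC)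
  subst e1
  have e3 : p * w = p' * w' := mul_left_cancel₀ h2 (by linear_combination hE)
  have e4 : (p - p') * (p - w') = 0 := by linear_combination p * e2 - e3
  refine ⟨rfl, ?_⟩
  rcases mul_eq_zero.1 e4 with e | e
  · exact Or.inl ⟨by linear_combination e, by linear_combination e2 - e⟩
  · exact Or.inr ⟨by linear_combination e2 - e, by linear_combination e⟩

theorem coe_eq {A B : Matrix V V ℤ} {x y x' y' : V} (h : res A x y = res B x' y') (j : ℕ) :
    (A ^ j) x y = (B ^ j) x' y' := by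
  have := congrArg (PowerSeries.coeff j) h
  simpa only [res, PowerSeries.coeff_mk] using this

end Two

open Two in
theorem pTwo (hG : StGlue) (hB : StBasic) (hS : StSep) : StTwo := by
  intro V _ _ lay G H k1 k0 ρ a b hP hH hd hM hc
  have hGG : Ag1 lay G G k0 := fun _ _ _ => Iff.rfl
  obtain ⟨k, rfl⟩ : ∃ k, k0 = k + 1 := ⟨k0 - 1, by omega⟩
  have hd' : dA lay H k1 = dA lay G k1 := hd
  have hg : gA lay H k1 ρ ρ = gA lay G k1 ρ ρ := by
    ext j
    simp only [gA, res, PowerSeries.coeff_mk]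
    exact hM j
  obtain ⟨r1, r2⟩ := root hG hB hP hH
  obtain ⟨r3, r4⟩ := root hG hB hP hGG
  have d1 : dA lay H (k1 + 1) = dA lay G (k1 + 1) := by rw [← r2, ← r4, hd', hg]
  have b1 : oB lay H a b (k1 + 1) = oB lay G a b (k1 + 1) :=
    mul_left_cancel₀ x2_ne (by linear_combination r1 - r3 - hd' + d1)
  have hcard : (Uk lay k).card ≤ (Uk lay (k + 1)).card + 2 := by
    have : Uk lay k ⊆ insert (a k) (insert (b k) (Uk lay (k + 1))) := by
      intro x hx
      simp only [Uk, mem_filter, mem_univ, true_and, mem_insert] at hx ⊢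
      by_cases e : lay x = k
      · have u := hP.uniq x (by omega) (by omega)
        rw [e] at u
        rcases u with u | u
        · exact Or.inl u
        · exact Or.inr (Or.inl u)
      · exact Or.inr (Or.inr (by omega))
    have c1 := card_le_card this
    have c2 := card_insert_le (a k) (insert (b k) (Uk lay (k + 1)))
    have c3 := card_insert_le (b k) (Uk lay (k + 1))
    omega
  obtain ⟨sH1, sH2, sH3, sH4⟩ := step hG hB hP hH k (by omega) (by omega)
  obtain ⟨sG1, sG2, sG3, sG4⟩ := step hG hB hP hGG k (by omega) (by omega)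
  have pB : ∀ K : SimpleGraph V, PD (oB lay K a b k) (Uk lay k).card := fun K =>
    have p := (pds hB lay K k k le_rfl).2
    pd_add (pd_add (pd_add (p _ _) (p _ _)) (p _ _)) (p _ _)
  have pC : ∀ K : SimpleGraph V, PD (oC lay K a b k) (Uk lay k).card := fun K =>
    have p := (pds hB lay K k k le_rfl).2
    pd_add (pd_sub (pd_sub (p _ _) (p _ _)) (p _ _)) (p _ _)
  have pA : ∀ (K : SimpleGraph V) (j : ℕ), k ≤ j →
      PD (dA lay K j + dA lay K j) (Uk lay k).card := fun K j h =>
    pd_add (pds hB lay K k j h).1 (pds hB lay K k j h).1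
  have hn : k - (k - (k1 + 1)) = k1 + 1 := by omega
  obtain ⟨z1, z2, z3, z4⟩ := core hS
    (fun m => (dA lay H (k - m) + dA lay H (k - m)) - (dA lay G (k - m) + dA lay G (k - m)))
    (fun m => oB lay H a b (k - m) - oB lay G a b (k - m))
    (fun m => oC lay H a b (k - m) - oC lay G a b (k - m))
    (fun m => oE lay H a b (k - m) - oE lay G a b (k - m)) (k - (k1 + 1)) (Uk lay k).card
    (fun m hm => by
      have e : k - m = k - (m + 1) + 1 := by omega
      obtain ⟨t1, t2, t3, t4⟩ := step hG hB hP hH (k - (m + 1)) (by omega) (by omega)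
      obtain ⟨u1, u2, u3, u4⟩ := step hG hB hP hGG (k - (m + 1)) (by omega) (by omega)
      rw [e]
      exact ⟨by linear_combination t1 - u1, by linear_combination t2 - u2,
        by linear_combination t3 - u3, by linear_combination t4 - u4⟩)
    (pd_sub (pA H k le_rfl) (pA G k le_rfl)) (pd_sub (pB H) (pB G)) (pd_sub (pC H) (pC G))
    (by
      show PD (oE lay H a b k - oE lay G a b k) _
      rw [sH4, sG4]
      exact pd_sub (pA H _ (by omega)) (pA G _ (by omega)))
    (by rw [hn, d1, sub_self]) (by rw [hn, b1, sub_self]) (by omega)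
  simp only [Nat.sub_zero] at z1 z2 z3 z4
  have y0 : dA lay H (k + 1) = dA lay G (k + 1) :=
    mul_left_cancel₀ two_ne (by linear_combination z4 - sH4 + sG4)
  have yC : oC lay H a b (k + 1) = oC lay G a b (k + 1) :=
    mul_left_cancel₀ x2_ne (by linear_combination sH2 - sG2 - z2 + 2 * y0)
  have yB : oB lay H a b (k + 1) = oB lay G a b (k + 1) :=
    mul_left_cancel₀ x2_ne (by linear_combination sH3 - sG3 - z3 + 2 * y0)
  have yE : oE lay H a b (k + 1) = oE lay G a b (k + 1) :=
    mul_left_cancel₀ (pow_ne_zero 2 x2_ne) (by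
      linear_combination z1 - sH1 + sG1 - 2 * y0 + PowerSeries.X ^ 2 * (yB + yC))
  have sy : ∀ K : SimpleGraph V, gA lay K (k + 1) (b (k + 1)) (a (k + 1)) =
      gA lay K (k + 1) (a (k + 1)) (b (k + 1)) := fun K =>
    (hB V).2.2.2.2.1 _ (up_symm lay K _) _ _
  simp only [oB, oC, oE, y0, sy] at yB yC yE
  obtain ⟨q, h | h⟩ := Two.fin _ _ _ _ _ _ _ two_ne ((hB V).2.2.1 _) yB yC yE
  · exact Or.inl fun j => ⟨coe_eq h.1 j, coe_eq h.2 j, coe_eq q j⟩
  · exact Or.inr fun j => ⟨coe_eq h.1 j, coe_eq h.2 j, coe_eq ((sy H).trans q) j⟩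

end Pool.Agent.P.MP_f57657_co.SX
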