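import Pool.Agent.P.MP_f57657_co.SX.Defs

/-! Weights of the walks on the top layer, and the ages of the old wires. -/

open Matrix Finset

namespace Pool.Agent.P.MP_f57657_co.SX

namespace Wt

/-- The Fibonacci sequence with given first terms. -/
def fv (η : ℤ × ℤ) : ℕ → ℤ
  | 0 => η.2
  | 1 => η.1
  | n + 2 => fv η (n + 1) + fv η n

theorem fv_surj (n : ℕ) : ∀ y : ℤ × ℤ, ∃ η, fv η (n + 1) = y.1 ∧ fv η n = y.2 := by
  induction n with
  | zero => exact fun y => ⟨y, rfl, rfl⟩
  | succ n ih =>
    intro y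
    obtain ⟨η, h1, h2⟩ := ih (y.2, y.1 - y.2)
    refine ⟨η, ?_, h1⟩
    rw [fv, h1, h2]
    ring

theorem fv_back (η : ℤ × ℤ) (m t : ℕ) : fv η m =
    (-1) ^ t * ((Nat.fib (t + 1) : ℤ) * fv η (m + t) - (Nat.fib t : ℤ) * fv η (m + t + 1)) := by
  induction t with
  | zero => simp
  | succ t ih =>
    rw [ih, show m + (t + 1) + 1 = m + t + 2 from rfl, show m + (t + 1) = m + t + 1 from rfl, fv,
      Nat.fib_add_two]
    push_cast
    ring

variable {P : Par}

/-- The weight of wire `w` on layer `k`. -/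
def val (P : Par) (η : ℤ × ℤ) (k w : ℕ) : ℤ :=
  if w = 0 then fv η (P.tau k + 1) else if w = 1 then fv η (P.tau k) else fv η (2 * P.s (w - 2))

theorem valid0 (hP : P.Shape) {k : ℕ} (h0 : P.k0 ≤ k) (h : k < P.L) : P.valid k 0 := by
  have := hP.lt
  exact ⟨h, Or.inr ⟨by omega, by omega, by simp [Par.birth]; omega⟩⟩

theorem valid1 (hP : P.Shape) {k : ℕ} (h0 : P.k0 ≤ k) (h : k < P.L) : P.valid k 1 := by
  have := hP.lt
  exact ⟨h, Or.inr ⟨by omega, by omega, by simp [Par.birth]; omega⟩⟩

theorem birth2 {w : ℕ} (h : 2 ≤ w) : P.birth w = P.k0 + 4 + 3 * P.s (w - 2) := by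
  unfold Par.birth
  rw [if_neg (by omega), if_neg (by omega)]

theorem old (hP : P.Shape) {x : P.VV} (h0 : P.k0 ≤ P.lay x) :
    P.lay x < P.L ∧ P.wire x < 2 * P.h + 2 ∧ P.birth (P.wire x) ≤ P.lay x := by
  have := hP.lt
  obtain ⟨a, b | b⟩ := P.valid_vx x
  · omega
  · exact ⟨a, b.2.1, b.2.2⟩

theorem eq_vx {x : P.VV} {k w : ℕ} (h1 : P.lay x = k) (h2 : P.wire x = w) : x = P.vx k w := by
  rw [← h1, ← h2, P.vx_eq]

theorem ne_vx {k w w' : ℕ} (h : P.valid k w) (h' : P.valid k w') (e : w ≠ w') :
    P.vx k w ≠ P.vx k w' := fun c => e (by rw [← P.wire_vx h, c, P.wire_vx h'])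

theorem tau_fib (hP : P.Shape) {k : ℕ} (h : P.fibs k) : P.tau (k + 1) = P.tau k + 1 := by
  have := hP.m0
  obtain ⟨a, b, c⟩ := h
  unfold Par.tau
  split_ifs <;> omega

theorem tau_not (hP : P.Shape) {k : ℕ} (h : ¬ P.fibs k) : P.tau (k + 1) = P.tau k := by
  have := hP.m0
  unfold Par.fibs at h
  unfold Par.tau
  split_ifs <;> omega

theorem tau_at {k s : ℕ} (hs : s < P.bg) :
    (k = P.k0 + 3 + 3 * s → P.tau k = 2 * s) ∧ (k = P.k0 + 4 + 3 * s → P.tau k = 2 * s + 1) ∧
      (P.k0 + 5 + 3 * s ≤ k → 2 * s + 2 ≤ P.tau k) := by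
  unfold Par.tau
  split_ifs <;> omega

open Classical in
theorem step (act : ℕ → ℕ → ℕ → Prop) (a b : P.VV) (η : ℤ × ℤ) (j : ℕ) {x : P.VV}
    (hx : P.k0 ≤ P.lay x) : wv P.lay (P.gr act) P.k0 a b η (j + 1) x =
      ∑ y, if P.k0 ≤ P.lay y ∧ (P.gr act).Adj x y then wv P.lay (P.gr act) P.k0 a b η j y
        else 0 := by
  unfold wv
  rw [pow_succ', ← mulVec_mulVec]
  refine sum_congr rfl fun y _ => ?_
  by_cases h1 : P.k0 ≤ P.lay y <;> by_cases h2 : (P.gr act).Adj x y <;>
    simp [up, am, hx, h1, h2]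

theorem top (hP : P.Shape) (act : ℕ → ℕ → ℕ → Prop) (η : ℤ × ℤ) (j : ℕ) : P.k0 + j < P.L →
    ∀ x, (P.k0 + j < P.lay x →
      wv P.lay (P.gr act) P.k0 (P.vx P.k0 0) (P.vx P.k0 1) η j x = 0) ∧
      (P.lay x = P.k0 + j → wv P.lay (P.gr act) P.k0 (P.vx P.k0 0) (P.vx P.k0 1) η j x =
        val P η (P.k0 + j) (P.wire x)) := by
  have hlt := hP.lt
  induction j with
  | zero =>
    intro hL x
    have v0 := valid0 hP le_rfl hL
    have v1 := valid1 hP le_rfl hL
    have t0 : P.tau P.k0 = 0 := by simp [Par.tau]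
    simp only [wv, pow_zero, one_mulVec, add_zero]
    constructor
    · intro h
      rw [if_neg, if_neg, add_zero]
      · rintro rfl
        rw [P.lay_vx v1] at h
        omega
      · rintro rfl
        rw [P.lay_vx v0] at h
        omega
    · intro h
      have ho := old hP h.ge
      by_cases w0 : P.wire x = 0
      · rw [eq_vx h w0, if_pos rfl, if_neg (ne_vx v0 v1 (by omega)), P.wire_vx v0]
        simp [val, t0, fv]
      · by_cases w1 : P.wire x = 1
        · rw [eq_vx h w1, if_pos rfl, if_neg (ne_vx v1 v0 (by omega)), P.wire_vx v1]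
          simp [val, t0, fv]
        · rw [birth2 (by omega)] at ho
          omega
  | succ j ih =>
    intro hL x
    have ih := ih (by omega)
    have v0 := valid0 hP (k := P.k0 + j) (by omega) (by omega)
    have v1 := valid1 hP (k := P.k0 + j) (by omega) (by omega)
    have l0 := P.lay_vx v0
    have l1 := P.lay_vx v1
    have r0 := P.wire_vx v0
    have r1 := P.wire_vx v1
    constructor
    · intro h
      rw [step act _ _ η j (by omega)]
      refine sum_eq_zero fun y _ => ?_
      split_ifs with c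
      · refine (ih y).1 ?_
        rcases (P.gr_adj act x y).1 c.2 with d | d | d <;> omega
      · rfl
    · intro h
      have ho := old hP (x := x) (by omega)
      have key : ∀ y, (P.lay y = P.k0 + j → ¬ P.down (P.k0 + j) (P.wire x) (P.wire y)) →
          (open Classical in if P.k0 ≤ P.lay y ∧ (P.gr act).Adj x y then
            wv P.lay (P.gr act) P.k0 (P.vx P.k0 0) (P.vx P.k0 1) η j y else 0) = 0 := by
        intro y hy
        split_ifs with c
        · refine (ih y).1 ?_
          rcases (P.gr_adj act x y).1 c.2 with d | d | d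
          · omega
          · omega
          · have e : P.lay y = P.k0 + j := by omega
            exact absurd (e ▸ d.2) (hy e)
        · rfl
      have pos : ∀ w, P.valid (P.k0 + j) w → P.down (P.k0 + j) (P.wire x) w →
          (open Classical in if P.k0 ≤ P.lay (P.vx (P.k0 + j) w) ∧
              (P.gr act).Adj x (P.vx (P.k0 + j) w) then
            wv P.lay (P.gr act) P.k0 (P.vx P.k0 0) (P.vx P.k0 1) η j (P.vx (P.k0 + j) w)
            else 0) = val P η (P.k0 + j) w := by
        intro w hw hd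
        have l := P.lay_vx hw
        have r := P.wire_vx hw
        rw [if_pos, (ih _).2 l, r]
        refine ⟨by omega, (P.gr_adj act _ _).2 (Or.inr (Or.inr ⟨by omega, ?_⟩))⟩
        rw [l, r]
        exact hd
      have one : ∀ w, P.valid (P.k0 + j) w → P.down (P.k0 + j) (P.wire x) w →
          (∀ w', P.valid (P.k0 + j) w' → P.down (P.k0 + j) (P.wire x) w' → w' = w) →
          wv P.lay (P.gr act) P.k0 (P.vx P.k0 0) (P.vx P.k0 1) η (j + 1) x =
            val P η (P.k0 + j) w := by
        intro w hw hd hu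
        rw [step act _ _ η j (by omega), Fintype.sum_eq_single (P.vx (P.k0 + j) w), pos w hw hd]
        exact fun y hy => key y fun e d => hy (eq_vx e (hu _ (e ▸ P.valid_vx y) d))
      by_cases hf : P.fibs (P.k0 + j)
      · have ht : P.tau (P.k0 + (j + 1)) = P.tau (P.k0 + j) + 1 := tau_fib hP hf
        by_cases w0 : P.wire x = 0
        · rw [step act _ _ η j (by omega),
            Fintype.sum_eq_add (P.vx (P.k0 + j) 0) (P.vx (P.k0 + j) 1) (ne_vx v0 v1 (by omega)),
            pos 0 v0 (Or.inr (Or.inr (Or.inl ⟨hf, Or.inl ⟨w0, by omega⟩⟩))),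
            pos 1 v1 (Or.inr (Or.inr (Or.inl ⟨hf, Or.inl ⟨w0, by omega⟩⟩)))]
          · simp [val, w0, ht, fv]
          · refine fun y hy => key y fun e d => ?_
            have a0 : P.wire y ≠ 0 := fun c => hy.1 (eq_vx e c)
            have a1 : P.wire y ≠ 1 := fun c => hy.2 (eq_vx e c)
            rcases d with d | d | ⟨-, d⟩ | ⟨d, -⟩
            · omega
            · omega
            · omega
            · exact d hf
        · by_cases w1 : P.wire x = 1
          · rw [one 0 v0 (Or.inr (Or.inr (Or.inl ⟨hf, Or.inr (Or.inl ⟨w1, rfl⟩)⟩)))]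
            · simp [val, w1, ht]
            · rintro w' - (d | d | ⟨-, d⟩ | ⟨d, -⟩)
              · omega
              · omega
              · omega
              · exact absurd hf d
          · have hb := birth2 (P := P) (w := P.wire x) (by omega)
            have hs := hP.slt (P.wire x - 2) (by omega)
            by_cases c : P.birth (P.wire x) = P.k0 + j + 1
            · rw [one 1 v1 (Or.inr (Or.inr (Or.inl
                ⟨hf, Or.inr (Or.inr (Or.inr ⟨by omega, c, rfl⟩))⟩)))]
              · simp [val, w0, w1, (tau_at (k := P.k0 + j) hs).1 (by omega)]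
              · rintro w' hw' (d | d | ⟨-, d⟩ | ⟨d, -⟩)
                · omega
                · omega
                · rcases d with d | d | d | d
                  · omega
                  · omega
                  · obtain ⟨-, q | q⟩ := hw'
                    · omega
                    · rw [← d.2] at q
                      omega
                  · omega
                · exact absurd hf d
            · rw [one (P.wire x) ⟨by omega, Or.inr ⟨by omega, by omega, by omega⟩⟩
                (Or.inr (Or.inr (Or.inl ⟨hf, Or.inr (Or.inr (Or.inl ⟨by omega, rfl⟩))⟩)))]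
              · simp [val, w0, w1]
              · rintro w' - (d | d | ⟨-, d⟩ | ⟨d, -⟩)
                · omega
                · omega
                · omega
                · exact absurd hf d
      · have ht : P.tau (P.k0 + (j + 1)) = P.tau (P.k0 + j) := tau_not hP hf
        have hv : P.valid (P.k0 + j) (P.wire x) := by
          by_cases w0 : P.wire x = 0
          · exact w0 ▸ v0
          · by_cases w1 : P.wire x = 1
            · exact w1 ▸ v1
            · have hb := birth2 (P := P) (w := P.wire x) (by omega)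
              have hs := hP.slt (P.wire x - 2) (by omega)
              have := hP.m0
              unfold Par.fibs at hf
              exact ⟨by omega, Or.inr ⟨by omega, by omega, by omega⟩⟩
        rw [one _ hv (Or.inr (Or.inr (Or.inr ⟨hf, rfl⟩)))]
        · simp [val, ht]
        · rintro w' - (d | d | ⟨d, -⟩ | ⟨-, d⟩)
          · omega
          · omega
          · exact absurd d hf
          · omega

theorem two (hP : P.Shape) (act : ℕ → ℕ → ℕ → Prop) (η : ℤ × ℤ) (j : ℕ) (hL : P.k0 + j < P.L)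
    {x y1 y2 : P.VV} (hx : P.k0 ≤ P.lay x) (h : y1 ≠ y2) (a1 : (P.gr act).Adj x y1)
    (a2 : (P.gr act).Adj x y2) (l1 : P.k0 ≤ P.lay y1) (l2 : P.k0 ≤ P.lay y2)
    (hu : ∀ y, (P.gr act).Adj x y → P.lay y ≤ P.k0 + j → y = y1 ∨ y = y2) :
    wv P.lay (P.gr act) P.k0 (P.vx P.k0 0) (P.vx P.k0 1) η (j + 1) x =
      wv P.lay (P.gr act) P.k0 (P.vx P.k0 0) (P.vx P.k0 1) η j y1 +
        wv P.lay (P.gr act) P.k0 (P.vx P.k0 0) (P.vx P.k0 1) η j y2 := by
  rw [step act _ _ η j hx, Fintype.sum_eq_add y1 y2 h, if_pos ⟨l1, a1⟩, if_pos ⟨l2, a2⟩]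
  intro y hy
  split_ifs with c
  · refine (top hP act η j hL y).1 (not_le.1 fun d => ?_)
    rcases hu y c.2 d with e | e
    exacts [hy.1 e, hy.2 e]
  · rfl

theorem age_add (hP : P.Shape) {x : P.VV} (h0 : P.k0 ≤ P.lay x) (h2 : 2 ≤ P.wire x) :
    2 * P.s (P.wire x - 2) + P.age x = P.tau (P.lay x) ∧ 1 ≤ P.age x ∧
      (P.birth (P.wire x) = P.lay x → P.age x = 1) ∧
      (P.birth (P.wire x) ≠ P.lay x → 2 ≤ P.age x) := by
  have ho := old hP h0
  have hb := birth2 (P := P) h2
  have ht := tau_at (k := P.lay x) (hP.slt (P.wire x - 2) (by omega))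
  unfold Par.age
  omega

theorem two_le {x : P.VV} {k : ℕ} (h : P.lay x = k) (h0 : x ≠ P.vx k 0) (h1 : x ≠ P.vx k 1) :
    2 ≤ P.wire x := by
  have a0 : P.wire x ≠ 0 := fun c => h0 (eq_vx h c)
  have a1 : P.wire x ≠ 1 := fun c => h1 (eq_vx h c)
  omega

end Wt

open Wt

theorem pWt : StWt := by
  intro P act hP j hL
  have hlt := hP.lt
  have v0 := valid0 hP (k := P.k0 + j) (by omega) hL
  have v1 := valid1 hP (k := P.k0 + j) (by omega) hL
  have l0 := P.lay_vx v0
  have l1 := P.lay_vx v1
  have r0 := P.wire_vx v0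
  have r1 := P.wire_vx v1
  constructor
  · intro y
    obtain ⟨η, h1, h2⟩ := fv_surj (P.tau (P.k0 + j)) y
    refine ⟨η, fun x hx => ?_⟩
    rw [(top hP act η j hL x).2 hx]
    unfold cw
    split_ifs with c0 c1
    · rw [c0, r0, ← h1]
      simp [Wt.val]
    · rw [c1, r1, ← h2]
      simp [Wt.val]
    · have w2 := two_le hx c0 c1
      have ha := (age_add hP (x := x) (by omega) w2).1
      rw [Wt.val, if_neg (by omega), if_neg (by omega), fv_back η _ (P.age x), ha, hx, h1, h2]
  · intro η w w2 wh hb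
    have hb' := birth2 (P := P) w2
    have hs := hP.slt (w - 2) (by omega)
    have hm := hP.m0
    have hLL : P.L = P.k0 + 8 + 3 * P.bg + 3 * P.nb := rfl
    obtain ⟨k, hk⟩ : ∃ k, P.k0 + j = k + 1 := ⟨P.k0 + j - 1, by omega⟩
    have vw : P.valid (P.k0 + j) w := ⟨hL, Or.inr ⟨by omega, wh, hb.le⟩⟩
    have lw := P.lay_vx vw
    have rw' := P.wire_vx vw
    have u0 := valid0 hP (k := k) (by omega) (by omega)
    have u1 := valid1 hP (k := k) (by omega) (by omega)
    have m0 := P.lay_vx u0
    have m1 := P.lay_vx u1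
    have n0 := P.wire_vx u0
    have n1 := P.wire_vx u1
    have hf : P.fibs k := ⟨by omega, by omega, by omega⟩
    have up : ∀ a b, P.valid (P.k0 + j) a → P.valid k b → P.down k a b →
        (P.gr act).Adj (P.vx (P.k0 + j) a) (P.vx k b) := fun a b ha hb hd => by
      refine (P.gr_adj act _ _).2 (Or.inr (Or.inr ?_))
      rw [P.lay_vx ha, P.lay_vx hb, P.wire_vx ha, P.wire_vx hb]
      exact ⟨hk, hd⟩
    have adj : (P.gr act).Adj (P.vx (P.k0 + j) 1) (P.vx (P.k0 + j) w) := by
      refine (P.gr_adj act _ _).2 (Or.inl ?_)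
      rw [l1, lw, r1, rw']
      exact ⟨rfl, by omega, Or.inr (Or.inr (Or.inl ⟨rfl, w2, hb⟩))⟩
    have nb : ∀ a y, P.valid (P.k0 + j) a → (P.gr act).Adj (P.vx (P.k0 + j) a) y →
        P.lay y ≤ P.k0 + j →
        (P.lay y = P.k0 + j ∧ ((a = 1 ∧ P.wire y = w) ∨ (2 ≤ a ∧ P.wire y = 1))) ∨
        (P.lay y = k ∧ ((a = 0 ∧ P.wire y ≤ 1) ∨ (a = 1 ∧ P.wire y = 0) ∨ (2 ≤ a ∧ a = P.wire y) ∨
          (2 ≤ a ∧ P.wire y = 1))) := fun a y ha h hy => by
      rw [P.gr_adj, P.lay_vx ha, P.wire_vx ha] at h
      rcases h with ⟨e, -, d⟩ | d | ⟨e, d⟩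
      · refine Or.inl ⟨e.symm, ?_⟩
        rcases d with d | d | d | d | d | d
        · omega
        · omega
        · have ho := old hP (x := y) (by omega)
          have hy2 := birth2 (P := P) d.2.1
          have := hP.sinj (P.wire y - 2) (w - 2) (by omega) (by omega) (by omega)
          omega
        · omega
        · omega
        · omega
      · omega
      · have e' : P.lay y = k := by omega
        rw [e'] at d
        refine Or.inr ⟨e', ?_⟩
        rcases d with d | d | ⟨-, d⟩ | ⟨d, -⟩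
        · omega
        · omega
        · omega
        · exact absurd hf d
    rw [two hP act η j hL (y1 := P.vx k 0) (y2 := P.vx k 1) (by omega) (ne_vx u0 u1 (by omega))
        (up 0 0 v0 u0 (Or.inr (Or.inr (Or.inl ⟨hf, by omega⟩))))
        (up 0 1 v0 u1 (Or.inr (Or.inr (Or.inl ⟨hf, by omega⟩)))) (by omega) (by omega),
      two hP act η j hL (y1 := P.vx k 0) (y2 := P.vx (P.k0 + j) w) (by omega)
        (fun c => by rw [c] at m0; omega)
        (up 1 0 v1 u0 (Or.inr (Or.inr (Or.inl ⟨hf, by omega⟩)))) adj (by omega) (by omega),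
      two hP act η j hL (y1 := P.vx k 1) (y2 := P.vx (P.k0 + j) 1) (by omega)
        (fun c => by rw [c] at m1; omega)
        (up w 1 vw u1 (Or.inr (Or.inr (Or.inl ⟨hf, by omega⟩)))) adj.symm (by omega) (by omega),
      (top hP act η j hL _).2 l0, (top hP act η j hL _).2 l1, (top hP act η j hL _).2 lw, r0, r1,
      rw']
    · have ht := (tau_at (k := P.k0 + j) hs).2.1 (by omega)
      have a0 : w ≠ 0 := by omega
      have a1 : w ≠ 1 := by omega
      simp only [Wt.val, a0, a1, ht, if_true, if_false, one_ne_zero, fv]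
      ring
    · intro y h hy
      rcases nb w y vw h hy with ⟨e, d⟩ | ⟨e, d⟩
      · exact Or.inr (eq_vx e (by omega))
      · refine Or.inl (eq_vx e ?_)
        have ho := old hP (x := y) (by omega)
        by_contra c
        have : w = P.wire y := by omega
        rw [← this] at ho
        omega
    · intro y h hy
      rcases nb 1 y v1 h hy with ⟨e, d⟩ | ⟨e, d⟩
      · exact Or.inr (eq_vx e (by omega))
      · exact Or.inl (eq_vx e (by omega))
    · intro y h hy
      rcases nb 0 y v0 h hy with ⟨e, d⟩ | ⟨e, d⟩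
      · omega
      · by_cases c : P.wire y = 0
        · exact Or.inl (eq_vx e c)
        · exact Or.inr (eq_vx e (by omega))

theorem pAges : StAges := by
  intro P e hP hS k h0 hL
  have v0 := valid0 hP h0 hL
  have v1 := valid1 hP h0 hL
  have mem : ∀ x, x ∈ Lk P.lay k ↔ P.lay x = k := fun x => by simp [Lk]
  have f : ∀ x ∈ Lk P.lay k, x ≠ P.vx k 0 → x ≠ P.vx k 1 → P.lay x = k ∧ 2 ≤ P.wire x ∧
      P.wire x < 2 * P.h + 2 ∧ 2 * P.s (P.wire x - 2) + P.age x = P.tau k ∧ 1 ≤ P.age x := by
    intro x hx a b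
    have hx := (mem x).1 hx
    have w2 := two_le hx a b
    have ha := age_add hP (x := x) (by omega) w2
    exact ⟨hx, w2, (old hP (x := x) (by omega)).2.1, hx ▸ ha.1, ha.2.1⟩
  refine ⟨⟨(mem _).2 (P.lay_vx v0), (mem _).2 (P.lay_vx v1), ne_vx v0 v1 (by omega),
    fun x hx a b => (f x hx a b).2.2.2.2, ?_, ?_, ?_, hS.big⟩, ?_, ?_⟩
  · intro x hx y hy a b c d
    have := f x hx a b
    have := f y hy c d
    omega
  · intro x hx y hy z hz t ht a1 a2 b1 b2 c1 c2 d1 d2 hn
    have fx := f x hx a1 a2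
    have fy := f y hy b1 b2
    have fz := f z hz c1 c2
    have ft := f t ht d1 d2
    have := hS.sid (P.wire x - 2) (P.wire y - 2) (P.wire z - 2) (P.wire t - 2) (by omega)
      (by omega) (by omega) (by omega) fun c => hn (by
        rcases c with c | c
        · exact Or.inl ⟨P.vext (by omega) (by omega), P.vext (by omega) (by omega)⟩
        · exact Or.inr ⟨P.vext (by omega) (by omega), P.vext (by omega) (by omega)⟩)
    omega
  · have h1 : (Lk P.lay k).card ≤ (range (2 * P.h + 2)).card :=
      card_le_card_of_injOn P.wire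
        (fun x hx => mem_coe.2 (mem_range.2
          (old hP (x := x) (by rw [(mem x).1 (mem_coe.1 hx)]; exact h0)).2.1))
        fun x hx y hy c => P.vext (((mem x).1 (mem_coe.1 hx)).trans ((mem y).1 (mem_coe.1 hy)).symm) c
    rw [card_range] at h1
    have h2 := hP.tw
    have h3 : (Lk P.lay k).card ^ 2 ≤ (P.tw + P.rest) ^ 2 := Nat.pow_le_pow_left (by omega) 2
    omega
  · intro x hx w2 hb
    exact (age_add hP (x := x) (by omega) w2).2.2.1 (hb.trans hx.symm)
  · intro x hx w2 hb
    exact (age_add hP (x := x) (by omega) w2).2.2.2 (hx ▸ hb)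

end Pool.Agent.P.MP_f57657_co.SX
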