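import Pool.Agent.P.MP_f57657_co.SX.Main
import Pool.Agent.P.MP_f57657_co.SX.Sim
import Pool.Agent.P.MP_f57657_co.SX.Twins
import Pool.Agent.P.MP_f57657_co.SX.Top
import Pool.Agent.P.MP_f57657_co.SX.Rel
import Pool.Agent.P.MP_f57657_co.SX.Glue
import Pool.Agent.P.MP_f57657_co.SX.One
import Pool.Agent.P.MP_f57657_co.SX.Two
import Pool.Agent.P.MP_f57657_co.SX.Force
import Pool.Agent.P.MP_f57657_co.SX.Dec
import Pool.Agent.P.MP_f57657_co.SX.Dom
import Pool.Agent.P.MP_f57657_co.SX.Card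
import Pool.Agent.P.MP_f57657_co.SX.Ker
import Pool.Agent.P.MP_f57657_co.SX.Wt
import Pool.Agent.P.MP_f57657_co.SX.Cod
import Pool.Agent.P.MP_f57657_co.SX.Decod
import Pool.Agent.P.MP_f57657_co.SX.Par
import Pool.Agent.P.MP_f57657_co.SX.Inj
import Pool.Agent.P.MP_f57657_co.SX.Count
import Pool.Agent.P.MP_f57657_co.SX.Asym

/-! All packages put together. -/

namespace Pool.Agent.P.MP_f57657_co.SX

theorem dsv_all (P : Par) (act : ℕ → ℕ → ℕ → Prop) (e : ℕ) (hs : P.Shape) (hz : P.Size e) :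
    DSV (P.gr act) :=
  dsv_gr (pTwins pSim) (pTop pSim) pDat pRel pEdge (pOne pGlue pBasic pSep)
    (pTwo pGlue pBasic pSep) pForce pDec pCard (pFront pCard) pConn pKer pCod pEdg
    (pDecod pCard pWt pAges pCod pEdg pDat pUniq pTap) P act e hs hz

theorem main_all :
    ∃ c : ℝ, 0 < c ∧ ∃ d0 n0 : ℕ, ∀ n ≥ n0, ∀ d ≥ d0,
      (d : ℝ) ≤ c * ((n : ℝ) / Real.log n) ^ ((1 : ℝ) / 3) →
      ∃ S : Finset (SimpleGraph (Fin n)), GoodFamily (d * n) S ∧
        Real.exp (c * d * n * Real.log ((n : ℝ) / ((d : ℝ) ^ 3 * Real.log n))) ≤ S.card :=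
  main_of dsv_all pCard pConn pPar pInj pCount pAsym

end Pool.Agent.P.MP_f57657_co.SX
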