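import Pool.Agent.P.MP_f57657_co.SX.Defs

/-! Counting, front part and connectivity of the concrete graphs. -/

open Matrix Finset

namespace Pool.Agent.P.MP_f57657_co.SX

namespace Card

variable (P : Par)

theorem birth_cases (hS : P.Shape) (w : ℕ) (hw : w < 2 * P.h + 2) :
    (w = 0 ∧ P.birth w = 1) ∨ (w = 1 ∧ P.birth w = P.k1 + 1) ∨
      (2 ≤ w ∧ ∃ σ, σ < P.bg ∧ P.birth w = P.k0 + 4 + 3 * σ) := by
  unfold Par.birth
  split_ifs with h0 h1
  · exact Or.inl ⟨h0, rfl⟩
  · exact Or.inr (Or.inl ⟨h1, rfl⟩)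
  · exact Or.inr (Or.inr ⟨by omega, _, hS.slt (w - 2) (by omega), rfl⟩)

theorem facts (hS : P.Shape) (x : P.VV) : P.lay x < P.L ∧
    ((P.lay x = 0 ∧ P.wire x < P.tw) ∨ (1 ≤ P.lay x ∧ P.wire x < 2 * P.h + 2 ∧
      P.birth (P.wire x) ≤ P.lay x ∧ (P.wire x = 0 ∨ (P.wire x = 1 ∧ P.k1 + 1 ≤ P.lay x) ∨
        (2 ≤ P.wire x ∧ P.k0 + 4 ≤ P.lay x)))) := by
  obtain ⟨h1, h2⟩ := P.valid_vx x
  refine ⟨h1, h2.imp_right fun h => ⟨h.1, h.2.1, h.2.2, ?_⟩⟩
  have h3 := h.2.2
  rcases birth_cases P hS _ h.2.1 with h4 | h4 | ⟨h4, σ, -, h5⟩ <;> omega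

theorem valid0 {k : ℕ} (h1 : 1 ≤ k) (h2 : k < P.L) : P.valid k 0 :=
  ⟨h2, Or.inr ⟨h1, by omega, by simpa [Par.birth] using h1⟩⟩

theorem valid1 {k : ℕ} (h1 : P.k1 + 1 ≤ k) (h2 : k < P.L) : P.valid k 1 :=
  ⟨h2, Or.inr ⟨by omega, by omega, by simpa [Par.birth] using h1⟩⟩

theorem card_le (S : Finset P.VV) (A B : Finset ℕ)
    (h : ∀ x ∈ S, P.lay x ∈ A ∧ P.wire x ∈ B) : S.card ≤ A.card * B.card := by
  rw [← Finset.card_product]
  refine Finset.card_le_card_of_injOn (fun x => (P.lay x, P.wire x))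
    (fun x hx => Finset.mem_coe.2 (Finset.mem_product.2 (h x hx))) fun x _ y _ e => ?_
  exact P.vext (Prod.mk.inj e).1 (Prod.mk.inj e).2

theorem adj_up (act : ℕ → ℕ → ℕ → Prop) {k w : ℕ} (x : P.VV) (hk : k = P.lay x + 1)
    (hv : P.valid k w) (hd : P.down (P.lay x) w (P.wire x)) : (P.gr act).Adj x (P.vx k w) := by
  rw [Par.gr_adj, P.lay_vx hv, P.wire_vx hv]
  exact Or.inr (Or.inl ⟨hk, hd⟩)

theorem adj_vx (act : ℕ → ℕ → ℕ → Prop) {k w k' w' : ℕ} (hv : P.valid k w)
    (hv' : P.valid k' w') : (P.gr act).Adj (P.vx k w) (P.vx k' w') ↔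
      (k = k' ∧ P.inner act k w w') ∨ (k' = k + 1 ∧ P.down k w' w) ∨
        (k = k' + 1 ∧ P.down k' w w') := by
  rw [Par.gr_adj, P.lay_vx hv, P.wire_vx hv, P.lay_vx hv', P.wire_vx hv']

theorem layered (act : ℕ → ℕ → ℕ → Prop) : Layered P.lay (P.gr act) := by
  intro x y h
  rcases (P.gr_adj act x y).1 h with h | h | h <;> omega

theorem parent (act : ℕ → ℕ → ℕ → Prop) (hS : P.Shape) (k : ℕ) :
    HasParent P.lay (P.gr act) k := by
  intro y hy
  have m0 := hS.m0
  have lt := hS.lt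
  have tw := hS.tw
  obtain ⟨h1, h2⟩ := P.valid_vx y
  rcases h2 with h2 | ⟨-, h2, h3⟩
  · omega
  suffices h : ∃ w, P.valid k w ∧ P.down k (P.wire y) w by
    obtain ⟨w, hv, hd⟩ := h
    refine ⟨P.vx k w, P.lay_vx hv, ?_⟩
    rw [Par.gr_adj, P.lay_vx hv, P.wire_vx hv]
    exact Or.inr (Or.inl ⟨hy, hd⟩)
  by_cases hk0 : k = 0
  · exact ⟨0, ⟨by omega, Or.inl ⟨hk0, by omega⟩⟩, Or.inl hk0⟩
  by_cases hk1 : k = P.k1
  · exact ⟨0, valid0 P (by omega) (by omega), Or.inr (Or.inl hk1)⟩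
  by_cases hb : P.birth (P.wire y) ≤ k
  · have hv : P.valid k (P.wire y) := ⟨by omega, Or.inr ⟨by omega, h2, hb⟩⟩
    by_cases hf : P.fibs k
    · by_cases hw : 2 ≤ P.wire y
      · exact ⟨_, hv, Or.inr (Or.inr (Or.inl ⟨hf, Or.inr (Or.inr (Or.inl ⟨hw, rfl⟩))⟩))⟩
      · refine ⟨0, valid0 P (by omega) (by omega), Or.inr (Or.inr (Or.inl ⟨hf, ?_⟩))⟩
        omega
    · exact ⟨_, hv, Or.inr (Or.inr (Or.inr ⟨hf, rfl⟩))⟩
  · rcases birth_cases P hS _ h2 with h4 | h4 | ⟨h4, σ, h5, h6⟩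
    · omega
    · omega
    · refine ⟨1, valid1 P (by omega) (by omega), Or.inr (Or.inr (Or.inl
        ⟨⟨by omega, by omega, by omega⟩, Or.inr (Or.inr (Or.inr ⟨h4, by omega, rfl⟩))⟩))⟩

end Card

open Card

theorem pCard : StCard := by
  intro P hS
  have m1 := hS.m1
  have lt := hS.lt
  have c0 : (Lk P.lay 0).card = P.tw := by
    rw [← Finset.card_range P.tw]
    refine Finset.card_bij (fun x _ => P.wire x) (fun x hx => ?_) (fun x hx y hy e => ?_)
      fun w hw => ?_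
    · have h1 := (Finset.mem_filter.1 hx).2
      have h2 := (facts P hS x).2
      exact Finset.mem_range.2 (by omega)
    · exact P.vext (((Finset.mem_filter.1 hx).2).trans (Finset.mem_filter.1 hy).2.symm) e
    · have hv : P.valid 0 w := ⟨by unfold Par.L; omega, Or.inl ⟨rfl, Finset.mem_range.1 hw⟩⟩
      exact ⟨P.vx 0 w, Finset.mem_filter.2 ⟨mem_univ _, P.lay_vx hv⟩, P.wire_vx hv⟩
  have c1 : (Uk P.lay 1).card = P.rest := by
    have e : P.rest = ((range (2 * P.h + 2)).sigma fun w => Ico (P.birth w) P.L).card := by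
      rw [Finset.card_sigma]
      simp only [Nat.card_Ico, Par.rest]
    rw [e]
    refine Finset.card_bij (fun x _ => ⟨P.wire x, P.lay x⟩) (fun x hx => ?_)
      (fun x hx y hy e => ?_) fun q hq => ?_
    · have h1 := (Finset.mem_filter.1 hx).2
      have h2 := facts P hS x
      simp only [Finset.mem_sigma, Finset.mem_range, Finset.mem_Ico]
      omega
    · simp only [Sigma.mk.injEq, heq_eq_eq] at e
      exact P.vext e.2 e.1
    · simp only [Finset.mem_sigma, Finset.mem_range, Finset.mem_Ico] at hq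
      have h1 : 1 ≤ q.2 := by
        rcases birth_cases P hS _ hq.1 with h4 | h4 | ⟨h4, σ, -, h5⟩ <;> omega
      have hv : P.valid q.2 q.1 := ⟨hq.2.2, Or.inr ⟨h1, hq.1, hq.2.1⟩⟩
      refine ⟨P.vx q.2 q.1, Finset.mem_filter.2 ⟨mem_univ _, by rw [P.lay_vx hv]; exact h1⟩, ?_⟩
      simp only [P.lay_vx hv, P.wire_vx hv]
  have c2 : (Uk P.lay P.k0).card ≤ (P.L - P.k0) * (2 * P.h + 2) := by
    have := card_le P (Uk P.lay P.k0) (Ico P.k0 P.L) (range (2 * P.h + 2)) fun x hx => by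
      have h1 := (Finset.mem_filter.1 hx).2
      have h2 := facts P hS x
      simp only [Finset.mem_range, Finset.mem_Ico]
      omega
    simpa using this
  have c3 : (Uk P.lay P.k1).card ≤ (P.L - P.k0) * (2 * P.h + 2) + 2 * (P.k0 - P.k1) := by
    have h1 := card_le P (Uk P.lay P.k1 \ Uk P.lay P.k0) (Ico P.k1 P.k0) (range 2) fun x hx => by
      have h2 := facts P hS x
      simp only [Uk, Finset.mem_sdiff, Finset.mem_filter, Finset.mem_univ, true_and] at hx
      simp only [Finset.mem_range, Finset.mem_Ico]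
      omega
    have h2 := Finset.le_card_sdiff (Uk P.lay P.k0) (Uk P.lay P.k1)
    simp only [Nat.card_Ico, Finset.card_range] at h1
    omega
  have c4 : P.rest ≤ (P.L - P.k0) * (2 * P.h + 2) + 2 * (P.k0 - P.k1) + P.k1 := by
    have h1 := card_le P (Uk P.lay 1 \ Uk P.lay P.k1) (range P.k1) (range 1) fun x hx => by
      have h2 := facts P hS x
      simp only [Uk, Finset.mem_sdiff, Finset.mem_filter, Finset.mem_univ, true_and] at hx
      simp only [Finset.mem_range]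
      omega
    have h2 := Finset.le_card_sdiff (Uk P.lay P.k1) (Uk P.lay 1)
    simp only [Finset.card_range] at h1
    omega
  refine ⟨?_, c0, c2, c3, c4⟩
  rw [← c0, ← c1, ← Finset.card_univ,
    ← Finset.card_filter_add_card_filter_not (s := univ) fun x => P.lay x = 0]
  congr 2
  exact Finset.filter_congr fun x _ => by omega

theorem pFront (hC : StCard) : StFront := by
  intro P act hS
  have m1 := hS.m1
  have m0 := hS.m0
  have lt := hS.lt
  have tw := hS.tw
  have hL : P.k0 + 8 ≤ P.L := by unfold Par.L; omega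
  have v0 : ∀ j, 1 ≤ j → j ≤ P.k0 + 2 → P.valid j 0 := fun j h1 h2 => valid0 P h1 (by omega)
  have v1 : ∀ j, P.k1 < j → j ≤ P.k0 + 2 → P.valid j 1 := fun j h1 h2 => valid1 P h1 (by omega)
  have nf : ∀ j, j ≤ P.k0 + 2 → ¬ P.fibs j := fun j h1 h2 => by have := h2.1; omega
  have u0 : ∀ x, 1 ≤ P.lay x → P.lay x ≤ P.k1 → x = P.vx (P.lay x) 0 := by
    intro x h1 h2
    have h3 := facts P hS x
    have h4 : P.wire x = 0 := by omega
    rw [← h4, P.vx_eq]
  refine ⟨⟨layered P act, by omega, fun x y hx hy hne => ?_,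
    fun j h1 h2 => P.lay_vx (v0 j h1 (by omega)), u0, fun x hx => ?_, fun x hx => ?_, ?_⟩,
    ⟨layered P act, lt, P.lay_vx (v0 _ (by omega) (by omega)), fun x hx => ?_,
      fun j h1 h2 => P.lay_vx (v0 j (by omega) (by omega)),
      fun j h1 h2 => P.lay_vx (v1 j h1 (by omega)), fun j h1 h2 e => ?_, fun x h1 h2 => ?_,
      ?_, ?_, fun j h1 h2 => ?_, fun j h1 h2 => ?_, fun j h1 h2 => ?_, fun j h1 h2 => ?_,
      fun j h1 h2 => ?_, ?_⟩⟩
  · exact Or.inl ⟨hx.trans hy.symm, fun e => hne (P.vext (hx.trans hy.symm) e), Or.inl hx⟩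
  · refine adj_up P act x rfl (v0 _ (by omega) (by omega)) ?_
    have h3 := facts P hS x
    by_cases h0 : P.lay x = 0
    · exact Or.inl h0
    · exact Or.inr (Or.inr (Or.inr ⟨nf _ (by omega), by omega⟩))
  · classical
    have h1 : ∀ y, up P.lay 1 (am (P.gr act)) x y ≤
        if 1 ≤ P.lay y ∧ (P.gr act).Adj x y then 1 else 0 := by
      intro y
      simp only [up, am, Matrix.of_apply]
      split_ifs <;> first | omega | tauto
    refine (Finset.sum_le_sum fun y _ => h1 y).trans ?_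
    rw [← Finset.sum_filter, Finset.sum_const, nsmul_eq_mul, mul_one]
    have h2 := card_le P (univ.filter fun y => 1 ≤ P.lay y ∧ (P.gr act).Adj x y)
      (Icc (P.lay x - 1) (P.lay x + 1)) (range (2 * P.h + 2)) fun y hy => by
        obtain ⟨h3, h4⟩ := (Finset.mem_filter.1 hy).2
        have h5 := layered P act x y h4
        have h6 := layered P act y x h4.symm
        have h7 := facts P hS y
        simp only [Finset.mem_range, Finset.mem_Icc]
        omega
    simp only [Nat.card_Icc, Finset.card_range] at h2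
    have e : P.lay x + 1 + 1 - (P.lay x - 1) = 3 := by omega
    rw [e] at h2
    exact_mod_cast h2.trans (by omega)
  · rw [(hC P hS).2.1]; omega
  · rw [← hx]; exact u0 x (by omega) (by omega)
  · have := congrArg P.wire e
    rw [P.wire_vx (v0 j (by omega) (by omega)), P.wire_vx (v1 j h1 (by omega))] at this
    omega
  · have h3 := facts P hS x
    have h4 : P.wire x = 0 ∨ P.wire x = 1 := by omega
    rcases h4 with h4 | h4
    · left; rw [← h4, P.vx_eq]
    · right; rw [← h4, P.vx_eq]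
  · rw [adj_vx P act (v0 _ (by omega) (by omega)) (v0 _ (by omega) (by omega))]
    exact Or.inr (Or.inl ⟨rfl, Or.inr (Or.inl rfl)⟩)
  · rw [adj_vx P act (v0 _ (by omega) (by omega)) (v1 _ (by omega) (by omega))]
    exact Or.inr (Or.inl ⟨rfl, Or.inr (Or.inl rfl)⟩)
  · rw [adj_vx P act (v0 _ (by omega) (by omega)) (v0 _ (by omega) (by omega))]
    exact Or.inr (Or.inl ⟨rfl, Or.inr (Or.inr (Or.inr ⟨nf _ (by omega), rfl⟩))⟩)
  · rw [adj_vx P act (v1 _ (by omega) (by omega)) (v1 _ (by omega) (by omega))]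
    exact Or.inr (Or.inl ⟨rfl, Or.inr (Or.inr (Or.inr ⟨nf _ (by omega), rfl⟩))⟩)
  · rw [adj_vx P act (v0 _ (by omega) (by omega)) (v1 _ (by omega) (by omega))]
    unfold Par.down Par.fibs
    omega
  · rw [adj_vx P act (v1 _ (by omega) (by omega)) (v0 _ (by omega) (by omega))]
    unfold Par.down Par.fibs
    omega
  · rw [adj_vx P act (v0 _ (by omega) (by omega)) (v1 _ (by omega) (by omega))]
    rintro (⟨-, -, h | h | h | h | h | h⟩ | h | h) <;> omega
  · rw [adj_vx P act (v0 _ (by omega) (by omega)) (v1 _ (by omega) (by omega))]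
    exact Or.inl ⟨rfl, by omega, Or.inr (Or.inl rfl)⟩

theorem pConn : StConn := by
  intro P act hS
  have tw := hS.tw
  have lt := hS.lt
  have hL : P.L = P.k0 + 8 + 3 * P.bg + 3 * P.nb := rfl
  have a0 : ∀ x, P.lay x = 0 → (P.gr act).Adj x (P.vx 1 0) := fun x hx =>
    adj_up P act x (by omega) P.valid_one (Or.inl hx)
  have reach : ∀ k x, P.lay x = k → (P.gr act).Reachable x (P.vx 1 0) := by
    intro k
    induction k with
    | zero => exact fun x hx => (a0 x hx).reachable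
    | succ k ih =>
      intro x hx
      obtain ⟨y, h1, h2⟩ := parent P act hS k x hx
      exact h2.symm.reachable.trans (ih y h1)
  refine ⟨parent P act hS, ?_, fun x => ?_⟩
  · have : Nonempty P.VV := ⟨P.vx 1 0⟩
    exact ⟨fun x y => (reach _ x rfl).trans (reach _ y rfl).symm⟩
  · have same : ∀ w, P.valid (P.lay x) w → P.inner act (P.lay x) (P.wire x) w →
        (P.gr act).Adj x (P.vx (P.lay x) w) := fun w hv hi => by
      rw [Par.gr_adj, P.lay_vx hv, P.wire_vx hv]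
      exact Or.inl ⟨rfl, hi⟩
    obtain ⟨h1, h2⟩ := P.valid_vx x
    rcases h2 with ⟨h2, h3⟩ | ⟨h2, h3, h4⟩
    · have hv : P.valid (P.lay x) (if P.wire x = 0 then 1 else 0) :=
        ⟨h1, Or.inl ⟨h2, by split_ifs <;> omega⟩⟩
      refine ⟨_, _, fun e => ?_, a0 x h2, same _ hv ⟨by split_ifs <;> omega, Or.inl h2⟩⟩
      have := congrArg P.lay e
      rw [P.lay_vx P.valid_one, P.lay_vx hv] at this
      omega
    · obtain ⟨y, hy1, hy2⟩ := parent P act hS (P.lay x - 1) x (by omega)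
      suffices h : ∃ z, P.lay x ≤ P.lay z ∧ (P.gr act).Adj x z by
        obtain ⟨z, z1, z2⟩ := h
        exact ⟨y, z, fun e => by rw [e] at hy1; omega, hy2.symm, z2⟩
      by_cases hlast : P.lay x + 1 = P.L
      · set w := if P.wire x % 2 = 0 then P.wire x + 1 else P.wire x - 1 with hw
        have hw1 : w < 2 * P.h + 2 ∧ P.wire x ≠ w ∧ P.wire x / 2 = w / 2 := by
          rw [hw]; split_ifs <;> omega
        have hv : P.valid (P.lay x) w := by
          refine ⟨h1, Or.inr ⟨h2, hw1.1, ?_⟩⟩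
          rcases birth_cases P hS _ hw1.1 with h5 | h5 | ⟨h5, σ, h6, h7⟩ <;> omega
        exact ⟨_, (P.lay_vx hv).ge, same _ hv ⟨hw1.2.1, Or.inr (Or.inr (Or.inr (Or.inr (Or.inr
          ⟨Or.inr hlast, hw1.2.2⟩))))⟩⟩
      · have hv : P.valid (P.lay x + 1) (P.wire x) := ⟨by omega, Or.inr ⟨by omega, h3, by omega⟩⟩
        have hv0 : P.valid (P.lay x + 1) 0 := valid0 P (by omega) (by omega)
        by_cases hf : P.fibs (P.lay x)
        · by_cases hw : 2 ≤ P.wire x
          · exact ⟨_, by rw [P.lay_vx hv]; omega, adj_up P act x rfl hv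
              (Or.inr (Or.inr (Or.inl ⟨hf, Or.inr (Or.inr (Or.inl ⟨hw, rfl⟩))⟩)))⟩
          · exact ⟨_, by rw [P.lay_vx hv0]; omega, adj_up P act x rfl hv0
              (Or.inr (Or.inr (Or.inl ⟨hf, Or.inl ⟨rfl, by omega⟩⟩)))⟩
        · exact ⟨_, by rw [P.lay_vx hv]; omega, adj_up P act x rfl hv
            (Or.inr (Or.inr (Or.inr ⟨hf, rfl⟩)))⟩

end Pool.Agent.P.MP_f57657_co.SX
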