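import Pool.Agent.P.MP_f57657_co.SX.Defs

/-! Assembly of the abstract reconstruction argument. -/

open Matrix Finset

set_option linter.unusedSectionVars false

namespace Pool.Agent.P.MP_f57657_co.SX

namespace Main

variable {V : Type} [Fintype V] [DecidableEq V]

theorem am_comap (H : SimpleGraph V) (π : Equiv.Perm V) :
    am (H.comap π) = (am H).submatrix π π := by
  ext x y
  rfl

theorem cosp_comap {G H : SimpleGraph V} (h : Cosp G H) (π : Equiv.Perm V) :
    Cosp G (H.comap π) := by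
  unfold Cosp at *
  rw [am_comap, ← h]
  exact Matrix.charpoly_reindex π.symm (am H)

/-- A relabelled copy of `H0` that is cospectral with `G`. -/
def Good (G H0 H : SimpleGraph V) : Prop := Cosp G H ∧ Nonempty (H0 ≃g H)

theorem good_comap {G H0 H : SimpleGraph V} (h : Good G H0 H) (π : Equiv.Perm V) :
    Good G H0 (H.comap π) := by
  obtain ⟨h1, ⟨e⟩⟩ := h
  refine ⟨cosp_comap h1 π, ⟨e.trans (RelIso.symm (⟨π, ?_⟩ : H.comap π ≃g H))⟩⟩
  intro a b
  simp [SimpleGraph.comap_adj]

theorem ag1_mono {lay : V → ℕ} {G H : SimpleGraph V} {k k' : ℕ} (h : Ag1 lay G H k)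
    (hk : k' ≤ k) : Ag1 lay G H k' := fun x y hx => h x y (by omega)

theorem ag2_of_ag1 {lay : V → ℕ} {G H : SimpleGraph V} {k : ℕ} (h : Ag1 lay G H (k + 1)) :
    Ag2 lay G H k := ⟨ag1_mono h (by omega), fun x y hx _ => h x y (by omega)⟩

theorem lay_perm {lay : V → ℕ} {k : ℕ} {π : Equiv.Perm V} (hπ : ∀ x, lay x ≤ k → π x = x)
    {y : V} (hy : k < lay y) : k < lay (π y) := by
  by_contra h
  have h1 := hπ (π y) (by omega)
  have h2 : π y = y := π.injective h1
  rw [h2] at h
  exact h hy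

theorem twins_comap {H : SimpleGraph V} {T : Finset V} (h : Twins H T) {π : Equiv.Perm V}
    (hπ : ∀ x ∈ T, π x = x) : Twins (H.comap π) T := by
  refine ⟨fun s hs s' hs' hne => ?_, fun s hs s' hs' x hx => ?_⟩
  · simp only [SimpleGraph.comap_adj, hπ s hs, hπ s' hs']
    exact h.1 s hs s' hs' hne
  · simp only [SimpleGraph.comap_adj, hπ s hs, hπ s' hs']
    refine h.2 s hs s' hs' _ fun hx' => hx ?_
    have := π.injective (hπ _ hx')
    rwa [this] at hx'

theorem mem_Lk {lay : V → ℕ} {k : ℕ} {x : V} : x ∈ Lk lay k ↔ lay x = k := by simp [Lk]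

theorem twins_front {lay : V → ℕ} {G : SimpleGraph V} {k1 β : ℕ} {pv : ℕ → V}
    (F : Front lay G k1 β pv) : Twins G (Lk lay 0) := by
  have key : ∀ s s' x, lay s = 0 → lay s' = 0 → lay x ≠ 0 → G.Adj s x → G.Adj s' x := by
    intro s s' x hs hs' hx h
    have h1 := F.layered s x h
    have h2 := F.two_le
    have h3 := F.pv_uniq x (by omega) (by omega)
    have h4 := F.pv_adj s' (by omega)
    rw [h3, show lay x = lay s' + 1 by omega]
    exact h4
  refine ⟨fun s hs s' hs' hne => F.clique s s' (mem_Lk.1 hs) (mem_Lk.1 hs') hne,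
    fun s hs s' hs' x hx => ?_⟩
  rw [mem_Lk] at hs hs' hx
  exact ⟨key s s' x hs hs' hx, key s' s x hs' hs hx⟩

theorem phase0 (hTw : StTwins) {lay : V → ℕ} {G H0 : SimpleGraph V} {k1 β : ℕ} {pv : ℕ → V}
    (F : Front lay G k1 β pv) {t0 : V} (ht0 : lay t0 = 0) (hK : KerOK G (Lk lay 0) t0)
    (hc : Cosp G H0) : ∃ H, Good G H0 H ∧ Ag2 lay G H 0 ∧ Twins H (Lk lay 0) := by
  obtain ⟨T', hcard, hT'⟩ := hTw V G H0 (Lk lay 0) t0 (mem_Lk.2 ht0) (twins_front F) hK hc
  have e : (Lk lay 0) ≃ T' := Fintype.equivOfCardEq (by simp [hcard])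
  obtain ⟨π, hπ⟩ := Equiv.Perm.exists_extending_pair (f := fun s : Lk lay 0 => (s : V))
    (g := fun s : Lk lay 0 => (e s : V)) Subtype.val_injective
    (Subtype.val_injective.comp e.injective)
  have hin : ∀ s ∈ Lk lay 0, π s ∈ T' := fun s hs => by
    have := hπ ⟨s, hs⟩
    simp only at this
    rw [this]
    exact (e ⟨s, hs⟩).2
  have hout : ∀ x, x ∉ Lk lay 0 → π x ∉ T' := fun x hx hx' => by
    have h1 := hπ (e.symm ⟨π x, hx'⟩)
    simp only [Equiv.apply_symm_apply] at h1
    have h2 := π.injective h1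
    exact hx (h2 ▸ (e.symm ⟨π x, hx'⟩).2)
  have hTw' : Twins (H0.comap π) (Lk lay 0) := by
    refine ⟨fun s hs s' hs' hne => ?_, fun s hs s' hs' x hx => ?_⟩
    · exact hT'.1 _ (hin s hs) _ (hin s' hs') fun h => hne (π.injective h)
    · exact hT'.2 _ (hin s hs) _ (hin s' hs') _ (hout x hx)
  refine ⟨H0.comap π, good_comap ⟨hc, ⟨RelIso.refl _⟩⟩ π, ⟨fun x y hx => by omega, ?_⟩, hTw'⟩
  intro x y hx hy
  by_cases hxy : x = y
  · subst hxy
    simp
  · exact ⟨fun _ => F.clique x y hx hy hxy,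
      fun _ => hTw'.1 x (mem_Lk.2 hx) y (mem_Lk.2 hy) hxy⟩

theorem phaseA (hTop : StTop) {lay : V → ℕ} {G H0 : SimpleGraph V} {k1 β : ℕ} {pv : ℕ → V}
    (F : Front lay G k1 β pv) (h0 : ∃ H, Good G H0 H ∧ Ag2 lay G H 0 ∧ Twins H (Lk lay 0)) :
    ∀ k, k ≤ k1 → ∃ H, Good G H0 H ∧ Ag2 lay G H k ∧ Twins H (Lk lay 0) := by
  intro k
  induction k with
  | zero => exact fun _ => h0
  | succ k ih =>
    intro hk
    obtain ⟨H, hg, ha, ht⟩ := ih (by omega)
    obtain ⟨v, hv, hv1, hv2⟩ := hTop V lay G H k1 β pv k F hg.1 (by omega) ha ht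
    have hp : lay (pv (k + 1)) = k + 1 := F.pv_lay _ (by omega) hk
    have hfix : ∀ x, lay x ≤ k → Equiv.swap (pv (k + 1)) v x = x := fun x hx =>
      Equiv.swap_apply_of_ne_of_ne (by rintro rfl; omega) (by rintro rfl; omega)
    refine ⟨H.comap (Equiv.swap (pv (k + 1)) v), good_comap hg _, ⟨?_, ?_⟩,
      twins_comap ht fun x hx => hfix x (by rw [mem_Lk.1 hx]; omega)⟩
    · intro x y hx
      simp only [SimpleGraph.comap_adj, hfix x (by omega)]
      by_cases hy : lay y ≤ k
      · rw [hfix y hy]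
        rcases Nat.lt_or_ge (lay x) k with h | h
        · exact ha.1 x y h
        · rcases Nat.lt_or_ge (lay y) k with h' | h'
          · rw [H.adj_comm, G.adj_comm]
            exact ha.1 y x h'
          · exact ha.2 x y (by omega) (by omega)
      · have hy' := lay_perm hfix (show k < lay y by omega)
        rcases Nat.lt_or_ge (lay x) k with h | h
        · rw [ha.1 x _ h]
          constructor
          · intro h1
            have := F.layered _ _ h1
            omega
          · intro h1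
            have := F.layered _ _ h1
            omega
        · have hxk : lay x = k := by omega
          constructor
          · intro h1
            have h2 := hv2 x _ hxk hy' h1
            have h3 : y = pv (k + 1) := by
              rw [Equiv.swap_apply_eq_iff, Equiv.swap_apply_right] at h2
              exact h2
            have h4 := F.pv_adj x (by omega)
            rw [hxk] at h4
            rw [h3]
            exact h4
          · intro h1
            have h2 := F.layered _ _ h1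
            have h3 := F.pv_uniq y (by omega) (by omega)
            rw [show lay y = k + 1 by omega] at h3
            rw [h3, Equiv.swap_apply_left]
            exact hv1 x hxk
    · intro x y hx hy
      have h1 := F.pv_uniq x (by omega) (by omega)
      have h2 := F.pv_uniq y (by omega) (by omega)
      rw [hx] at h1
      rw [hy] at h2
      rw [h1, h2]
      simp

theorem onePair_paths {lay : V → ℕ} {G : SimpleGraph V} {k1 k0 : ℕ} {ρ : V} {a b : ℕ → V}
    (Q : Paths lay G k1 k0 ρ a b) {k : ℕ} (h1 : k1 ≤ k) (h2 : k < k0) : OnePair lay G k := by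
  refine ⟨a k, b k, fun x x' hx hx' hne _ => ?_⟩
  rcases Nat.eq_or_lt_of_le h1 with h | h
  · exact absurd ((Q.rho_uniq x (by omega)).trans (Q.rho_uniq x' (by omega)).symm) hne
  · have e1 := Q.uniq x (by omega) (by omega)
    have e2 := Q.uniq x' (by omega) (by omega)
    rw [hx] at e1
    rw [hx'] at e2
    rcases e1 with e1 | e1 <;> rcases e2 with e2 | e2
    · exact absurd (e1.trans e2.symm) hne
    · exact Or.inl ⟨e1, e2⟩
    · exact Or.inr ⟨e1, e2⟩
    · exact absurd (e1.trans e2.symm) hne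

theorem seen_paths {lay : V → ℕ} {G : SimpleGraph V} {k1 k0 : ℕ} {ρ : V} {a b : ℕ → V}
    (Q : Paths lay G k1 k0 ρ a b) {k : ℕ} (h1 : k1 ≤ k) (h2 : k < k0) (hP : HasParent lay G k) :
    Seen lay G k := by
  intro y y' hy hy' _ _
  obtain ⟨x, hx, hxy⟩ := hP y hy
  obtain ⟨x', hx', hxy'⟩ := hP y' hy'
  refine ⟨x, x', hx, hx', hxy, hxy', ?_⟩
  unfold edg
  refine Finset.sum_eq_zero fun v _ => Finset.sum_eq_zero fun v' _ => ?_
  split_ifs with h
  · by_cases e1 : G.Adj x v
    · by_cases e2 : G.Adj x' v'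
      · have l1 := Q.layered _ _ e1
        have l2 := Q.layered _ _ e2
        have u1 := Q.uniq v (by omega) (by omega)
        have u2 := Q.uniq v' (by omega) (by omega)
        rw [show lay v = k + 1 by omega] at u1
        rw [show lay v' = k + 1 by omega] at u2
        have hb := Q.bare (k + 1) (by omega) (by omega)
        have : ¬ G.Adj v v' := by
          rcases u1 with u1 | u1 <;> rcases u2 with u2 | u2 <;> rw [u1, u2]
          · exact G.irrefl
          · exact hb
          · exact fun h => hb h.symm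
          · exact G.irrefl
        simp [am, this]
      · simp [am, e2]
    · simp [am, e1]
  · rfl

theorem phaseB (hOne : StOne) (hForce : StForce) (hRel : StRel) (hEdge : StEdge) {lay : V → ℕ}
    {G H0 : SimpleGraph V} {k1 k0 β : ℕ} {pv a b : ℕ → V} (F : Front lay G k1 β pv)
    (Q : Paths lay G k1 k0 (pv k1) a b) (hP : ∀ k, HasParent lay G k)
    (len1 : (Uk lay k1).card + 3 ≤ k1) (h0 : ∃ H, Good G H0 H ∧ Ag2 lay G H k1) :
    ∀ i, k1 + i ≤ k0 → ∃ H, Good G H0 H ∧ Ag2 lay G H (k1 + i) := by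
  intro i
  induction i with
  | zero => exact fun _ => h0
  | succ i ih =>
    intro hi
    obtain ⟨H, hg, ha⟩ := ih (by omega)
    have key : ∀ H, Good G H0 H → Ag2 lay G H (k1 + i) → ∀ x x', lay x = k1 + i →
        lay x' = k1 + i → cod lay H (k1 + i) x x' = cod lay G (k1 + i) x x' ∧
          edg lay H (k1 + i) x x' = edg lay G (k1 + i) x x' := fun H hg ha =>
      hForce V lay G H k1 k0 (pv k1) a b (k1 + i) Q (by omega) (by omega) ha
        (hOne V lay G H k1 β pv F hg.1 (ag1_mono ha.1 (by omega)) len1).2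
    obtain ⟨π, _, h1⟩ := hRel V lay G H (k1 + i) F.layered ha
      (onePair_paths Q (by omega) (by omega)) fun x x' hx hx' => (key H hg ha x x' hx hx').1
    have hg' := good_comap hg π
    exact ⟨H.comap π, hg', hEdge V lay G _ (k1 + i) F.layered h1
      (seen_paths Q (by omega) (by omega) (hP _)) (hP _)
      fun x x' hx hx' => (key _ hg' (ag2_of_ag1 h1) x x' hx hx').2⟩

theorem up_comap {lay : V → ℕ} (H : SimpleGraph V) {k : ℕ} {π : Equiv.Perm V}
    (hπ : ∀ x, k ≤ lay (π x) ↔ k ≤ lay x) (j : ℕ) (x y : V) :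
    (up lay k (am (H.comap π)) ^ j) x y = (up lay k (am H) ^ j) (π x) (π y) := by
  have h1 : up lay k (am (H.comap π)) = (up lay k (am H)).submatrix π π := by
    ext x y
    simp [up, am_comap, hπ]
  have h2 : ∀ j, ((up lay k (am H)).submatrix π π) ^ j = (up lay k (am H) ^ j).submatrix π π := by
    intro j
    induction j with
    | zero => simp
    | succ j ih => rw [pow_succ, pow_succ, ih, Matrix.submatrix_mul_equiv]
  rw [h1, h2]
  rfl

theorem swap_paths {lay : V → ℕ} {G H : SimpleGraph V} {k1 k0 : ℕ} {ρ : V} {a b : ℕ → V}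
    (Q : Paths lay G k1 k0 ρ a b) (ha : Ag2 lay G H k0) :
    ∃ π : Equiv.Perm V, (∀ x, lay (π x) = lay x) ∧ π (a k0) = b k0 ∧ π (b k0) = a k0 ∧
      Ag2 lay G (H.comap π) k0 := by
  let f : V → V := fun x =>
    if k1 < lay x ∧ lay x ≤ k0 then (if x = a (lay x) then b (lay x) else a (lay x)) else x
  have fa : ∀ j, k1 < j → j ≤ k0 → f (a j) = b j := fun j h1 h2 => by
    simp [f, Q.a_lay j h1 (by omega), h1, h2]
  have fb : ∀ j, k1 < j → j ≤ k0 → f (b j) = a j := fun j h1 h2 => by
    simp [f, Q.b_lay j h1 (by omega), h1, h2, (Q.ne j h1 (by omega)).symm]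
  have fo : ∀ x, ¬ (k1 < lay x ∧ lay x ≤ k0) → f x = x := fun x h => by simp only [f, h, if_false]
  have cases3 : ∀ x, (¬ (k1 < lay x ∧ lay x ≤ k0)) ∨
      (∃ j, k1 < j ∧ j ≤ k0 ∧ (x = a j ∨ x = b j)) := fun x => by
    by_cases h : k1 < lay x ∧ lay x ≤ k0
    · exact Or.inr ⟨lay x, h.1, h.2, Q.uniq x h.1 (by omega)⟩
    · exact Or.inl h
  have finv : Function.Involutive f := fun x => by
    rcases cases3 x with h | ⟨j, h1, h2, rfl | rfl⟩
    · rw [fo x h, fo x h]
    · rw [fa j h1 h2, fb j h1 h2]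
    · rw [fb j h1 h2, fa j h1 h2]
  have flay : ∀ x, lay (f x) = lay x := fun x => by
    rcases cases3 x with h | ⟨j, h1, h2, rfl | rfl⟩
    · rw [fo x h]
    · rw [fa j h1 h2, Q.a_lay j h1 (by omega), Q.b_lay j h1 (by omega)]
    · rw [fb j h1 h2, Q.a_lay j h1 (by omega), Q.b_lay j h1 (by omega)]
  have hlt := Q.lt
  -- `f` preserves the edges of `G` inside the layers up to `k0`
  have up1 : ∀ x y, lay x ≤ lay y → lay y ≤ k0 → G.Adj x y → G.Adj (f x) (f y) := by
    intro x y hxy hy h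
    have l1 := Q.layered _ _ h
    rcases cases3 y with hy' | ⟨j, h1, h2, hj⟩
    · rw [fo y hy', fo x (by omega)]
      exact h
    · have hly : lay y = j := by
        rcases hj with rfl | rfl
        · exact Q.a_lay j h1 (by omega)
        · exact Q.b_lay j h1 (by omega)
      rcases cases3 x with hx' | ⟨i, h3, h4, hi⟩
      · have hx : x = ρ := Q.rho_uniq x (by omega)
        have hj' : j = k1 + 1 := by omega
        rw [fo x hx', hx]
        rcases hj with rfl | rfl
        · rw [fa j h1 h2, hj']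
          exact Q.rho_b
        · rw [fb j h1 h2, hj']
          exact Q.rho_a
      · have hlx : lay x = i := by
          rcases hi with rfl | rfl
          · exact Q.a_lay i h3 (by omega)
          · exact Q.b_lay i h3 (by omega)
        rcases Nat.eq_or_lt_of_le hxy with e | e
        · have hij : i = j := by omega
          subst hij
          rcases hi with rfl | rfl <;> rcases hj with rfl | rfl
          · exact absurd h G.irrefl
          · exact absurd h (Q.bare i h1 h2)
          · exact absurd h.symm (Q.bare i h1 h2)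
          · exact absurd h G.irrefl
        · have hij : j = i + 1 := by omega
          subst hij
          rcases hi with rfl | rfl <;> rcases hj with rfl | rfl
          · rw [fa i h3 h4, fa _ h1 h2]
            exact Q.bb i h3 h4
          · exact absurd h (Q.ab i h3 h4)
          · exact absurd h (Q.ba i h3 h4)
          · rw [fb i h3 h4, fb _ h1 h2]
            exact Q.aa i h3 h4
  have up2 : ∀ x y, lay x ≤ k0 → lay y ≤ k0 → G.Adj x y → G.Adj (f x) (f y) := by
    intro x y hx hy h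
    rcases le_total (lay x) (lay y) with e | e
    · exact up1 x y e hy h
    · exact (up1 y x e hx h.symm).symm
  have up3 : ∀ x y, lay x ≤ k0 → lay y ≤ k0 → (G.Adj (f x) (f y) ↔ G.Adj x y) := by
    intro x y hx hy
    refine ⟨fun h => ?_, up2 x y hx hy⟩
    have := up2 _ _ (by rw [flay]; exact hx) (by rw [flay]; exact hy) h
    rwa [finv x, finv y] at this
  refine ⟨finv.toPerm, flay, fa k0 hlt le_rfl, fb k0 hlt le_rfl, ?_, ?_⟩
  · intro x y hx
    change H.Adj (f x) (f y) ↔ _
    rw [ha.1 _ _ (by rw [flay]; exact hx)]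
    by_cases hy : lay y ≤ k0
    · exact up3 x y (by omega) hy
    · constructor
      · intro h
        have := Q.layered _ _ h
        rw [flay, flay] at this
        omega
      · intro h
        have := Q.layered _ _ h
        omega
  · intro x y hx hy
    change H.Adj (f x) (f y) ↔ _
    rw [ha.2 _ _ (by rw [flay]; exact hx) (by rw [flay]; exact hy)]
    exact up3 x y (by omega) (by omega)

theorem phaseS (hOne : StOne) (hTwo : StTwo) {lay : V → ℕ}
    {G H0 : SimpleGraph V} {k1 k0 β : ℕ} {pv a b : ℕ → V} (F : Front lay G k1 β pv)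
    (Q : Paths lay G k1 k0 (pv k1) a b) (len1 : (Uk lay k1).card + 3 ≤ k1)
    (len0 : (Uk lay k0).card + k1 + 6 ≤ k0) (h0 : ∃ H, Good G H0 H ∧ Ag2 lay G H k0) :
    ∃ H, Good G H0 H ∧ Ag2 lay G H k0 ∧ Mom2 lay G H k0 (a k0) (b k0) (a k0) (b k0) := by
  obtain ⟨H, hg, ha⟩ := h0
  have h1 := hOne V lay G H k1 β pv F hg.1 (ag1_mono ha.1 Q.lt.le) len1
  rcases hTwo V lay G H k1 k0 (pv k1) a b Q ha.1 h1.1 h1.2 len0 with h | h
  · exact ⟨H, hg, ha, h⟩
  · obtain ⟨π, hl, e1, e2, ha'⟩ := swap_paths Q ha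
    refine ⟨H.comap π, good_comap hg π, ha', fun j => ?_⟩
    have hπ : ∀ x, k0 ≤ lay (π x) ↔ k0 ≤ lay x := fun x => by rw [hl]
    rw [up_comap H hπ, up_comap H hπ, up_comap H hπ, e1, e2]
    exact h j

theorem phaseC (hDec : StDec) (hDat : StDat) (hRel : StRel) (hEdge : StEdge) {lay : V → ℕ}
    {G H0 : SimpleGraph V} {k0 : ℕ} {a b : V} (hL : Layered lay G) (la : lay a = k0)
    (lb : lay b = k0) (hP : ∀ k, HasParent lay G k) (hO : ∀ k, k0 ≤ k → OnePair lay G k)
    (hS : ∀ k, k0 ≤ k → Seen lay G k) (hD : ∀ j, Decodable lay G k0 a b j)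
    (h0 : ∃ H, Good G H0 H ∧ Ag2 lay G H k0 ∧ Mom2 lay G H k0 a b a b) :
    ∀ j, ∃ H, Good G H0 H ∧ Ag2 lay G H (k0 + j) ∧ Mom2 lay G H k0 a b a b := by
  intro j
  induction j with
  | zero => exact h0
  | succ j ih =>
    obtain ⟨H, hg, ha, hm⟩ := ih
    have key : ∀ H, Ag2 lay G H (k0 + j) → Mom2 lay G H k0 a b a b → ∀ x x', lay x = k0 + j →
        lay x' = k0 + j → cod lay H (k0 + j) x x' = cod lay G (k0 + j) x x' ∧
          edg lay H (k0 + j) x x' = edg lay G (k0 + j) x x' := fun H ha hm =>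
      hD j _ _ (hDat V lay H (k0 + j)) (hDec V lay G H k0 a b j hL la lb ha hm).1
        (hDec V lay G H k0 a b j hL la lb ha hm).2
    obtain ⟨π, hπ, h1⟩ := hRel V lay G H (k0 + j) hL ha (hO _ (by omega))
      fun x x' hx hx' => (key H ha hm x x' hx hx').1
    have hπ' : ∀ x, k0 ≤ lay (π x) ↔ k0 ≤ lay x := fun x => by
      by_cases hx : lay x ≤ k0 + j
      · rw [hπ x hx]
      · have := lay_perm hπ (show k0 + j < lay x by omega)
        omega
    have hm' : Mom2 lay G (H.comap π) k0 a b a b := fun i => by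
      rw [up_comap H hπ', up_comap H hπ', up_comap H hπ', hπ a (by omega), hπ b (by omega)]
      exact hm i
    exact ⟨H.comap π, good_comap hg π, hEdge V lay G _ (k0 + j) hL h1 (hS _ (by omega)) (hP _)
      fun x x' hx hx' => (key _ (ag2_of_ag1 h1) hm' x x' hx hx').2, hm'⟩

end Main

open Main in
theorem dsv_gr (hTw : StTwins) (hTop : StTop) (hDat : StDat) (hRel : StRel) (hEdge : StEdge)
    (hOne : StOne) (hTwo : StTwo) (hForce : StForce) (hDec : StDec) (hCard : StCard)
    (hFront : StFront) (hConn : StConn) (hKer : StKer) (hCod : StCod) (hEdg : StEdg)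
    (hDecod : StDecod) (P : Par) (act : ℕ → ℕ → ℕ → Prop) (e : ℕ) (hs : P.Shape)
    (hz : P.Size e) : DSV (P.gr act) := by
  intro H0 hc
  obtain ⟨F, Q⟩ := hFront P act hs
  obtain ⟨_, _, c0, c1, _⟩ := hCard P hs
  have len1 : (Uk P.lay P.k1).card + 3 ≤ P.k1 := by have := hz.len1; omega
  have len0 : (Uk P.lay P.k0).card + P.k1 + 6 ≤ P.k0 := by have := hz.len0; omega
  have hP := (hConn P act hs).1
  have hlt := hs.lt
  have v0 : P.valid 0 0 :=
    ⟨by unfold Par.L; omega, Or.inl ⟨rfl, by have := hs.tw; omega⟩⟩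
  have h0 := phase0 hTw F (P.lay_vx v0) (hKer P act hs) hc
  obtain ⟨HA, hA⟩ := phaseA hTop F h0 P.k1 le_rfl
  have hB := phaseB hOne hForce hRel hEdge F Q hP len1 ⟨HA, hA.1, hA.2.1⟩ (P.k0 - P.k1) (by omega)
  rw [show P.k1 + (P.k0 - P.k1) = P.k0 by omega] at hB
  have hS := phaseS hOne hTwo F Q len1 len0 hB
  have hO : ∀ k, P.k0 ≤ k → OnePair P.lay (P.gr act) k := fun k hk => by
    refine ⟨P.vx k 0, P.vx k 1, fun x x' hx hx' hne hc => ?_⟩
    have hkL : k < P.L := hx ▸ (P.valid_vx x).1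
    have h1 := (hCod P act hs k hk hkL).1 x x' hx hx' hne
    have h2 : ¬ (2 ≤ P.wire x ∨ 2 ≤ P.wire x') := fun h => hc (h1 h)
    have h3 : P.wire x ≠ P.wire x' := fun h => hne (P.vext (hx.trans hx'.symm) h)
    have e1 := P.vx_eq x
    have e2 := P.vx_eq x'
    rw [hx] at e1
    rw [hx'] at e2
    rcases (by omega : (P.wire x = 0 ∧ P.wire x' = 1) ∨ (P.wire x = 1 ∧ P.wire x' = 0)) with h | h
    · rw [h.1] at e1
      rw [h.2] at e2
      exact Or.inl ⟨e1.symm, e2.symm⟩
    · rw [h.1] at e1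
      rw [h.2] at e2
      exact Or.inr ⟨e1.symm, e2.symm⟩
  have hSe : ∀ k, P.k0 ≤ k → Seen P.lay (P.gr act) k := fun k hk => by
    by_cases hkL : k < P.L
    · exact (hEdg P act hs k hk hkL).2.2.2.2
    · intro y _ hy
      have := (P.valid_vx y).1
      omega
  obtain ⟨H, hg, ha, _⟩ := phaseC hDec hDat hRel hEdge F.layered
    (Q.a_lay P.k0 hlt (by omega)) (Q.b_lay P.k0 hlt (by omega)) hP hO hSe
    (hDecod P act e hs hz) hS P.L
  have hEq : H = P.gr act := by
    ext x y
    exact ha.1 x y (by have := (P.valid_vx x).1; omega)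
  exact hEq ▸ hg.2

theorem main_of (hDS : ∀ (P : Par) (act : ℕ → ℕ → ℕ → Prop) (e : ℕ), P.Shape → P.Size e →
      DSV (P.gr act)) (hCard : StCard) (hConn : StConn) (hPar : StPar) (hInj : StInj)
    (hCount : StCount) (hAsym : StAsym) :
    ∃ c : ℝ, 0 < c ∧ ∃ d0 n0 : ℕ, ∀ n ≥ n0, ∀ d ≥ d0,
      (d : ℝ) ≤ c * ((n : ℝ) / Real.log n) ^ ((1 : ℝ) / 3) →
      ∃ S : Finset (SimpleGraph (Fin n)), GoodFamily (d * n) S ∧
        Real.exp (c * d * n * Real.log ((n : ℝ) / ((d : ℝ) ^ 3 * Real.log n))) ≤ S.card := by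
  obtain ⟨c, hc, d0, n0, h7, h⟩ := hAsym
  refine ⟨c, hc, d0, n0, fun n hn d hd hdc => ?_⟩
  obtain ⟨h, h1, h2, h3⟩ := h n hn d hd hdc
  obtain ⟨P, e, hs, hz, hn', hh, htw, hb⟩ := hPar n h h1 h2
  obtain ⟨F, hF, hE⟩ := hInj P hs
  have hcV : Fintype.card P.VV = n := (hCard P hs).1.trans hn'
  have htw2 : P.tw ^ 2 ≤ n := by
    have e1 : P.tw ^ 2 ≤ (28 * h) ^ 2 := Nat.pow_le_pow_left (by omega) 2
    have e2 : h ^ 2 ≤ h ^ 3 := Nat.pow_le_pow_right h1 (by omega)
    have e3 : 1000000 * 1 * h ^ 3 ≤ 1000000 * (Nat.log 2 n + 1) * h ^ 3 :=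
      Nat.mul_le_mul_right _ (Nat.mul_le_mul_left _ (by omega))
    rw [mul_pow] at e1
    omega
  obtain ⟨S, hS, hcard⟩ := hCount P.VV
    {β : Finset (Fin (P.nb + 1) × Fin P.h × Fin P.h) // β.card = (d - 7) * n}
    (fun β => P.gr (F β.1)) n (d * n) hcV (hF.comp Subtype.val_injective)
    fun β => ⟨(hConn P _ hs).2.1, (hConn P _ hs).2.2, by
      have e1 := hE β.1
      rw [β.2, hcV] at e1
      have e2 : d * n = (d - 7) * n + 7 * n := by
        rw [← add_mul]
        congr 1
        omega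
      omega, hDS P _ e hs hz⟩
  refine ⟨S, hS, h3 _ _ hb ?_⟩
  rw [Fintype.card_finset_len] at hcard
  simp only [Fintype.card_prod, Fintype.card_fin] at hcard
  rw [hh] at hcard
  exact hcard

end Pool.Agent.P.MP_f57657_co.SX
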